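import Pool.Agent.KBQ.Sub
import Pool.Agent.KBQ.KY

/-!
# Brauer's inequality `k(B) ≤ |D|` for abelian defect groups of bounded rank

Let `B` be a `p`-block of a finite group `G` with an abelian defect group `D`. Let `b` be a block of
`C_G(D)` with `b^G = B`, let `T` be its inertial group in `N_G(D)` and `E = T / C_G(D)` the inertial
quotient of `B`. We prove that `k(B) ≤ |D|` if there is an element `u` of `D` with `|C_E(u)| ≤ e` and
`12 * e ≤ p + 1`. If `D` has rank at most `r` then such an element exists, by Jordan's theorem, when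
`p ≥ 12 * 25 ^ (r ^ 2)`. Hence

* if `D` has rank at most `r` then `k(B) ≤ |D|` for all primes `p ≥ 12 * 25 ^ (r ^ 2)`, and
  `k(B) ≤ c |D|` for all primes `p`, where `c = (12 * 25 ^ (r ^ 2)) ^ (r ^ 2)` depends only on `r`.

Every subgroup `D` of order `p ^ d`, `d` the defect of `B`, with a block `b` of `C_G(D)` such that
`b^G = B`, is a defect group of `B`, and every defect group has these properties.

Blocks are classes of irreducible complex characters whose central characters are congruent modulo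
a maximal ideal of the ring of algebraic integers over `p`; the defect `d` is the least number such
that the `p`-part of `|G|` divides `p^d χ(1)` for all characters of the block.

Two further forms, which are not part of the statement below (`KY_index` and `LnG_quot` in the
folder `Pool/Agent/KBQ`): `k(B) ≤ |D|` if `E` has an abelian subgroup of index at most `j` and
`12 * j ≤ p + 1`; and `k(B) ≤ |E| |D|` for all primes `p`.
-/

set_option autoImplicit false

namespace Pool.Agent.Variants.AbelianDefectKB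

open Pool.Agent.KB Pool.Agent.KBZ Pool.Agent.KBQ

/-- The main result: `B = block 𝔪 χ` is the block of the irreducible character `χ`, `b = block 𝔪 ζ`
is the block of `ζ ∈ Irr (C_G(D))`. -/
theorem result (G : Type) [Group G] [Finite G] (p : ℕ) (hp : p.Prime) (𝔪 : Ideal AInt)
    (h𝔪 : 𝔪.IsMaximal) (hp𝔪 : (p : AInt) ∈ 𝔪) (χ : G → ℂ) (hχ : χ ∈ Irr G)
    -- `D` is an abelian defect group of `B`, `b` is a block of its centralizer with `b^G = B`
    (D : Subgroup G) (hab : ∀ a ∈ D, ∀ b ∈ D, a * b = b * a)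
    (hD : Nat.card D = p ^ defect p (block 𝔪 χ))
    (ζ : Subgroup.centralizer (D : Set G) → ℂ) (hζ : ζ ∈ Irr (Subgroup.centralizer (D : Set G)))
    (hind : Induces 𝔪 (Subgroup.centralizer (D : Set G)) ζ χ) :
    (block 𝔪 χ).Finite ∧
    -- the centralizer of `u ∈ D` in the inertial quotient has order at most `e`
    (∀ u ∈ D, ∀ e : ℕ, Nat.card {g : G // g ∈ inertia 𝔪 D ζ ∧ g * u = u * g} ≤
        e * Nat.card (Subgroup.centralizer (D : Set G)) → 12 * e ≤ p + 1 →
      (block 𝔪 χ).ncard ≤ Nat.card D) ∧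
    -- `D` has rank at most `r`
    (∀ r : ℕ, Nat.card {x : D // x ^ p = 1} ≤ p ^ r →
      (12 * 25 ^ (r ^ 2) ≤ p → (block 𝔪 χ).ncard ≤ Nat.card D) ∧
      (block 𝔪 χ).ncard ≤ (12 * 25 ^ (r ^ 2)) ^ (r ^ 2) * Nat.card D) := by
  classical
  haveI : Fintype G := Fintype.ofFinite G
  haveI : Fintype (Subgroup.centralizer (D : Set G)) := Fintype.ofFinite _
  have hA := Sub_AbD p 𝔪 χ hχ D hab hD ζ hζ hind
  refine ⟨Pool.Agent.KBU.Gam_fin 𝔪 χ, ?_, ?_⟩
  · intro u hu e he hp8
    rw [hD]
    exact (KY_main p hp 𝔪 h𝔪 hp𝔪 χ hχ D _ ζ hA u hu e he hp8).2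
  · intro r hr
    refine ⟨fun hpr => ?_, KY_all p hp 𝔪 h𝔪 hp𝔪 χ hχ D _ ζ hA r hr⟩
    rw [hD]
    exact (KY_rank p hp 𝔪 h𝔪 hp𝔪 χ hχ D _ ζ hA r hr (by omega)).2

end Pool.Agent.Variants.AbelianDefectKB
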