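import Pool.Agent.MSf.FIN

/-!
# The characters of a block with abelian defect group and small inertial index

Let `B` be a `p`-block of a finite group `G` with an abelian defect group `D`. Let `b` be a block of
`C_G(D)` with `b^G = B`, `T` its inertial group in `N_G(D)`, `E = T / C_G(D)` the inertial quotient and
`e = |E|`. For `S ≤ D` let `b_S = b^{C_G(S)}`. Suppose that `e (e + 3) ≤ p`. Then the following hold.

* The number `l(S) = l(b_S)` depends only on `C_E(S)`, `l(1) = l(B)` and `l(S) ≤ |C_E(S)|`; in particular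
  `l(B) ≤ |E|`.
* `e k(B) = ∑ |E_θ| l(C_D(E_θ))`, the sum over the linear characters `θ` of `D`, where `E_θ` is the
  stabilizer of `θ` in `E`. (If `l(S) = |C_E(S)|` for all `S` then this is `k(B) = k(D ⋊ E)`.)
* There are `l(B)` irreducible characters `ψ_i` of `B` and nonzero integers `a_i` with `∑ a_i ^ 2 = e`
  such that the restrictions of the `ψ_i` to the `p`-regular elements are linearly independent, the
  restriction of every `φ ∈ Irr(B)` is an integral linear combination `∑ n_i ψ_i` of them with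
  `∑ n_i ^ 2 ≤ e`, and for all `u ∈ D` with `C_E(u) = 1` the generalized decomposition numbers of `ψ_i`
  at `u` are proportional to `a_i`.
* The number of the restrictions of the `φ ∈ Irr(B)` to the `p`-regular elements is at most `∑ |X|`, the
  sum over the subgroups `X` of `E`: it is bounded in terms of `e` only.

The proof (libraries `MSy`, `BlkS`, `MSf`) is character theoretic. The generalized decomposition numbers
of all blocks `b_S` form a system of lattices with scalar products; the characters of `B` whose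
generalized decomposition numbers at `u` depend only on the subgroup generated by `u` span a lattice
`M`, which is computed by induction over the subgroups of `D`, and all the other characters of `B` are
constructed from the lattices `M` of the blocks `b_S`, `S ≠ 1`, with the linear characters of `D`.
The classification of the finite simple groups is not used.
-/

set_option autoImplicit false

namespace Pool.Agent.Variants.AbelianDefectStructure

open Pool.Agent.KB Pool.Agent.KBZ Pool.Agent.KBQ Pool.Agent.MSf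

/-- The main result. `B = block 𝔪 χ` is the block of `χ ∈ Irr G`, `b = block 𝔪 ζ` is the block of
`ζ ∈ Irr (C_G(D))`. -/
theorem result (G : Type) [Group G] [Finite G] (p : ℕ) (hp : p.Prime)
    -- a maximal ideal over `p` of the ring of the algebraic integers
    (𝔪 : Ideal AInt) (h𝔪 : 𝔪.IsMaximal) (hp𝔪 : (p : AInt) ∈ 𝔪)
    (χ : G → ℂ) (hχ : χ ∈ Irr G)
    -- `D` is an abelian defect group of `B`, `b` is a block of its centralizer with `b^G = B`
    (D : Subgroup G) (hab : ∀ a ∈ D, ∀ b ∈ D, a * b = b * a)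
    (hD : Nat.card D = p ^ defect p (block 𝔪 χ))
    (ζ : Subgroup.centralizer (D : Set G) → ℂ)
    (hζ : ζ ∈ Irr (Subgroup.centralizer (D : Set G)))
    (hind : Induces 𝔪 (Subgroup.centralizer (D : Set G)) ζ χ)
    -- `e` is the inertial index
    (e : ℕ) (he : Nat.card (inertia 𝔪 D ζ) = e * Nat.card (Subgroup.centralizer (D : Set G)))
    (hep : e * (e + 3) ≤ p) :
    ∃ l : Subgroup G → ℕ,
      -- `l S = l(b_S)` for the block `b_S = b^{C_G(S)}` of `C_G(S)`, `S ≤ D`
      (∀ S ≤ D, (∃ φ, Loc 𝔪 D ζ S φ) ∧ ∀ φ, Loc 𝔪 D ζ S φ → ell p (block 𝔪 φ) = l S) ∧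
      l ⊥ = ell p (block 𝔪 χ) ∧
      -- it depends only on `C_E(S)`
      (∀ S ≤ D, ∀ S' ≤ D, stb 𝔪 D ζ S = stb 𝔪 D ζ S' → l S = l S') ∧
      -- `l(b_S) ≤ |C_E(S)|`
      (∀ S ≤ D, Nat.card (Subgroup.centralizer (D : Set G)) * l S ≤
        Nat.card (stb 𝔪 D ζ S)) ∧
      -- `e k(B) = ∑ |E_θ| l(C_D(E_θ))`
      Nat.card (inertia 𝔪 D ζ) * (block 𝔪 χ).ncard =
        ∑ᶠ θ : D →* ℂˣ, Nat.card (stc 𝔪 D ζ θ) *
          l (D ⊓ Subgroup.centralizer (stc 𝔪 D ζ θ)) ∧
      -- the characters `ψ_i` and the integers `a_i`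
      (∃ (ψ : Fin (ell p (block 𝔪 χ)) → (G → ℂ)) (a : Fin (ell p (block 𝔪 χ)) → ℤ),
        (∀ i, ψ i ∈ block 𝔪 χ) ∧ (∀ i, a i ≠ 0) ∧ ∑ i, a i ^ 2 = (e : ℤ) ∧
        LinearIndependent ℂ (fun i => preg p (ψ i)) ∧
        (∀ φ ∈ block 𝔪 χ, ∃ n : Fin (ell p (block 𝔪 χ)) → ℤ,
          preg p φ = ∑ i, n i • preg p (ψ i) ∧ ∑ i, n i ^ 2 ≤ (e : ℤ)) ∧
        ∀ u ∈ D, (∀ g ∈ inertia 𝔪 D ζ, g * u = u * g →
            g ∈ Subgroup.centralizer (D : Set G)) →
          ∀ w y : Subgroup.centralizer (Subgroup.zpowers u : Set G), (w : G) = u * y →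
            ¬ p ∣ orderOf (y : G) → ∀ i j,
              (a j : ℂ) * comp 𝔪 D ζ u (ψ i) w = a i * comp 𝔪 D ζ u (ψ j) w) ∧
      -- the number of the restrictions to the `p`-regular elements
      Nat.card (Subgroup.centralizer (D : Set G)) * (preg p '' block 𝔪 χ).ncard ≤
        ∑ᶠ X : {X : Subgroup G // Subgroup.centralizer (D : Set G) ≤ X ∧
          (X : Set G) ⊆ inertia 𝔪 D ζ}, Nat.card X.1 :=
  FIN_main G p hp 𝔪 h𝔪 hp𝔪 χ hχ D hab hD ζ hζ hind e he hep

end Pool.Agent.Variants.AbelianDefectStructure
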