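import Pool.Agent.Ucb.Main

/-!
# `k(B) ≤ k(c)` for all blocks with an abelian defect group and an abelian inertial quotient

Let `p` be an odd prime and `B` a `p`-block of a finite group `G` with an abelian defect group `D` and Brauer
correspondent `c` in `N_G(D)`. Suppose that the inertial quotient `T / C_G(D)` is abelian. There is no other
hypothesis: no condition on `p`, on the rank of `D` or on the order of the inertial quotient. Then `k(B) ≤ k(c)`, one
of the two inequalities of the equality `k(B) = k(c)` which is predicted by Broué's abelian defect group conjecture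
and by the Alperin-McKay conjecture.

The proof: `D` is generated by stable direct factors `P` (with a stable complement) on which `T` acts as a cyclic
group without fixed points on `P ∖ 1`. For every such `P` it is proved that `k(b_D^K) ≤ k(b_D^N)` for a group `K`
which contains `T` and `N = C_K(P) T`; these steps lead to a subgroup in which `D` is normal. The step uses the
isometries between the blocks `b_S` and `b_{SP}` for all `S ≤ D` with `C_E(S) ≤ C_E(P)`, which come from
`RelativeIsotypy` (library `Wat`), an induction lemma which constructs from them virtual characters of `B`, and a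
counting argument. The classification of the finite simple groups is not used.
-/

set_option autoImplicit false

namespace Pool.Agent.Variants.AbelianQuotientBound

open Pool.Agent.KB Pool.Agent.KBZ Pool.Agent.KBQ Pool.Agent.PIs

/-- `B = block 𝔪 χ` is the block of `χ ∈ Irr G`, `b = block 𝔪 ζ` is the block of `ζ ∈ Irr (C_G(D))`,
`T = inertia 𝔪 D ζ`, `c = block 𝔪 ψ`. -/
theorem result (G : Type) [Group G] [Finite G] (p : ℕ) (hp : p.Prime) (hp2 : p ≠ 2)
    -- a maximal ideal over `p` of the ring of the algebraic integers
    (𝔪 : Ideal AInt) (h𝔪 : 𝔪.IsMaximal) (hp𝔪 : (p : AInt) ∈ 𝔪)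
    (χ : G → ℂ) (hχ : χ ∈ Irr G)
    -- `D` is an abelian defect group of `B`, `b` is a block of its centralizer with `b^G = B`
    (D : Subgroup G) (hab : ∀ a ∈ D, ∀ b ∈ D, a * b = b * a)
    (hD : Nat.card D = p ^ defect p (block 𝔪 χ))
    (ζ : Subgroup.centralizer (D : Set G) → ℂ)
    (hζ : ζ ∈ Irr (Subgroup.centralizer (D : Set G)))
    (hind : Induces 𝔪 (Subgroup.centralizer (D : Set G)) ζ χ)
    -- the inertial quotient `T / C_G(D)` is abelian
    (hE : ∀ g ∈ inertia 𝔪 D ζ, ∀ h ∈ inertia 𝔪 D ζ,
      g * h * g⁻¹ * h⁻¹ ∈ Subgroup.centralizer (D : Set G))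
    -- `c` is the block of `ψ`
    (ψ : Subgroup.normalizer (D : Set G) → ℂ) (hψ : ψ ∈ Irr (Subgroup.normalizer (D : Set G)))
    (hψi : Induces 𝔪 ((Subgroup.centralizer (D : Set G)).subgroupOf
      (Subgroup.normalizer (D : Set G))) (fun y => ζ ⟨y.1.1, y.2⟩) ψ) :
    (block 𝔪 χ).ncard ≤ (block 𝔪 ψ).ncard :=
  Pool.Agent.Ucb.main_U G p hp hp2 𝔪 h𝔪 hp𝔪 χ hχ D hab hD ζ hζ hind hE ψ hψ hψi

end Pool.Agent.Variants.AbelianQuotientBound
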