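import Pool.Agent.UBlocks.KB2

/-!
# Brauer's k(B) conjecture: reduction to groups with exactly one proper nontrivial normal subgroup

Let `r` be an odd prime number, `V_n` the group of the symmetric `n × n` matrices over `F_r` with
zero diagonal and zero row sums, and `X_n` the semidirect product of `V_n` and the alternating
group `A_n`, which permutes the rows and the columns.  If `n ≥ 8` and `r` does not divide
`(n - 1) (n - 2)`, then `V_n` is an irreducible `A_n`-module and hence the only normal subgroup of
`X_n` other than `1` and `X_n` (`Pool.Agent.UBlocks.oneNormal_affAlt`).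

Let `k` be an algebraically closed field of characteristic `p ≠ r`.  We prove that Brauer's
inequality `k(B) ≤ |D|` (and more generally `k(B) ≤ |D|^α` with `α ≥ 1`) for all `p`-blocks of all
finite groups is equivalent to the asymptotic inequality `k(B) ≤ C(ε) |D|^(α + ε)` for the
`p`-blocks of those of the groups `X_n` which have exactly one normal subgroup other than `1` and
`X_n`; here `n` may be restricted to any infinite set of numbers `n` such that `r` does not divide
`(n - 1) (n - 2)`.  The same holds for the blocks with defect groups in any class of groups which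
is closed under subgroups, quotients and finite powers, such as the class of abelian groups.

The reason: for every finite group `G` and every `n ≥ 2 (|G| + 4)²` there is a linear character of
`V_n` whose stabiliser in `A_n` is isomorphic to `G` (it is given by a coloured graph), and hence
a full matrix algebra over `k G` is a direct factor of `k X_n`, compatibly with defect groups.
-/

set_option autoImplicit false

namespace Pool.Agent.Results.MP_a15589_al.AffineAlternating

open Pool.Agent.MP_a15589_al Pool.Agent.UBlocks

/-- The main result. -/
theorem result (p r : ℕ) (hp : p.Prime) (hr : r.Prime) (hr2 : r ≠ 2) (hpr : r ≠ p) (k : Type)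
    [Field k] [IsAlgClosed k] [CharP k p] (𝒩 : Set ℕ)
    (h𝒩 : ∀ m : ℕ, ∃ n ∈ 𝒩, m ≤ n ∧ ¬ r ∣ (n - 1) * (n - 2))
    (𝒟 : ∀ (H : Type) [Group H], Prop) (h𝒟 : ClosedClass 𝒟) (α : ℝ) (hα : 1 ≤ α) :
    WeakBound k (fun X _ => OneNormal X ∧ ∃ n ∈ 𝒩, Nonempty (X ≃* AffAlt r n)) 𝒟 α ↔
      StrongBound k 𝒟 α :=
  weak_iff_strong_aff p r hp hr hr2 hpr k 𝒩 h𝒩 𝒟 h𝒟 α hα

end Pool.Agent.Results.MP_a15589_al.AffineAlternating
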