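import Pool.Agent.C4f.Alg

/-!
# MP_782628_co: graphs defined over a prime field by a polynomial of bounded degree

Problem MP_782628_co (Erdős) asks whether `R(C₄, m) ≥ m ^ (2 - ε)` for infinitely many `m`. The known
`C₄`-free graphs with few independent vertices are defined over finite fields by an equation of bounded
degree. This file shows that no such family, of bounded degree and dimension over prime fields, gives the
exponent `2`: the independence number of a graph of the class is at least `n ^ (1/2 + δ)`.
-/

namespace Pool.Agent.Results.MP_782628_co.AlgebraicGraphs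

open Finset Pool.Agent.C4f

/-- For `d ≤ e + 1` and `k` there is `δ > 0` such that, for every large prime `p` and every polynomial `f` of
total degree at most `k` over `ZMod p` in `2d` variables, every graph whose vertices have different labels
`(x, y, z)` with `x ∈ (ZMod p)^d`, `y ∈ (ZMod p)^e`, `z ∈ ZMod p`, with at least `p ^ (d + e + 1 - δ)` vertices,
and with `z u + z v = f (x u, x v)` for all adjacent `u`, `v`, has an independent set of at least
`n ^ (1/2 + δ)` vertices, `n` the number of vertices. -/
theorem result (d e k : ℕ) (hde : d ≤ e + 1) :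
    ∃ δ : ℝ, 0 < δ ∧ ∃ p₀ : ℕ, ∀ (p : ℕ) [Fact p.Prime], p₀ ≤ p →
      ∀ f : MvPolynomial (Fin d ⊕ Fin d) (ZMod p), f.totalDegree ≤ k →
      ∀ (V : Type) [Fintype V] (G : SimpleGraph V) (x : V → Fin d → ZMod p) (y : V → Fin e → ZMod p)
        (z : V → ZMod p),
        Function.Injective (fun v => (x v, y v, z v)) →
        (p : ℝ) ^ ((d : ℝ) + e + 1 - δ) ≤ Fintype.card V →
        (∀ u v, G.Adj u v → z u + z v = MvPolynomial.eval (Sum.elim (x u) (x v)) f) →
        ∃ I : Finset V, G.IsIndepSet (I : Set V) ∧ (Fintype.card V : ℝ) ^ ((1 : ℝ) / 2 + δ) ≤ I.card := by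
  obtain ⟨δ, hδ, p₀, hp₀, h⟩ := params d e k hde
  refine ⟨δ, hδ, p₀, ?_⟩
  intro p _ hp f hf V _ G x y z hinj hV hG
  have hn : Fintype.card V ≤ p ^ (d + e + 1) := by
    have h1 := Fintype.card_le_of_injective _ hinj
    rw [Fintype.card_prod, Fintype.card_prod, Fintype.card_fun, Fintype.card_fun, ZMod.card, Fintype.card_fin,
      Fintype.card_fin] at h1
    refine h1.trans (le_of_eq ?_)
    rw [pow_add, pow_add, pow_one, mul_assoc]
  obtain ⟨Q, L, R, hRp, hQ, hQ1, hR, hV1, hV2, hI⟩ := h p hp (Fintype.card V) hV hn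
  obtain ⟨I, hI1, hI2⟩ := coreA p (by omega) d e k f hf G x y z hinj hG Q L R hRp hQ hQ1 hR hV1 hV2
  exact ⟨I, hI1, hI _ hI2⟩

end Pool.Agent.Results.MP_782628_co.AlgebraicGraphs
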