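import Mathlib
import Pool.Agent.MP_59bbdb_co.NumB

/-!
# The relaxed Tverberg equality in every dimension when `m - n` is small against `√m`

The construction is the one of `AllDimSuccessor`, with clusters of `m - 1` points and owners chosen
among `8 (2 r - 1)` points, `r = m - n`.  The colours are cut into `⌊m / r⌋` groups of `r` colours;
for the complement `I` of such a group, a cluster meeting all colours of `I` has at most
`2 (r - 1)` points whose colour is outside `I` or repeated, and this is what the first-moment
count can afford.
-/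

set_option autoImplicit false

open Pool.Agent.MP_59bbdb_co

namespace Pool.Agent.Variants.AllDimSmallGap

/-- For all `d ≥ 1` and `1 ≤ n < m` with `16 (m - n) ^ 2 (⌊log₂ m⌋ + 2) ≤ m`, some set of
`(m - 1) (d + 1)` points of `ℝ ^ d` has, for every split into `m` parts, some `n` parts whose
convex hulls share no common point. -/
theorem result : ∀ d m n : ℕ, 1 ≤ d → 1 ≤ n → n < m →
    16 * (m - n) ^ 2 * (Nat.log 2 m + 2) ≤ m →
    ∃ S : Finset (EuclideanSpace ℝ (Fin d)),
      S.card = (m - 1) * (d + 1) ∧
      ∀ f : EuclideanSpace ℝ (Fin d) → Fin m,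
        ∃ I : Finset (Fin m), I.card = n ∧
          (⋂ i ∈ I, convexHull ℝ {x : EuclideanSpace ℝ (Fin d) | x ∈ S ∧ f x = i}) = ∅ := by
  intro d m n hd hn hnm hb
  obtain ⟨r, rfl⟩ : ∃ r, m = n + r := ⟨m - n, by omega⟩
  have hr : n + r - n = r := by omega
  rw [hr] at hb
  exact configB d n r hd hn (by omega) hb

end Pool.Agent.Variants.AllDimSmallGap
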