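import Pool.Agent.MP_67227b_nt.Ah.AhFin

set_option autoImplicit false

open Filter Topology Set
open scoped Real

/-! # Rigidity of the Alternative Hypothesis

Assume the Riemann Hypothesis. Let `l` be a filter of heights tending to infinity (for example a
sequence `T_j → ∞`). If for every `lam < 1/2` there are only `o(T log T)` pairs of distinct zeros
(counted with multiplicity) up to height `T` with normalised difference in `[0, lam]`, along `l`, then
the normalised pair counts `N_2(T; [a, b]) / ((T/2π) log T)` converge along `l` to the pair measure of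
the Alternative Hypothesis, which has the mass `1/2 - (1 - (-1)^k)/(π² k²)` at `k/2`, `k ≠ 0`
(`ahMass`), and no other mass; and conversely. Then, moreover, at every level the normalised
tuple counts of all boxes with a side containing no half-integer tend to zero. The second statement
is the form for single heights `T`. -/

namespace Pool.Agent.Variants.AlternativeRigidity

open Pool.Agent.MP_67227b_nt Pool.Agent.MP_67227b_nt.Ah

theorem result (hRH : RiemannHypothesis) :
    (∀ l : Filter ℝ, l ≤ atTop →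
      ((∀ lam : ℝ, lam < 1 / 2 →
          Tendsto (fun T : ℝ => (pairCount T 0 lam : ℝ) / zeroScale T) l (𝓝 0)) ↔
        ∀ a b : ℝ, a ≤ b → (∀ k : ℤ, (k : ℝ) / 2 ≠ a) → (∀ k : ℤ, (k : ℝ) / 2 ≠ b) →
          Tendsto (fun T : ℝ => (pairCount T a b : ℝ) / zeroScale T) l
            (𝓝 (∑ k ∈ Finset.Icc ⌈2 * a⌉ ⌊2 * b⌋, ahMass k))) ∧
      ((∀ lam : ℝ, lam < 1 / 2 →
          Tendsto (fun T : ℝ => (pairCount T 0 lam : ℝ) / zeroScale T) l (𝓝 0)) →
        ∀ (m : ℕ) (a b : Fin m → ℝ), (∃ i, ∀ k : ℤ, (k : ℝ) / 2 ∉ Icc (a i) (b i)) →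
          Tendsto (fun T : ℝ => (tupleCount zetaOrdinate m T a b : ℝ) / zeroScale T) l (𝓝 0))) ∧
    (∀ a b ε : ℝ, a ≤ b → (∀ k : ℤ, (k : ℝ) / 2 ≠ a) → (∀ k : ℤ, (k : ℝ) / 2 ≠ b) → 0 < ε →
      ∃ δ : ℝ, 0 < δ ∧ ∀ᶠ T : ℝ in atTop,
        (pairCount T 0 (1 / 2 - δ) : ℝ) ≤ δ * zeroScale T →
        |(pairCount T a b : ℝ) / zeroScale T -
          ∑ k ∈ Finset.Icc ⌈2 * a⌉ ⌊2 * b⌋, ahMass k| ≤ ε) := by
  refine ⟨fun l hl => ⟨⟨fun h a b hab ha hb => pair_limit hRH hl h hab ha hb,
    fun h => noSmall_of hl h⟩, fun h m a b hi => ?_⟩,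
    fun a b ε hab ha hb hε => dichotomy hRH hab ha hb hε⟩
  obtain ⟨i, hi⟩ := hi
  exact level_small hRH hl h i hi

end Pool.Agent.Variants.AlternativeRigidity
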