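import Pool.Agent.Bs2.Fin

/-!
# A finite basis for the Borel functions which are not of Baire class two

The problem asks whether for every countable ordinal `α ≥ 2` the functions between zero-dimensional Polish spaces
which are not of Baire class `α` have a finite basis for embeddability.  We prove it for `α = 2`: the Borel
functions which are not of Baire class `2` have a basis with at most `18` elements.

The definitions (`Pool.Agent.Bs2.BaireClass`, `Pool.Agent.Bs2.BorelFn`, `Pool.Agent.Bs2.BorelFn.Emb`) are in
`Pool/Agent/Bs2/Stmt.lean`.
-/

set_option autoImplicit false

namespace Pool.Agent.Results.MP_a23db6_lc.BaireClassTwo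

open Pool.Agent.Bs2

/-- There are `n ≤ 18` Borel functions `B i` between zero-dimensional Polish spaces, not of Baire class `2`, such that
a Borel function `F` between zero-dimensional Polish spaces is not of Baire class `2` if and only if one of the
`B i` embeds in `F`. -/
theorem result : ∃ n ≤ 18, ∃ B : Fin n → BorelFn, (∀ i, ¬ BaireClass 2 (B i).f) ∧
    ∀ F : BorelFn, ¬ BaireClass 2 F.f ↔ ∃ i, (B i).Emb F :=
  main

end Pool.Agent.Results.MP_a23db6_lc.BaireClassTwo
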