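import Pool.Agent.SawFold.Final

/-! Lower bound for the mean-square displacement of self-avoiding walks on `ℤ^d`, `d ≥ 3`, with an
exponent greater than `4 / (3 d)`. -/

namespace Pool.Agent.Variants.BeyondMadras

open Pool.Agent.SawFold

/-- Two points of `ℤ^d` are neighbours if their difference is plus or minus a standard unit
vector. -/
def Nbr {d : ℕ} (u v : Fin d → ℤ) : Prop :=
  ∃ i : Fin d, v - u = Pi.single i 1 ∨ v - u = - Pi.single i 1

/-- The self-avoiding walks `(ω 0, …, ω N)` of length `N` in `ℤ^d` with `ω 0 = 0`. -/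
def SAW (d N : ℕ) : Set (Fin (N + 1) → (Fin d → ℤ)) :=
  {ω | ω 0 = 0 ∧ (∀ j : Fin N, Nbr (ω j.castSucc) (ω j.succ)) ∧ Function.Injective ω}

/-- The mean-square displacement `⟨|ω(N)|²⟩` in `ℤ^d`. -/
noncomputable def msd (d N : ℕ) : ℝ :=
  (∑ᶠ ω ∈ SAW d N, ∑ i : Fin d, ((ω (Fin.last N) i : ℤ) : ℝ) ^ 2) / ((SAW d N).ncard : ℝ)

/-- the path of a word -/
def path {d : ℕ} [NeZero d] (N : ℕ) (w : Word d) : Fin (N + 1) → (Fin d → ℤ) :=
  fun j => D (w.take j)

theorem vec_inj {d : ℕ} [NeZero d] : Function.Injective (vec : Stp d → Pt d) := by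
  rintro ⟨i, b⟩ ⟨j, b'⟩ h
  have h1 := congrFun h i
  by_cases hij : i = j
  · subst hij
    cases b <;> cases b' <;> simp [vec] at h1 ⊢
  · cases b <;> cases b' <;> simp [vec, hij] at h1

theorem nbr_iff {d : ℕ} [NeZero d] {u v : Fin d → ℤ} : Nbr u v ↔ ∃ s : Stp d, vec s = v - u := by
  constructor
  · rintro ⟨i, h | h⟩
    · exact ⟨(i, true), by rw [h]; simp [vec]⟩
    · exact ⟨(i, false), by rw [h]; simp [vec, Pi.single_neg]⟩
  · rintro ⟨⟨i, b⟩, h⟩
    refine ⟨i, ?_⟩
    rw [← h]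
    cases b <;> simp [vec, Pi.single_neg]

theorem mem_saF {d : ℕ} [NeZero d] {N : ℕ} {w : Word d} : w ∈ saF d N ↔ w.length = N ∧ SA w := by
  classical
  unfold saF wordsN
  rw [Finset.mem_filter, Finset.mem_image]
  constructor
  · rintro ⟨⟨f, _, rfl⟩, h⟩
    exact ⟨by simp, h⟩
  · rintro ⟨h, h'⟩
    subst h
    exact ⟨⟨fun i => w.get i, Finset.mem_univ _, by simp⟩, h'⟩

theorem D_take_succ {d : ℕ} [NeZero d] {w : Word d} {j : ℕ} (hj : j < w.length) :
    D (w.take (j + 1)) = D (w.take j) + vec w[j] := by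
  rw [List.take_add_one, List.getElem?_eq_getElem hj, D_append]
  simp [D]

theorem path_mem {d N : ℕ} [NeZero d] {w : Word d} (hw : w ∈ saF d N) : path N w ∈ SAW d N := by
  obtain ⟨hl, hs⟩ := mem_saF.1 hw
  refine ⟨?_, ?_, ?_⟩
  · simp [path]
  · intro j
    rw [nbr_iff]
    have hj : (j : ℕ) < w.length := by rw [hl]; exact j.2
    refine ⟨w[(j : ℕ)], ?_⟩
    simp only [path, Fin.val_succ, Fin.val_castSucc]
    rw [D_take_succ hj]
    abel
  · intro i j hij
    simp only [path] at hij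
    have hi : (i : ℕ) ≤ w.length := by rw [hl]; exact Nat.lt_succ_iff.1 i.2
    have hj : (j : ℕ) ≤ w.length := by rw [hl]; exact Nat.lt_succ_iff.1 j.2
    exact Fin.ext (hs i j hi hj hij)

theorem path_inj {d N : ℕ} [NeZero d] {w w' : Word d} (hw : w ∈ saF d N) (hw' : w' ∈ saF d N)
    (h : path N w = path N w') : w = w' := by
  obtain ⟨hl, _⟩ := mem_saF.1 hw
  obtain ⟨hl', _⟩ := mem_saF.1 hw'
  have hp : ∀ j ≤ N, D (w.take j) = D (w'.take j) := by
    intro j hj
    have := congrFun h ⟨j, Nat.lt_succ_iff.2 hj⟩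
    simpa [path] using this
  apply List.ext_getElem (by rw [hl, hl'])
  intro j h1 h2
  apply vec_inj
  have h3 := hp (j + 1) (by omega)
  rw [D_take_succ h1, D_take_succ h2, hp j (by omega)] at h3
  exact add_left_cancel h3

theorem path_surj {d N : ℕ} [NeZero d] {ω : Fin (N + 1) → (Fin d → ℤ)} (hω : ω ∈ SAW d N) :
    ∃ w ∈ saF d N, path N w = ω := by
  obtain ⟨h0, h1, h2⟩ := hω
  have h3 : ∀ j : Fin N, ∃ s : Stp d, vec s = ω j.succ - ω j.castSucc := fun j =>
    nbr_iff.1 (h1 j)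
  choose s hs using h3
  have hlen : (List.ofFn s).length = N := by simp
  have hp : ∀ j, ∀ hj : j ≤ N, D ((List.ofFn s).take j) = ω ⟨j, Nat.lt_succ_iff.2 hj⟩ := by
    intro j
    induction j with
    | zero =>
      intro _
      rw [List.take_zero, D_nil]
      exact h0.symm
    | succ j ih =>
      intro hj
      have hjN : j < N := by omega
      have hjl : j < (List.ofFn s).length := by rw [hlen]; exact hjN
      rw [D_take_succ hjl, ih (by omega)]
      have h4 : (List.ofFn s)[j] = s ⟨j, hjN⟩ := by simp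
      rw [h4, hs ⟨j, hjN⟩]
      simp only [Fin.succ_mk, Fin.castSucc_mk]
      abel
  refine ⟨List.ofFn s, ?_, ?_⟩
  · rw [mem_saF]
    refine ⟨hlen, ?_⟩
    intro i j hi hj heq
    rw [hlen] at hi hj
    rw [hp i hi, hp j hj] at heq
    have h4 := h2 heq
    rw [Fin.mk.injEq] at h4
    exact h4
  · funext j
    exact hp j (Nat.lt_succ_iff.1 j.2)

theorem SAW_eq (d N : ℕ) [NeZero d] :
    SAW d N = (((saF d N).image (path N) : Finset _) : Set (Fin (N + 1) → (Fin d → ℤ))) := by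
  ext ω
  rw [Finset.coe_image]
  constructor
  · intro h
    obtain ⟨w, hw, hw'⟩ := path_surj h
    exact ⟨w, hw, hw'⟩
  · rintro ⟨w, hw, rfl⟩
    exact path_mem hw

theorem msd_eq (d N : ℕ) [NeZero d] : msd d N =
    (∑ w ∈ saF d N, ∑ i : Fin d, ((D w i : ℤ) : ℝ) ^ 2) / ((saF d N).card : ℝ) := by
  unfold msd
  rw [SAW_eq, finsum_mem_coe_finset, Set.ncard_coe_finset]
  have hinj : Set.InjOn (path N) (saF d N : Set (Word d)) :=
    fun w hw w' hw' h => path_inj hw hw' h
  rw [Finset.sum_image hinj, Finset.card_image_of_injOn hinj]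
  congr 1
  refine Finset.sum_congr rfl ?_
  intro w hw
  obtain ⟨hl, _⟩ := mem_saF.1 hw
  have h : path N w (Fin.last N) = D w := by
    simp only [path, Fin.val_last]
    rw [← hl, List.take_length]
  rw [h]

/-- For every `d ≥ 3` there are `c > 0` and `C > 0` such that the mean-square displacement of the
self-avoiding walk of length `N ≥ 1` in `ℤ^d` is at least `C * N ^ (4 / (3 d) + c)`. -/
theorem result : ∀ d : ℕ, 3 ≤ d → ∃ c > (0 : ℝ), ∃ C > (0 : ℝ), ∀ N : ℕ, 1 ≤ N →
    C * (N : ℝ) ^ (4 / (3 * d) + c : ℝ) ≤ msd d N := by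
  intro d hd
  have : NeZero d := ⟨by omega⟩
  obtain ⟨c, hc, C, hC, h⟩ := msd_words d hd
  refine ⟨c, hc, C, hC, ?_⟩
  intro N hN
  have hcard : (0 : ℝ) < ((saF d N).card : ℝ) := by
    have : 0 < (saF d N).card := Finset.card_pos.2 ⟨_, FinalAux.straight_mem d N⟩
    exact_mod_cast this
  rw [msd_eq, le_div_iff₀ hcard]
  exact h N hN

end Pool.Agent.Variants.BeyondMadras
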