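import Pool.Agent.Ef.TM
import Pool.Agent.SWz.Main

/-!
# MP_13664e_an: Moebius disjointness for bijective constant-length S-adic subshifts

`A` is a finite alphabet, `lam k ≥ 2` are arbitrary lengths and `π k v` arbitrary permutations of `A`.
The words `W_k(a)` are `W_0(a) = a`, `W_{k+1}(a) = W_k(π_{k,0} a) W_k(π_{k,1} a) …
W_k(π_{k,lam k - 1} a)`, of length `L_k = lam 0 ⋯ lam (k-1)`. Suppose (`Mix`) that
`(1/L_k) ∑_{r < L_k} (1[W_k(a)_r = b] - 1/|A|) z^r → 0` for all letters `a`, `b` and all `|z| = 1`. Let `Y` be a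
closed shift invariant set of two-sided sequences each of which is, for every `k`, a concatenation
of words `W_k(a)`. Then the shift on `Y` has bounded topological sequence entropy and
`(1/N) ∑_{n ≤ N} g (T^n x) μ(n) → 0` for ALL `x ∈ Y` and all continuous `g : Y → ℂ`.
-/

set_option autoImplicit false

namespace Pool.Agent.Results.MP_13664e_an.BijectiveSadic

open MeasureTheory Filter Topology Pool.Agent.Sar Pool.Agent.Ef

theorem result {A : Type*} [Fintype A] [TopologicalSpace A] [DiscreteTopology A] (lam : ℕ → ℕ)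
    (hlam : ∀ i, 2 ≤ lam i) (π : ℕ → ℕ → Equiv.Perm A) (hM : Mix lam π) (Y : Set (ℤ → A))
    (hYc : IsClosed Y) (hYs : ∀ x, x ∈ Y ↔ (fun n => x (n + 1)) ∈ Y)
    (hY : ∀ x ∈ Y, ∀ k, ∃ ρ : ℤ, ∀ i : ℤ, ∃ a, ∀ r < Lp lam k,
      x (ρ + i * Lp lam k + r) = Wd lam π k a r)
    (T : Y → Y) (hT : ∀ (x : Y) (n : ℤ), (T x).1 n = x.1 (n + 1)) :
    BddSeqEnt T ∧ ∀ (g : C(Y, ℂ)) (x : Y),
      Tendsto (fun N : ℕ => (N : ℂ)⁻¹ * ∑ n ∈ Finset.Icc 1 N,
        g (T^[n] x) * ((ArithmeticFunction.moebius n : ℤ) : ℂ)) atTop (𝓝 0) :=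
  TM Pool.Agent.SWz.swlam Pool.Agent.SWz.swmu hlam hM hYc hYs hY T hT

end Pool.Agent.Results.MP_13664e_an.BijectiveSadic
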