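import Pool.Agent.GenB.Final

/-!
For every `ε > 0` an explicit set of at most `p ^ ε` residues modulo `p` such that every nonzero
residue is a product of at most `12 / ε` of its elements.
-/

set_option autoImplicit false

namespace Pool.Agent.Variants.BoundedGeneration

open Finset Pool.Agent.GenF

/-- Let `0 < ε ≤ 1`. There are `k`, `N ≤ 12 / ε` and `D` such that every prime `p` has
`d 1, …, d k ≤ D`, independent modulo squares, which are squares modulo `p`, and for every `D'`,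
every large prime `p`, all `d 1, …, d k ≤ D'`, independent modulo squares, and all square roots
`r j` of `d j` modulo `p`, the set `S` of the nonzero residues `∑ J, a J * ∏ j ∈ J, r j` with
integers `|a J| ≤ p ^ (ε / 2 ^ k) / 3` has at most `p ^ ε` elements, and every nonzero residue is a
product of `N` elements of `S`; in particular `S` generates the multiplicative group and contains,
for every prime `q` dividing `p - 1`, an element which is not a `q`-th power. -/
theorem bounded_generation (ε : ℝ) (h0 : 0 < ε) (h1 : ε ≤ 1) : ∃ k N D : ℕ, (N : ℝ) ≤ 12 / ε ∧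
    (∀ (p : ℕ) [Fact p.Prime], ∃ d : Fin k → ℕ, (∀ j, d j ≤ D) ∧ Indep k d ∧
      ∃ r : Fin k → ZMod p, ∀ j, r j ^ 2 = (d j : ZMod p)) ∧
    ∀ D' : ℕ, ∃ p0 : ℕ, ∀ (p : ℕ) [Fact p.Prime], p0 ≤ p →
      ∀ d : Fin k → ℕ, (∀ j, d j ≤ D') → Indep k d →
      ∀ r : Fin k → ZMod p, (∀ j, r j ^ 2 = (d j : ZMod p)) →
        ∀ S : Set (ZMod p)ˣ, S = small p k r ⌊(p : ℝ) ^ (ε / 2 ^ k) / 3⌋₊ →
          (S.ncard : ℝ) ≤ (p : ℝ) ^ ε ∧
          (∀ g : (ZMod p)ˣ, ∃ s : Fin N → (ZMod p)ˣ, (∀ i, s i ∈ S) ∧ ∏ i, s i = g) ∧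
          Subgroup.closure S = ⊤ ∧
          ∀ q : ℕ, q.Prime → q ∣ p - 1 → ∃ u ∈ S, ∀ v : (ZMod p)ˣ, v ^ q ≠ u := by
  classical
  obtain ⟨k, N, hN, h⟩ := Pool.Agent.GenB.main' h0 h1
  obtain ⟨D, hD⟩ := Pool.Agent.GenB.exists_dr k
  refine ⟨k, N, D, hN, fun p hp => hD p, fun D' => ?_⟩
  obtain ⟨p0, hp0⟩ := h D'
  refine ⟨p0, fun p hp hpp d hd1 hd2 r hr S hS => ?_⟩
  obtain ⟨h2, h3⟩ := hp0 p hpp d hd1 hd2 r hr
  have h4 : ∀ g : (ZMod p)ˣ, ∃ s : Fin N → (ZMod p)ˣ, (∀ i, s i ∈ S) ∧ ∏ i, s i = g := by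
    rw [hS]
    exact h3 _ le_rfl
  refine ⟨by rw [hS]; exact h2, h4, ?_, ?_⟩
  · rw [eq_top_iff]
    intro g _
    obtain ⟨s, hs1, hs2⟩ := h4 g
    rw [← hs2]
    exact Subgroup.prod_mem _ fun i _ => Subgroup.subset_closure (hs1 i)
  · intro q hq hqp
    by_contra hcon
    push Not at hcon
    have hall : ∀ g : (ZMod p)ˣ, ∃ v : (ZMod p)ˣ, v ^ q = g := by
      intro g
      obtain ⟨s, hs1, hs2⟩ := h4 g
      choose v hv using fun i => hcon (s i) (hs1 i)
      refine ⟨∏ i, v i, ?_⟩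
      rw [← hs2, ← Finset.prod_pow]
      exact Finset.prod_congr rfl fun i _ => hv i
    obtain ⟨g, hg⟩ := IsCyclic.exists_generator (α := (ZMod p)ˣ)
    obtain ⟨v, hv⟩ := hall g
    have hord : orderOf g = p - 1 := by
      rw [orderOf_eq_card_of_forall_mem_zpowers hg, Nat.card_eq_fintype_card, ZMod.card_units]
    have hp1 : 0 < p - 1 := by
      have := hp.out.two_le
      omega
    obtain ⟨m, hm⟩ := hqp
    have hm0 : 0 < m := by
      rcases Nat.eq_zero_or_pos m with h0 | h0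
      · rw [h0, mul_zero] at hm
        omega
      · exact h0
    have h5 : g ^ m = 1 := by
      rw [← hv, ← pow_mul, ← hm]
      exact ZMod.units_pow_card_sub_one_eq_one p v
    have h6 : p - 1 ∣ m := by
      rw [← hord]
      exact orderOf_dvd_of_pow_eq_one h5
    have h7 := Nat.le_of_dvd hm0 h6
    have h8 := hq.two_le
    nlinarith

end Pool.Agent.Variants.BoundedGeneration
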