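import Pool.Agent.MP_18a8a6_lc.FixedCand
import Pool.Agent.MP_18a8a6_lc.Generate
import Pool.Agent.MP_18a8a6_lc.Count

/-!
Finitely many fixed integers of large order modulo almost all primes, and lists of bounded length
of candidates for primitive roots.
-/

set_option autoImplicit false

namespace Pool.Agent.Results.MP_18a8a6_lc.BoundedList

open Finset Pool.Agent.PrimRoot

/-- The integer `2^{v_0} 3^{v_1} 5^{v_2} ⋯` (the first `K` primes, exponents less than `M`). -/
noncomputable def fixedInt {K M : ℕ} (v : Fin K → Fin M) : ℕ :=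
  ∏ i : Fin K, Nat.nth Nat.Prime i ^ (v i : ℕ)

/-- The candidate built on the fixed integer `a`: for each prime factor `q ≤ R` of `p - 1` an index
`ι q` is given; it is `∏_{q ≤ R, q ∣ p-1} (ι q)^((p-1)/q^{v_q(p-1)}) * a^s` modulo `p`, where `s` is
the `R`-smooth part of `p - 1`. -/
noncomputable def cand (p : ℕ) [Fact p.Prime] (R : ℕ) (ι : ℕ → ℕ) (a : ℕ) : (ZMod p)ˣ :=
  uElt (res p) R (p - 1) ι * res p a ^ smoothPart R (p - 1)

/-- The index of `⟨g⟩` is less than `p ^ ε`, all its prime factors exceed `R`, and `g` is a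
primitive root if `p - 1` has no prime factor `q` with `R < q < p ^ ε`. -/
def Good (p : ℕ) [Fact p.Prime] (R : ℕ) (ε : ℝ) (g : (ZMod p)ˣ) : Prop :=
  ((Subgroup.zpowers g).index : ℝ) < (p : ℝ) ^ ε ∧
    (∀ q : ℕ, q.Prime → q ∣ (Subgroup.zpowers g).index → R < q) ∧
    ((∀ q : ℕ, q.Prime → q ∣ p - 1 → R < q → (p : ℝ) ^ ε ≤ q) → orderOf g = p - 1)

theorem card_units (p : ℕ) [Fact p.Prime] : Nat.card (ZMod p)ˣ = p - 1 := by
  rw [Nat.card_eq_fintype_card, ZMod.card_units]

/-- A fixed integer of large order gives a good candidate. -/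
theorem good_cand {p B R : ℕ} [Fact p.Prime] {ι : ℕ → ℕ} (hadm : Adm (res p) B R (p - 1) ι)
    (hgen : genSub (res p) B = ⊤) {ε : ℝ} {a : ℕ} (ha : ¬ p ∣ a)
    (hord : ((p - 1 : ℕ) : ℝ) < (p : ℝ) ^ ε * orderOf (a : ZMod p)) :
    Good p R ε (cand p R ι a) := by
  have hcyc : IsCyclic (ZMod p)ˣ := inferInstance
  have hp : p.Prime := Fact.out
  have hN := card_units p
  have hp1 : p - 1 ≠ 0 := by have := hp.two_le; omega
  have hu : orderOf (uElt (res p) R (Nat.card (ZMod p)ˣ) ι) =
      smoothPart R (Nat.card (ZMod p)ˣ) := orderOf_uElt (res p) B R (by rw [hN]; exact hadm) hgen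
  obtain ⟨h1, h2⟩ := orderOf_cand' R (w := res p a) hu
  rw [hN] at h1 h2
  change smoothPart R (p - 1) ∣ orderOf (cand p R ι a) at h1
  change orderOf (res p a) ≤ orderOf (cand p R ι a) at h2
  rw [orderOf_res ha] at h2
  set g := cand p R ι a with hg
  have hi : orderOf g * (Subgroup.zpowers g).index = p - 1 := by
    rw [← Nat.card_zpowers, Subgroup.card_mul_index, hN]
  have hpε : (0 : ℝ) < (p : ℝ) ^ ε := by
    apply Real.rpow_pos_of_pos
    exact_mod_cast hp.pos
  have hog : (0 : ℝ) < orderOf g := by exact_mod_cast orderOf_pos g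
  have hidx : ((Subgroup.zpowers g).index : ℝ) < (p : ℝ) ^ ε := by
    have h3 : (orderOf g : ℝ) * (Subgroup.zpowers g).index < orderOf g * (p : ℝ) ^ ε := by
      calc (orderOf g : ℝ) * (Subgroup.zpowers g).index = ((p - 1 : ℕ) : ℝ) := by
            rw [← hi]; push_cast; rfl
        _ < (p : ℝ) ^ ε * orderOf (a : ZMod p) := hord
        _ ≤ (p : ℝ) ^ ε * orderOf g := by
            apply mul_le_mul_of_nonneg_left _ hpε.le
            exact_mod_cast h2
        _ = orderOf g * (p : ℝ) ^ ε := by ring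
    exact lt_of_mul_lt_mul_left h3 hog.le
  have hrough : ∀ q : ℕ, q.Prime → q ∣ (Subgroup.zpowers g).index → R < q := by
    intro q hq hqi
    by_contra hqR
    push Not at hqR
    have h4 : smoothPart R (p - 1) * q ∣ p - 1 := by
      conv_rhs => rw [← hi]
      exact Nat.mul_dvd_mul h1 hqi
    apply not_dvd_div_smoothPart hp1 hq hqR
    exact (Nat.dvd_div_iff_mul_dvd (smoothPart_dvd _ _ hp1)).2 h4
  refine ⟨hidx, hrough, fun hno => ?_⟩
  have hi0 : (Subgroup.zpowers g).index ≠ 0 := by
    intro h0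
    rw [h0, mul_zero] at hi
    exact hp1 hi.symm
  have hi1 : (Subgroup.zpowers g).index = 1 := by
    by_contra hne
    obtain ⟨q, hq, hqi⟩ := Nat.exists_prime_and_dvd hne
    have h5 := hrough q hq hqi
    have h6 := hno q hq (hqi.trans (Dvd.intro_left _ hi)) h5
    have h7 : (q : ℝ) ≤ (Subgroup.zpowers g).index := by
      exact_mod_cast Nat.le_of_dvd (Nat.pos_of_ne_zero hi0) hqi
    linarith
  rw [hi1, mul_one] at hi
  exact hi

/-- There is a constant `A` such that for all `0 < ε ≤ 1`, `η > 0` and all integers `K ≥ 13 / ε`,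
`M ≥ 50 / (ε η)` the following holds for the `M ^ K` integers `a_v = 2^{v_0} 3^{v_1} 5^{v_2} ⋯`,
`v : Fin K → Fin M`.

(1) For every `y ≥ 1` all but `O(y ^ (1 + ε))` primes `p` are such that less than `η M ^ K` of
the `a_v` have order at most `y` modulo `p`.

(2) For all large `L`, for all but at most `2 ^ ((1 - ε/2) L)` of the primes `p` with exactly `L`
binary digits, and for all `R` and all admissible `ι` (there is one), less than `η M ^ K` of the
`v` are such that `cand p R ι a_v` is not good.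

(3) For every set `S` of primes there is one `v` such that for a set of `L` of upper density at
least `1 - √η`, with at most `√η #S_L + 2 ^ ((1 - ε/2) L)` exceptions, for the `p ∈ S` with exactly
`L` binary digits (`#S_L` is their number), `cand p R ι a_v` is good for all `R` and all
admissible `ι`. -/
theorem result : ∃ A : ℕ, ∀ (ε η : ℝ) (K M : ℕ), 0 < ε → ε ≤ 1 → 0 < η → 13 / ε ≤ K →
    50 / (ε * η) ≤ M →
    (∃ C : ℝ, ∀ y : ℝ, 1 ≤ y → ∃ S : Finset ℕ, (S.card : ℝ) ≤ C * y ^ (1 + ε) ∧
      ∀ p : ℕ, p.Prime → p ∉ S →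
        ((Set.ncard {v : Fin K → Fin M | (orderOf (fixedInt v : ZMod p) : ℝ) ≤ y} : ℕ) : ℝ) <
          η * (M : ℝ) ^ K) ∧
    (∃ L0 : ℕ, ∀ L : ℕ, L0 ≤ L → ∃ E : Finset ℕ,
      (E.card : ℝ) ≤ (2 : ℝ) ^ ((1 - ε / 2) * L) ∧
      ∀ (p : ℕ) [Fact p.Prime], Nat.log 2 p + 1 = L → p ∉ E → ∀ R : ℕ,
        (∃ ι : ℕ → ℕ, Adm (res p) (L ^ A) R (p - 1) ι) ∧
        ∀ ι : ℕ → ℕ, Adm (res p) (L ^ A) R (p - 1) ι →
          ((Set.ncard {v : Fin K → Fin M | ¬ Good p R ε (cand p R ι (fixedInt v))} : ℕ) : ℝ) <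
            η * (M : ℝ) ^ K) ∧
    ∀ S : Set ℕ, (∀ p ∈ S, p.Prime) → ∃ v : Fin K → Fin M, ∀ c : ℝ, c < 1 - √η →
      ∀ N0 : ℕ, ∃ N : ℕ, N0 ≤ N ∧ c * N ≤ (Set.ncard {L : ℕ | L < N ∧ ∃ E : Finset ℕ,
        (E.card : ℝ) ≤ √η * (Set.ncard {p : ℕ | p ∈ S ∧ Nat.log 2 p + 1 = L} : ℝ) +
          (2 : ℝ) ^ ((1 - ε / 2) * L) ∧
        ∀ (p : ℕ) [Fact p.Prime], p ∈ S → Nat.log 2 p + 1 = L → p ∉ E →
          ∀ (R : ℕ) (ι : ℕ → ℕ), Adm (res p) (L ^ A) R (p - 1) ι →
            Good p R ε (cand p R ι (fixedInt v))} : ℝ) := by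
  classical
  obtain ⟨A, L1, hA, hbad⟩ := few_bad 4 (by norm_num)
  refine ⟨A, fun ε η K M hε hε1 hη hK' hM' => ?_⟩
  have hK0 : (0 : ℝ) < K := lt_of_lt_of_le (by positivity) hK'
  have hK : 1 ≤ K := by exact_mod_cast hK0
  have hM0 : (0 : ℝ) < M := lt_of_lt_of_le (by positivity) hM'
  have hM : 1 ≤ M := by exact_mod_cast hM0
  obtain ⟨C, hC, hord⟩ := fixed_orders (ε := ε / 8) (η := η) (by positivity) hη (K := K) (M := M)
    (by
      have h1 : 3 / (2 * (ε / 8)) = 12 / ε := by field_simp; norm_num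
      have h2 : 13 / ε = 12 / ε + 1 / ε := by ring
      have h3 : 1 ≤ 1 / ε := by rw [le_div_iff₀ hε]; linarith
      rw [h1]
      linarith)
    (by
      refine le_trans ?_ hM'
      rw [div_le_div_iff₀ (by positivity) (by positivity)]
      nlinarith [mul_pos hε hη, mul_pos (mul_pos hε hη) hε])
  have hfix : ∀ v : Fin K → Fin M, fixedInt v = prodPr (fun i => (v i : ℕ)) := fun v => rfl
  -- growth: `2^(L/4) + C 2^((1 - 5ε/8) L) ≤ 2^((1 - ε/2) L)` for large `L`
  obtain ⟨n1, hn1⟩ := exists_nat_gt ((Real.log (1 + C) / Real.log 2) * (8 / ε))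
  have hgrow : ∀ L : ℕ, n1 ≤ L → (2 : ℝ) ^ ((L / 4 : ℕ) : ℝ) +
      C * (2 : ℝ) ^ ((1 - 5 * ε / 8) * L) ≤ (2 : ℝ) ^ ((1 - ε / 2) * L) := by
    intro L hL
    have hlog2 : 0 < Real.log 2 := Real.log_pos (by norm_num)
    have hLr : (n1 : ℝ) ≤ L := by exact_mod_cast hL
    have h1 : (2 : ℝ) ^ ((L / 4 : ℕ) : ℝ) ≤ (2 : ℝ) ^ ((1 - 5 * ε / 8) * L) := by
      apply Real.rpow_le_rpow_of_exponent_le (by norm_num)
      have h2 : ((L / 4 : ℕ) : ℝ) ≤ (L : ℝ) / 4 := by
        have := @Nat.cast_div_le ℝ _ _ _ L 4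
        push_cast at this
        exact this
      have h3 : (0 : ℝ) ≤ L := Nat.cast_nonneg _
      nlinarith
    have h4 : (1 + C) ≤ (2 : ℝ) ^ ((ε / 8) * L) := by
      rw [← Real.log_le_log_iff (by positivity) (by positivity), Real.log_rpow (by norm_num)]
      have h5 : Real.log (1 + C) / Real.log 2 * (8 / ε) < L := by linarith
      have h6 : Real.log (1 + C) < L * (ε / 8) * Real.log 2 := by
        have h7 := mul_lt_mul_of_pos_right h5 (by positivity : 0 < ε / 8 * Real.log 2)
        have h8 : Real.log (1 + C) / Real.log 2 * (8 / ε) * (ε / 8 * Real.log 2) =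
            Real.log (1 + C) := by field_simp
        rw [h8] at h7
        linarith
      linarith
    calc (2 : ℝ) ^ ((L / 4 : ℕ) : ℝ) + C * (2 : ℝ) ^ ((1 - 5 * ε / 8) * L)
        ≤ (1 + C) * (2 : ℝ) ^ ((1 - 5 * ε / 8) * L) := by linarith
      _ ≤ (2 : ℝ) ^ ((ε / 8) * L) * (2 : ℝ) ^ ((1 - 5 * ε / 8) * L) :=
          mul_le_mul_of_nonneg_right h4 (by positivity)
      _ = (2 : ℝ) ^ ((1 - ε / 2) * L) := by
          rw [← Real.rpow_add (by norm_num)]
          congr 1
          ring
  -- the exceptional set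
  have hmain : ∀ L : ℕ, max L1 n1 ≤ L → ∃ E : Finset ℕ,
      (E.card : ℝ) ≤ (2 : ℝ) ^ ((1 - ε / 2) * L) ∧
      ∀ (p : ℕ) [Fact p.Prime], Nat.log 2 p + 1 = L → p ∉ E →
        ((univ : Finset (Fin K → Fin M)).filter (fun v => ¬ ∀ (R : ℕ) (ι : ℕ → ℕ),
          Adm (res p) (L ^ A) R (p - 1) ι → Good p R ε (cand p R ι (fixedInt v)))).card <
          η * (M : ℝ) ^ K := by
    intro L hL
    obtain ⟨hL4, _, hfew⟩ := hbad L ((le_max_left _ _).trans hL)
    obtain ⟨y, hy⟩ : ∃ y : ℝ, y = (2 : ℝ) ^ ((1 - 3 * ε / 4) * L) := ⟨_, rfl⟩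
    have hLr : (4 : ℝ) ≤ L := by exact_mod_cast hL4
    have hy1 : 1 ≤ y := by
      rw [hy]
      apply Real.one_le_rpow (by norm_num)
      have : 0 ≤ 1 - 3 * ε / 4 := by linarith
      positivity
    obtain ⟨S, hS1, hS2⟩ := hord y hy1
    obtain ⟨P, hP⟩ : ∃ P, P = (Finset.Ico (2 ^ (L - 1)) (2 ^ L)).filter Nat.Prime := ⟨_, rfl⟩
    have hmemP : ∀ p : ℕ, p ∈ P ↔ (2 ^ (L - 1) ≤ p ∧ p < 2 ^ L) ∧ p.Prime := by
      intro p; rw [hP, Finset.mem_filter, Finset.mem_Ico]
    obtain ⟨E1, hE1⟩ : ∃ E1 : Finset ℕ, E1 = P.filter (fun p => ∀ _ : Fact p.Prime,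
      genSub (res p) (L ^ A) ≠ ⊤) := ⟨_, rfl⟩
    have hE1card : E1.card < 2 ^ (L / 4) := by
      apply hfew
      · intro p hp
        rw [hE1] at hp
        have := (hmemP p).1 (Finset.mem_filter.1 hp).1
        exact ⟨this.2, this.1.1, this.1.2⟩
      · intro p hp
        rw [hE1] at hp
        exact (Finset.mem_filter.1 hp).2
    refine ⟨E1 ∪ S, ?_, ?_⟩
    · calc ((E1 ∪ S).card : ℝ) ≤ (E1.card : ℝ) + S.card := by
            exact_mod_cast Finset.card_union_le _ _
        _ ≤ (2 : ℝ) ^ ((L / 4 : ℕ) : ℝ) + C * (2 : ℝ) ^ ((1 - 5 * ε / 8) * L) := by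
            apply add_le_add
            · rw [Real.rpow_natCast]
              exact_mod_cast hE1card.le
            · refine hS1.trans (mul_le_mul_of_nonneg_left ?_ hC.le)
              rw [hy, ← Real.rpow_mul (by norm_num)]
              apply Real.rpow_le_rpow_of_exponent_le (by norm_num)
              have : (1 - 3 * ε / 4) * (1 + ε / 8) ≤ 1 - 5 * ε / 8 := by nlinarith
              nlinarith
        _ ≤ (2 : ℝ) ^ ((1 - ε / 2) * L) := hgrow L ((le_max_right _ _).trans hL)
    · intro p hp hlog hpE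
      rw [mem_union, not_or] at hpE
      have hpl : 2 ^ (L - 1) ≤ p := by
        rw [← hlog, Nat.add_sub_cancel]
        exact Nat.pow_log_le_self 2 hp.out.ne_zero
      have hpu : p < 2 ^ L := by
        rw [← hlog]
        exact Nat.lt_pow_succ_log_self (by norm_num) p
      have hgen : genSub (res p) (L ^ A) = ⊤ := by
        by_contra hne
        apply hpE.1
        rw [hE1, Finset.mem_filter]
        refine ⟨(hmemP p).2 ⟨⟨hpl, hpu⟩, hp.out⟩, fun hp' => ?_⟩
        have : hp = hp' := Subsingleton.elim _ _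
        subst this
        exact hne
      obtain ⟨hpr, hcount⟩ := hS2 p hpE.2
      refine lt_of_le_of_lt ?_ hcount
      norm_cast
      apply Finset.card_le_card
      intro v hv
      rw [mem_filter] at hv ⊢
      refine ⟨mem_univ _, ?_⟩
      by_contra hcon
      push Not at hcon
      apply hv.2
      intro R ι hadm
      rw [hfix v]
      apply good_cand hadm hgen (not_dvd_prodPr hpr _)
      -- `p - 1 < 2^L ≤ p^ε y`
      have hp0 : (0 : ℝ) < p := by exact_mod_cast hp.out.pos
      have h1 : ((p - 1 : ℕ) : ℝ) < (2 : ℝ) ^ (L : ℝ) := by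
        rw [Real.rpow_natCast]
        have : p - 1 < 2 ^ L := by omega
        exact_mod_cast this
      have h2 : (2 : ℝ) ^ ((3 * ε / 4) * L) ≤ (p : ℝ) ^ ε := by
        have h3 : (2 : ℝ) ^ ((L : ℝ) - 1) ≤ p := by
          have h4 : ((2 : ℝ) ^ (L - 1 : ℕ)) ≤ p := by exact_mod_cast hpl
          have h5 : ((L - 1 : ℕ) : ℝ) = (L : ℝ) - 1 := by
            rw [Nat.cast_sub (by omega)]; simp
          rw [← h5, Real.rpow_natCast]
          exact h4
        calc (2 : ℝ) ^ ((3 * ε / 4) * L) ≤ (2 : ℝ) ^ (((L : ℝ) - 1) * ε) := by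
              apply Real.rpow_le_rpow_of_exponent_le (by norm_num)
              nlinarith
          _ = ((2 : ℝ) ^ ((L : ℝ) - 1)) ^ ε := by rw [Real.rpow_mul (by norm_num)]
          _ ≤ (p : ℝ) ^ ε := Real.rpow_le_rpow (by positivity) h3 hε.le
      calc ((p - 1 : ℕ) : ℝ) < (2 : ℝ) ^ (L : ℝ) := h1
        _ = (2 : ℝ) ^ ((3 * ε / 4) * L) * y := by
            rw [hy, ← Real.rpow_add (by norm_num)]
            congr 1
            ring
        _ ≤ (p : ℝ) ^ ε * y := mul_le_mul_of_nonneg_right h2 (by linarith)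
        _ ≤ (p : ℝ) ^ ε * orderOf ((prodPr (fun i => (v i : ℕ)) : ℕ) : ZMod p) := by
            apply mul_le_mul_of_nonneg_left hcon.le
            positivity
  refine ⟨⟨C, ?_⟩, ⟨max L1 n1, ?_⟩, ?_⟩
  · intro y hy
    obtain ⟨S, hS1, hS2⟩ := hord y hy
    refine ⟨S, hS1.trans ?_, ?_⟩
    · apply mul_le_mul_of_nonneg_left _ hC.le
      exact Real.rpow_le_rpow_of_exponent_le hy (by linarith)
    · intro p hp hpS
      have : Fact p.Prime := ⟨hp⟩
      refine lt_of_le_of_lt (le_of_eq ?_) (hS2 p hpS).2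
      rw [← Set.ncard_coe_finset]
      congr 2
      ext v
      rw [Finset.mem_coe, mem_filter, Set.mem_ofPred_eq, hfix v]
      exact ⟨fun h => ⟨mem_univ _, h⟩, fun h => h.2⟩
  · intro L hL
    obtain ⟨hL4, _, _⟩ := hbad L ((le_max_left _ _).trans hL)
    obtain ⟨E, hE1, hE2⟩ := hmain L hL
    refine ⟨E, hE1, fun p hp hlog hpE R => ⟨exists_adm (res p) (L ^ A) R (p - 1)
      (Nat.one_le_pow _ _ (by omega)), fun ι hadm => ?_⟩⟩
    refine lt_of_le_of_lt ?_ (hE2 p hlog hpE)
    have hle : Set.ncard {v : Fin K → Fin M | ¬ Good p R ε (cand p R ι (fixedInt v))} ≤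
        ((univ : Finset (Fin K → Fin M)).filter (fun v => ¬ ∀ (R : ℕ) (ι : ℕ → ℕ),
          Adm (res p) (L ^ A) R (p - 1) ι → Good p R ε (cand p R ι (fixedInt v)))).card := by
      rw [← Set.ncard_coe_finset]
      apply Set.ncard_le_ncard _ (Finset.finite_toSet _)
      intro v hv
      rw [Finset.mem_coe, mem_filter]
      exact ⟨mem_univ _, fun hall => hv (hall R ι hadm)⟩
    exact_mod_cast hle
  · intro S hSp
    obtain ⟨θ, hθ⟩ : ∃ θ, θ = √η := ⟨_, rfl⟩
    have hθ0 : 0 < θ := by rw [hθ]; exact Real.sqrt_pos.2 hη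
    have hθ2 : θ * θ = η := by rw [hθ]; exact Real.mul_self_sqrt hη.le
    rw [← hθ]
    obtain ⟨L0, hL0⟩ : ∃ L0, L0 = max L1 n1 := ⟨_, rfl⟩
    rw [← hL0] at hmain
    have hMK : (0 : ℝ) < (M : ℝ) ^ K := by positivity
    let W : (Fin K → Fin M) → ℕ → Prop := fun v L => ∃ E : Finset ℕ,
        (E.card : ℝ) ≤ θ * (Set.ncard {p : ℕ | p ∈ S ∧ Nat.log 2 p + 1 = L} : ℝ) +
          (2 : ℝ) ^ ((1 - ε / 2) * L) ∧
        ∀ (p : ℕ) [Fact p.Prime], p ∈ S → Nat.log 2 p + 1 = L → p ∉ E →
          ∀ (R : ℕ) (ι : ℕ → ℕ), Adm (res p) (L ^ A) R (p - 1) ι →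
            Good p R ε (cand p R ι (fixedInt v))
    -- for every large `L` most `v` work
    have hex : ∀ L : ℕ, L0 ≤ L → (1 - θ) * (M : ℝ) ^ K ≤
        (((univ : Finset (Fin K → Fin M)).filter (fun v => W v L)).card : ℝ) := by
      intro L hL
      obtain ⟨E, hE1, hE2⟩ := hmain L hL
      obtain ⟨T, hT⟩ : ∃ T : Finset ℕ, T = (range (2 ^ L)).filter
        (fun p => p ∈ S ∧ Nat.log 2 p + 1 = L) := ⟨_, rfl⟩
      have hTset : (T : Set ℕ) = {p : ℕ | p ∈ S ∧ Nat.log 2 p + 1 = L} := by
        ext p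
        rw [hT, Finset.mem_coe, mem_filter, Set.mem_ofPred_eq, mem_range]
        refine ⟨fun h => h.2, fun h => ⟨?_, h⟩⟩
        rw [← h.2]
        exact Nat.lt_pow_succ_log_self (by norm_num) p
      have hTcard : Set.ncard {p : ℕ | p ∈ S ∧ Nat.log 2 p + 1 = L} = T.card := by
        rw [← hTset, Set.ncard_coe_finset]
      -- bad pairs
      let bad : (Fin K → Fin M) → ℕ → Prop := fun v p => ∀ hp : Fact p.Prime,
        ¬ ∀ (R : ℕ) (ι : ℕ → ℕ), Adm (res p) (L ^ A) R (p - 1) ι →
          Good p R ε (cand p R ι (fixedInt v))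
      have hpairs : ∀ p ∈ T \ E, (((univ : Finset (Fin K → Fin M)).filter
          (fun v => bad v p)).card : ℝ) ≤ η * (M : ℝ) ^ K := by
        intro p hp
        rw [mem_sdiff, hT, mem_filter] at hp
        have hpf : Fact p.Prime := ⟨hSp p hp.1.2.1⟩
        refine le_trans ?_ (hE2 p hp.1.2.2 hp.2).le
        norm_cast
        apply Finset.card_le_card
        intro v hv
        rw [mem_filter] at hv ⊢
        exact ⟨mem_univ _, hv.2 hpf⟩
      have hW : ∀ v : Fin K → Fin M, (((T \ E).filter (fun p => bad v p)).card : ℝ) ≤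
          θ * T.card → W v L := by
        intro v hv
        refine ⟨E ∪ (T \ E).filter (fun p => bad v p), ?_, ?_⟩
        · rw [hTcard]
          calc ((E ∪ (T \ E).filter (fun p => bad v p)).card : ℝ)
              ≤ (E.card : ℝ) + ((T \ E).filter (fun p => bad v p)).card := by
                exact_mod_cast Finset.card_union_le _ _
            _ ≤ θ * T.card + (2 : ℝ) ^ ((1 - ε / 2) * L) := by linarith
        · intro p hp hpS hlog hpE
          rw [mem_union, not_or] at hpE
          have hpT : p ∈ T := by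
            rw [← Finset.mem_coe, hTset]
            exact ⟨hpS, hlog⟩
          by_contra hno
          apply hpE.2
          rw [mem_filter, mem_sdiff]
          refine ⟨⟨hpT, hpE.1⟩, fun hp' => ?_⟩
          have : hp = hp' := Subsingleton.elim _ _
          subst this
          exact hno
      -- few `v` fail
      have hfail : (((univ : Finset (Fin K → Fin M)).filter (fun v => ¬ W v L)).card : ℝ) ≤
          θ * (M : ℝ) ^ K := by
        rcases T.eq_empty_or_nonempty with hTe | hTne
        · have h0 : ((univ : Finset (Fin K → Fin M)).filter (fun v => ¬ W v L)) = ∅ := by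
            rw [Finset.filter_eq_empty_iff]
            intro v _ hv
            apply hv
            apply hW
            rw [hTe]
            simp
          rw [h0]
          simp only [Finset.card_empty, Nat.cast_zero]
          positivity
        · have hTpos : (0 : ℝ) < T.card := by exact_mod_cast Finset.card_pos.2 hTne
          have h1 : (((univ : Finset (Fin K → Fin M)).filter (fun v => ¬ W v L)).card : ℝ) *
              (θ * T.card) ≤ T.card * (η * (M : ℝ) ^ K) := by
            calc (((univ : Finset (Fin K → Fin M)).filter (fun v => ¬ W v L)).card : ℝ) *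
                (θ * T.card)
                = ∑ _v ∈ (univ : Finset (Fin K → Fin M)).filter (fun v => ¬ W v L),
                    θ * (T.card : ℝ) := by rw [Finset.sum_const, nsmul_eq_mul]
              _ ≤ ∑ v ∈ (univ : Finset (Fin K → Fin M)).filter (fun v => ¬ W v L),
                    (((T \ E).filter (fun p => bad v p)).card : ℝ) := by
                  apply Finset.sum_le_sum
                  intro v hv
                  by_contra hcon
                  push Not at hcon
                  exact (mem_filter.1 hv).2 (hW v hcon.le)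
              _ ≤ ∑ v : Fin K → Fin M, (((T \ E).filter (fun p => bad v p)).card : ℝ) := by
                  apply Finset.sum_le_sum_of_subset_of_nonneg (Finset.filter_subset _ _)
                  intro v _ _
                  positivity
              _ = ∑ p ∈ T \ E, (((univ : Finset (Fin K → Fin M)).filter
                    (fun v => bad v p)).card : ℝ) := by
                  simp only [Finset.card_filter]
                  push_cast
                  exact Finset.sum_comm
              _ ≤ ∑ _p ∈ T \ E, η * (M : ℝ) ^ K := Finset.sum_le_sum hpairs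
              _ = ((T \ E).card : ℝ) * (η * (M : ℝ) ^ K) := by
                  rw [Finset.sum_const, nsmul_eq_mul]
              _ ≤ T.card * (η * (M : ℝ) ^ K) := by
                  apply mul_le_mul_of_nonneg_right _ (by positivity)
                  exact_mod_cast Finset.card_le_card Finset.sdiff_subset
          have h2 : (θ * T.card) * (((univ : Finset (Fin K → Fin M)).filter
              (fun v => ¬ W v L)).card : ℝ) ≤ (θ * T.card) * (θ * (M : ℝ) ^ K) := by
            calc _ = (((univ : Finset (Fin K → Fin M)).filter (fun v => ¬ W v L)).card : ℝ) *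
                (θ * T.card) := by ring
              _ ≤ T.card * (η * (M : ℝ) ^ K) := h1
              _ = (θ * T.card) * (θ * (M : ℝ) ^ K) := by rw [← hθ2]; ring
          exact le_of_mul_le_mul_left h2 (by positivity)
      have hsplit : (((univ : Finset (Fin K → Fin M)).filter (fun v => W v L)).card : ℝ) +
          ((univ : Finset (Fin K → Fin M)).filter (fun v => ¬ W v L)).card = (M : ℝ) ^ K := by
        have h3 := Finset.card_filter_add_card_filter_not (s := (univ : Finset (Fin K → Fin M)))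
          (fun v => W v L)
        rw [Finset.card_univ, Fintype.card_fun, Fintype.card_fin, Fintype.card_fin] at h3
        exact_mod_cast h3
      linarith
    -- for every `N` some `v` works for most `L < N`
    have hN : ∀ N : ℕ, ∃ v : Fin K → Fin M, (1 - θ) * ((N : ℝ) - L0) ≤
        (((range N).filter (fun L => W v L)).card : ℝ) ∨ N < L0 := by
      intro N
      by_contra hcon
      push Not at hcon
      have hNL : L0 ≤ N := (hcon (fun _ => ⟨0, hM⟩)).2
      have h1 : ∑ v : Fin K → Fin M, (((range N).filter (fun L => W v L)).card : ℝ) <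
          ∑ _v : Fin K → Fin M, (1 - θ) * ((N : ℝ) - L0) := by
        apply Finset.sum_lt_sum_of_nonempty
        · exact ⟨fun _ => ⟨0, hM⟩, mem_univ _⟩
        · intro v _; exact (hcon v).1
      have h2 : ∑ v : Fin K → Fin M, (((range N).filter (fun L => W v L)).card : ℝ) =
          ∑ L ∈ range N, (((univ : Finset (Fin K → Fin M)).filter (fun v => W v L)).card : ℝ) := by
        simp only [Finset.card_filter]
        push_cast
        exact Finset.sum_comm
      have h3 : ((N : ℝ) - L0) * ((1 - θ) * (M : ℝ) ^ K) ≤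
          ∑ L ∈ range N, (((univ : Finset (Fin K → Fin M)).filter (fun v => W v L)).card : ℝ) := by
        calc ((N : ℝ) - L0) * ((1 - θ) * (M : ℝ) ^ K)
            = ∑ _L ∈ Finset.Ico L0 N, (1 - θ) * (M : ℝ) ^ K := by
              rw [Finset.sum_const, Nat.card_Ico, nsmul_eq_mul, Nat.cast_sub hNL]
          _ ≤ ∑ L ∈ Finset.Ico L0 N,
                (((univ : Finset (Fin K → Fin M)).filter (fun v => W v L)).card : ℝ) := by
              apply Finset.sum_le_sum
              intro L hL
              exact hex L (Finset.mem_Ico.1 hL).1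
          _ ≤ _ := by
              apply Finset.sum_le_sum_of_subset_of_nonneg
              · intro L hL
                exact mem_range.2 (Finset.mem_Ico.1 hL).2
              · intro L _ _; positivity
      rw [h2, Finset.sum_const, Finset.card_univ, Fintype.card_fun, Fintype.card_fin,
        Fintype.card_fin, nsmul_eq_mul] at h1
      push_cast at h1
      nlinarith
    -- pigeonhole
    by_contra hcon
    push Not at hcon
    choose c hc N0 hN0 using hcon
    obtain ⟨v0, _, hv0⟩ := Finset.exists_max_image (univ : Finset (Fin K → Fin M)) c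
      ⟨fun _ => ⟨0, hM⟩, mem_univ _⟩
    have hgap : 0 < 1 - θ - c v0 := by linarith [hc v0]
    obtain ⟨n2, hn2⟩ := exists_nat_gt (|1 - θ| * L0 / (1 - θ - c v0))
    obtain ⟨N, hNdef⟩ : ∃ N, N = max (max L0 n2) (Finset.univ.sup N0) := ⟨_, rfl⟩
    have hNL0 : L0 ≤ N := by rw [hNdef]; exact (le_max_left _ _).trans (le_max_left _ _)
    have hNn2 : n2 ≤ N := by rw [hNdef]; exact (le_max_right _ _).trans (le_max_left _ _)
    obtain ⟨v, hv⟩ := hN N
    have hv' := hv.resolve_right (by omega)
    have hvN : N0 v ≤ N := by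
      rw [hNdef]
      exact (Finset.le_sup (f := N0) (mem_univ v)).trans (le_max_right _ _)
    have h5 := hN0 v N hvN
    have h6 : Set.ncard {L : ℕ | L < N ∧ W v L} = ((range N).filter (fun L => W v L)).card := by
      rw [← Set.ncard_coe_finset]
      congr 1
      ext L
      rw [Set.mem_ofPred_eq, Finset.mem_coe, mem_filter, mem_range]
    change (Set.ncard {L : ℕ | L < N ∧ W v L} : ℝ) < c v * N at h5
    rw [h6] at h5
    have h7 : c v ≤ c v0 := hv0 v (mem_univ v)
    have h8 : (n2 : ℝ) ≤ N := by exact_mod_cast hNn2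
    have h9 : |1 - θ| * L0 < (1 - θ - c v0) * N := by
      rw [div_lt_iff₀ hgap] at hn2
      nlinarith
    have h10 : (1 - θ) * L0 ≤ |1 - θ| * L0 :=
      mul_le_mul_of_nonneg_right (le_abs_self _) (Nat.cast_nonneg _)
    have h11 : c v * (N : ℝ) ≤ c v0 * N := mul_le_mul_of_nonneg_right h7 (Nat.cast_nonneg _)
    nlinarith

end Pool.Agent.Results.MP_18a8a6_lc.BoundedList
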