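import Pool.Agent.QB54.Stmt

/-!
# Geometricity in the quadratic range for unordered configuration spaces

Irreducible complex representations of the braid group `B_n` of dimension less than
`(1/2 - o(1)) n ^ 2` have dimension at most `n`, and restricted to the pure braid group they are
sums of characters and of representations in the first cohomology of cyclic covers of the line.
-/

namespace Pool.Agent.Variants.BraidQuadratic

open Pool.Agent.QB54
open Pool.Agent.Conf14 (PureBraid)

/-- Let `k ≥ 12`, `m ≥ 2`, `m * k ≤ n` and let `ρ` be an irreducible representation of the braid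
group on `n` strands on a complex space `V` of finite dimension with
`2 * dim V < m * (m - 1) * (k - 2) ^ 2` (for `k` about `2 √n` this is
`dim V < n ^ 2 / 2 - O (n ^ (3 / 2))`).  Then `dim V = 1` or `n - 2 ≤ dim V ≤ n`, and `V` is the
sum of the subspaces `W` with `Piece ρ W`: irreducible under the pure braid group (a subgroup of
the braid group), of dimension one or contained up to a character in the first cohomology of
cyclic covers of the line branched at the `n` points (`InCyclicCovers`). -/
theorem result {n k m : ℕ} (hk : 12 ≤ k) (hm : 2 ≤ m) (hn : m * k ≤ n)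
    {V : Type*} [AddCommGroup V] [Module ℂ V] [FiniteDimensional ℂ V]
    (ρ : Representation ℂ (BraidGroup n) V) [ρ.IsIrreducible]
    (hV : 2 * Module.finrank ℂ V < m * (m - 1) * (k - 2) ^ 2) :
    PureBraid n ≤ BraidGroup n ∧
    (Module.finrank ℂ V = 1 ∨ n ≤ Module.finrank ℂ V + 2 ∧ Module.finrank ℂ V ≤ n) ∧
      sSup {W | Piece ρ W} = ⊤ :=
  ⟨pure_le n, quadratic hk hm hn ρ hV⟩

end Pool.Agent.Variants.BraidQuadratic
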