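import Pool.Agent.MP_a77edb_an.HomDim
import Pool.Agent.CptDim.Stm
import Pool.Agent.CptDim.Inst

/-!
# Class (i): algebras acting by scalar + compact on a minimal left ideal
-/

set_option autoImplicit false

universe u

open Pool.Agent.MP_a77edb_an Pool.Agent.CptDim

/-- A linear map which maps the unit ball into a compact set is a compact operator. -/
private theorem cpt_of_ball {E F : Type u} [NormedAddCommGroup E] [NormedSpace ℂ E]
    [NormedAddCommGroup F] [NormedSpace ℂ F] (T : E →L[ℂ] F) (K : Set F) (hK : IsCompact K)
    (h : ∀ x : E, ‖x‖ ≤ 1 → T x ∈ K) : IsCompactOperator T :=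
  ⟨K, hK, Filter.mem_of_superset (Metric.closedBall_mem_nhds (0 : E) one_pos) fun x hx =>
    h x (by simpa using hx)⟩

/-- Part 1: let `e` be a minimal idempotent of the complex Banach algebra `A` such that the left
ideal `A e` is infinite-dimensional, every bounded functional on `A e` is given by an element of
`A`, and every `a ∈ A` acts on `A e` as a scalar plus a compact operator. Then `dg A > 1` and
`db A > 1`.

Part 2, the case of operators: let `E` be an infinite-dimensional Banach space and `A` a Banach
algebra with an injective continuous homomorphism `π` into the bounded operators of `E` such that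
every `π a` is a scalar plus a compact operator and every operator `x ↦ f(x) y` is some `π a`. Then
`dg A > 1` and `db A > 1`. -/
theorem Pool.Agent.CptDim.compactAction :
    (∀ (A : Type u) [NonUnitalNormedRing A] [NormedSpace ℂ A] [IsScalarTower ℂ A A]
      [SMulCommClass ℂ A A] [CompleteSpace A] (e : A), MinIdem e →
      ¬ FiniteDimensional ℂ (lid e) → GivesFunctionals e → (∀ a : A, ∃ t : ℂ, CompactOn e a t) →
      1 < HomDim.dg A ∧ 1 < HomDim.db A) ∧
    (∀ (A E : Type u) [NonUnitalNormedRing A] [NormedSpace ℂ A] [IsScalarTower ℂ A A]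
      [SMulCommClass ℂ A A] [CompleteSpace A] [NormedAddCommGroup E] [NormedSpace ℂ E]
      [CompleteSpace E] (π : A → E → E), IsBoundedBilinearMap ℂ (fun p : A × E => π p.1 p.2) →
      (∀ (a b : A) (x : E), π (a * b) x = π a (π b x)) → Function.Injective π →
      ¬ FiniteDimensional ℂ E → (∀ a : A, ScalarPlusCompact (π a)) →
      (∀ (f : E →L[ℂ] ℂ) (y : E), ∃ a : A, ∀ x : E, π a x = f x • y) →
      1 < HomDim.dg A ∧ 1 < HomDim.db A) := by
  refine ⟨?_, ?_⟩
  · intro A _ _ _ _ _ e hmin hinf hfun hcpt
    have hc : CompleteSpace (lid e) := (isClosed_lid hmin.2.1).completeSpace_coe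
    have hmem : ∀ x : lid e, (x : A) * e = x := by
      rintro ⟨x, y, rfl⟩
      show y * e * e = y * e
      rw [mul_assoc, hmin.2.1]
    obtain ⟨D⟩ := alg_data e hmin.1 hmin.2.1 hmin.2.2 hinf
      (fun φ => by
        obtain ⟨g, hg, -⟩ := exists_extension_norm_eq (lid e) φ
        obtain ⟨u, hu⟩ := hfun g
        refine ⟨u, fun x => ?_⟩
        have h1 := hu x
        rw [hmem x, hg x] at h1
        exact h1)
      (fun a => by
        obtain ⟨t, K, hK, h⟩ := hcpt a
        have hm : ∀ x : lid e, a * (x : A) - t • (x : A) ∈ lid e := by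
          rintro ⟨x, y, rfl⟩
          refine ⟨a * y - t • y, ?_⟩
          show (a * y - t • y) * e = a * (y * e) - t • (y * e)
          rw [sub_mul, mul_assoc, smul_mul_assoc]
        let T : lid e →L[ℂ] lid e :=
          (((ContinuousLinearMap.mul ℂ A a) - t • ContinuousLinearMap.id ℂ A).comp
            (lid e).subtypeL).codRestrict (lid e) hm
        refine ⟨t, T, ?_, fun x => rfl⟩
        have hcl : IsClosed (lid e : Set A) := isClosed_lid hmin.2.1
        refine cpt_of_ball T ((Subtype.val : lid e → A) ⁻¹' K) ?_ fun x hx => ?_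
        · exact hcl.isClosedEmbedding_subtypeVal.isCompact_preimage hK
        · show a * (x : A) - t • (x : A) ∈ K
          have h1 := h x
          rw [hmem x] at h1
          exact h1 hx)
    exact core D hinf
  · intro A E _ _ _ _ _ _ _ _ π hb hmul hinj hE hcpt hone
    let P : A →L[ℂ] E →L[ℂ] E := hb.toContinuousLinearMap
    have hP : ∀ a x, P a x = π a x := fun a x => rfl
    have hone' : ∀ (f : E →L[ℂ] ℂ) (y : E), ∃ a : A, ∀ x : E, P a x = f x • y := hone
    obtain ⟨D⟩ := oper_data hE P hmul
      (fun a b hab => hinj (funext fun x => by rw [← hP, ← hP, hab]))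
      (fun a => by
        obtain ⟨t, K, hK, h⟩ := hcpt a
        exact ⟨t, cpt_of_ball _ K hK h⟩) hone'
    exact core D hE
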