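import Pool.Agent.FZC.Fin

set_option autoImplicit false

/-!
# The Feinberg-Zee spectrum is connected

The theorem `Spectrum_eq` shows that the set `Spectrum` is, verbatim, the one of the frozen
statement `S03875`.
-/

namespace Pool.Agent.Variants.ConnectedFZ

/-- `ℓ²(ℤ)`, the square-summable sequences `ℤ → ℂ`. -/
abbrev L2Z : Type := lp (fun _ : ℤ => ℂ) 2

/-- The bounded linear operators on `ℓ²(ℤ)`. -/
abbrev Op : Type := L2Z →L[ℂ] L2Z

/-- `y = (A_b - z) x`, where `(A_b x) n = x (n + 1) + b (n - 1) * x (n - 1)`. -/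
def Eqn (b : ℤ → ℂ) (z : ℂ) (x y : L2Z) : Prop :=
  ∀ n : ℤ, y n = x (n + 1) + b (n - 1) * x (n - 1) - z * x n

/-- `A_b - z` has a bounded inverse `B`. -/
def HasInverse (b : ℤ → ℂ) (z : ℂ) : Prop :=
  ∃ B : Op, ∀ x y : L2Z, Eqn b z x y ↔ B y = x

/-- The Feinberg-Zee spectrum: the union of the spectra of `A_b` over all sign sequences `b`. -/
def Spectrum : Set ℂ :=
  {z : ℂ | ∃ b : ℤ → ℂ, (∀ n, b n = 1 ∨ b n = -1) ∧ ¬ HasInverse b z}

theorem Spectrum_eq : Spectrum = {z : ℂ | ∃ b : ℤ → ℂ, (∀ n, b n = 1 ∨ b n = -1) ∧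
      ¬ ∃ B : lp (fun _ : ℤ => ℂ) 2 →L[ℂ] lp (fun _ : ℤ => ℂ) 2,
        ∀ x y : lp (fun _ : ℤ => ℂ) 2,
          (∀ n : ℤ, y n = x (n + 1) + b (n - 1) * x (n - 1) - z * x n) ↔ B y = x} := rfl

theorem result : IsConnected Spectrum := Pool.Agent.FZC.Sig_connected

end Pool.Agent.Variants.ConnectedFZ
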