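import Pool.Agent.DD.Fin
import Pool.Agent.DG.Gz

/-!
# Broué's conjecture for blocks with abelian defect group and cyclic hyperfocal subgroup

Let `Λ` be a complete local commutative ring with algebraically closed residue field `k` of characteristic
`p` (for example a complete discrete valuation ring of characteristic `0`, or `Λ = k`), `G` a finite group,
`b` a block of `Λ G` with an abelian defect group `D` and `c` its Brauer correspondent in `Λ N_G(D)`. Let `e`
be a block of `k C_G(D)` with `e Br_D(b) = e`, so `(D, e)` is a maximal `b`-Brauer pair, and `T` the inertial
group of `e` in `N_G(D)`. The group `[D, T]` is the hyperfocal subgroup of `b`, and `D = C_D(T) × [D, T]`.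

If `[D, T]` is cyclic, then the bounded derived categories of the block algebras `Λ G b` and
`Λ N_G(D) c` are equivalent triangulated categories. There is no condition on `C_D(T)`.

The proof does not use the classification of the finite simple groups. Put `E = T / C_G(D)`, a cyclic
`p'`-group, `U = C_D(T)` and `Z = [D, T]`. If `Z = 1` the block algebra is a matrix algebra over `Λ D`
(nilpotent blocks, proved along the way). Let `Z ≠ 1`.

* Source algebras (libraries `Sig`, `SigO`, `KtU`, `DG`, `DGs`): `Λ G b` is Morita equivalent to `Λ ⊗ A`,
  where `A` is an interior `D`-algebra over the Witt vectors of `k` with an explicit structure: it contains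
  `D ⋊ E` with a complement which is a sum of induced bimodules from proper subgroups, and after a change of
  the source algebra by endopermutation modules only the stabilizers inside `U` remain.
* Structure (libraries `DD`, `DD3`): there are central units `μ(u)`, `u ∈ U`, with `μ(u)` congruent to `u`
  modulo relative traces from `1` to `Z`, and `Λ ⊗ A` is a free algebra over the group ring `R = Λ U`
  (acting through `μ`), whose fibre `H` over `k` is a symmetric algebra which contains
  `k[Z ⋊ E]` with a projective complement.
* Fibre (library `FbT`): the simple `H`-modules give orthogonal two-term complexes over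
  `k[Z ⋊ E]`; they are lifted to a two-term tilting complex of bimodules over `Λ ⊗ A` and
  `R[Z ⋊ E] = Λ[D ⋊ E]`.
* A two-term tilting complex gives an equivalence of the bounded derived categories (library `DBr`).

So both block algebras are derived equivalent to `Λ[D ⋊ E]`.
-/

set_option autoImplicit false

namespace Pool.Agent.Variants.CyclicHyperfocal

open MonoidAlgebra IsLocalRing Pool.Agent.UBlocks Pool.Agent.SigB

/-- The main result. -/
theorem result
    -- a complete local ring whose residue field `k` is algebraically closed of characteristic `p`
    (Λ : Type) [CommRing Λ] [IsLocalRing Λ] [IsAdicComplete (maximalIdeal Λ) Λ]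
    [IsAlgClosed (ResidueField Λ)] (p : ℕ) (hp : p.Prime) [CharP (ResidueField Λ) p]
    (G : Type) [Group G] [Finite G]
    -- `b` is a block of `Λ G` with the abelian defect group `D`
    (b : MonoidAlgebra Λ G) (hb : IsBlk b) (D : Subgroup G) (hD : IsDefectGroup p b D)
    (hab : ∀ x ∈ D, ∀ y ∈ D, x * y = y * x)
    -- `c` is its Brauer correspondent, a block of `Λ N_G(D)`
    (c : MonoidAlgebra Λ (Subgroup.normalizer (D : Set G))) (hc : IsBlk c)
    (hbc : IsBrauerCorrespondent b D c)
    -- `e` is a block of `k C_G(D)` with `e Br_D(b) = e`
    (e : MonoidAlgebra (ResidueField Λ) (Subgroup.centralizer (D : Set G))) (he : IsBlk e)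
    (hbe : e * brD D (MonoidAlgebra.mapRingHom G (residue Λ) b) = e)
    -- `[D, T]` is cyclic, for the inertial group `T` of `e` in `N_G(D)`
    (hZ : IsCyclic (⁅D, inertial D e⁆ : Subgroup G)) :
    -- `D^b(Λ G b)` and `D^b(Λ N_G(D) c)` are equivalent
    DbEquiv (BlkAlg hb) (BlkAlg hc) := by
  have : Fact p.Prime := ⟨hp⟩
  exact DG.main_cyc Λ p (fun _ _ _ _ _ _ _ h => DD.pkgHyp_cyclic h) G b hb D hD hab e he hbe hZ c hc
    hbc

end Pool.Agent.Variants.CyclicHyperfocal
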