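import Pool.Agent.Kiy.Main
import Pool.Agent.K9.Thm
import Pool.Agent.MSf.ThK
import Pool.Agent.BrP.Gb
import Pool.Agent.P2c.Fin

/-!
# The 3-blocks with abelian defect groups and hyperfocal subgroup of order at most 9

Let `B` be a 3-block of a finite group `G` with an abelian defect group `D ≠ 1`. Let `b` be a block of `C_G(D)`
with `b^G = B`, `T` its inertial group in `N_G(D)`, `E = T / C_G(D)` the inertial quotient, `c = b^{N_G(D)}` the
Brauer correspondent of `B` and `b_S = b^{C_G(S)}` for `S ≤ D`. The group `[D, T]` is the hyperfocal subgroup of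
`B`. Suppose that `|[D, T]| ≤ 9`; this holds for all 3-blocks with defect groups of order 9. Then

1. `B` and `c` are isotypic (in the sense of Broué: there are compatible perfect isometries between `b_S` and its
   Brauer correspondent for all `S ≤ D`), and `B` is isotypic to every block `B'` of every finite group with
   `k(B') = k(B)` and the same defect group and action of the inertial quotient;
2. `k(B) = k(c)`, `l(B) = l(c)`, `l(b_S) = |C_E(S)|` for all `S ≤ D` which are not centralized by `T`;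
3. if `E` is not abelian then `E` is `SD₁₆`, `Q₈` or `D₈`, and
   * `|E| = 16`: `k(B) = |D|`, `l(B) = 7`;
   * `|E| = 8`, `E` free on `[D, T] ∖ 1` (`Q₈`): `k(B) = 2 |D| / 3`, `l(B) = 5`;
   * `|E| = 8`, `E` not free on `[D, T] ∖ 1` (`D₈`): `k(B) = |D|`, `l(B) = 5` or `k(B) = 2 |D| / 3`, `l(B) = 2`.

For `|D| = 9` the numbers `k(B)`, `l(B)` were left open by Kiyota (1984) for `E = C₈, D₈, Q₈, SD₁₆`.

The proof. For abelian `E` this is the theorem on hyperfocal subgroups of rank two (libraries `Hyf`, `Wat`, `Isp`).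
Let `E` be nonabelian and `W = [D, T]`, of order 9. The block system of `B` is reduced to one over `W` (`Hyf`).
The generalized decomposition numbers at the elements of the lines of `W` are vectors with integral
coordinates; the sums of squares are 9 or 6 (`Kiy.Ltb`, `Kiy.Ltc`, `Kiy.Col`). For `D₈` and `SD₁₆` they are
determined by these relations: all characters have height 0, and every line is twisted or untwisted (`Kiy.Cmb`,
`Kiy.Lab`). The type of a line is the same for `B` and `c` (`Kiy.Mm`, by the theorem for abelian inertial quotients,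
applied to a subgroup), and no line is twisted for `SD₁₆` (`Kiy.Ext`, extensions of characters). For `Q₈` the
relations leave `k(B) / |C_D(T)| ∈ {3, 6, 9}`. The values 3 and 9 are excluded (`Kiy.Qz`) by Theorem Q (library `K9`):
the source algebra of a block with `|D| = 9` and `E = Q₈` is a deformation of `k[D ⋊ E]` plus projectives, it is
graded by `ℤ[w, w⁻¹]`, and its hermitian Cartan form over `ℤ[w, w⁻¹]` is compared with the one of `k[D ⋊ E]` on
the unit circle: an even form would have determinants congruent modulo 8 at `w = 1` and `w = -1`, but these are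
`9` and `-27`, and the form has rank at least 3. The classification of the finite simple groups is not used.
-/

set_option autoImplicit false

namespace Pool.Agent.Variants.DefectNine

open Pool.Agent.KB Pool.Agent.KBZ Pool.Agent.KBQ Pool.Agent.PIs Pool.Agent.MSf Pool.Agent.Ity

/-- Isotypy of `B = block 𝔪 χ` with its Brauer correspondent `c = block 𝔪 ψ`: compatible perfect isometries
between the blocks of `C_G(S)` and `C_G(S) ⊓ N_G(D)` induced by the block of `ζ`, for all `S ≤ D`. For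
`S = 1` these are the blocks `B` and `c`. -/
def IsotypicCorr (G : Type) [Group G] [Finite G] (p : ℕ) (𝔪 : Ideal AInt) (χ : G → ℂ)
    (D : Subgroup G) (ζ : Subgroup.centralizer (D : Set G) → ℂ) : Prop :=
  ∀ ψ ∈ Irr (Subgroup.normalizer (D : Set G)),
    Induces 𝔪 ((Subgroup.centralizer (D : Set G)).subgroupOf
      (Subgroup.normalizer (D : Set G))) (fun y => ζ ⟨y.1.1, y.2⟩) ψ →
    LB 𝔪 D ζ (Subgroup.centralizer ((⊥ : Subgroup G) : Set G)) = block 𝔪 χ ∧
    LB 𝔪 D ζ (Subgroup.centralizer ((⊥ : Subgroup G) : Set G) ⊓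
      Subgroup.normalizer (D : Set G)) =
        {f | (∀ g, g ∉ Subgroup.normalizer (D : Set G) → f g = 0) ∧
          (fun y : Subgroup.normalizer (D : Set G) => f y) ∈ block 𝔪 ψ} ∧
    ∃ I ε, Isot p 𝔪 D ζ D ζ D.subtype (fun S => Subgroup.centralizer (S : Set G))
      (fun S => Subgroup.centralizer (S : Set G) ⊓ Subgroup.normalizer (D : Set G)) I ε

/-- Isotypy of `B = block 𝔪 χ` with every block `B' = block 𝔪 χ'` of every finite group `G'` with a defect
group `D'` isomorphic to `D`, the same action of the inertial quotient, and `k(B') = k(B)`. -/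
def IsotypicAll (G : Type) [Group G] [Finite G] (p : ℕ) (𝔪 : Ideal AInt) (χ : G → ℂ)
    (D : Subgroup G) (ζ : Subgroup.centralizer (D : Set G) → ℂ) : Prop :=
  ∀ (G' : Type) [Group G'] [Finite G'] (χ' : G' → ℂ), χ' ∈ Irr G' →
    ∀ D' : Subgroup G', Nat.card D' = p ^ defect p (block 𝔪 χ') →
    ∀ ζ' : Subgroup.centralizer (D' : Set G') → ℂ,
      ζ' ∈ Irr (Subgroup.centralizer (D' : Set G')) →
      Induces 𝔪 (Subgroup.centralizer (D' : Set G')) ζ' χ' →
      (block 𝔪 χ).ncard = (block 𝔪 χ').ncard →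
    ∀ φ : D ≃* D',
      (∀ g ∈ inertia 𝔪 D ζ, ∃ g' ∈ inertia 𝔪 D' ζ', ∀ x y : D,
        (y : G) = g * x * g⁻¹ → (φ y : G') = g' * φ x * g'⁻¹) →
      (∀ g' ∈ inertia 𝔪 D' ζ', ∃ g ∈ inertia 𝔪 D ζ, ∀ x y : D,
        (y : G) = g * x * g⁻¹ → (φ y : G') = g' * φ x * g'⁻¹) →
      LB 𝔪 D ζ (Subgroup.centralizer ((⊥ : Subgroup G) : Set G)) = block 𝔪 χ ∧
      LB 𝔪 D' ζ' (Subgroup.centralizer ((⊥ : Subgroup G') : Set G')) = block 𝔪 χ' ∧
      ∃ I ε, Isot p 𝔪 D ζ D' ζ' (D'.subtype.comp φ.toMonoidHom)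
        (fun S => Subgroup.centralizer (S : Set G))
        (fun S => Subgroup.centralizer
          ((S.subgroupOf D).map (D'.subtype.comp φ.toMonoidHom) : Set G')) I ε

/-- The hyperfocal subgroup `[D, T]`. -/
def hypSub {G : Type} [Group G] (𝔪 : Ideal AInt) (D : Subgroup G)
    (ζ : Subgroup.centralizer (D : Set G) → ℂ) : Subgroup G :=
  Subgroup.closure {x | ∃ d ∈ D, ∃ g ∈ inertia 𝔪 D ζ, x = d * g * d⁻¹ * g⁻¹}

/-- The inertial quotient `E` is abelian. -/
def AbelianE {G : Type} [Group G] (𝔪 : Ideal AInt) (D : Subgroup G)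
    (ζ : Subgroup.centralizer (D : Set G) → ℂ) : Prop :=
  ∀ g ∈ inertia 𝔪 D ζ, ∀ h ∈ inertia 𝔪 D ζ,
    g * h * g⁻¹ * h⁻¹ ∈ Subgroup.centralizer (D : Set G)

/-- `E` acts freely on `[D, T] ∖ 1`. -/
def FreeH {G : Type} [Group G] (𝔪 : Ideal AInt) (D : Subgroup G)
    (ζ : Subgroup.centralizer (D : Set G) → ℂ) : Prop :=
  ∀ g ∈ inertia 𝔪 D ζ, ∀ x ∈ hypSub 𝔪 D ζ, x ≠ 1 → g * x = x * g →
    g ∈ Subgroup.centralizer (D : Set G)

/-- The main result. `B = block 𝔪 χ` is the block of `χ ∈ Irr G`, `b = block 𝔪 ζ` is the block of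
`ζ ∈ Irr (C_G(D))`, `T = inertia 𝔪 D ζ`. -/
theorem result (G : Type) [Group G] [Finite G]
    -- a maximal ideal over `3` of the ring of the algebraic integers
    (𝔪 : Ideal AInt) (h𝔪 : 𝔪.IsMaximal) (h3 : (3 : AInt) ∈ 𝔪)
    (χ : G → ℂ) (hχ : χ ∈ Irr G)
    -- `D ≠ 1` is an abelian defect group of `B`, `b` is a block of its centralizer with `b^G = B`
    (D : Subgroup G) (hD1 : D ≠ ⊥) (hab : ∀ a ∈ D, ∀ b ∈ D, a * b = b * a)
    (hD : Nat.card D = 3 ^ defect 3 (block 𝔪 χ))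
    (ζ : Subgroup.centralizer (D : Set G) → ℂ)
    (hζ : ζ ∈ Irr (Subgroup.centralizer (D : Set G)))
    (hind : Induces 𝔪 (Subgroup.centralizer (D : Set G)) ζ χ)
    -- `|[D, T]| ≤ 9`
    (h9 : Nat.card (hypSub 𝔪 D ζ) ≤ 9) :
    -- `B` is isotypic to `c` and to all the blocks with the same `D`, action of `E` and `k`
    (IsotypicCorr G 3 𝔪 χ D ζ ∧ IsotypicAll G 3 𝔪 χ D ζ) ∧
    -- `l(B) = l(c)`, `k(B) = k(c)`
    (∀ ψ ∈ Irr (Subgroup.normalizer (D : Set G)),
      Induces 𝔪 ((Subgroup.centralizer (D : Set G)).subgroupOf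
        (Subgroup.normalizer (D : Set G))) (fun y => ζ ⟨y.1.1, y.2⟩) ψ →
      ell 3 (block 𝔪 χ) = ell 3 (block 𝔪 ψ) ∧ (block 𝔪 χ).ncard = (block 𝔪 ψ).ncard) ∧
    -- `l(b_S) = |C_E(S)|` if `T` does not centralize `S`
    (∀ S : Subgroup G, S ≤ D → (∃ s ∈ S, ∃ g ∈ inertia 𝔪 D ζ, g * s ≠ s * g) →
      ∀ η ∈ Irr (Subgroup.centralizer (S : Set G)),
      Induces 𝔪 ((Subgroup.centralizer (D : Set G)).subgroupOf
        (Subgroup.centralizer (S : Set G))) (fun y => ζ ⟨y.1.1, y.2⟩) η →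
      ell 3 (block 𝔪 η) * Nat.card (Subgroup.centralizer (D : Set G)) =
        Nat.card {g : G // g ∈ inertia 𝔪 D ζ ∧ ∀ x ∈ S, g * x = x * g}) ∧
    -- the numbers if `E` is not abelian
    (¬ AbelianE 𝔪 D ζ →
      (Nat.card (inertia 𝔪 D ζ) = 16 * Nat.card (Subgroup.centralizer (D : Set G)) ∧
        (block 𝔪 χ).ncard = Nat.card D ∧ ell 3 (block 𝔪 χ) = 7) ∨
      (Nat.card (inertia 𝔪 D ζ) = 8 * Nat.card (Subgroup.centralizer (D : Set G)) ∧
        FreeH 𝔪 D ζ ∧
        3 * (block 𝔪 χ).ncard = 2 * Nat.card D ∧ ell 3 (block 𝔪 χ) = 5) ∨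
      (Nat.card (inertia 𝔪 D ζ) = 8 * Nat.card (Subgroup.centralizer (D : Set G)) ∧
        ¬ FreeH 𝔪 D ζ ∧
        (((block 𝔪 χ).ncard = Nat.card D ∧ ell 3 (block 𝔪 χ) = 5) ∨
        (3 * (block 𝔪 χ).ncard = 2 * Nat.card D ∧ ell 3 (block 𝔪 χ) = 2)))) := by
  have hP : BrP.ThmP := BrP.center_P P2c.thmPA
  have hp : ((3 : ℕ) : AInt) ∈ 𝔪 := by exact_mod_cast h3
  obtain ⟨h1, h2⟩ := Kiy.main_K G 𝔪 h𝔪 hp χ hχ D hab hD ζ hζ hind thmK hP K9.thmQ h9 hD1
  refine ⟨h1, h2.2, h2.1, fun hE => ?_⟩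
  rcases Kiy.exp_K G 𝔪 h𝔪 hp χ hχ D hab hD ζ hζ hind thmK hP K9.thmQ hE h9 with h | h | h
  · exact Or.inl h
  · exact Or.inr (Or.inl h)
  · obtain ⟨a, ⟨g, hg, x, hx, hx1, hgx, hgC⟩, b⟩ := h
    exact Or.inr (Or.inr ⟨a, fun hf => hgC (hf g hg x hx hx1 hgx), b⟩)

end Pool.Agent.Variants.DefectNine
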