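import Pool.Agent.DeckB.Digital

/-!
# Digital polynomials are reconstructible from decks of bounded size

If the number of ones among the first `t` letters of `x` differs by less than `1/2` from `φ(t)` for
all `t`, where `φ` is a real polynomial of degree at most `d` (`d ≥ 1`), then `x` is
reconstructible from its `k`-deck for `k ≥ d + 2`.
-/

namespace Pool.Agent.Results.MP_06bc18_co.DigitalPolynomials

open DeckA DeckB

theorem result (n k d : ℕ) (x : Fin n → Bool) (φ : Polynomial ℝ) (hd : 1 ≤ d)
    (hφ : φ.natDegree ≤ d)
    (h : ∀ t : ℕ, 0 < t → t < n → |(ones x t : ℝ) - φ.eval (t : ℝ)| < 1 / 2)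
    (hk : d + 2 ≤ k) (hkn : k ≤ n) : Reconstructible k x :=
  digital hd hk hkn x φ hφ h

end Pool.Agent.Results.MP_06bc18_co.DigitalPolynomials
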