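import Pool.Agent.Half.BoxE
import Pool.Agent.Half.BoxP

/-!
# A finite scale entropy inequality for the maps `x ↦ 2 x`, `x ↦ 3 x`

`{p, q} = {2, 3}`; `ent q μ n` is the entropy of the partition of the circle into `q ^ n` arcs, and for `μ` invariant under
`x ↦ q x` the difference `ent q μ (n + 1) - ent q μ n` is the conditional entropy of a digit given the following `n` digits.
It is at most, at scale `8 N`, `log q` times the mass of the points whose orbit under `x ↦ p x` is nearly equidistributed at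
time `N` (with a short average over `x ↦ q x`), with an error `(log N) ^ (-κ)`, uniformly over all measures invariant under
`x ↦ q x`. Consequences for measures invariant under both maps.
-/

open MeasureTheory Filter Topology Set
open scoped ENNReal NNReal

namespace Pool.Agent.Results.MP_e27144_an.EntropyGrowth

/-- The Fourier coefficient `∫ e(n x) dμ(x)`. -/
noncomputable def coef (μ : Measure (AddCircle (1 : ℝ))) (n : ℤ) : ℂ := ∫ x, fourier n x ∂μ

/-- The arc `[i / b ^ n, (i + 1) / b ^ n)` modulo one. -/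
def arc (b n i : ℕ) : Set (AddCircle (1 : ℝ)) :=
  (fun t : ℝ => (t : AddCircle (1 : ℝ))) '' Set.Ico ((i : ℝ) / (b : ℝ) ^ n) (((i : ℝ) + 1) / (b : ℝ) ^ n)

/-- The entropy of the partition of the circle into the `b ^ n` arcs `[i / b ^ n, (i + 1) / b ^ n)`, `i < b ^ n`. -/
noncomputable def ent (b : ℕ) (μ : Measure (AddCircle (1 : ℝ))) (n : ℕ) : ℝ :=
  ∑ i ∈ Finset.range (b ^ n), Real.negMulLog (μ.real (arc b n i))

/-- The mean of `f (p ^ i * q ^ j * x)` over `i < N`, `j < R`. -/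
noncomputable def mean {E : Type} [AddCommGroup E] [Module ℝ E] (p q N R : ℕ)
    (f : AddCircle (1 : ℝ) → E) (x : AddCircle (1 : ℝ)) : E :=
  ((N * R : ℕ) : ℝ)⁻¹ • ∑ i ∈ Finset.range N, ∑ j ∈ Finset.range R, f ((p ^ i * q ^ j : ℕ) • x)

/-- The points at which the means over `i < N`, `j < R` of all `f` in `F` are `δ`-close to their Lebesgue integrals. -/
def near (p q N R : ℕ) (F : Finset C(AddCircle (1 : ℝ), ℝ)) (δ : ℝ) : Set (AddCircle (1 : ℝ)) :=
  {x | ∀ f ∈ F, |mean p q N R f x - ∫ z, f z| ≤ δ}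

/-- The points at which the means over `i < N`, `j < R` of all `f` in `F` are at least half of their Lebesgue integrals,
minus `δ`. -/
def half (p q N R : ℕ) (F : Finset C(AddCircle (1 : ℝ), ℝ)) (δ : ℝ) : Set (AddCircle (1 : ℝ)) :=
  {x | ∀ f ∈ F, (∫ z, f z) / 2 - δ ≤ mean p q N R f x}

/-- The mean square deviation of the averages of the character `e(m x)` under `x ↦ p x` from its integral. -/
noncomputable def dev (p N : ℕ) (μ : Measure (AddCircle (1 : ℝ))) (m : ℤ) : ℝ :=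
  ∫ x, ‖(N : ℂ)⁻¹ * ∑ i ∈ Finset.range N, fourier m ((p ^ i : ℕ) • x) - coef μ m‖ ^ 2 ∂μ

/-- The function `t (1 - log t)`. -/
noncomputable def phi (t : ℝ) : ℝ := t * (1 - Real.log t)

theorem arc_eq {b : ℕ} (hb : 0 < b) (n i : ℕ) (hi : i < b ^ n) :
    arc b n i = {x : AddCircle (1 : ℝ) | LogSc.cell b n x = i} := by
  have hb' : (0 : ℝ) < (b : ℝ) ^ n := by positivity
  have hi' : (i : ℝ) + 1 ≤ (b : ℝ) ^ n := by exact_mod_cast hi
  ext x
  rw [mem_ofPred_eq]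
  constructor
  · rintro ⟨t, ⟨h1, h2⟩, rfl⟩
    have h0 : 0 ≤ t := le_trans (by positivity) h1
    have h3 : t < 1 := lt_of_lt_of_le h2 ((div_le_one hb').2 hi')
    rw [div_le_iff₀ hb'] at h1
    rw [lt_div_iff₀ hb'] at h2
    show LogSc.cell b n (t : AddCircle (1 : ℝ)) = i
    unfold LogSc.cell
    rw [LogSc.rep_coe h0 h3, Nat.floor_eq_iff (by positivity)]
    constructor
    · linarith
    · linarith
  · intro h
    refine ⟨LogSc.rep x, ⟨?_, ?_⟩, LogSc.coe_rep x⟩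
    · rw [div_le_iff₀ hb', ← h]
      have := Nat.floor_le (mul_nonneg hb'.le (LogSc.rep_nonneg x))
      unfold LogSc.cell
      linarith
    · rw [lt_div_iff₀ hb', ← h]
      have := Nat.lt_floor_add_one ((b : ℝ) ^ n * LogSc.rep x)
      unfold LogSc.cell
      linarith

theorem ent_eq {b : ℕ} (hb : 0 < b) (μ : Measure (AddCircle (1 : ℝ))) (n : ℕ) :
    ent b μ n = Half.Hb b μ n := by
  unfold ent Half.Hb
  refine Finset.sum_congr rfl fun i hi => ?_
  rw [arc_eq hb n i (Finset.mem_range.1 hi)]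

theorem sum_box {E : Type} [AddCommMonoid E] {p q : ℕ} (hpq : (p = 2 ∧ q = 3) ∨ (p = 3 ∧ q = 2)) (N R : ℕ)
    (f : AddCircle (1 : ℝ) → E) (x : AddCircle (1 : ℝ)) :
    ∑ i ∈ Finset.range N, ∑ j ∈ Finset.range R, f ((p ^ i * q ^ j : ℕ) • x) =
      ∑ v ∈ Half.bx p N R, f ((2 ^ v.1 * 3 ^ v.2 : ℕ) • x) := by
  unfold Half.bx
  rcases hpq with ⟨rfl, rfl⟩ | ⟨rfl, rfl⟩
  · rw [if_pos rfl, Finset.sum_product]
  · rw [if_neg (by norm_num), Finset.sum_product_right]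
    simp only [mul_comm]

theorem card_box {p q : ℕ} (hpq : (p = 2 ∧ q = 3) ∨ (p = 3 ∧ q = 2)) (N R : ℕ) :
    N * R = (Half.bx p N R).card := by
  unfold Half.bx
  rcases hpq with ⟨rfl, rfl⟩ | ⟨rfl, rfl⟩
  · rw [if_pos rfl, Finset.card_product, Finset.card_range, Finset.card_range]
  · rw [if_neg (by norm_num), Finset.card_product, Finset.card_range, Finset.card_range, mul_comm]

theorem mean_box {p q : ℕ} (hpq : (p = 2 ∧ q = 3) ∨ (p = 3 ∧ q = 2)) (N R : ℕ)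
    (f : AddCircle (1 : ℝ) → ℝ) (x : AddCircle (1 : ℝ)) :
    mean p q N R f x = Half.avg (Half.bx p N R) f x := by
  unfold mean Half.avg
  rw [smul_eq_mul, inv_mul_eq_div, sum_box hpq, card_box hpq]

theorem near_box {p q : ℕ} (hpq : (p = 2 ∧ q = 3) ∨ (p = 3 ∧ q = 2)) (F : Finset C(AddCircle (1 : ℝ), ℝ))
    (δ : ℝ) (N R : ℕ) : near p q N R F δ = Half.Dbx p F δ N R := by
  unfold near Half.Dbx
  simp only [mean_box hpq]

theorem half_box {p q : ℕ} (hpq : (p = 2 ∧ q = 3) ∨ (p = 3 ∧ q = 2)) (F : Finset C(AddCircle (1 : ℝ), ℝ))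
    (δ : ℝ) (N R : ℕ) : half p q N R F δ = Half.Lbx p F δ N R := by
  unfold half Half.Lbx
  simp only [mean_box hpq]

theorem dev_box {p q : ℕ} (hpq : (p = 2 ∧ q = 3) ∨ (p = 3 ∧ q = 2)) (μ : Measure (AddCircle (1 : ℝ)))
    (m : ℤ) (N : ℕ) : dev p N μ m = Half.Va μ (Half.bx p N 1) m := by
  unfold dev Half.Va
  have h : ∀ x : AddCircle (1 : ℝ), (N : ℂ)⁻¹ * ∑ i ∈ Finset.range N, fourier m ((p ^ i : ℕ) • x) =
      Half.avgC (Half.bx p N 1) (fourier m) x := by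
    intro x
    unfold Half.avgC
    rw [← sum_box hpq, ← card_box hpq]
    simp only [Finset.range_one, Finset.sum_singleton, pow_zero, mul_one]
    rw [inv_mul_eq_div]
  simp only [h]
  rfl

theorem phi_eq (t : ℝ) : phi t = t + Real.negMulLog t := by
  unfold phi Real.negMulLog
  ring

/-- **Main theorem.** -/
theorem result (p q : ℕ) (hpq : (p = 2 ∧ q = 3) ∨ (p = 3 ∧ q = 2)) (κ : ℝ) (hκ1 : 1 < κ) (hκ2 : κ < 3 / 2) :
    (∀ F : Finset C(AddCircle (1 : ℝ), ℝ), (∀ f ∈ F, ∀ z, 0 ≤ f z) → ∀ δ : ℝ, 0 < δ →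
      ∃ R₀ : ℕ, ∀ N R : ℕ, R₀ ≤ R → (R : ℝ) ≤ Real.log N ^ κ →
        ∀ μ : Measure (AddCircle (1 : ℝ)), IsProbabilityMeasure μ →
          MeasurePreserving (fun x : AddCircle (1 : ℝ) => q • x) μ μ →
          ent q μ (8 * N + 1) - ent q μ (8 * N) ≤
            Real.log q * μ.real (near p q N R F δ) + phi (μ.real (half p q N R F δ)) / Real.log N ^ κ) ∧
    (∀ μ : Measure (AddCircle (1 : ℝ)), IsProbabilityMeasure μ →
      MeasurePreserving (fun x : AddCircle (1 : ℝ) => (2 : ℕ) • x) μ μ →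
      MeasurePreserving (fun x : AddCircle (1 : ℝ) => (3 : ℕ) • x) μ μ → μ ≠ volume →
      (∃ (M : ℕ) (C : ℝ), ∀ N : ℕ, 1 ≤ N → ent q μ (8 * N + 1) - ent q μ (8 * N) ≤
        C * (Real.exp (-Real.log N ^ κ) + ∑ m ∈ Finset.Icc (-(M : ℤ)) M, dev p N μ m)) ∧
      (∀ γ : ℝ, 0 < γ → γ < 1 →
        (∀ m : ℤ, ∃ C : ℝ, ∀ g : ℕ, 1 ≤ g →
          ‖coef μ (m * ((p : ℤ) ^ g - 1)) - (‖coef μ m‖ : ℂ) ^ 2‖ ≤ C * (g : ℝ) ^ (-γ)) →
        ∃ C : ℝ, ∀ n : ℕ, 1 ≤ n → ent q μ (n + 1) - ent q μ n ≤ C * (n : ℝ) ^ (-γ))) := by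
  have hq0 : 0 < q := by rcases hpq with ⟨_, rfl⟩ | ⟨_, rfl⟩ <;> norm_num
  refine ⟨?_, ?_⟩
  · intro F hF δ hδ
    obtain ⟨R₀, h⟩ := Half.box_entropy hpq hκ1 hκ2 F hF δ hδ
    refine ⟨R₀, fun N R hR hRN μ hμ hq => ?_⟩
    rw [ent_eq hq0, ent_eq hq0, near_box hpq, half_box hpq, phi_eq]
    exact h N R hR hRN μ hq
  · intro μ hμ h2 h3 hne
    refine ⟨?_, ?_⟩
    · obtain ⟨M, C, -, h⟩ := Half.ent_two hpq hκ1 hκ2 μ h2 h3 hne
      refine ⟨M, C, fun N hN => ?_⟩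
      rw [ent_eq hq0, ent_eq hq0]
      simp only [dev_box hpq]
      exact h N hN
    · intro γ hγ0 hγ1 hγ
      obtain ⟨C, h⟩ := Half.ent_poly hpq μ h2 h3 hγ0 hγ1 hγ hne
      refine ⟨C, fun n hn => ?_⟩
      rw [ent_eq hq0, ent_eq hq0]
      exact h n hn

end Pool.Agent.Results.MP_e27144_an.EntropyGrowth
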