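import Pool.Agent.ThK.Fin
import Pool.Agent.ThR.Fin6

/-!
# Thompson's conjecture for the groups of type `E_n`

Thompson's conjecture: every finite simple group `G` has a conjugacy class `C` with `C C = G`.  This file proves it for the simple Chevalley groups `E_7(K)` and `E_8(K)` over every finite field `K`, and for `E_6(K)` if `K` has more than two elements; the groups are
given by Steinberg's presentation modulo the centre.
-/

namespace Pool.Agent.Results.MP_3d54b6_al.ExceptionalE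

/-- The roots of `E_n` (`n = 6`: 72, `n = 7`: 126, `n = 8`: 240 roots): the integral vectors `(d; m_1, …, m_n)` with `m_1 + … + m_n = 3 d` and
`m_1 ^ 2 + … + m_n ^ 2 = d ^ 2 + 2`. -/
abbrev Root (n : ℕ) : Type := {v : ℤ × (Fin n → ℤ) // ∑ i, v.2 i = 3 * v.1 ∧ ∑ i, v.2 i ^ 2 = v.1 ^ 2 + 2}

/-- The negative of a root. -/
def neg {n : ℕ} (r : Root n) : Root n := ⟨-r.1, (-r).2⟩

/-- The structure constants `ε(r, s) = ± 1`: `(-1)` to the power `∑_(i < j) m_i(r) m_j(s)`. -/
def ε (K : Type) [Field K] {n : ℕ} (r s : Root n) : K := if Even (∑ i, ∑ j, if i < j then r.1.2 i * s.1.2 j else 0) then 1 else -1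

/-- The generator `x_r(a)`. -/
def X {K : Type} {n : ℕ} (r : Root n) (a : K) : FreeGroup (Root n × K) := FreeGroup.of (r, a)

/-- `n_r(a) = x_r(a) x_(-r)(a⁻¹) x_r(a)` -/
def N {K : Type} [Field K] {n : ℕ} (r : Root n) (a : K) : FreeGroup (Root n × K) := X r a * X (neg r) a⁻¹ * X r a

/-- `h_r(a) = n_r(a) n_r(-1)` -/
def H {K : Type} [Field K] {n : ℕ} (r : Root n) (a : K) : FreeGroup (Root n × K) := N r a * N r (-1)

/-- Steinberg's relations: `x_r(a + b) = x_r(a) x_r(b)`; `[x_r(a), x_s(b)] = x_(r+s)(ε(r,s) a b)` if `r + s` is a root, and `= 1` if `r + s` is neither a root nor `0`; `h_r(a b) = h_r(a) h_r(b)` for `a, b ≠ 0`. -/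
inductive Steinberg (K : Type) [Field K] (n : ℕ) : FreeGroup (Root n × K) → Prop
  | add (r : Root n) (a b : K) : Steinberg K n (X r a * X r b * (X r (a + b))⁻¹)
  | sum (r s t : Root n) (h : t.1 = r.1 + s.1) (a b : K) : Steinberg K n (X r a * X s b * (X r a)⁻¹ * (X s b)⁻¹ * (X t (ε K r s * a * b))⁻¹)
  | comm (r s : Root n) (h0 : r.1 + s.1 ≠ 0) (h : ∀ t : Root n, t.1 ≠ r.1 + s.1) (a b : K) : Steinberg K n (X r a * X s b * (X r a)⁻¹ * (X s b)⁻¹)
  | torus (r : Root n) (a b : K) (ha : a ≠ 0) (hb : b ≠ 0) : Steinberg K n (H r a * H r b * (H r (a * b))⁻¹)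

/-- The universal Chevalley group of type `E_n` over `K`. -/
abbrev E (K : Type) [Field K] (n : ℕ) : Type := PresentedGroup {w : FreeGroup (Root n × K) | Steinberg K n w}

/-- The simple Chevalley group. -/
abbrev S (K : Type) [Field K] (n : ℕ) : Type := E K n ⧸ Subgroup.center (E K n)

private theorem ep_eq (K : Type) [Field K] {n : ℕ} (r s : Root n) : (ThK.ep K r.1 s.1 : K) = ε K r s := by
  unfold ε
  change (((-1 : Kˣ) ^ ThK.bl r.1 s.1 : Kˣ) : K) = if Even (ThK.bl r.1 s.1) then 1 else -1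
  split_ifs with h
  · rw [h.neg_one_zpow]
    rfl
  · rw [Int.not_even_iff_odd] at h
    rw [h.neg_one_zpow]
    rfl

/-- The generators satisfy the relations. -/
private theorem stb (K : Type) [Field K] (n : ℕ) : ThK.Stb K n (fun (r : Root n) (a : K) => (PresentedGroup.of (r, a) : E K n)) := by
  have h1 : ∀ w, Steinberg K n w → (PresentedGroup.mk {w : FreeGroup (Root n × K) | Steinberg K n w} w) = 1 := fun w hw =>
    PresentedGroup.one_of_mem hw
  refine ⟨fun r a b => ?_, fun r s t h a b => ?_, fun r s h0 h a b => ?_, fun r a b ha hb => ?_, ?_⟩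
  · exact (mul_inv_eq_one.1 (h1 _ (Steinberg.add r a b))).symm
  · rw [ep_eq]
    exact mul_inv_eq_one.1 (h1 _ (Steinberg.sum r s t h a b))
  · exact h1 _ (Steinberg.comm r s h0 h a b)
  · exact (mul_inv_eq_one.1 (h1 _ (Steinberg.torus r a b ha hb))).symm
  · rw [eq_top_iff, ← PresentedGroup.closure_range_of]
    apply Subgroup.closure_mono
    rintro _ ⟨⟨r, a⟩, rfl⟩
    exact ⟨r, a, rfl⟩

private theorem exists_unit {K : Type} [Field K] [Finite K] (h : 2 < Nat.card K) : ∃ d : K, d ≠ 0 ∧ d ≠ 1 := by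
  by_contra hd
  push Not at hd
  have hf := Fintype.ofFinite K
  classical
  have h1 : (Finset.univ : Finset K) ⊆ {0, 1} := by
    intro d _
    by_cases h0 : d = 0
    · simp [h0]
    · simp [hd d h0]
  have h2 := Finset.card_le_card h1
  rw [Finset.card_univ, ← Nat.card_eq_fintype_card] at h2
  have h3 := Finset.card_le_two (a := (0 : K)) (b := 1)
  omega

/-- Thompson's conjecture for `E_7(K)`, `E_8(K)`, and for `E_6(K)` if `K` has more than two elements. -/
theorem result (K : Type) [Field K] [Finite K] (n : ℕ) (hn : n = 7 ∨ n = 8 ∨ (n = 6 ∧ 2 < Nat.card K)) : ∃ g : S K n, ∀ z : S K n, ∃ x y : S K n, IsConj g x ∧ IsConj g y ∧ x * y = z := by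
  apply ThK.quot_main
  rcases hn with h | h | ⟨rfl, h⟩
  · exact ThK.main78' (Or.inl h) (stb K n)
  · exact ThK.main78' (Or.inr h) (stb K n)
  · obtain ⟨b, h1, c, h2⟩ := Pool.Agent.ThR.main6 (exists_unit h) (stb K 6)
    exact ⟨b, h1, 1, c, by rw [h2]; group⟩

end Pool.Agent.Results.MP_3d54b6_al.ExceptionalE
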