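import Pool.Agent.ThE.Neg

/-!
# Thompson's conjecture for `E_7(2)` and `E_8(2)`

Thompson's conjecture: every finite simple group `G` has a conjugacy class `C` with `C C = G`.  This file proves it for the Chevalley groups `E_7(2)`
and `E_8(2)`, given by Steinberg's presentation over the field with two elements.
-/

namespace Pool.Agent.Results.MP_3d54b6_al.ExceptionalTwo

/-- The roots of `E_n` (`n = 7`: 126 roots, `n = 8`: 240 roots): the integral vectors `(d; m_1, …, m_n)` with `m_1 + … + m_n = 3 d` and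
`m_1 ^ 2 + … + m_n ^ 2 = d ^ 2 + 2`. -/
abbrev Root (n : ℕ) : Type := {v : ℤ × (Fin n → ℤ) // ∑ i, v.2 i = 3 * v.1 ∧ ∑ i, v.2 i ^ 2 = v.1 ^ 2 + 2}

/-- Steinberg's relations over the field with two elements; the generator `r` is the root element `x_r(1)`.  The simply laced root system `E_n` has
the relations `x_r ^ 2 = 1`, `[x_r, x_s] = x_(r+s)` if `r + s` is a root, and `[x_r, x_s] = 1` if `r + s` is neither a root nor `0`. -/
inductive Steinberg (n : ℕ) : FreeGroup (Root n) → Prop
  | square (r : Root n) : Steinberg n (FreeGroup.of r * FreeGroup.of r)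
  | sum (r s t : Root n) (h : t.1 = r.1 + s.1) :
      Steinberg n (FreeGroup.of r * FreeGroup.of s * (FreeGroup.of r)⁻¹ * (FreeGroup.of s)⁻¹ * (FreeGroup.of t)⁻¹)
  | comm (r s : Root n) (h0 : r.1 + s.1 ≠ 0) (h : ∀ t : Root n, t.1 ≠ r.1 + s.1) :
      Steinberg n (FreeGroup.of r * FreeGroup.of s * (FreeGroup.of r)⁻¹ * (FreeGroup.of s)⁻¹)

/-- The Chevalley group `E_n(2)`. -/
abbrev E (n : ℕ) : Type := PresentedGroup {w : FreeGroup (Root n) | Steinberg n w}

/-- The generators satisfy the relations. -/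
private theorem stb (n : ℕ) : ThE.Stb n (fun r : Root n => (PresentedGroup.of r : E n)) := by
  have h1 : ∀ w, Steinberg n w → (PresentedGroup.mk {w : FreeGroup (Root n) | Steinberg n w} w) = 1 := fun w hw =>
    PresentedGroup.one_of_mem hw
  refine ⟨fun r => ?_, fun r s t h => ?_, fun r s h0 h => ?_, PresentedGroup.closure_range_of _⟩
  · exact h1 _ (Steinberg.square r)
  · exact mul_inv_eq_one.1 (h1 _ (Steinberg.sum r s t h))
  · exact h1 _ (Steinberg.comm r s h0 h)

/-- Thompson's conjecture for `E_7(2)` and `E_8(2)`: there is an element `g` such that every element of the group is a product of two conjugates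
of `g`. -/
theorem result (n : ℕ) (hn : n = 7 ∨ n = 8) :
    ∃ g : E n, ∀ z : E n, ∃ x y : E n, IsConj g x ∧ IsConj g y ∧ x * y = z := by
  have key : ∃ b : E n, ∀ z : E n, ∃ a c : E n, z = a * b * a⁻¹ * (c * b * c⁻¹) := by
    rcases hn with rfl | rfl
    · exact ThE.main (m := 3) (Or.inl rfl) (stb 7)
    · exact ThE.main (m := 4) (Or.inr rfl) (stb 8)
  obtain ⟨b, hb⟩ := key
  refine ⟨b, fun z => ?_⟩
  obtain ⟨a, c, h⟩ := hb z
  exact ⟨a * b * a⁻¹, c * b * c⁻¹, isConj_iff.2 ⟨a, rfl⟩, isConj_iff.2 ⟨c, rfl⟩, h.symm⟩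

end Pool.Agent.Results.MP_3d54b6_al.ExceptionalTwo
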