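import Pool.Agent.DeckA.Runs

/-!
# Strings with fewer than `k` runs are reconstructible from their `k`-deck
-/

namespace Pool.Agent.Results.MP_06bc18_co.FewRuns

open DeckA

theorem result (n k : ℕ) (hk : k ≤ n) (x : Fin n → Bool) (hx : runs (List.ofFn x) < k) :
    Reconstructible k x :=
  reconstructible_of_runs hk x hx

end Pool.Agent.Results.MP_06bc18_co.FewRuns
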