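import Pool.Agent.C4h.Ff

/-!
# MP_782628_co: graphs defined over a finite field by a polynomial of bounded degree

Problem MP_782628_co (Erdős) asks whether `R(C₄, m) ≥ m ^ (2 - ε)` for infinitely many `m`. The known
`C₄`-free graphs with few independent vertices are defined over finite fields by an equation of bounded
degree. This file shows that no such family, of bounded degree and dimension over finite fields, gives the
exponent `2`: the independence number of a graph of the class is at least `n ^ (1/2 + δ)`.
-/

namespace Pool.Agent.Results.MP_782628_co.FiniteFieldGraphs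

open Finset

/-- For `d ≤ e + 1` and `k` there is `δ > 0` such that, for every large finite field `F` and every polynomial `f` of
total degree at most `k` over `F` in `2d` variables (with `f(X, X) ≠ 0` if the characteristic is `2`), every graph
whose vertices have different labels `(x, y, z)` with `x ∈ F^d`, `y ∈ F^e`, `z ∈ F`, with at least
`q ^ (d + e + 1 - δ)` vertices, `q` the order of `F`, and with `z u + z v = f (x u, x v)` for all adjacent `u`, `v`,
has an independent set of at least `n ^ (1/2 + δ)` vertices, `n` the number of vertices. -/
theorem result (d e k : ℕ) (hde : d ≤ e + 1) :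
    ∃ δ : ℝ, 0 < δ ∧ ∃ q₀ : ℕ, ∀ (F : Type) [Field F] [Fintype F], q₀ ≤ Fintype.card F →
      ∀ f : MvPolynomial (Fin d ⊕ Fin d) F, f.totalDegree ≤ k →
      ((2 : F) = 0 → MvPolynomial.rename (Sum.elim id id : Fin d ⊕ Fin d → Fin d) f ≠ 0) →
      ∀ (V : Type) [Fintype V] (G : SimpleGraph V) (x : V → Fin d → F) (y : V → Fin e → F) (z : V → F),
        Function.Injective (fun v => (x v, y v, z v)) →
        (Fintype.card F : ℝ) ^ ((d : ℝ) + e + 1 - δ) ≤ Fintype.card V →
        (∀ u v, G.Adj u v → z u + z v = MvPolynomial.eval (Sum.elim (x u) (x v)) f) →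
        ∃ I : Finset V, G.IsIndepSet (I : Set V) ∧ (Fintype.card V : ℝ) ^ ((1 : ℝ) / 2 + δ) ≤ I.card := by
  exact Pool.Agent.C4h.fin d e k hde

end Pool.Agent.Results.MP_782628_co.FiniteFieldGraphs
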