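import Pool.Agent.MSf.FUN2

/-!
# Boundedly many classes of perfectly isometric blocks for given `D` and `E`

Let `E` be a finite group which acts faithfully on a finite abelian `p`-group `D`, `e = |E|`, and
suppose that `e (e + 3) ≤ p`. We consider the blocks of arbitrary finite groups which have the defect
group `D` and the inertial quotient `E` with the given action on `D`. We prove that they fall into at
most `N(e) = (2 e + 1) ^ (4 ^ e (e ^ 3 + e ^ 2 + 1))` classes such that any two blocks of the same class are
perfectly isometric in the sense of Broué. The number `N(e)` does not depend on `p`, `D` and the action.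

By Broué's abelian defect group conjecture every such block is perfectly isometric to its Brauer
correspondent, and the Brauer correspondents are, up to Morita equivalence, the twisted group algebras of
`D ⋊ E`: so the number of the classes should be at most the order of the Schur multiplier of `E`.

The proof (libraries `MSy`, `BlkS`, `PIg`) is character theoretic. The generalized decomposition numbers
of the blocks `b_S = b^{C_G(S)}`, `S ≤ D`, form a block system. A block system is determined up to
isotypy by finitely many integers, of absolute value at most `e`; and isotypic blocks are perfectly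
isometric. The classification of the finite simple groups is not used.
-/

set_option autoImplicit false

namespace Pool.Agent.Variants.FiniteIsometryClasses

open Pool.Agent.KB Pool.Agent.KBZ Pool.Agent.KBQ Pool.Agent.PIs

/-- The main result, for any family (indexed by `ι`) of blocks. `B i = block 𝔪 (χ i)` is the block of
`χ i ∈ Irr (G i)`. -/
theorem result
    -- the group `E` acts faithfully on the abelian group `D`
    (D E : Type) [CommGroup D] [Finite D] [Group E] [Finite E] [MulDistribMulAction E D]
    (hfaith : ∀ t : E, (∀ v : D, t • v = v) → t = 1)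
    (p : ℕ) (hp : p.Prime) (hep : Nat.card E * (Nat.card E + 3) ≤ p)
    -- a maximal ideal over `p` of the ring of the algebraic integers
    (𝔪 : Ideal AInt) (h𝔪 : 𝔪.IsMaximal) (hp𝔪 : (p : AInt) ∈ 𝔪)
    -- a family of blocks of finite groups
    (ι : Type) (G : ι → Type) [∀ i, Group (G i)] [∀ i, Finite (G i)]
    (χ : ∀ i, G i → ℂ) (hχ : ∀ i, χ i ∈ Irr (G i))
    -- with defect groups isomorphic to `D`
    (δ : ∀ i, D →* G i) (hδ : ∀ i, Function.Injective (δ i))
    (hD : ∀ i, Nat.card D = p ^ defect p (block 𝔪 (χ i)))
    -- `block 𝔪 (ζ i)` is a block of the centralizer of the defect group which induces `B i`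
    (ζ : ∀ i, Subgroup.centralizer ((δ i).range : Set (G i)) → ℂ)
    (hζ : ∀ i, ζ i ∈ Irr (Subgroup.centralizer ((δ i).range : Set (G i))))
    (hind : ∀ i, Induces 𝔪 (Subgroup.centralizer ((δ i).range : Set (G i))) (ζ i) (χ i))
    -- the inertial group acts on the defect group in the same way as `E`
    (h1 : ∀ i, ∀ x : E, ∃ n ∈ inertia 𝔪 (δ i).range (ζ i),
      ∀ v, n * δ i v * n⁻¹ = δ i (x • v))
    (h2 : ∀ i, ∀ n ∈ inertia 𝔪 (δ i).range (ζ i), ∃ x : E,
      ∀ v, n * δ i v * n⁻¹ = δ i (x • v)) :
    -- a map to a set with `N(e)` elements such that blocks with the same image are perfectly isometric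
    ∃ c : ι → Fin ((2 * Nat.card E + 1) ^ (4 ^ Nat.card E * (Nat.card E ^ 3 +
      Nat.card E ^ 2 + 1))), ∀ i j, c i = c j →
        ∃ (I : block 𝔪 (χ i) ≃ block 𝔪 (χ j)) (ε : block 𝔪 (χ i) → ℤ), Perf p 𝔪 I ε := by
  have : Fintype D := Fintype.ofFinite D
  have : Fintype E := Fintype.ofFinite E
  exact Pool.Agent.MSf.FUN2_main hfaith p hp hep 𝔪 h𝔪 hp𝔪 ι G χ hχ δ hδ hD ζ hζ hind h1 h2

end Pool.Agent.Variants.FiniteIsometryClasses
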