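import Pool.Agent.Smj.SM
import Pool.Agent.SWz.Main

/-!
# MP_13664e_an: Moebius disjointness at all points of bounded systems

`T` is a homeomorphism of a compact metric space with bounded topological sequence entropy and only
finitely many ergodic invariant probability measures (in the literature it is known that every
bounded minimal system has this property). `GA T` is the group generated by the (measurable)
eigenvalues of all these measures. Suppose there is `η > 0` such that for every finite set `I` of
elements of infinite order of `GA T` the primes `p` with `exp (2 π i / p)` not in `GA T` and no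
element of `I` a `p`-th power in `GA T` have upper `log log`-density at least `η`.

Then `(1/N) ∑_{n ≤ N} g (T^n x) μ(n) → 0` for all points `x` and all continuous `g`.
-/

set_option autoImplicit false

namespace Pool.Agent.Results.MP_13664e_an.FinitelyManyMeasures

open MeasureTheory Filter Topology Pool.Agent.Sar

/-- The group generated by the eigenvalues of all ergodic invariant probability measures. -/
def GA {X : Type*} [MeasurableSpace X] (T : X → X) : Set ℂ :=
  (Submonoid.closure {l : ℂ | ∃ m : Measure X, IsProbabilityMeasure m ∧ Ergodic T m ∧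
    l ∈ EV m T} : Submonoid ℂ)

/-- The primes which count: `exp (2 π i / p)` is not in `GA T` and no element of `I` is a `p`-th
power of an element of `GA T`. -/
def GP {X : Type*} [MeasurableSpace X] (T : X → X) (I : Finset ℂ) (p : ℕ) : Prop :=
  p.Prime ∧ zt p ∉ GA T ∧ ∀ l ∈ I, ∀ m ∈ GA T, m ^ p ≠ l

open Classical in
theorem result {X : Type*} [MetricSpace X] [CompactSpace X] [MeasurableSpace X] [BorelSpace X]
    (T : X ≃ₜ X) (hB : BddSeqEnt T)
    (hF : {m : Measure X | IsProbabilityMeasure m ∧ Ergodic T m}.Finite)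
    (hG : ∃ η : ℝ, 0 < η ∧ ∀ I : Finset ℂ, (∀ l ∈ I, l ∈ GA T ∧ ¬ Tors l) →
      ∃ᶠ x : ℕ in atTop, η * Real.log (Real.log x) ≤
        ∑ p ∈ (Finset.range x).filter (GP T I), (1 : ℝ) / p)
    (x : X) (g : C(X, ℂ)) :
    Tendsto (fun N : ℕ => (N : ℂ)⁻¹ * ∑ n ∈ Finset.Icc 1 N,
      g ((⇑T)^[n] x) * ((ArithmeticFunction.moebius n : ℤ) : ℂ)) atTop (𝓝 0) := by
  obtain ⟨ν, hν⟩ : ∃ ν : {m : Measure X | IsProbabilityMeasure m ∧ Ergodic T m} → Measure X,
      ν = fun s => s.1 := ⟨_, rfl⟩
  have h1 : ∀ s, IsProbabilityMeasure (ν s) := fun s => by rw [hν]; exact s.2.1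
  have h2 : ∀ s, Ergodic T (ν s) := fun s => by rw [hν]; exact s.2.2
  have h3 : Finite {m : Measure X | IsProbabilityMeasure m ∧ Ergodic T m} := hF.to_subtype
  have h4 : ∀ m : Measure X, IsProbabilityMeasure m → Ergodic T m → ∃ s, m = ν s := fun m ha hb =>
    ⟨⟨m, ha, hb⟩, by rw [hν]⟩
  have h5 : Pool.Agent.Smj.GE ν T = GA T := by
    unfold Pool.Agent.Smj.GE GA
    congr 2
    ext l
    rw [Set.mem_iUnion, Set.mem_ofPred_eq]
    constructor
    · rintro ⟨s, hs⟩
      exact ⟨ν s, h1 s, h2 s, hs⟩
    · rintro ⟨m, ha, hb, hc⟩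
      obtain ⟨s, rfl⟩ := h4 m ha hb
      exact ⟨s, hc⟩
  refine Pool.Agent.Smj.SM (ν := ν) Pool.Agent.SWz.swlam T hB h2 h4 ?_ x g
  obtain ⟨η, hη, hG⟩ := hG
  refine ⟨η, hη, fun I hI => ?_⟩
  refine (hG I (fun l hl => by have := hI l hl; rwa [h5] at this)).mono fun y hy =>
    le_of_le_of_eq hy ?_
  refine Finset.sum_congr ?_ fun _ _ => rfl
  refine Finset.filter_congr fun p _ => ?_
  unfold GP Pool.Agent.Smj.GG
  rw [h5]
  refine and_congr_right fun _ => and_congr_right fun _ => forall_congr' fun l =>
    forall_congr' fun _ => ?_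
  push Not
  rfl

end Pool.Agent.Results.MP_13664e_an.FinitelyManyMeasures
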