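import Pool.Agent.Fdf.Main

/-!
# Blocks with abelian defect groups and a free action of the inertial quotient

Let `B` be a `p`-block of a finite group `G` with an abelian defect group `D`. Let `b` be a block of `C_G(D)`
with `b^G = B`, `T` its inertial group in `N_G(D)`, `E = T / C_G(D)` the inertial quotient, a group of automorphisms
of `D`, and `c = b^{N_G(D)}` the Brauer correspondent of `B`; for `S ≤ D` let `b_S = b^{C_G(S)}` and
`c_S = b^{C_G(S) ∩ N_G(D)}` (this is the Brauer correspondent of `b_S`). Suppose that

* every `x ∈ D` is fixed by `E` or has a trivial stabilizer in `E` (that is, `E` acts freely on `[D, E] \ {1}`, where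
  `D = C_D(E) × [D, E]`; for example `E` acts freely on `D \ {1}`), and
* the index of the center of `E` is odd.

Here `p` is any prime (`|E|` is odd if `p = 2`) and `E` is any finite group, for example any group of odd order. Then

* `l(B) = l(c)`, the number of the conjugacy classes of `E` (Alperin's weight conjecture for `B`);
* `k(B) = k(c) = k(D ⋊ E)`;
* `l(b_S) = l(c_S) = k(C_E(S))` and `k(b_S) = k(c_S)` for all `S ≤ D`.

There is no bound for `p` or `|E|`, and the classification of the finite simple groups is not used.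

The proof. (A) Reduction. Let `Z = C_D(E)`. No generalized decomposition vector `d^v χ` is zero, so by the orthogonality
relations for `χ` and `λ * χ`, for the characters `λ ≠ 1` of `Z` (extended to `D`), the Fourier coefficients of the
function `z ↦ l(b_⟨R, z⟩)` on `Z` vanish for `λ ≠ 1`; so `l(b_R) = l(b_Z)` for all `R ≤ Z`. The block `b_Z` dominates a
block of `C_G(Z) / Z` with the same number of simple modules, the defect group `D / Z` and the inertial quotient `E`. So
let `E` act freely on `D \ {1}`. Then all Sylow subgroups of `E` are cyclic, as `|E : Z(E)|` is odd.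

(B) Let `k` be an algebraic closure of the field with `p` elements, and `c = k[D ⋊ E]`. The block algebra is Morita
equivalent to an algebra `A` which contains `c`, such that `A / c` is a projective `c`-bimodule (Puig; this is a stable
equivalence). Let `x_t` be coordinates of `k D = k[x_t] / (x_t ^ (q_t))` on which `E` acts linearly; weights for the `x_t`
give a grading of `c`, and there is a grading of `A` by rational numbers which extends it. There are weights and a
permutation `φ` such that the relations `x_t ^ (q_t) = x_(φ t)` define a filtered deformation of `c`, of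
drop `n r_t > 0`: the algebra of the functions on a set `Y` with `|D|` elements, with an action of `E`. The sum of the
`r_t` can be chosen odd: this is the only place where the index of the center is used.

(C) The deformation of `c` extends to a filtered deformation `A_1` of `A` of drop `n`: the obstruction to the
associativity is killed by the relative Casimir element. `A_1` is semisimple: the trace form of the left multiplications over
the semisimple algebra of functions on `Y` has as its leading part a symmetrizing form of `A`. Since `A_1` is an algebra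
filtered by `ℤ / n`, the graded Cartan matrix `C_A(s)` (the coefficient of `v ^ d` is multiplied with `exp(i s d)`) is
positive semidefinite for `s = 2 π j / n`.

(D) `H_A(s) = exp(-i s N / 2) C_A(s)`, `N` the degree of the symmetrizing form, is hermitian, and the signature of `H_A(s)`
minus the signature of `H_c(s)` does not depend on `s`: it is `l(A) - l(c)`. At `s = 2 π / n` both forms are negative, as
`N / n` is the sum of the `r_t`. So `l(A) - l(c) = -(l(A) - l(c))`, and `l(A) = l(c)`, the number of the simple
modules of `k E`.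
-/

set_option autoImplicit false

namespace Pool.Agent.Variants.FreeAction

open Pool.Agent.KB Pool.Agent.KBZ Pool.Agent.KBQ

/-- The inertial quotient `E = T / C_G(D)` as a group of automorphisms of `D`. -/
def InertialQuotient {G : Type} [Group G] (𝔪 : Ideal AInt) (D : Subgroup G)
    (ζ : Subgroup.centralizer (D : Set G) → ℂ) : Subgroup (MulAut D) :=
  Subgroup.closure {α | ∃ g ∈ inertia 𝔪 D ζ, ∀ x : D, (α x : G) = g * x * g⁻¹}

/-- Every `x ∈ D` is fixed by `E` or has a trivial stabilizer in `E`. -/
def ActsFreely {D : Type} [Group D] (E : Subgroup (MulAut D)) : Prop :=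
  ∀ x : D, (∀ α ∈ E, α x = x) ∨ ∀ α ∈ E, α x = x → α = 1

/-- The centralizer `C_E(S)` of `S ≤ D` in `E`. -/
def Fixer {G : Type} [Group G] {D : Subgroup G} (E : Subgroup (MulAut D)) (S : Subgroup G) :
    Subgroup (MulAut D) :=
  E ⊓ ⨅ x : {x : D // (x : G) ∈ S}, MulAction.stabilizer (MulAut D) (x : D)

/-- The main result. `B = block 𝔪 χ` is the block of `χ ∈ Irr G`, `b = block 𝔪 ζ` is the block of
`ζ ∈ Irr (C_G(D))`, `E = InertialQuotient 𝔪 D ζ`. -/
theorem result (G : Type) [Group G] [Finite G] (p : ℕ) (hp : p.Prime)
    -- a maximal ideal over `p` of the ring of the algebraic integers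
    (𝔪 : Ideal AInt) (h𝔪 : 𝔪.IsMaximal) (hp𝔪 : (p : AInt) ∈ 𝔪)
    (χ : G → ℂ) (hχ : χ ∈ Irr G)
    -- `D` is an abelian defect group of `B`, `b` is a block of its centralizer with `b^G = B`
    (D : Subgroup G) (hab : ∀ a ∈ D, ∀ b ∈ D, a * b = b * a)
    (hD : Nat.card D = p ^ defect p (block 𝔪 χ))
    (ζ : Subgroup.centralizer (D : Set G) → ℂ)
    (hζ : ζ ∈ Irr (Subgroup.centralizer (D : Set G)))
    (hind : Induces 𝔪 (Subgroup.centralizer (D : Set G)) ζ χ)
    -- every `x ∈ D` is fixed by `E` or has a trivial stabilizer in `E`, and `|E : Z(E)|` is odd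
    (hfree : ActsFreely (InertialQuotient 𝔪 D ζ))
    (hodd : Odd (Subgroup.center (InertialQuotient 𝔪 D ζ)).index) :
    -- `l(B) = k(E)`, `k(B) = k(D ⋊ E)`
    ell p (block 𝔪 χ) = Nat.card (ConjClasses (InertialQuotient 𝔪 D ζ)) ∧
    (block 𝔪 χ).ncard = Nat.card (ConjClasses
      (D ⋊[(InertialQuotient 𝔪 D ζ).subtype] InertialQuotient 𝔪 D ζ)) ∧
    -- `l(b_S) = k(C_E(S))`
    (∀ S : Subgroup G, S ≤ D → ∀ η ∈ Irr (Subgroup.centralizer (S : Set G)),
      Induces 𝔪 ((Subgroup.centralizer (D : Set G)).subgroupOf
        (Subgroup.centralizer (S : Set G))) (fun y => ζ ⟨y.1.1, y.2⟩) η →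
      ell p (block 𝔪 η) = Nat.card (ConjClasses (Fixer (InertialQuotient 𝔪 D ζ) S))) ∧
    -- `l(B) = l(c)`, `k(B) = k(c)` for the Brauer correspondent `c = block 𝔪 ψ`
    (∀ ψ ∈ Irr (Subgroup.normalizer (D : Set G)),
      Induces 𝔪 ((Subgroup.centralizer (D : Set G)).subgroupOf
        (Subgroup.normalizer (D : Set G))) (fun y => ζ ⟨y.1.1, y.2⟩) ψ →
      ell p (block 𝔪 χ) = ell p (block 𝔪 ψ) ∧ (block 𝔪 χ).ncard = (block 𝔪 ψ).ncard) ∧
    -- `l(b_S) = l(c_S)`, `k(b_S) = k(c_S)`
    (∀ S : Subgroup G, S ≤ D → ∀ η ∈ Irr (Subgroup.centralizer (S : Set G)),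
      Induces 𝔪 ((Subgroup.centralizer (D : Set G)).subgroupOf
        (Subgroup.centralizer (S : Set G))) (fun y => ζ ⟨y.1.1, y.2⟩) η →
      ∀ η' ∈ Irr (Subgroup.centralizer (S : Set G) ⊓ Subgroup.normalizer (D : Set G) :
        Subgroup G),
      Induces 𝔪 ((Subgroup.centralizer (D : Set G)).subgroupOf
        (Subgroup.centralizer (S : Set G) ⊓ Subgroup.normalizer (D : Set G)))
        (fun y => ζ ⟨y.1.1, y.2⟩) η' →
      ell p (block 𝔪 η) = ell p (block 𝔪 η') ∧ (block 𝔪 η).ncard = (block 𝔪 η').ncard) := by
  obtain ⟨⟨g1, g2, g3⟩, g4, g5⟩ := Pool.Agent.Fdf.free_num Pool.Agent.Fdf.algF G p hp 𝔪 h𝔪 hp𝔪 χ hχ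
    D hab hD ζ hζ hind hfree hodd
  refine ⟨g1, g2, fun S hS η hη hi => ?_, g4, g5⟩
  have h6 : Fixer (InertialQuotient 𝔪 D ζ) S =
      Pool.Agent.MkS.fixr (InertialQuotient 𝔪 D ζ) S := by
    ext α
    unfold Fixer
    rw [Subgroup.mem_inf, Subgroup.mem_iInf]
    refine and_congr_right fun _ => ⟨fun h x hx => ?_, fun h x => ?_⟩
    · exact MulAction.mem_stabilizer_iff.1 (h ⟨x, hx⟩)
    · exact MulAction.mem_stabilizer_iff.2 (h x.1 x.2)
  rw [h6]
  exact g3 S hS η hη hi

end Pool.Agent.Variants.FreeAction
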