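import Pool.Agent.MSf.FIX
import Pool.Agent.MSf.ThK

/-!
# Blocks with abelian defect group and abelian inertial quotient free on a stable subgroup

Let `p` be any prime and `B` a `p`-block of a finite group `G` with an abelian defect group `D`. Let `b` be a
block of `C_G(D)` with `b^G = B`, `T` its inertial group in `N_G(D)`, `E = T / C_G(D)` the inertial quotient,
`c = b^{N_G(D)}` the Brauer correspondent of `B` and `b_S = b^{C_G(S)}` for `S ≤ D`. Suppose that

* `E` is abelian and acts freely on `V \ {1}` for some `T`-stable subgroup `V ≠ 1` of `D`, or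
* `D ≠ 1` and `E` is cyclic of prime power order.

Then `l(B) = |E|`, `|E| k(B) = ∑_{x ∈ D} |C_E(x)| ^ 2`, `l(b_S) = |C_E(S)|` for all `S ≤ D`, `l(B) = l(c)` and
`k(B) = k(c)`. If moreover `|E|` has at most two prime divisors, or if among any three of the centralizers
`C_E(x)`, `x ∈ D`, two are comparable, then `B` and `c` are isotypic (in the sense of Broué: there are
compatible perfect isometries between `b_S` and its Brauer correspondent for all `S ≤ D`); moreover `B` is
isotypic to every block of every finite group with the same defect group and the same action of the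
inertial quotient (for example to `D ⋊ E`).

The proof has two parts. Theorem K (libraries `KT`, `KtU`, `BrZ`): the dimension of the centre of the block
algebra; lower bound: a signature argument with the interior `D`-algebra structure (Puig), upper bound: an
orbit count. Theorem ISO (libraries `Isk`, `Ity`): by induction over the subgroups of `D` the generalized
decomposition numbers of the blocks `b_S` are those of `D ⋊ E`, up to isometries. The classification of the
finite simple groups is not used.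
-/

set_option autoImplicit false

namespace Pool.Agent.Variants.FreeInertialQuotient

open Pool.Agent.KB Pool.Agent.KBZ Pool.Agent.KBQ Pool.Agent.PIs Pool.Agent.MSf Pool.Agent.Ity

/-- Of the centralizers of `x` and `y` in the inertial group `T` one contains the other. -/
def Comparable {G : Type} [Group G] (𝔪 : Ideal AInt) (D : Subgroup G)
    (ζ : Subgroup.centralizer (D : Set G) → ℂ) (x y : G) : Prop :=
  (∀ g ∈ inertia 𝔪 D ζ, g * x = x * g → g * y = y * g) ∨
    (∀ g ∈ inertia 𝔪 D ζ, g * y = y * g → g * x = x * g)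

/-- Isotypy of `B = block 𝔪 χ` with its Brauer correspondent `c = block 𝔪 ψ`: compatible perfect isometries
between the blocks of `C_G(S)` and `C_G(S) ⊓ N_G(D)` induced by the block of `ζ`, for all `S ≤ D`. For
`S = 1` these are the blocks `B` and `c`. -/
def IsotypicCorr (G : Type) [Group G] [Finite G] (p : ℕ) (𝔪 : Ideal AInt) (χ : G → ℂ)
    (D : Subgroup G) (ζ : Subgroup.centralizer (D : Set G) → ℂ) : Prop :=
  ∀ ψ ∈ Irr (Subgroup.normalizer (D : Set G)),
    Induces 𝔪 ((Subgroup.centralizer (D : Set G)).subgroupOf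
      (Subgroup.normalizer (D : Set G))) (fun y => ζ ⟨y.1.1, y.2⟩) ψ →
    LB 𝔪 D ζ (Subgroup.centralizer ((⊥ : Subgroup G) : Set G)) = block 𝔪 χ ∧
    LB 𝔪 D ζ (Subgroup.centralizer ((⊥ : Subgroup G) : Set G) ⊓
      Subgroup.normalizer (D : Set G)) =
        {f | (∀ g, g ∉ Subgroup.normalizer (D : Set G) → f g = 0) ∧
          (fun y : Subgroup.normalizer (D : Set G) => f y) ∈ block 𝔪 ψ} ∧
    ∃ I ε, Isot p 𝔪 D ζ D ζ D.subtype (fun S => Subgroup.centralizer (S : Set G))
      (fun S => Subgroup.centralizer (S : Set G) ⊓ Subgroup.normalizer (D : Set G)) I ε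

/-- Isotypy of `B = block 𝔪 χ` with every block `block 𝔪 χ'` of every finite group `G'` with a defect group
`D'` isomorphic to `D` and the same action of the inertial quotient. -/
def IsotypicAll (G : Type) [Group G] [Finite G] (p : ℕ) (𝔪 : Ideal AInt) (χ : G → ℂ)
    (D : Subgroup G) (ζ : Subgroup.centralizer (D : Set G) → ℂ) : Prop :=
  ∀ (G' : Type) [Group G'] [Finite G'] (χ' : G' → ℂ), χ' ∈ Irr G' →
    ∀ D' : Subgroup G', Nat.card D' = p ^ defect p (block 𝔪 χ') →
    ∀ ζ' : Subgroup.centralizer (D' : Set G') → ℂ,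
      ζ' ∈ Irr (Subgroup.centralizer (D' : Set G')) →
      Induces 𝔪 (Subgroup.centralizer (D' : Set G')) ζ' χ' →
    ∀ φ : D ≃* D',
      (∀ g ∈ inertia 𝔪 D ζ, ∃ g' ∈ inertia 𝔪 D' ζ', ∀ x y : D,
        (y : G) = g * x * g⁻¹ → (φ y : G') = g' * φ x * g'⁻¹) →
      (∀ g' ∈ inertia 𝔪 D' ζ', ∃ g ∈ inertia 𝔪 D ζ, ∀ x y : D,
        (y : G) = g * x * g⁻¹ → (φ y : G') = g' * φ x * g'⁻¹) →
      LB 𝔪 D ζ (Subgroup.centralizer ((⊥ : Subgroup G) : Set G)) = block 𝔪 χ ∧
      LB 𝔪 D' ζ' (Subgroup.centralizer ((⊥ : Subgroup G') : Set G')) = block 𝔪 χ' ∧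
      ∃ I ε, Isot p 𝔪 D ζ D' ζ' (D'.subtype.comp φ.toMonoidHom)
        (fun S => Subgroup.centralizer (S : Set G))
        (fun S => Subgroup.centralizer
          ((S.subgroupOf D).map (D'.subtype.comp φ.toMonoidHom) : Set G')) I ε

/-- The main result. `B = block 𝔪 χ` is the block of `χ ∈ Irr G`, `b = block 𝔪 ζ` is the block of
`ζ ∈ Irr (C_G(D))`, `T = inertia 𝔪 D ζ`. -/
theorem result (G : Type) [Group G] [Finite G] (p : ℕ) (hp : p.Prime)
    -- a maximal ideal over `p` of the ring of the algebraic integers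
    (𝔪 : Ideal AInt) (h𝔪 : 𝔪.IsMaximal) (hp𝔪 : (p : AInt) ∈ 𝔪)
    (χ : G → ℂ) (hχ : χ ∈ Irr G)
    -- `D` is an abelian defect group of `B`, `b` is a block of its centralizer with `b^G = B`
    (D : Subgroup G) (hab : ∀ a ∈ D, ∀ b ∈ D, a * b = b * a)
    (hD : Nat.card D = p ^ defect p (block 𝔪 χ))
    (ζ : Subgroup.centralizer (D : Set G) → ℂ)
    (hζ : ζ ∈ Irr (Subgroup.centralizer (D : Set G)))
    (hind : Induces 𝔪 (Subgroup.centralizer (D : Set G)) ζ χ)
    (hE :
      -- the inertial quotient is abelian and free on `V \ {1}`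
      ((∀ g ∈ inertia 𝔪 D ζ, ∀ h ∈ inertia 𝔪 D ζ,
          g * h * g⁻¹ * h⁻¹ ∈ Subgroup.centralizer (D : Set G)) ∧
        ∃ V : Subgroup G, V ≠ ⊥ ∧ V ≤ D ∧ (∀ g ∈ inertia 𝔪 D ζ, ∀ x ∈ V, g * x * g⁻¹ ∈ V) ∧
          ∀ g ∈ inertia 𝔪 D ζ, ∀ x ∈ V, x ≠ 1 → g * x = x * g →
            g ∈ Subgroup.centralizer (D : Set G)) ∨
      -- or `D ≠ 1` and the inertial quotient is cyclic of prime power order
      (D ≠ ⊥ ∧ (∃ g₀ ∈ inertia 𝔪 D ζ, ∀ g ∈ inertia 𝔪 D ζ, ∃ k : ℕ,
          g₀ ^ k * g⁻¹ ∈ Subgroup.centralizer (D : Set G)) ∧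
        ∃ r n : ℕ, r.Prime ∧ Nat.card (inertia 𝔪 D ζ) =
          r ^ n * Nat.card (Subgroup.centralizer (D : Set G)))) :
    -- `l(B) = |E|`
    (ell p (block 𝔪 χ) * Nat.card (Subgroup.centralizer (D : Set G)) =
      Nat.card (inertia 𝔪 D ζ) ∧
    -- `|E| k(B) = ∑ |C_E(x)| ^ 2`
    (block 𝔪 χ).ncard * Nat.card (inertia 𝔪 D ζ) *
        Nat.card (Subgroup.centralizer (D : Set G)) =
      ∑ᶠ x : D, Nat.card {g : G // g ∈ inertia 𝔪 D ζ ∧ g * x = x * g} ^ 2 ∧
    -- `l(b_S) = |C_E(S)|`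
    (∀ S : Subgroup G, S ≤ D → ∀ η ∈ Irr (Subgroup.centralizer (S : Set G)),
      Induces 𝔪 ((Subgroup.centralizer (D : Set G)).subgroupOf
        (Subgroup.centralizer (S : Set G))) (fun y => ζ ⟨y.1.1, y.2⟩) η →
      ell p (block 𝔪 η) * Nat.card (Subgroup.centralizer (D : Set G)) =
        Nat.card {g : G // g ∈ inertia 𝔪 D ζ ∧ ∀ x ∈ S, g * x = x * g}) ∧
    -- `l(B) = l(c)`, `k(B) = k(c)`
    (∀ ψ ∈ Irr (Subgroup.normalizer (D : Set G)),
      Induces 𝔪 ((Subgroup.centralizer (D : Set G)).subgroupOf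
        (Subgroup.normalizer (D : Set G))) (fun y => ζ ⟨y.1.1, y.2⟩) ψ →
      ell p (block 𝔪 χ) = ell p (block 𝔪 ψ) ∧ (block 𝔪 χ).ncard = (block 𝔪 ψ).ncard)) ∧
    -- if `|E|` has at most two prime divisors, or among any three `C_E(x)` two are comparable:
    (((∃ q r a b : ℕ, q.Prime ∧ r.Prime ∧ Nat.card (inertia 𝔪 D ζ) =
        q ^ a * r ^ b * Nat.card (Subgroup.centralizer (D : Set G))) ∨
      ∀ x ∈ D, ∀ y ∈ D, ∀ z ∈ D,
        Comparable 𝔪 D ζ x y ∨ Comparable 𝔪 D ζ y z ∨ Comparable 𝔪 D ζ x z) →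
    -- `B` is isotypic to `c` and to all the blocks with the same `D` and the same action of `E`
    IsotypicCorr G p 𝔪 χ D ζ ∧ IsotypicAll G p 𝔪 χ D ζ) :=
  FIX_main thmK G p hp 𝔪 h𝔪 hp𝔪 χ hχ D hab hD ζ hζ hind hE

end Pool.Agent.Variants.FreeInertialQuotient
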