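import Pool.Agent.SigO.OBlk

/-!
# Blocks with abelian defect groups and abelian Frobenius inertial quotients

Let `k` be an algebraically closed field of characteristic `p`, `b` a block of `k G` with an abelian
defect group `D`, `(D, c)` a Brauer pair of `b`, `T = inertial D c` the stabilizer of `(D, c)` in `G`
and `E = T / C_G(D)`. If `E` is abelian and acts freely on `D ∖ {1}` then the block `b` has exactly
`|E|` simple modules, and its centre has dimension `|E| + (|D| - 1) / |E|`.
-/

set_option autoImplicit false

namespace Pool.Agent.Variants.FrobeniusAlperin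

open Pool.Agent.UBlocks Pool.Agent.SigB

/-- The main result. -/
theorem result (k : Type) [Field k] [IsAlgClosed k] (p : ℕ) [Fact p.Prime] [CharP k p]
    (G : Type) [Group G] [Finite G]
    -- `b` is a block of `k G` with the abelian defect group `D`
    (b : MonoidAlgebra k G) (hb : IsBlk b) (D : Subgroup G) (hp : IsPGroup p D)
    (hab : ∀ x ∈ D, ∀ y ∈ D, x * y = y * x) (htr : TrFrom b D)
    -- `c` is a block of `k C_G(D)` with `c Br_D(b) = c`
    (c : MonoidAlgebra k (Subgroup.centralizer (D : Set G))) (hc : IsBlk c)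
    (hbc : c * brD D b = c)
    -- the inertial quotient `E = T / C_G(D)` is abelian and acts freely on `D ∖ {1}`
    (hcomm : ∀ g ∈ inertial D c, ∀ h ∈ inertial D c,
      g * h * g⁻¹ * h⁻¹ ∈ Subgroup.centralizer (D : Set G))
    (hfree : ∀ g ∈ inertial D c, ∀ x ∈ D, x ≠ 1 → g * x = x * g →
      g ∈ Subgroup.centralizer (D : Set G)) :
    -- a complete list of the simple modules of `b`, indexed by `|E| = [T : C_G(D)]`
    (∃ V : Fin ((Subgroup.centralizer (D : Set G)).relIndex (inertial D c)) →
        ModuleCat.{0} (MonoidAlgebra k G),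
      (∀ i, IsSimpleModule (MonoidAlgebra k G) (V i)) ∧ (∀ i, ∀ v : V i, b • v = v) ∧
      (∀ i j, Nonempty (V i ≃ₗ[MonoidAlgebra k G] V j) → i = j) ∧
      ∀ M : ModuleCat.{0} (MonoidAlgebra k G), IsSimpleModule (MonoidAlgebra k G) M →
        (∀ v : M, b • v = v) → ∃ i, Nonempty (M ≃ₗ[MonoidAlgebra k G] V i)) ∧
    -- the dimension of the centre of `k G b`
    ∀ Z : Submodule k (MonoidAlgebra k G), (∀ z, z ∈ Z ↔ (∀ x, z * x = x * z) ∧ z * b = z) →
      Module.finrank k Z = (Subgroup.centralizer (D : Set G)).relIndex (inertial D c) +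
        (Nat.card D - 1) / (Subgroup.centralizer (D : Set G)).relIndex (inertial D c) :=
  Pool.Agent.SigO.final_eq k p G b hb D hp hab htr c hc hbc hcomm hfree

end Pool.Agent.Variants.FrobeniusAlperin
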