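import Pool.Agent.CG3F.Transfer

/-!
# The Calegari-Geraghty vanishing conjecture for `GL₃` over `ℚ`

For `G = GL₃` over `ℚ` one has `d_Y = 5`, `ℓ₀ = 1` and `q₀ = 2`. For every level `K_f`, every prime
`p`, every local system `W` and every non-Eisenstein maximal ideal `m` of the Hecke algebra, the
localisation at `m` of the cohomology of `Y(K_f)` is concentrated in the degrees `2` and `3`.
-/

open Pool.Agent.CG3F in
theorem Pool.Agent.Results.MP_34be05_nt.GL3Vanishing.result
    (p : P) (S : Finset P) (L : Level p S) (hTF : L.TorsionFree)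
    (O : Type) [CommRing O] [IsDomain O] [IsDiscreteValuationRing O]
    (hpO : ((p : ℕ) : O) ∈ IsLocalRing.maximalIdeal O)
    (W : Type) [AddCommGroup W] [Module O W] [Module.Finite O W]
    (σ : Representation O L.Kp W) (hσ : IsContinuousRep L σ)
    (m : Ideal (HeckeAlg S O)) [m.IsMaximal]
    (k : Type) [Field k] [Algebra (HeckeAlg S O ⧸ m) k]
    (ρ : GalQ →* GL (Fin 3) k) (hatt : Attached m k ρ) (hne : NonEisenstein ρ)
    (i : ℕ) (hm : InSupport L σ i m) : 2 ≤ i ∧ i ≤ 3 :=
  main p S L hTF O hpO W σ hσ m k ρ hatt hne i hm
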