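import Pool.Agent.GsF.Fs

/-!
# Polynomial sequences of systems whose tail is Gaussian have a unique, Bernoulli, Furstenberg system

`(Y, ν, S)` is an invertible measure preserving system with an exhausting sub-sigma-algebra `A`
(`S⁻¹ A ⊆ A`, the `Sⁿ A` generate everything mod `ν`); its tail, the sets which lie mod `ν` in every
`S⁻ⁿ A`, comes from a factor `(Z, ζ, Q)`, which is also a factor of an ergodic Gaussian system
`(W, ω, R)`, generated by Gaussian variables `X_i ∘ Rⁿ`. Nothing is assumed on the spectral measures
(they are continuous because `R` is ergodic). Then for every integer polynomial `p` of degree at least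
two, every bounded measurable `g` and almost every `y` the sequence `g (S^(p n) y)` has a unique
Furstenberg system, the Bernoulli shift with the law of `g`.

With `A` the whole sigma-algebra, `Y = Z = W` this is the case of all ergodic Gaussian systems, also of
entropy zero. The case of a trivial factor `Z` is that of the K-systems (Derrien and Lesigne).

Proof: for the generating variables and trigonometric polynomials in them the correlations
`∏ f_i ∘ S^(p (n + i))` are compared with a product of the system with itself (Gaussian domination): by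
the identity `(k + 1) ∑ |x_j|² = |∑ x_j|² + (1/2) ∑ |x_i - x_j|²` the variance of a Gaussian
exponential sum is dominated by the variance of an exponential sum in independent copies, to which
Bourgain's pointwise ergodic theorem in `L²` on the moment curve (formalised here from scratch, by the
inverse form of Weyl's inequality) applies. The passage from the tail to everything is by orthogonality.
-/

set_option autoImplicit false

namespace Pool.Agent.Results.MP_931127_an.GaussianSystems

open MeasureTheory Pool.Agent.GsF

theorem result {Y Z W : Type*} (A : MeasurableSpace Y) [MeasurableSpace Y] [MeasurableSpace Z]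
    [MeasurableSpace W] (ν : Measure Y) [IsProbabilityMeasure ν] (S : Y ≃ᵐ Y) (hA : Exh A ν S)
    (ζ : Measure Z) (Q : Z ≃ᵐ Z) (ρ : Y → Z) (hρ : Fac ν S ζ Q ρ)
    (htail : ∀ D : Set Y, MeasurableSet D →
      (∀ n : ℤ, ∃ D' : Set Y, MeasurableSet[Al A S n] D' ∧ D =ᵐ[ν] D') →
      ∃ E : Set Z, MeasurableSet E ∧ D =ᵐ[ν] ρ ⁻¹' E)
    (ω : Measure W) (R : W ≃ᵐ W) (X : ℕ → W → ℝ) (hW : GSys ω R X)
    (π : W → Z) (hπ : Fac ω R ζ Q π)
    (p : Polynomial ℤ) (hp : 2 ≤ p.natDegree)
    (C : ℝ) (hC : 0 ≤ C) (g : Y → ℂ) (hg : Measurable g) (hgC : ∀ y, ‖g y‖ ≤ C) :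
    ∀ᵐ y ∂ν, UniqueFurstenberg C
      (seqPt C hC (fun n => g (pw S (p.eval (n : ℤ)) y)) (fun _ => hgC _))
      (Measure.infinitePi (fun _ : ℤ =>
        ν.map (fun y => (⟨g y, by simpa using hgC y⟩ : Metric.closedBall (0 : ℂ) C)))) :=
  furst_final S p C hC g hg hgC fun k f hf ⟨B, hB⟩ =>
    corr hW hA hρ hπ htail p hp k f hf B hB

end Pool.Agent.Results.MP_931127_an.GaussianSystems
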