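import Pool.Agent.Grd.Main

/-!
# L-functions of motives cut out by finite groups: grid graphs

A `GridGraph` is a finite set `S` of points of `ℤ²` such that the induced subgraph of the square lattice is
connected: the vertices are the points of `S`, and `a`, `b` in `S` are joined by an edge if `b = a + (1, 0)` or
`b = a + (0, 1)`.  Its `count` is the number of zeros over finite fields of its first Symanzik polynomial
`∑_T ∏_{e ∉ T} y_e`, the sum over the spanning trees `T`.

A `Datum` is a projective scheme `X` over `ℤ` with an action of a finite group `G` by permutations of the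
homogeneous coordinates, and an integral representation `V` of `G`; its `count` is the function
`N(q) = |G|⁻¹ ∑_g tr (g | V) #{x ∈ X : Frob_q x = g x}`.

For every finite sum `f = ∑_j a_j q^(e_j) N_j` and every prime `p ≥ 5` every weight part of `f` at `p` is, up to
powers of `q`, an explicit integral combination of weight parts at `p` of the point counts of the graph
hypersurfaces of finitely many grid graphs and of a power of `q`; in particular its Euler product has a
meromorphic continuation (with any Euler factors at a finite set `S` of primes) if the Euler products of the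
weight parts of these hypersurfaces have one.
-/

set_option autoImplicit false

open scoped BigOperators

namespace Pool.Agent.Variants.GridGraphs

open Pool.Agent.HGC Pool.Agent.HGM Pool.Agent.GPM Pool.Agent.KGU Pool.Agent.PLN Pool.Agent.Grd

theorem result (t : ℕ) (X : Fin t → Datum) (a : Fin t → ℤ) (e : Fin t → ℕ) :
    ∃ (K N : ℕ) (G : Fin N → GridGraph) (c : Fin N → ℤ) (d : Fin N → ℕ) (κ : ℤ → ℤ),
      (∀ i, Odd i → κ i = 0) ∧
      ∀ (μ : Nat.Primes → ℂ →₀ ℤ) (ν : Fin N → Nat.Primes → ℂ →₀ ℤ),
        IsSpectrum (fun p r => ∑ j, (a j : ℂ) * (((p : ℕ) : ℂ) ^ r) ^ e j * (X j).count p r) μ →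
        (∀ k, IsSpectrum (G k).count (ν k)) →
        (∀ w : ℤ, 0 ≤ w → ∀ p : Nat.Primes, (p : ℕ) ≠ 2 → (p : ℕ) ≠ 3 → ∀ r : ℕ, 1 ≤ r →
          (((p : ℕ) : ℂ) ^ r) ^ K * weightPart μ w p r =
            (κ w : ℂ) * ((((p : ℕ) : ℂ) ^ r) ^ K * (((p : ℕ) : ℂ) ^ (w / 2)) ^ r) +
            ∑ k, (c k : ℂ) * ((((p : ℕ) : ℂ) ^ r) ^ d k *
              weightPart (ν k) (w + 2 * K - 2 * d k) p r)) ∧
        ∀ (S : Set Nat.Primes) (φ : PF), S.Finite →
          Continues (fun p r => open Classical in if p ∈ S then φ p r else 0) →
          (∀ k w, Continues (lfun S (fun _ _ => 0) (ν k) w 0)) →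
          ∀ i m : ℤ, 0 ≤ i → Continues (lfun S φ μ i m) :=
  family_main' hg_grid t X a e

end Pool.Agent.Variants.GridGraphs
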