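import Pool.Agent.SRC.Inf

/-!
# The single random current percolates in high dimension

For every `ε > 0` there is `d₀` such that for all `d ≥ d₀` and all `β ≥ (1 + ε) / (2 d)` the single sourceless
random current on `ℤ^d` (limit of the boxes `[-L, L]^d` with free boundary conditions) has an infinite cluster at
the origin with positive probability.  As `β_c(d) ≥ 1 / (2 d)`, this covers all `β ≥ (1 + ε) β_c(d)`.

Idea: the trace is the union of the loop O(1) configuration `η` and of independent sprinkling `ξ` of density of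
order `1 / d²`.  Adding a pair of vertices to the sources changes the partition function at most by the inverse
of their correlation (Griffiths), and correlations are at least the connection probabilities of Bernoulli
percolation of parameter `tanh β`.  This gives second moment bounds for paths in `η` for ALL source sets, hence
conditionally on the rest of the configuration; in blocks of side `ℓ` the clusters of size `d^8` are adjacent
to almost all vertices, and sprinkling merges them.  A hierarchical argument in two coordinate directions uses only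
the product bounds given by the domain Markov property.
-/

set_option autoImplicit false

open Filter MeasureTheory

namespace Pool.Agent.Results.MP_a85618_pr.HighDimension

/-- Vertices of the lattice `ℤ^d`. -/
abbrev Vertex (d : ℕ) := Fin d → ℤ

/-- Nearest-neighbour edges of `ℤ^d`: the pair `(v, i)` stands for the edge joining `v` and `v + e_i`, so that
every edge is listed exactly once. -/
abbrev Edge (d : ℕ) := (Fin d → ℤ) × Fin d

/-- The endpoint `v + e_i` of the edge `(v, i)`; the other endpoint is `v`. -/
def head {d : ℕ} (e : Edge d) : Vertex d := e.1 + Pi.single e.2 1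

open Classical in
/-- The edges with both endpoints in the box `[-L, L]^d`. -/
noncomputable def boxEdges (d L : ℕ) : Finset (Edge d) :=
  (Finset.Icc (fun _ : Fin d => -(L : ℤ)) (fun _ : Fin d => (L : ℤ)) ×ˢ
    (Finset.univ : Finset (Fin d))).filter
      (fun e => head e ∈ Finset.Icc (fun _ : Fin d => -(L : ℤ)) (fun _ : Fin d => (L : ℤ)))

open Classical in
/-- Extension by zero of a current on the finite edge set `E` to all edges. -/
noncomputable def extend {d : ℕ} (E : Finset (Edge d)) (n : E → ℕ) : Edge d → ℕ :=
  fun e => if h : e ∈ E then n ⟨e, h⟩ else 0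

open Classical in
/-- The current `n` on `E` has no sources: at every vertex `v` the sum of `n` over the edges of `E` incident
to `v` is even. -/
def Sourceless {d : ℕ} (E : Finset (Edge d)) (n : E → ℕ) : Prop :=
  ∀ v : Vertex d, Even (∑ e : E, if (e : Edge d).1 = v ∨ head (e : Edge d) = v then n e else 0)

/-- The weight `∏_e β^{n_e} / n_e!`. -/
noncomputable def weight {d : ℕ} (β : ℝ) (E : Finset (Edge d)) (n : E → ℕ) : ℝ :=
  ∏ e : E, β ^ n e / (n e).factorial

open Classical in
/-- Probability of the event `B` under the single sourceless random current on `E`: the sum of the weights of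
the sourceless currents with extension in `B`, divided by the sum of the weights of all sourceless currents. -/
noncomputable def currentProb {d : ℕ} (β : ℝ) (E : Finset (Edge d)) (B : Set (Edge d → ℕ)) : ℝ :=
  (∑' n : E → ℕ, if Sourceless E n ∧ extend E n ∈ B then weight β E n else 0) /
    (∑' n : E → ℕ, if Sourceless E n then weight β E n else 0)

/-- `u` and `v` are joined by a path of edges in the trace `{e | 0 < n e}`. -/
def Joined {d : ℕ} (n : Edge d → ℕ) : Vertex d → Vertex d → Prop :=
  Relation.ReflTransGen (fun u v => ∃ e : Edge d, 0 < n e ∧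
    ((e.1 = u ∧ head e = v) ∨ (e.1 = v ∧ head e = u)))

/-- The event `0 ↔ ∞`: the cluster of the origin in the trace is infinite. -/
def OriginToInfinity (d : ℕ) : Set (Edge d → ℕ) := {n | {v : Vertex d | Joined n 0 v}.Infinite}

theorem boxEdges_eq (d L : ℕ) : boxEdges d L = Pool.Agent.SRC.boxE d L := by
  ext e
  have h : e ∈ Pool.Agent.SRC.boxE d L ↔ e.1 ∈ Finset.Icc (fun _ : Fin d => -(L : ℤ)) (fun _ => (L : ℤ)) ∧
      Pool.Agent.SRC.tip e ∈ Finset.Icc (fun _ : Fin d => -(L : ℤ)) (fun _ => (L : ℤ)) :=
    Pool.Agent.SRC.mem_edg _ e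
  rw [h]
  unfold boxEdges
  rw [Finset.mem_filter, Finset.mem_product]
  constructor
  · rintro ⟨⟨h1, _⟩, h2⟩
    exact ⟨h1, h2⟩
  · rintro ⟨h1, h2⟩
    exact ⟨⟨h1, Finset.mem_univ _⟩, h2⟩

theorem extend_eq {d : ℕ} (E : Finset (Edge d)) (n : E → ℕ) :
    extend E n = Pool.Agent.SRC.ext E n := by
  funext e
  unfold extend Pool.Agent.SRC.ext
  by_cases h : e ∈ E <;> simp [h]

theorem sourceless_iff {d : ℕ} (E : Finset (Edge d)) (n : E → ℕ) :
    Sourceless E n ↔ Pool.Agent.SRC.srcless E n := by
  unfold Sourceless Pool.Agent.SRC.srcless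
  refine forall_congr' (fun v => ?_)
  have h : (∑ e : E, if (e : Edge d).1 = v ∨ head (e : Edge d) = v then n e else 0) =
      ∑ e : E, if (e : Edge d).1 = v ∨ Pool.Agent.SRC.tip (e : Edge d) = v then n e else 0 := by
    refine Finset.sum_congr rfl (fun e _ => ?_)
    have h1 : head (e : Edge d) = Pool.Agent.SRC.tip (e : Edge d) := rfl
    by_cases h2 : (e : Edge d).1 = v ∨ head (e : Edge d) = v
    · rw [if_pos h2, if_pos (by rw [← h1]; exact h2)]
    · rw [if_neg h2, if_neg (by rw [← h1]; exact h2)]
  rw [h]

theorem currentProb_eq {d : ℕ} (β : ℝ) (E : Finset (Edge d)) (B : Set (Edge d → ℕ)) :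
    currentProb β E B = Pool.Agent.SRC.curP β E B := by
  unfold currentProb Pool.Agent.SRC.curP Pool.Agent.SRC.cS
  congr 1
  · refine tsum_congr (fun n => ?_)
    show _ = Pool.Agent.SRC.ind (Pool.Agent.SRC.srcless E n) * Pool.Agent.SRC.cwt β E n *
      Pool.Agent.SRC.ind (Pool.Agent.SRC.ext E n ∈ B)
    rw [← extend_eq]
    by_cases h1 : Sourceless E n
    · by_cases h2 : extend E n ∈ B
      · rw [if_pos ⟨h1, h2⟩, Pool.Agent.SRC.ind_true ((sourceless_iff E n).mp h1),
          Pool.Agent.SRC.ind_true h2]
        unfold weight Pool.Agent.SRC.cwt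
        ring
      · rw [if_neg (fun h => h2 h.2), Pool.Agent.SRC.ind_false h2]
        ring
    · rw [if_neg (fun h => h1 h.1), Pool.Agent.SRC.ind_false (fun h => h1 ((sourceless_iff E n).mpr h))]
      ring
  · refine tsum_congr (fun n => ?_)
    by_cases h1 : Sourceless E n
    · rw [if_pos h1, Pool.Agent.SRC.ind_true ((sourceless_iff E n).mp h1)]
      unfold weight Pool.Agent.SRC.cwt
      ring
    · rw [if_neg h1, Pool.Agent.SRC.ind_false (fun h => h1 ((sourceless_iff E n).mpr h))]
      ring

theorem joined_eq {d : ℕ} (n : Edge d → ℕ) (u v : Vertex d) :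
    Joined n u v ↔ Pool.Agent.SRC.conn {e : Pool.Agent.SRC.Ed d | 0 < n e} u v := by
  unfold Joined Pool.Agent.SRC.conn
  have h : (fun u v : Vertex d => ∃ e : Edge d, 0 < n e ∧
      ((e.1 = u ∧ head e = v) ∨ (e.1 = v ∧ head e = u))) =
      Pool.Agent.SRC.adj {e : Pool.Agent.SRC.Ed d | 0 < n e} := by
    funext u v
    apply propext
    unfold Pool.Agent.SRC.adj
    constructor
    · rintro ⟨e, h1, h2 | h2⟩
      · refine ⟨e.2, Or.inl ⟨?_, ?_⟩⟩
        · have : (u, e.2) = e := by rw [← h2.1]
          rw [this]; exact h1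
        · rw [← h2.2, ← h2.1]; rfl
      · refine ⟨e.2, Or.inr ⟨?_, ?_⟩⟩
        · have : (v, e.2) = e := by rw [← h2.1]
          rw [this]; exact h1
        · rw [← h2.2, ← h2.1]; rfl
    · rintro ⟨i, h1 | h1⟩
      · exact ⟨(u, i), h1.1, Or.inl ⟨rfl, h1.2.symm⟩⟩
      · exact ⟨(v, i), h1.1, Or.inr ⟨rfl, h1.2.symm⟩⟩
  rw [h]

/-- For every `ε > 0` there is `d₀` such that for all `d ≥ d₀` and all `β ≥ (1 + ε) / (2 d)`: the single
sourceless random current measures on the boxes `[-L, L]^d` (free boundary conditions, inverse temperature `β`)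
converge, as `L → ∞`, in the sense of all cylinder probabilities, to a probability measure `μ` on currents on
`ℤ^d`, and under `μ` the origin is in an infinite cluster of the trace with positive probability. -/
theorem result :
    ∀ ε : ℝ, 0 < ε → ∃ d₀ : ℕ, ∀ d : ℕ, d₀ ≤ d → ∀ β : ℝ, (1 + ε) / (2 * (d : ℝ)) ≤ β →
      ∃ μ : Measure (Edge d → ℕ), IsProbabilityMeasure μ ∧
        (∀ (F : Finset (Edge d)) (k : Edge d → ℕ),
          Tendsto (fun L : ℕ => currentProb β (boxEdges d L) {n | ∀ e ∈ F, n e = k e}) atTop
            (nhds (μ.real {n | ∀ e ∈ F, n e = k e}))) ∧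
        0 < μ (OriginToInfinity d) := by
  intro ε hε
  obtain ⟨d₀, h⟩ := Pool.Agent.SRC.main ε hε
  refine ⟨d₀, fun d hd β hβ => ?_⟩
  obtain ⟨μ, h1, h2, h3⟩ := h d hd β hβ
  refine ⟨μ, h1, fun F k => ?_, ?_⟩
  · have h4 := h2 F k
    simp only [currentProb_eq, boxEdges_eq]
    exact h4
  · unfold OriginToInfinity
    simp only [joined_eq]
    exact h3

end Pool.Agent.Results.MP_a85618_pr.HighDimension
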