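import Pool.Agent.HG13.Stmt

/-!
# Local systems of rank below an exponential bound on moduli spaces of curves of high genus

If `2 m + 2 ≤ g` then on every representation of dimension less than `4 ^ m` of the mapping class
group of the surface of genus `g` with `n + 1` marked points and one boundary component the Dehn
twists act unipotently, and on a semisimple one the point pushing group acts trivially.
-/

namespace Pool.Agent.Variants.HighGenus

open Pool.Agent.HG13

/-- Let `2 m + 2 ≤ g`, let `Γ` be a group of automorphisms of the free group `F = Fr g n` which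
contains the Dehn twists `Bt i` and `TP s t` (the elements of `twists g n`), and let `ρ` be a
representation of dimension less than `4 ^ m` of `F ⋊ Γ`. Then: (1) every conjugate in `Γ` of the
Dehn twist `TP 0 1` acts unipotently; (2) every element of `F` acts unipotently; (3) if `ρ` is
semisimple then `F` acts trivially; (4) if some conjugate in `Γ` of `TP 0 1` acts semisimply then
`F` and all products of the Dehn twists and their inverses act trivially. -/
theorem result (g n m : ℕ) (hg : 2 * m + 2 ≤ g) (Γ : Subgroup (MulAut (Fr g n)))
    (hΓ : twists g n ⊆ Γ) {V : Type*} [AddCommGroup V] [Module ℂ V] [FiniteDimensional ℂ V]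
    (ρ : Representation ℂ (ModG Γ) V) (hV : Module.finrank ℂ V < 4 ^ m) :
    (∀ t : Γ, IsTwist Γ t → UnipAt ρ (incl Γ t)) ∧ (∀ w : Fr g n, UnipAt ρ (push Γ w)) ∧
    (Semis ρ → TrivF ρ) ∧
    (∀ t : Γ, IsTwist Γ t → SemisAt ρ (incl Γ t) → TrivF ρ ∧ TrivTw ρ) :=
  high_genus' g n m hg Γ hΓ ρ hV

end Pool.Agent.Variants.HighGenus
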