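import Pool.Agent.Hul.Mult
import Pool.Agent.Hul.Low

/-!
# MP_67b84b_gt: the exponential growth rate of the best constant exists

`gam n` is the supremum of `V(C) / P ^ n` over all simple closed rectifiable curves in `ℝ^n`.
-/

set_option autoImplicit false

namespace Pool.Agent.Variants.HullGrowthRate

open Pool.Agent.Hul Filter Topology

/-- `n ^ 2 * (gam n) ^ (1 / n)` converges (through all `n`, even and odd), and the limit lies
between `e ^ (3/2) √(2/π)` and `e ^ (3/2)`. -/
theorem result : (∀ n : ℕ, 2 ≤ n → IsLUB (ratios n) (gam n)) ∧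
    ∃ c : ℝ, Real.exp (3 / 2) * √(2 / Real.pi) ≤ c ∧ c ≤ Real.exp (3 / 2) ∧
      Tendsto (fun n : ℕ => (n : ℝ) ^ 2 * gam n ^ (1 / (n : ℝ))) atTop (𝓝 c) := by
  have hl : ∀ m : ℕ, 1 ≤ m → low m ≤ gam (2 * m + 1) := fun m hm =>
    (low_le m hm).trans (le_gam (by omega) (cur_curve m hm))
  have hlow : ∀ m : ℕ, 0 < low m := by
    intro m
    unfold low
    positivity
  have h3 : 0 < gam 3 := lt_of_lt_of_le (hlow 1) (hl 1 le_rfl)
  have hpos : ∀ n : ℕ, 2 ≤ n → 0 < a n := by
    intro n
    induction n using Nat.strong_induction_on with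
    | _ n ih =>
      intro hn
      rcases Nat.lt_or_ge n 4 with h | h
      · have : n = 2 ∨ n = 3 := by omega
        rcases this with rfl | rfl
        · unfold a
          have := gam_two_pos
          positivity
        · unfold a
          positivity
      · have h1 := ih (n - 2) (by omega) (by omega)
        have h2 := ih 2 (by omega) le_rfl
        have h4 := supermul (p := n - 2) (q := 2) (by omega) (by omega)
        rw [Nat.sub_add_cancel hn] at h4
        exact lt_of_lt_of_le (mul_pos h1 h2) h4
  refine ⟨fun n hn => ?_, ?_⟩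
  · apply isLUB_csSup _ ⟨upp n, ratios_le (by omega)⟩
    by_contra hne
    rw [Set.not_nonempty_iff_eq_empty] at hne
    have h0 : gam n = 0 := by
      unfold gam
      rw [hne, Real.sSup_empty]
    have := hpos n hn
    unfold a at this
    rw [h0, mul_zero] at this
    exact lt_irrefl _ this
  · obtain ⟨c, _, hc, ht⟩ := exists_limit h3
    exact ⟨c, limit_ge ht hl, hc, ht⟩

end Pool.Agent.Variants.HullGrowthRate
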