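import Pool.Agent.Hyf.Main
import Pool.Agent.MSf.ThK
import Pool.Agent.BrP.Gb
import Pool.Agent.P2c.Fin

/-!
# Blocks with abelian defect groups and hyperfocal subgroup of rank two

Let `p` be any prime and `B` a `p`-block of a finite group `G` with an abelian defect group `D`. Let `b` be
a block of `C_G(D)` with `b^G = B`, `T` its inertial group in `N_G(D)`, `E = T / C_G(D)` the inertial quotient,
`c = b^{N_G(D)}` the Brauer correspondent of `B` and `b_S = b^{C_G(S)}` for `S ≤ D`. The group `[D, T]` is the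
hyperfocal subgroup of `B`, `D = C_D(T) × [D, T]`.

(R) `[D, T] = ⟨x⟩ × ⟨y⟩` has rank two, and `x`, `y` have different orders or `E` is abelian.

(F) `E` is abelian and `[D, T] = D₁ × D₂` with `T`-stable factors, `D₁` is cyclic, `C_E(D₁)` acts freely on
`D₂ ∖ 1`, and `E / C_E(D₂)` acts freely on `V ∖ 1` for some `T`-stable subgroup `V ≠ 1` of `D₂`.

(V) `E` is abelian and acts freely on `V ∖ 1` for some `T`-stable subgroup `V ≠ 1` of `D`.

If (R), (F) or (V) holds then `k(B) = k(c)`, `l(B) = l(c)`, and `l(b_S) = |C_E(S)|` for every `S ≤ D` which is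
not centralized by `T`.

If (R) holds, or (F) with `V = D₂`, or (V) and `|E|` has at most two prime divisors or of any three centralizers
`C_E(x)` (`x ∈ D`) two are comparable, then `B` and `c` are isotypic (in the sense of Broué: there are
compatible perfect isometries between `b_S` and its Brauer correspondent for all `S ≤ D`); moreover `B` is
isotypic to every block `B'` of every finite group with `k(B') = k(B)` and the same defect group and action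
of the inertial quotient. The blocks may be twisted (`l(B) < |E|`).

The proof has four parts. Theorem K (library `KtU`) and Theorem P (libraries `P2`, `P2c`, `BrP`): the
dimension of the centre of the block algebra, by forms in characteristic zero of the source algebra. Theorem
ISP (library `Isp`): the generalized decomposition numbers of the blocks `b_S`, by a classification of certain
families of integral vectors. Theorem W (libraries `Wat`, `WatG`, `WatI`) and the library `Hyf`: the passage from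
`D` to `[D, T]`. The classification of the finite simple groups is not used.
-/

set_option autoImplicit false

namespace Pool.Agent.Variants.HyperfocalRankTwo

open Pool.Agent.KB Pool.Agent.KBZ Pool.Agent.KBQ Pool.Agent.PIs Pool.Agent.MSf Pool.Agent.Ity

/-- Isotypy of `B = block 𝔪 χ` with its Brauer correspondent `c = block 𝔪 ψ`: compatible perfect isometries
between the blocks of `C_G(S)` and `C_G(S) ⊓ N_G(D)` induced by the block of `ζ`, for all `S ≤ D`. For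
`S = 1` these are the blocks `B` and `c`. -/
def IsotypicCorr (G : Type) [Group G] [Finite G] (p : ℕ) (𝔪 : Ideal AInt) (χ : G → ℂ)
    (D : Subgroup G) (ζ : Subgroup.centralizer (D : Set G) → ℂ) : Prop :=
  ∀ ψ ∈ Irr (Subgroup.normalizer (D : Set G)),
    Induces 𝔪 ((Subgroup.centralizer (D : Set G)).subgroupOf
      (Subgroup.normalizer (D : Set G))) (fun y => ζ ⟨y.1.1, y.2⟩) ψ →
    LB 𝔪 D ζ (Subgroup.centralizer ((⊥ : Subgroup G) : Set G)) = block 𝔪 χ ∧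
    LB 𝔪 D ζ (Subgroup.centralizer ((⊥ : Subgroup G) : Set G) ⊓
      Subgroup.normalizer (D : Set G)) =
        {f | (∀ g, g ∉ Subgroup.normalizer (D : Set G) → f g = 0) ∧
          (fun y : Subgroup.normalizer (D : Set G) => f y) ∈ block 𝔪 ψ} ∧
    ∃ I ε, Isot p 𝔪 D ζ D ζ D.subtype (fun S => Subgroup.centralizer (S : Set G))
      (fun S => Subgroup.centralizer (S : Set G) ⊓ Subgroup.normalizer (D : Set G)) I ε

/-- Isotypy of `B = block 𝔪 χ` with every block `B' = block 𝔪 χ'` of every finite group `G'` with a defect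
group `D'` isomorphic to `D`, the same action of the inertial quotient, and `k(B') = k(B)`. -/
def IsotypicAll (G : Type) [Group G] [Finite G] (p : ℕ) (𝔪 : Ideal AInt) (χ : G → ℂ)
    (D : Subgroup G) (ζ : Subgroup.centralizer (D : Set G) → ℂ) : Prop :=
  ∀ (G' : Type) [Group G'] [Finite G'] (χ' : G' → ℂ), χ' ∈ Irr G' →
    ∀ D' : Subgroup G', Nat.card D' = p ^ defect p (block 𝔪 χ') →
    ∀ ζ' : Subgroup.centralizer (D' : Set G') → ℂ,
      ζ' ∈ Irr (Subgroup.centralizer (D' : Set G')) →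
      Induces 𝔪 (Subgroup.centralizer (D' : Set G')) ζ' χ' →
      (block 𝔪 χ).ncard = (block 𝔪 χ').ncard →
    ∀ φ : D ≃* D',
      (∀ g ∈ inertia 𝔪 D ζ, ∃ g' ∈ inertia 𝔪 D' ζ', ∀ x y : D,
        (y : G) = g * x * g⁻¹ → (φ y : G') = g' * φ x * g'⁻¹) →
      (∀ g' ∈ inertia 𝔪 D' ζ', ∃ g ∈ inertia 𝔪 D ζ, ∀ x y : D,
        (y : G) = g * x * g⁻¹ → (φ y : G') = g' * φ x * g'⁻¹) →
      LB 𝔪 D ζ (Subgroup.centralizer ((⊥ : Subgroup G) : Set G)) = block 𝔪 χ ∧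
      LB 𝔪 D' ζ' (Subgroup.centralizer ((⊥ : Subgroup G') : Set G')) = block 𝔪 χ' ∧
      ∃ I ε, Isot p 𝔪 D ζ D' ζ' (D'.subtype.comp φ.toMonoidHom)
        (fun S => Subgroup.centralizer (S : Set G))
        (fun S => Subgroup.centralizer
          ((S.subgroupOf D).map (D'.subtype.comp φ.toMonoidHom) : Set G')) I ε

/-- The hyperfocal subgroup `[D, T]`. -/
def hypSub {G : Type} [Group G] (𝔪 : Ideal AInt) (D : Subgroup G)
    (ζ : Subgroup.centralizer (D : Set G) → ℂ) : Subgroup G :=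
  Subgroup.closure {x | ∃ d ∈ D, ∃ g ∈ inertia 𝔪 D ζ, x = d * g * d⁻¹ * g⁻¹}

/-- The inertial quotient `E` is abelian. -/
def AbelianE {G : Type} [Group G] (𝔪 : Ideal AInt) (D : Subgroup G)
    (ζ : Subgroup.centralizer (D : Set G) → ℂ) : Prop :=
  ∀ g ∈ inertia 𝔪 D ζ, ∀ h ∈ inertia 𝔪 D ζ,
    g * h * g⁻¹ * h⁻¹ ∈ Subgroup.centralizer (D : Set G)

/-- (R): `[D, T]` has rank two and is not homocyclic, or `[D, T]` has rank two and `E` is abelian. -/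
def RankTwoH {G : Type} [Group G] (𝔪 : Ideal AInt) (D : Subgroup G)
    (ζ : Subgroup.centralizer (D : Set G) → ℂ) : Prop :=
  ∃ x y : G, x ≠ 1 ∧ y ≠ 1 ∧ Subgroup.zpowers x ⊔ Subgroup.zpowers y = hypSub 𝔪 D ζ ∧
    Subgroup.zpowers x ⊓ Subgroup.zpowers y = ⊥ ∧ (orderOf x ≠ orderOf y ∨ AbelianE 𝔪 D ζ)

/-- (F): `E` is abelian, `[D, T] = D₁ × D₂` with stable factors, `D₁` is cyclic, the centralizer of `D₁` is
free on `D₂ ∖ 1`, and `E / C_E(D₂)` is free on `V ∖ 1`, `1 ≠ V ≤ D₂` stable. -/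
def CyclicFactor {G : Type} [Group G] (𝔪 : Ideal AInt) (D : Subgroup G)
    (ζ : Subgroup.centralizer (D : Set G) → ℂ) (D₂ V : Subgroup G) : Prop :=
  AbelianE 𝔪 D ζ ∧ ∃ D₁ : Subgroup G, IsCyclic D₁ ∧ D₁ ⊔ D₂ = hypSub 𝔪 D ζ ∧ D₁ ⊓ D₂ = ⊥ ∧
    (∀ g ∈ inertia 𝔪 D ζ, ∀ x ∈ D₁, g * x * g⁻¹ ∈ D₁) ∧
    (∀ g ∈ inertia 𝔪 D ζ, ∀ x ∈ D₂, g * x * g⁻¹ ∈ D₂) ∧
    (∀ g ∈ inertia 𝔪 D ζ, (∀ x ∈ D₁, g * x = x * g) → ∀ x ∈ D₂, x ≠ 1 →
      g * x = x * g → g ∈ Subgroup.centralizer (D : Set G)) ∧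
    V ≤ D₂ ∧ V ≠ ⊥ ∧ (∀ g ∈ inertia 𝔪 D ζ, ∀ x ∈ V, g * x * g⁻¹ ∈ V) ∧
    ∀ g ∈ inertia 𝔪 D ζ, ∀ x ∈ V, x ≠ 1 → g * x = x * g → ∀ y ∈ D₂, g * y = y * g

/-- (V): `E` is abelian and free on `V ∖ 1`, `1 ≠ V ≤ D` stable. -/
def FreeE {G : Type} [Group G] (𝔪 : Ideal AInt) (D : Subgroup G)
    (ζ : Subgroup.centralizer (D : Set G) → ℂ) : Prop :=
  AbelianE 𝔪 D ζ ∧
    ∃ V : Subgroup G, V ≠ ⊥ ∧ V ≤ D ∧ (∀ g ∈ inertia 𝔪 D ζ, ∀ x ∈ V, g * x * g⁻¹ ∈ V) ∧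
      ∀ g ∈ inertia 𝔪 D ζ, ∀ x ∈ V, x ≠ 1 → g * x = x * g →
        g ∈ Subgroup.centralizer (D : Set G)

/-- Of the centralizers of `x` and `y` in the inertial group `T` one contains the other. -/
def Comparable {G : Type} [Group G] (𝔪 : Ideal AInt) (D : Subgroup G)
    (ζ : Subgroup.centralizer (D : Set G) → ℂ) (x y : G) : Prop :=
  (∀ g ∈ inertia 𝔪 D ζ, g * x = x * g → g * y = y * g) ∨
    (∀ g ∈ inertia 𝔪 D ζ, g * y = y * g → g * x = x * g)

/-- The main result. `B = block 𝔪 χ` is the block of `χ ∈ Irr G`, `b = block 𝔪 ζ` is the block of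
`ζ ∈ Irr (C_G(D))`, `T = inertia 𝔪 D ζ`. -/
theorem result (G : Type) [Group G] [Finite G] (p : ℕ) (hp : p.Prime)
    -- a maximal ideal over `p` of the ring of the algebraic integers
    (𝔪 : Ideal AInt) (h𝔪 : 𝔪.IsMaximal) (hp𝔪 : (p : AInt) ∈ 𝔪)
    (χ : G → ℂ) (hχ : χ ∈ Irr G)
    -- `D` is an abelian defect group of `B`, `b` is a block of its centralizer with `b^G = B`
    (D : Subgroup G) (hab : ∀ a ∈ D, ∀ b ∈ D, a * b = b * a)
    (hD : Nat.card D = p ^ defect p (block 𝔪 χ))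
    (ζ : Subgroup.centralizer (D : Set G) → ℂ)
    (hζ : ζ ∈ Irr (Subgroup.centralizer (D : Set G)))
    (hind : Induces 𝔪 (Subgroup.centralizer (D : Set G)) ζ χ) :
    (RankTwoH 𝔪 D ζ ∨ (∃ D₂ V, CyclicFactor 𝔪 D ζ D₂ V) ∨ FreeE 𝔪 D ζ →
      -- `l(b_S) = |C_E(S)|` if `T` does not centralize `S`
      (∀ S : Subgroup G, S ≤ D → (∃ s ∈ S, ∃ g ∈ inertia 𝔪 D ζ, g * s ≠ s * g) →
        ∀ η ∈ Irr (Subgroup.centralizer (S : Set G)),
        Induces 𝔪 ((Subgroup.centralizer (D : Set G)).subgroupOf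
          (Subgroup.centralizer (S : Set G))) (fun y => ζ ⟨y.1.1, y.2⟩) η →
        ell p (block 𝔪 η) * Nat.card (Subgroup.centralizer (D : Set G)) =
          Nat.card {g : G // g ∈ inertia 𝔪 D ζ ∧ ∀ x ∈ S, g * x = x * g}) ∧
      -- `l(B) = l(c)`, `k(B) = k(c)`
      (∀ ψ ∈ Irr (Subgroup.normalizer (D : Set G)),
        Induces 𝔪 ((Subgroup.centralizer (D : Set G)).subgroupOf
          (Subgroup.normalizer (D : Set G))) (fun y => ζ ⟨y.1.1, y.2⟩) ψ →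
        ell p (block 𝔪 χ) = ell p (block 𝔪 ψ) ∧ (block 𝔪 χ).ncard = (block 𝔪 ψ).ncard)) ∧
    (RankTwoH 𝔪 D ζ ∨ (∃ D₂, CyclicFactor 𝔪 D ζ D₂ D₂) ∨ (FreeE 𝔪 D ζ ∧
        -- `|E|` has at most two prime divisors, or among any three `C_E(x)` two are comparable
        ((∃ q r a b : ℕ, q.Prime ∧ r.Prime ∧ Nat.card (inertia 𝔪 D ζ) =
          q ^ a * r ^ b * Nat.card (Subgroup.centralizer (D : Set G))) ∨
        ∀ x ∈ D, ∀ y ∈ D, ∀ z ∈ D,
          Comparable 𝔪 D ζ x y ∨ Comparable 𝔪 D ζ y z ∨ Comparable 𝔪 D ζ x z)) →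
      -- `B` is isotypic to `c` and to all the blocks with the same `D`, action of `E` and `k`
      IsotypicCorr G p 𝔪 χ D ζ ∧ IsotypicAll G p 𝔪 χ D ζ) := by
  have hP : BrP.ThmP := BrP.center_P P2c.thmPA
  have hF : ∀ D₂ V, CyclicFactor 𝔪 D ζ D₂ V → ∃ D₁, Hyf.HFc 𝔪 D ζ D₁ D₂ V := by
    rintro D₂ V ⟨h1, D₁, h2, h3, h4, h5, h6, h7, h8, h9, h10, h11⟩
    exact ⟨D₁, ⟨h1, h2, h3, h4, h5, h6, h7, h8, h9, h10, h11⟩⟩
  have hR : RankTwoH 𝔪 D ζ → ∃ D₁ D₂, Hyf.HFc 𝔪 D ζ D₁ D₂ D₂ := by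
    rintro ⟨x, y, hx, hy, hs, hi, h⟩
    exact Hyf.rank_H G p hp 𝔪 h𝔪 hp𝔪 χ hχ D hab hD ζ hζ hind x y hx hy hs hi h
  have hV : FreeE 𝔪 D ζ → HypE 𝔪 D ζ := fun h => Or.inl h
  refine ⟨fun h => ?_, fun h => ?_⟩
  · rcases h with h | ⟨D₂, V, h⟩ | h
    · obtain ⟨D₁, D₂, h⟩ := hR h
      exact Hyf.num_H thmK hP G p hp 𝔪 h𝔪 hp𝔪 χ hχ D hab hD ζ hζ hind h
    · obtain ⟨D₁, h⟩ := hF D₂ V h
      exact Hyf.num_H thmK hP G p hp 𝔪 h𝔪 hp𝔪 χ hχ D hab hD ζ hζ hind h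
    · have h1 := (FIX_main thmK G p hp 𝔪 h𝔪 hp𝔪 χ hχ D hab hD ζ hζ hind (hV h)).1
      exact ⟨fun S hS _ => h1.2.2.1 S hS, h1.2.2.2⟩
  · rcases h with h | ⟨D₂, h⟩ | ⟨h, hc⟩
    · obtain ⟨D₁, D₂, h⟩ := hR h
      exact Hyf.iso_H thmK hP G p hp 𝔪 h𝔪 hp𝔪 χ hχ D hab hD ζ hζ hind h
    · obtain ⟨D₁, h⟩ := hF D₂ D₂ h
      exact Hyf.iso_H thmK hP G p hp 𝔪 h𝔪 hp𝔪 χ hχ D hab hD ζ hζ hind h
    · have h1 := (FIX_main thmK G p hp 𝔪 h𝔪 hp𝔪 χ hχ D hab hD ζ hζ hind (hV h)).2 hc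
      exact ⟨h1.1, Isp.ConAllE.of_I h1.2⟩

end Pool.Agent.Variants.HyperfocalRankTwo
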