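import Pool.Agent.MP_12e089_an.Main

/-!
The `L_1` distortion of the space of uniform measures on `s`-point subsets of the grid
`{1, …, Δ}^d` is bounded by a function of `s` alone, for the `ℓ_1` and for the `ℓ_2` metric.
-/

namespace Pool.Agent.Results.MP_12e089_an.BoundedByS

open Pool.Agent.MP_12e089_an

/-- There is a function `f` of `s` alone such that for all `Δ ≥ 2`, `d ≥ 1`, `1 ≤ s ≤ Δ^d` the
space `Y(Δ, d, s)` with the Wasserstein-1 distance (built on the `ℓ_1` metric, or on the `ℓ_2`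
metric) embeds into `L_1([0, 1])` with distortion at most `f(s)`; in particular
`c_1(Y(Δ, d, s)) ≤ f(s)`. -/
theorem result : ∃ f : ℕ → ℝ, ∀ Δ d s : ℕ, 2 ≤ Δ → 1 ≤ d → 1 ≤ s → s ≤ Δ ^ d →
    (EmbedsL1 (fun μ ν : Y Δ d s => W1 rho1 μ.1 ν.1) (f s) ∧
      c1 (fun μ ν : Y Δ d s => W1 rho1 μ.1 ν.1) ≤ f s) ∧
    (EmbedsL1 (fun μ ν : Y Δ d s => W1 rho2 μ.1 ν.1) (f s) ∧
      c1 (fun μ ν : Y Δ d s => W1 rho2 μ.1 ν.1) ≤ f s) := by
  obtain ⟨f, hf⟩ := uniform_bound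
  refine ⟨f, fun Δ d s _ _ hs _ => ?_⟩
  obtain ⟨h1, h2⟩ := hf Δ d s hs
  exact ⟨⟨h1, c1_le h1⟩, ⟨h2, c1_le h2⟩⟩

end Pool.Agent.Results.MP_12e089_an.BoundedByS
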