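import Pool.Agent.Nfv.Mn

set_option autoImplicit false

/-!
# Two irreducible characters of a solvable group cover all the primes `≥ 5` of the degrees
-/

namespace Pool.Agent.Results.MP_2b2d69_al.FourDegreesCover

/-- The degrees of the irreducible complex representations (characters) of `G`. -/
def Deg (G : Type) [Group G] : Set ℕ :=
  {n | ∃ ρ : Representation ℂ G (Fin n → ℂ), ρ.IsIrreducible}

/-- The set `ρ(G)` of the primes which divide the degree of an irreducible character of `G`. -/
def Rho (G : Type) [Group G] : Set ℕ :=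
  {p | p.Prime ∧ ∃ d ∈ Deg G, p ∣ d}

/-- Let `G` be a finite solvable group.
(1) There are two degrees of irreducible characters such that every prime `p ≥ 5` of `ρ(G)`
divides their product.
(2) There are four degrees of irreducible characters such that every prime of `ρ(G)` divides
their product.
(3) There is an irreducible character whose degree is divisible by at least `(|ρ(G)| - 2) / 2`
primes. -/
theorem result (G : Type) [Group G] [Finite G] (hG : Group.IsSolvable G) :
    (∃ m ∈ Deg G, ∃ n ∈ Deg G, ∀ p ∈ Rho G, 5 ≤ p → p ∣ m * n) ∧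
    (∃ f : Fin 4 → ℕ, (∀ i, f i ∈ Deg G) ∧ ∀ p ∈ Rho G, p ∣ ∏ i, f i) ∧
    ∃ m ∈ Deg G, (Rho G).ncard ≤ 2 * m.primeFactors.card + 2 := by
  refine ⟨?_, ?_, ?_⟩
  · obtain ⟨m, hm, n, hn, h⟩ := Pool.Agent.Nfv.deg2 hG
    exact ⟨m, hm, n, hn, fun p hp h5 => h p hp.1 h5 hp.2⟩
  · obtain ⟨⟨f, hf, h⟩, -⟩ := Pool.Agent.Nfv.deg4 hG
    exact ⟨f, hf, fun p hp => h p hp.1 hp.2⟩
  · exact (Pool.Agent.Nfv.deg4 hG).2

end Pool.Agent.Results.MP_2b2d69_al.FourDegreesCover
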