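import Pool.Agent.Nap.Mn

set_option autoImplicit false

/-!
# Two irreducible characters cover all primes of the character degrees: nilpotent-by-odd groups
-/

namespace Pool.Agent.Results.MP_2b2d69_al.OddOrder

/-- The degrees of the irreducible complex representations (characters) of `G`. -/
def Deg (G : Type) [Group G] : Set ℕ :=
  {n | ∃ ρ : Representation ℂ G (Fin n → ℂ), ρ.IsIrreducible}

/-- Let `G` be a finite solvable group with a nilpotent normal subgroup `N` of odd index (for
example a group of odd order, `N = 1`). Then there are two degrees `m`, `n` of irreducible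
characters of `G` such that every prime which divides the degree of an irreducible character of `G`
divides `m n`. -/
theorem result (G : Type) [Group G] [Finite G] (hs : Group.IsSolvable G) (N : Subgroup G)
    (hN : N.Normal) (hnil : Group.IsNilpotent N) (ho : Odd N.index) :
    ∃ m ∈ Deg G, ∃ n ∈ Deg G, ∀ p : ℕ, p.Prime → (∃ d ∈ Deg G, p ∣ d) → p ∣ m * n := by
  have h2 : ¬ 2 ∣ Nat.card (G ⧸ Pool.Agent.Nan.Fit G) := by
    intro h2
    have h3 : (Pool.Agent.Nan.Fit G).index ∣ N.index :=
      Subgroup.index_dvd_of_le (Pool.Agent.Nan.fit_nil N hN hnil)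
    rw [← Subgroup.index_eq_card] at h2
    have h4 : 2 ∣ N.index := h2.trans h3
    rw [← even_iff_two_dvd, ← Nat.not_odd_iff_even] at h4
    exact h4 ho
  exact Pool.Agent.Nap.deg2 hs h2

end Pool.Agent.Results.MP_2b2d69_al.OddOrder
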