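import Pool.Agent.Nan.Mn

set_option autoImplicit false

/-!
# Two irreducible characters whose degrees cover all primes of the character degrees
-/

namespace Pool.Agent.Results.MP_2b2d69_al.TwoDegreesCover

/-- The degrees of the irreducible complex representations (characters) of `G`. -/
def Deg (G : Type) [Group G] : Set ℕ :=
  {n | ∃ ρ : Representation ℂ G (Fin n → ℂ), ρ.IsIrreducible}

/-- There are two degrees `m`, `n` of irreducible characters of `G` such that every prime which
divides the degree of an irreducible character of `G` divides `m n`. -/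
def Covered (G : Type) [Group G] : Prop :=
  ∃ m ∈ Deg G, ∃ n ∈ Deg G, ∀ p : ℕ, p.Prime → (∃ d ∈ Deg G, p ∣ d) → p ∣ m * n

/-- Let `F` be the Fitting subgroup of the finite group `G`, and let `A / F` be an abelian normal
subgroup of `G / F` which contains its centralizer, such that `A R` is normal in `G` for all the
Sylow `r`-subgroups `R` of `G`, for every prime `r` which does not divide `|A / F|`. Then two
irreducible characters of `G` cover all the primes of the character degrees. In particular this is
so if `G` has normal subgroups `N`, `M` with `N` nilpotent, `[M, M] ≤ N` and `G / M` nilpotent (for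
`N ≤ M`: if `G` is nilpotent-by-abelian-by-nilpotent). -/
theorem result :
    (∀ (G : Type) [Group G] [Finite G] (F A : Subgroup G) [F.Normal] [A.Normal],
      Group.IsNilpotent F →
      (∀ N : Subgroup G, N.Normal → Group.IsNilpotent N → N ≤ F) →
      F ≤ A → ⁅A, A⁆ ≤ F → (∀ x : G, (∀ a ∈ A, x * a * x⁻¹ * a⁻¹ ∈ F) → x ∈ A) →
      (∀ r : ℕ, r.Prime → ¬ r ∣ F.relIndex A → ∀ R : Sylow r G,
        (A ⊔ (R : Subgroup G)).Normal) → Covered G) ∧
    ∀ (G : Type) [Group G] [Finite G] (N M : Subgroup G) [N.Normal] [M.Normal],
      Group.IsNilpotent N → ⁅M, M⁆ ≤ N → Group.IsNilpotent (G ⧸ M) → Covered G := by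
  refine ⟨?_, ?_⟩
  · intro G _ _ F A hF hA hnil hmax hFA hab hcen hR
    exact Pool.Agent.Nan.nan_gen F A hF hA hnil hmax hFA hab hcen hR
  · intro G _ _ N M hN hM hnil hab hq
    exact Pool.Agent.Nan.nan N M hN hM hnil hab hq

end Pool.Agent.Results.MP_2b2d69_al.TwoDegreesCover
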