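import Pool.Agent.MP_a6a2ff_al.Defs
import Pool.Agent.MP_a6a2ff_al.Hilbert
import Pool.Agent.MP_a6a2ff_al.PointClass

/-!
# MP_a6a2ff_al, Q2: a quadratic regular algebra of global dimension four with exactly nineteen
point modules, over every algebraically closed field of characteristic different from two
-/

universe u

namespace Pool.Agent.Variants.NineteenPoints

open Pool.Agent.MP_a6a2ff_al

/-- Over every algebraically closed field `k` with `2 ≠ 0` there is a connected graded algebra `A`
which is quadratic and Artin-Schelter regular of global dimension four, has Hilbert function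
`n ↦ (n + 3).choose 3`, and has exactly nineteen point modules up to graded isomorphism. -/
theorem result (k : Type u) [Field k] [IsAlgClosed k] (hk : (2 : k) ≠ 0) :
    ∃ (A : Type u) (_ : Ring A) (_ : Algebra k A) (𝒜 : ℕ → Submodule k A)
      (_ : GradedAlgebra 𝒜),
      IsQuadratic 𝒜 ∧ IsASRegular 𝒜 4 ∧
        (∀ n : ℕ, Module.finrank k (𝒜 n) = (n + 3).choose 3) ∧
        Nat.card (PointModuleClass 𝒜) = 19 := by
  obtain ⟨d, ω, hd, hdisc, hγ, hω⟩ := exists_param (k := k) hk
  obtain ⟨A, i1, i2, x, y, X, T, h⟩ := exists_isPres k d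
  have hd0 : d ≠ 0 := by
    rintro rfl
    exact one_ne_zero (α := k) (by linear_combination hd)
  refine ⟨A, i1, i2, powGrading k x y X T, h.gradedAlgebra, h.isQuadratic, h.isASRegular hγ hω,
    h.finrank_eq hγ hω, ?_⟩
  rw [h.card_pointModuleClass hd0 hγ hω, card_Idx hk hd hdisc hω]

end Pool.Agent.Variants.NineteenPoints
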