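import Pool.Agent.NC.Main

/-!
# The parity conjecture for prime twists of a curve without complex multiplication

`E D : y² = x (x - D) (x - 9 D)` are the quadratic twists of a curve of conductor `24` without
complex multiplication. For every squarefree integer `n`, except those with `0 < n` and `6 ∣ n`, the
parity conjecture holds, with rank `0` and root number `+1`, for a positive proportion of the
twists `E (n p)`, `p` prime. For the exceptional `n` the root number of `E (n p)` is always `-1`.
-/

namespace Pool.Agent.Variants.NonCMTwists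

open Pool.Agent.NC

theorem result (n : ℤ) (hn : Squarefree n) :
    (¬ (0 < n ∧ 6 ∣ n) → ∃ c : ℕ, c.Coprime (24 * n.natAbs) ∧
      ∀ p : ℕ, p.Prime → ¬ p ∣ 24 * n.natAbs → IsSquare ((c * p : ℕ) : ZMod (24 * n.natAbs)) →
        Finite (E (n * p)).toAffine.Point ∧ HasFE (E (n * p)) (cond (n * p)) 1) ∧
    (0 < n ∧ 6 ∣ n → ∀ p : ℕ, p.Prime → ¬ (p : ℤ) ∣ n →
      HasFE (E (n * p)) (cond (n * p)) (-1)) :=
  main n hn

end Pool.Agent.Variants.NonCMTwists
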