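import Pool.Agent.NSet.Unif
import Pool.Agent.NSet.Cor

/-!
# Closed sets invariant under `x ↦ p x` are null for the atomless measures invariant under `x ↦ q x`

Let `p, q ≥ 2` be multiplicatively independent integers and let `E` be a closed subset of the circle, not the whole circle,
with `p E ⊆ E`. For every `ε` there are `N`, `Q` such that for ALL points `x` with `Q q ^ N x ≠ 0` at most `ε N` of the points
`q ^ n x`, `n < N`, are in `E`. Hence `E` is a null set for every measure without atoms which is invariant under `×q`: almost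
every point has a dense orbit under `×p` alone, and if the measure is invariant under both maps, then every set invariant
under `×p` of positive measure has positive measure in every arc.
-/

open MeasureTheory Filter Topology Set

namespace Pool.Agent.Variants.NullSets

open Pool.Agent.NSet

theorem ncard_eq (D : Set ℕ) (n : ℕ) : ({k : ℕ | k < n ∧ k ∈ D}.ncard) = cnt D n := by
  classical
  unfold cnt
  rw [← Set.ncard_coe_finset]
  congr 1
  ext k
  simp

/-- **Main theorem.** -/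
theorem result (p q : ℕ) (hp : 2 ≤ p) (hq : 2 ≤ q) (hpq : ∀ m n : ℕ, 0 < m → 0 < n → p ^ m ≠ q ^ n) :
    (∀ E : Set (AddCircle (1 : ℝ)), IsClosed E → E ≠ univ → (∀ x ∈ E, p • x ∈ E) →
      (∀ ε : ℝ, 0 < ε → ∃ N Q : ℕ, 0 < N ∧ 0 < Q ∧ ∀ x : AddCircle (1 : ℝ), (Q * q ^ N) • x ≠ 0 →
        ({n : ℕ | n < N ∧ q ^ n • x ∈ E}.ncard : ℝ) ≤ ε * N) ∧
      (∀ x : AddCircle (1 : ℝ), (∀ m : ℕ, 0 < m → m • x ≠ 0) → ∀ ε : ℝ, 0 < ε → ∃ N : ℕ, 0 < N ∧ ∀ w : ℕ,
        ({n : ℕ | n < N ∧ q ^ (w + n) • x ∈ E}.ncard : ℝ) ≤ ε * N) ∧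
      (∀ μ : Measure (AddCircle (1 : ℝ)), IsProbabilityMeasure μ →
        MeasurePreserving (fun x : AddCircle (1 : ℝ) => q • x) μ μ → (∀ x, μ {x} = 0) → μ E = 0)) ∧
    (∀ μ : Measure (AddCircle (1 : ℝ)), IsProbabilityMeasure μ →
      MeasurePreserving (fun x : AddCircle (1 : ℝ) => q • x) μ μ → (∀ x, μ {x} = 0) →
      (∀ᵐ x ∂μ, Dense (range fun n : ℕ => p ^ n • x)) ∧
      (MeasurePreserving (fun x : AddCircle (1 : ℝ) => p • x) μ μ →
        ∀ A : Set (AddCircle (1 : ℝ)), MeasurableSet A → (fun x : AddCircle (1 : ℝ) => p • x) ⁻¹' A = A →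
          μ A ≠ 0 → ∀ J : Set (AddCircle (1 : ℝ)), IsOpen J → J.Nonempty → μ (A ∩ J) ≠ 0)) := by
  have h : MI p q := mi_of hp hq hpq
  have hq0 : 0 < q := by omega
  refine ⟨?_, ?_⟩
  · intro E hE hne hpE
    have hu : ∀ ε : ℝ, 0 < ε → ∃ N Q : ℕ, 0 < N ∧ 0 < Q ∧ ∀ x : AddCircle (1 : ℝ), (Q * q ^ N) • x ≠ 0 →
        ({n : ℕ | n < N ∧ q ^ n • x ∈ E}.ncard : ℝ) ≤ ε * N := by
      intro ε hε
      obtain ⟨N, Q, hN, hQ, hx⟩ := uniform h hE hne hpE hε
      refine ⟨N, Q, hN, hQ, fun x hx0 => ?_⟩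
      have h1 := hx x hx0
      rw [← ncard_eq] at h1
      exact h1
    refine ⟨hu, ?_, fun μ _ hμ hat => null_atomless h hE hne hpE μ hμ hat⟩
    intro x hx ε hε
    obtain ⟨N, Q, hN, hQ, hy⟩ := hu ε hε
    refine ⟨N, hN, fun w => ?_⟩
    have h1 := hy (q ^ w • x) (by
      rw [← mul_nsmul']
      exact hx _ (by positivity))
    have e : ∀ n : ℕ, q ^ n • q ^ w • x = q ^ (w + n) • x := by
      intro n
      rw [← mul_nsmul', pow_add, mul_comm]
    simp only [e] at h1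
    exact h1
  · intro μ _ hμ hat
    exact ⟨dense_ae h μ hμ hat, fun hpm A hA hinv hA0 J hJ hJ0 =>
      full_support h μ hpm hμ hat hA hinv hA0 hJ hJ0⟩

end Pool.Agent.Variants.NullSets
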