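import Pool.Agent.Ef.M1
import Pool.Agent.SWz.Main

/-!
# MP_13664e_an: Moebius disjointness for odometer based systems with finitely many words

`T` is a homeomorphism of a compact metric space with a unique invariant probability measure `ν`
and with continuous compatible phases `ph k : X → {0, …, L k - 1}` over an odometer
`L 0 ∣ L 1 ∣ …`, `L k → ∞` (no other condition on the `L k`), `s : X → A` is continuous with values in
a discrete space, the phases and the letters `s (T^n x)`, `n ∈ ℤ`, separate the points, for every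
`k` at most `m` words `(s (T^r x))_{r < L k}` occur at points `x` with `ph k x = 0` (`Wds`), and every
measurable eigenvalue is an `L k`-th root of unity for some `k` (`Sys`). Then `T` has bounded
topological sequence entropy and `(1/N) ∑_{n ≤ N} g (T^n x) μ(n) → 0` for ALL points `x` and all
continuous `g`.
-/

set_option autoImplicit false

namespace Pool.Agent.Results.MP_13664e_an.OdometerWords

open MeasureTheory Filter Topology Pool.Agent.Sar Pool.Agent.Ef

theorem result {X A : Type*} [MetricSpace X] [CompactSpace X] [MeasurableSpace X] [BorelSpace X]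
    [TopologicalSpace A] [DiscreteTopology A] (T : X ≃ₜ X) (ν : Measure X)
    [IsProbabilityMeasure ν] (L : ℕ → ℕ) (ph : ℕ → X → ℕ) (hS : Sys ν T L ph)
    (s : X → A) (hs : Continuous s)
    (hsep : ∀ x x' : X, (∀ k, ph k x = ph k x') → (∀ n : ℕ, s ((⇑T)^[n] x) = s ((⇑T)^[n] x')) →
      (∀ n : ℕ, s ((⇑T.symm)^[n] x) = s ((⇑T.symm)^[n] x')) → x = x')
    (m : ℕ) (hW : Wds T L ph s m) :
    BddSeqEnt T ∧ ∀ (g : C(X, ℂ)) (x : X),
      Tendsto (fun N : ℕ => (N : ℂ)⁻¹ * ∑ n ∈ Finset.Icc 1 N,
        g ((⇑T)^[n] x) * ((ArithmeticFunction.moebius n : ℤ) : ℂ)) atTop (𝓝 0) :=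
  ⟨BS T hS.phs hS.cont hs hsep hW,
    fun g x => M1 Pool.Agent.SWz.swlam Pool.Agent.SWz.swmu hS hs hsep hW g x⟩

end Pool.Agent.Results.MP_13664e_an.OdometerWords
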