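import Pool.Agent.LHy.Main

/-!
# Broué's conjecture for blocks whose Brauer correspondent has one simple module

Let `Λ` be a complete local commutative ring with algebraically closed residue field `k` of characteristic
`p` (for example a complete discrete valuation ring of characteristic `0`, or `Λ = k`), `G` a finite group,
`b` a block of `Λ G` with an abelian defect group `D` and `c` its Brauer correspondent in `Λ N_G(D)`. Let `e`
be a block of `k C_G(D)` with `e Br_D(b) = e`, so `(D, e)` is a maximal `b`-Brauer pair, `T` the inertial
group of `e` in `N_G(D)` and `E = T / C_G(D)` the inertial quotient. Then `D = C_D(T) × [D, T]`, and `[D, T]` is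
the hyperfocal subgroup of `b`. Suppose that

(a) `[D, T]` is generated by two elements; or

(b) every subgroup of `[D, T]` whose pointwise centralizer in `E` is not trivial is normalized by `T`;

and that `p` is odd or `C_D(T) = 1`. If the block algebra `Λ N_G(D) c` has exactly one simple module (up to
isomorphism), then the block algebras `Λ G b` and `Λ N_G(D) c` are Morita equivalent. In particular their
bounded derived categories are equivalent, and `b` has exactly one simple module.

There is no condition on `C_D(T)`. For example the theorem applies, for `p` odd, to all the blocks with an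
abelian defect group and inertial quotient a Klein four group for which `c` has one simple module. The proof
does not use the classification of the finite simple groups.

The case `C_D(T) = 1` is in the library `OneS`: the source algebra `A` of `b` over `k` is changed by twisting with
endopermutation modules (Morita equivalences, which lift to the Witt vectors), by descending induction over
the subgroups `R ≤ D`, until it is the twisted group algebra of `D ⋊ E`. In general (library `LHy`) put
`U = C_D(T)`, `Z = [D, T]` and let `O` be the ring of Witt vectors of `k`. (1) There is a homomorphism `ζ` from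
`U` to the group of units of the centre of `O G b` with `e Br_D(ζ(u)) = e u` over `k` for `u ∈ U`. It comes from
the isometries `V_{S Z} → V_S` between the spaces of the class functions on the `p`-regular elements in the local
blocks (libraries `Wat`, `WatG`, `MSy`, `BlkS`; here `p` is odd); its values lie in the unramified ring `O`, since
the Galois group of the `p`-power roots of unity permutes the characters of all the local blocks and
fixes their restrictions to the `p`-regular elements. (2) Let `AO` be the form of `A` over `O`, `μ(u) = i ζ(u) i`, so
`μ(u) = u` modulo the relative traces from the proper subgroups of `D`. The quotient `AbO = AO / (μ(u) - 1)` is an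
interior `Z`-algebra and `AO = AbO[U]`: the homomorphism `AO → AO[U]` which maps `ρ(g)` to `ρ(g) deg(g)`, `g ∈ D`, is
constructed by successive approximation with the relative Casimir element. (3) After the twists at
the subgroups `R ≥ Z`, a corner `C = ε Ab ε` of `Ab` is a source algebra of the shape needed in the first case for
`(Z, E)`, and it is a full corner: `Ab ε Ab` has a left identity because `ε Ab` is free over `k Z` up to the proper
traces, it is central as `Ab` is symmetric, and the centre of `Ab` is local. So the first case applies to `C`,
with coefficients in `Λ[U]`.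
-/

set_option autoImplicit false

namespace Pool.Agent.Variants.OneSimpleHyperfocal

open MonoidAlgebra IsLocalRing Pool.Agent.UBlocks Pool.Agent.SigB Pool.Agent.URing

/-- The main result. -/
theorem result
    -- a complete local ring whose residue field `k` is algebraically closed of characteristic `p`
    (Λ : Type) [CommRing Λ] [IsLocalRing Λ] [IsAdicComplete (maximalIdeal Λ) Λ]
    [IsAlgClosed (ResidueField Λ)] (p : ℕ) (hp : p.Prime) [CharP (ResidueField Λ) p]
    (G : Type) [Group G] [Finite G]
    -- `b` is a block of `Λ G` with the abelian defect group `D`
    (b : MonoidAlgebra Λ G) (hb : IsBlk b) (D : Subgroup G) (hD : IsDefectGroup p b D)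
    (hab : ∀ x ∈ D, ∀ y ∈ D, x * y = y * x)
    -- `c` is its Brauer correspondent, a block of `Λ N_G(D)`
    (c : MonoidAlgebra Λ (Subgroup.normalizer (D : Set G))) (hc : IsBlk c)
    (hbc : IsBrauerCorrespondent b D c)
    -- `e` is a block of `k C_G(D)` with `e Br_D(b) = e`; `T = inertial D e`
    (e : MonoidAlgebra (ResidueField Λ) (Subgroup.centralizer (D : Set G))) (he : IsBlk e)
    (hbe : e * brD D (MonoidAlgebra.mapRingHom G (residue Λ) b) = e)
    -- `p` is odd or `C_D(T) = 1`
    (hp2 : p ≠ 2 ∨ ∀ x ∈ D, (∀ g ∈ inertial D e, g * x * g⁻¹ = x) → x = 1)
    (hcl :
      -- `[D, T]` is generated by two elements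
      (∃ x y : G, Subgroup.zpowers x ⊔ Subgroup.zpowers y = ⁅inertial D e, D⁆) ∨
      -- or every `R ≤ [D, T]` centralized by an element of `T` outside `C_G(D)` is normalized by `T`
      ∀ R : Subgroup G, R ≤ ⁅inertial D e, D⁆ →
        (∃ g ∈ inertial D e, g ∉ Subgroup.centralizer (D : Set G) ∧ ∀ x ∈ R, g * x * g⁻¹ = x) →
          ∀ g ∈ inertial D e, ∀ x ∈ R, g * x * g⁻¹ ∈ R)
    -- `Λ N_G(D) c` has one simple module up to isomorphism
    (hone : ∀ (M N : Type) [AddCommGroup M] [AddCommGroup N] [Module (BlkAlg hc) M]
      [Module (BlkAlg hc) N], IsSimpleModule (BlkAlg hc) M → IsSimpleModule (BlkAlg hc) N →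
        Nonempty (M ≃ₗ[BlkAlg hc] N)) :
    -- `Λ G b` and `Λ N_G(D) c` are Morita equivalent
    Mor (BlkAlg hb) (BlkAlg hc) ∧
    -- `D^b(Λ G b)` and `D^b(Λ N_G(D) c)` are equivalent
    DbEquiv (BlkAlg hb) (BlkAlg hc) := by
  have : Fact p.Prime := ⟨hp⟩
  have h := LHy.main_H Λ p G b hb D hD hab c hc hbc e he hbe hp2 hcl hone
  exact ⟨h, DG.dbEquiv_of_mor h⟩

end Pool.Agent.Variants.OneSimpleHyperfocal
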