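import Pool.Agent.OneS.NdG

/-!
# Broué's conjecture for blocks whose Brauer correspondent has one simple module

Let `Λ` be a complete local commutative ring with algebraically closed residue field `k` of characteristic
`p` (for example a complete discrete valuation ring of characteristic `0`, or `Λ = k`), `G` a finite group,
`b` a block of `Λ G` with an abelian defect group `D` and `c` its Brauer correspondent in `Λ N_G(D)`. Let `e`
be a block of `k C_G(D)` with `e Br_D(b) = e`, so `(D, e)` is a maximal `b`-Brauer pair, `T` the inertial
group of `e` in `N_G(D)` and `E = T / C_G(D)` the inertial quotient. Suppose that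

(a) `D` is generated by two elements; or

(b) every subgroup of `D` whose pointwise centralizer in `E` is not trivial is normalized by `T`.

If the block algebra `Λ N_G(D) c` has exactly one simple module (up to isomorphism), then the block algebras
`Λ G b` and `Λ N_G(D) c` are Morita equivalent. In particular their bounded derived categories are
equivalent, and `b` has exactly one simple module.

Condition (b) holds for example if `D = D₁ × ... × D_r`, `T` acts on every `D_i` by power automorphisms, and
`C_E(D_i) ∩ C_E(D_j) = 1` for `i ≠ j`. So it covers, for `p` odd, all the blocks with an abelian defect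
group, inertial quotient a Klein four group `E` with `C_D(E) = 1`, and one simple module in `c`.

The proof does not use the classification of the finite simple groups (libraries `OneS` and, for the source
algebras, `Sig`, `SigO`, `KtU`, `P2c`, `DG`, `DGs`, `BrP`). First, `E` is abelian: since `c` has one simple
module, the centre of the twisted group algebra of `E` is `k`, so for every `1 ≠ x ∈ E` there is `y ∈ C_E(x)`
which does not commute with `x` in the twisted group algebra. If `D` is generated by two elements then `E` is a subgroup of
`GL₂`, and this forces `E` to be abelian; in case (b) it is even easier. Let `A` be a source algebra of `b`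
over `k`, with its form over the Witt vectors of `k`. For every `y ∈ E` there is a unit `a_y` of `A` with
`a_y u = θ_y(u) a_y` for all `u ∈ D`, unique up to units of the local algebra `A^D` of the elements which
commute with `D`, and the commutators of the `a_y` define a pairing of `E` with values in `k^×`. It is the
same pairing for `b` and for `c`, and it is not degenerate. By descending induction over the subgroups
`R ≤ D` the algebra `A` is changed by endopermutation modules (these are Morita equivalences, over the Witt
vectors), until the `R`-fixed elements of `A` are, modulo relative traces from proper subgroups of `R`, sums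
of elements `z` with `z u = θ_y(u) z` for all `u ∈ D`, `y ∈ C_E(R)`. The step for `R` concerns the algebra
`H`, the quotient of `A^R` by the proper traces and by the elements `(u - 1) a`, `u ∈ R`: it is a symmetric
algebra which contains the twisted group algebra of `(D / R) ⋊ C_E(R)` with a complement which is free over
`D / R` on both sides. The restriction of a simple `H`-module to `D / R` does not change under a torus of
automorphisms of `k[D / R]`, hence not under `E`. From this and from the nondegenerate pairing it follows
that it is a direct summand of a multiple of one `E`-invariant endopermutation module `V`, and the change of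
`A` by the dual of `V` makes `H` the twisted group algebra itself. For `R = 1` one obtains `A = ⊕ k D a_x`,
the twisted group algebra of `D ⋊ E`, with its form over the Witt vectors, and the same algebra for `c`.
-/

set_option autoImplicit false

namespace Pool.Agent.Variants.OneSimpleModule

open MonoidAlgebra IsLocalRing Pool.Agent.UBlocks Pool.Agent.SigB Pool.Agent.URing

/-- The main result. -/
theorem result
    -- a complete local ring whose residue field `k` is algebraically closed of characteristic `p`
    (Λ : Type) [CommRing Λ] [IsLocalRing Λ] [IsAdicComplete (maximalIdeal Λ) Λ]
    [IsAlgClosed (ResidueField Λ)] (p : ℕ) (hp : p.Prime) [CharP (ResidueField Λ) p]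
    (G : Type) [Group G] [Finite G]
    -- `b` is a block of `Λ G` with the abelian defect group `D`
    (b : MonoidAlgebra Λ G) (hb : IsBlk b) (D : Subgroup G) (hD : IsDefectGroup p b D)
    (hab : ∀ x ∈ D, ∀ y ∈ D, x * y = y * x)
    -- `c` is its Brauer correspondent, a block of `Λ N_G(D)`
    (c : MonoidAlgebra Λ (Subgroup.normalizer (D : Set G))) (hc : IsBlk c)
    (hbc : IsBrauerCorrespondent b D c)
    -- `e` is a block of `k C_G(D)` with `e Br_D(b) = e`
    (e : MonoidAlgebra (ResidueField Λ) (Subgroup.centralizer (D : Set G))) (he : IsBlk e)
    (hbe : e * brD D (MonoidAlgebra.mapRingHom G (residue Λ) b) = e)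
    (hcl :
      -- `D` is generated by two elements
      (∃ x y : G, Subgroup.zpowers x ⊔ Subgroup.zpowers y = D) ∨
      -- or every `R ≤ D` centralized by an element of `T` outside `C_G(D)` is normalized by `T`
      ∀ R : Subgroup G, R ≤ D →
        (∃ g ∈ inertial D e, g ∉ Subgroup.centralizer (D : Set G) ∧ ∀ x ∈ R, g * x * g⁻¹ = x) →
          ∀ g ∈ inertial D e, ∀ x ∈ R, g * x * g⁻¹ ∈ R)
    -- `Λ N_G(D) c` has one simple module up to isomorphism
    (hone : ∀ (M N : Type) [AddCommGroup M] [AddCommGroup N] [Module (BlkAlg hc) M]
      [Module (BlkAlg hc) N], IsSimpleModule (BlkAlg hc) M → IsSimpleModule (BlkAlg hc) N →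
        Nonempty (M ≃ₗ[BlkAlg hc] N)) :
    -- `Λ G b` and `Λ N_G(D) c` are Morita equivalent
    Mor (BlkAlg hb) (BlkAlg hc) ∧
    -- `D^b(Λ G b)` and `D^b(Λ N_G(D) c)` are equivalent
    DbEquiv (BlkAlg hb) (BlkAlg hc) := by
  have : Fact p.Prime := ⟨hp⟩
  have h := OneS.main_L4 Λ p G b hb D hD hab c hc hbc e he hbe hcl hone
  exact ⟨h, DG.dbEquiv_of_mor h⟩

end Pool.Agent.Variants.OneSimpleModule
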