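import Pool.Agent.MP_c42954_lc.Scan.Labels

set_option autoImplicit false

/-!
# Splay trees serve a shuffle of `k` outward scans at cost `O(log (1 + k))` per request and per key
passed by a scan

The definitions `inorder`, `IsBST`, `depth`, `splayStep`, `splay`, `splayCost`, `Rot`, `RotSeq` and
`Exec` are in `Pool.Agent.MP_c42954_lc.Scan.Defs`.
-/

namespace Pool.Agent.Results.MP_c42954_lc.OutwardScans

open BinaryTree Pool.Agent.MP_c42954_lc.Scan

/-- A sequence of requests, each with one of `k` labels; the requests with the same label form a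
scan.  `Outward m Z`: every scan moves away from `m`, that is, among the requests with the same
label, those to keys `≥ m` never decrease and those to keys `< m` never increase. -/
def Outward {k : ℕ} (m : ℕ) (Z : List (ℕ × Fin k)) : Prop :=
  Z.Pairwise (fun p q => p.2 = q.2 →
    (m ≤ p.1 → m ≤ q.1 → p.1 ≤ q.1) ∧ (p.1 < m → q.1 < m → q.1 ≤ p.1))

/-- `load Z a`: the number of scans which pass over the key `a`, that is, which request some key
`≤ a` and some key `≥ a`. -/
def load {k : ℕ} (Z : List (ℕ × Fin k)) (a : ℕ) : ℕ :=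
  (Finset.univ.filter (fun c : Fin k =>
    (∃ p ∈ Z, p.2 = c ∧ p.1 ≤ a) ∧ (∃ p ∈ Z, p.2 = c ∧ a ≤ p.1))).card

/-- Every execution costs at least one per request. -/
theorem exec_length {T : BinaryTree ℕ} {X : List ℕ} {c : ℕ} (h : Exec T X c) : X.length ≤ c := by
  induction h with
  | nil T => simp
  | cons h1 h2 ih => simp only [List.length_cons]; omega

theorem sum_load {k : ℕ} (Z : List (ℕ × Fin k)) : ∀ K : List ℕ,
    ∑ c : Fin k, K.countP (fun a => (∃ p ∈ Z, p.2 = c ∧ p.1 ≤ a) ∧ (∃ p ∈ Z, p.2 = c ∧ a ≤ p.1))
      = (K.map (load Z)).sum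
  | [] => by simp
  | a :: K => by
      simp only [List.countP_cons, List.map_cons, List.sum_cons]
      rw [Finset.sum_add_distrib, sum_load Z K, add_comm]
      congr 1
      unfold load
      rw [Finset.card_filter]
      refine Finset.sum_congr rfl fun c _ => ?_
      simp only [decide_eq_true_eq]

/-- The bound in terms of the loads. -/
theorem scans {k : ℕ} (T : BinaryTree ℕ) (Z : List (ℕ × Fin k)) (m : ℕ) (hb : IsBST T)
    (hZ : ∀ p ∈ Z, p.1 ∈ inorder T) (hO : Outward m Z) :
    (splayCost (Z.map Prod.fst) T : ℝ) ≤ 440000 * Real.logb 2 (1 + k) *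
      ((inorder T).length + Z.length + ((inorder T).map (load Z)).sum) := by
  rcases Z.eq_nil_or_concat with h0 | h0
  · subst h0
    have h1 : 0 ≤ Real.logb 2 (1 + (k : ℝ)) := by
      apply Real.logb_nonneg (by norm_num)
      have : (0 : ℝ) ≤ k := Nat.cast_nonneg _
      linarith
    simp only [List.map_nil, splayCost]
    rw [Nat.cast_zero]
    exact mul_nonneg (mul_nonneg (by norm_num) h1) (by positivity)
  · obtain ⟨p, hp⟩ : ∃ p, p ∈ Z := by
      obtain ⟨Z', p, h0⟩ := h0
      exact ⟨p, by rw [h0]; simp⟩
    have hk : 1 ≤ k := by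
      have := p.2.2
      omega
    have hn : 1 ≤ (inorder T).length := by
      have := List.length_pos_of_mem (hZ p hp)
      omega
    have h1 := main_bound (s := fun c => (inorder T).countP (fun a =>
      (∃ p ∈ Z, p.2 = c ∧ p.1 ≤ a) ∧ (∃ p ∈ Z, p.2 = c ∧ a ≤ p.1))) hk hb hZ hO (by
      intro p hp q hq e _
      apply List.countP_mono_left
      intro v _ hv
      simp only [decide_eq_true_eq] at hv ⊢
      exact ⟨⟨p, hp, rfl, hv.1⟩, ⟨q, hq, e.symm, hv.2⟩⟩)
    have h2 := sum_load Z (inorder T)
    have h3 : (∑ c : Fin k, (((inorder T).countP (fun a =>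
      (∃ p ∈ Z, p.2 = c ∧ p.1 ≤ a) ∧ (∃ p ∈ Z, p.2 = c ∧ a ≤ p.1)) : ℕ) : ℝ))
        = (((inorder T).map (load Z)).sum : ℕ) := by
      exact_mod_cast h2
    rw [h3] at h1
    have h4 := cK_le hk
    have h5 := cK_nonneg k
    set S : ℝ := ((((inorder T).map (load Z)).sum : ℕ) : ℝ) with hS
    have hS0 : 0 ≤ S := by rw [hS]; exact Nat.cast_nonneg _
    have hn' : (1 : ℝ) ≤ (inorder T).length := by exact_mod_cast hn
    have h6 : (0 : ℝ) ≤ Z.length := Nat.cast_nonneg _
    have h7 : 2 * (((inorder T).length : ℝ) + 1 + Z.length + S) ≤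
        4 * ((inorder T).length + Z.length + S) := by linarith
    calc (splayCost (Z.map Prod.fst) T : ℝ)
        ≤ 2 * (((inorder T).length : ℝ) + 1 + Z.length + S) * cK k := h1
      _ ≤ 4 * ((inorder T).length + Z.length + S) * cK k :=
          mul_le_mul_of_nonneg_right h7 h5
      _ ≤ 4 * ((inorder T).length + Z.length + S) * (110000 * Real.logb 2 (1 + k)) :=
          mul_le_mul_of_nonneg_left h4 (by positivity)
      _ = 440000 * Real.logb 2 (1 + k) * ((inorder T).length + Z.length + S) := by ring

/-- The number of keys is at most the number of requests if every key is requested. -/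
theorem length_le {T : BinaryTree ℕ} {X : List ℕ} (hb : IsBST T) (h : ∀ a ∈ inorder T, a ∈ X) :
    (inorder T).length ≤ X.length := by
  have hnd : (inorder T).Nodup := hb.imp (fun h => ne_of_lt h)
  exact (List.subperm_of_subset hnd h).length_le

/-- The bound for executions. -/
theorem scans_exec {k : ℕ} (T : BinaryTree ℕ) (Z : List (ℕ × Fin k)) (m : ℕ) (hb : IsBST T)
    (hZ : ∀ p ∈ Z, p.1 ∈ inorder T) (hO : Outward m Z) (r c : ℕ)
    (hall : ∀ a ∈ inorder T, a ∈ Z.map Prod.fst) (hr : ∀ a ∈ inorder T, load Z a ≤ r)
    (hc : Exec T (Z.map Prod.fst) c) :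
    (splayCost (Z.map Prod.fst) T : ℝ) ≤ 880000 * Real.logb 2 (1 + k) * (1 + r) * c := by
  have h1 := scans T Z m hb hZ hO
  have h2 := length_le hb hall
  have h3 := exec_length hc
  rw [List.length_map] at h2 h3
  have h4 : ((inorder T).map (load Z)).sum ≤ (inorder T).length * r := by
    have := List.sum_le_card_nsmul ((inorder T).map (load Z)) r (by
      intro x hx
      obtain ⟨a, ha, rfl⟩ := List.mem_map.1 hx
      exact hr a ha)
    rwa [List.length_map, smul_eq_mul] at this
  have h5 : (inorder T).length + Z.length + ((inorder T).map (load Z)).sum ≤ 2 * (1 + r) * c := by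
    have h6 : (inorder T).length * r ≤ c * r := Nat.mul_le_mul_right _ (h2.trans h3)
    nlinarith
  have h7 : (((inorder T).length : ℝ) + Z.length + (((inorder T).map (load Z)).sum : ℕ))
      ≤ 2 * (1 + r) * c := by exact_mod_cast h5
  have h8 : 0 ≤ Real.logb 2 (1 + (k : ℝ)) := by
    apply Real.logb_nonneg (by norm_num)
    have : (0 : ℝ) ≤ k := Nat.cast_nonneg _
    linarith
  have h9 := mul_le_mul_of_nonneg_left h7 (show 0 ≤ 440000 * Real.logb 2 (1 + (k : ℝ)) by positivity)
  linarith

/-- **Splay trees and outward scans.** There is an absolute constant `C` such that, for every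
search tree `T` and every sequence of requests to keys of `T` which is a shuffle of `k` scans, each
moving away from `m`, the cost of splaying is at most `C log₂ (1 + k)` times the number of keys plus
the number of requests plus the sum over the keys of the number of scans passing over the key; and
if every key is requested and at most `r` scans pass over each key, then the cost of splaying is at
most `C log₂ (1 + k) (1 + r)` times the cost of every execution. -/
theorem result : ∃ C : ℝ, ∀ (k : ℕ) (T : BinaryTree ℕ) (Z : List (ℕ × Fin k)) (m : ℕ), IsBST T →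
    (∀ p ∈ Z, p.1 ∈ inorder T) → Outward m Z →
      (splayCost (Z.map Prod.fst) T : ℝ) ≤ C * Real.logb 2 (1 + k) *
        ((inorder T).length + Z.length + ((inorder T).map (load Z)).sum) ∧
      ∀ r c : ℕ, (∀ a ∈ inorder T, a ∈ Z.map Prod.fst) → (∀ a ∈ inorder T, load Z a ≤ r) →
        Exec T (Z.map Prod.fst) c →
        (splayCost (Z.map Prod.fst) T : ℝ) ≤ C * Real.logb 2 (1 + k) * (1 + r) * c := by
  refine ⟨880000, ?_⟩
  intro k T Z m hb hZ hO
  have h8 : 0 ≤ Real.logb 2 (1 + (k : ℝ)) := by
    apply Real.logb_nonneg (by norm_num)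
    have : (0 : ℝ) ≤ k := Nat.cast_nonneg _
    linarith
  constructor
  · refine (scans T Z m hb hZ hO).trans ?_
    have : 0 ≤ Real.logb 2 (1 + (k : ℝ)) *
        (((inorder T).length : ℝ) + Z.length + (((inorder T).map (load Z)).sum : ℕ)) := by
      positivity
    linarith
  · intro r c hall hr hc
    exact scans_exec T Z m hb hZ hO r c hall hr hc

/-- A corollary, not part of the hand-in's claim: for every sequence which requests every key of
`T` at least once and which has no strictly decreasing subsequence of more than `k` requests, or no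
strictly increasing one, the cost of splaying is at most `C k log₂ (1 + k)` times the cost of every
execution. -/
theorem monotone_sequences : ∃ C : ℝ, ∀ (k : ℕ) (T : BinaryTree ℕ) (X : List ℕ) (c : ℕ), 1 ≤ k →
    IsBST T → (∀ x ∈ X, x ∈ inorder T) → (∀ a ∈ inorder T, a ∈ X) →
      ((∀ Y : List ℕ, Y.Sublist X → Y.Pairwise (· > ·) → Y.length ≤ k) ∨
        (∀ Y : List ℕ, Y.Sublist X → Y.Pairwise (· < ·) → Y.length ≤ k)) →
      Exec T X c → (splayCost X T : ℝ) ≤ C * k * Real.logb 2 (1 + k) * c := by
  refine ⟨1760000, ?_⟩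
  intro k T X c hk hb hX hall hmono hc
  have key : ∀ (Z : List (ℕ × Fin k)) (m : ℕ), Z.map Prod.fst = X → Outward m Z →
      (splayCost X T : ℝ) ≤ 1760000 * k * Real.logb 2 (1 + k) * c := by
    intro Z m hZX hO
    subst hZX
    have h1 := scans_exec T Z m hb (fun p hp => hX _ (List.mem_map_of_mem hp)) hO k c hall
      (by
        intro a _
        unfold load
        refine (Finset.card_le_univ _).trans ?_
        rw [Fintype.card_fin]) hc
    have h8 : 0 ≤ Real.logb 2 (1 + (k : ℝ)) := by
      apply Real.logb_nonneg (by norm_num)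
      have : (0 : ℝ) ≤ k := Nat.cast_nonneg _
      linarith
    have hk' : (1 : ℝ) ≤ k := by exact_mod_cast hk
    have h2 : 0 ≤ Real.logb 2 (1 + (k : ℝ)) * c := by positivity
    nlinarith
  rcases hmono with h | h
  · obtain ⟨Z, h1, h2⟩ := exists_labels (r := fun a b => decide (b < a)) hk (by
      intro a b c h1 h2
      simp only [decide_eq_true_eq] at h1 h2 ⊢
      omega) (X := X) (by
      intro Y h1 h2
      refine h Y h1 (h2.imp ?_)
      intro a b h3
      simpa using h3)
    apply key Z 0 h1
    refine h2.imp ?_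
    intro p q h3 e
    have h4 := h3 e
    simp only [decide_eq_true_eq] at h4
    exact ⟨fun _ _ => by omega, fun h5 => by omega⟩
  · obtain ⟨Z, h1, h2⟩ := exists_labels (r := fun a b => decide (a < b)) hk (by
      intro a b c h1 h2
      simp only [decide_eq_true_eq] at h1 h2 ⊢
      omega) (X := X) (by
      intro Y h1 h2
      refine h Y h1 (h2.imp ?_)
      intro a b h3
      simpa using h3)
    have hbig : ∀ p ∈ Z, p.1 < X.sum + 1 := by
      intro p hp
      have : p.1 ∈ X := h1 ▸ List.mem_map_of_mem hp
      have := List.single_le_sum (by simp) _ this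
      omega
    apply key Z (X.sum + 1) h1
    refine h2.imp_of_mem ?_
    intro p q hp hq h3 e
    have h4 := h3 e
    simp only [decide_eq_true_eq] at h4
    have := hbig p hp
    exact ⟨fun h5 => by omega, fun _ _ => by omega⟩

end Pool.Agent.Results.MP_c42954_lc.OutwardScans
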