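import Pool.Agent.PIs.Main
import Pool.Agent.BrY.Main

/-!
# Perfect isometries for abelian defect groups and abelian Frobenius inertial quotients

Let `p` be a prime and `B` a `p`-block of a finite group `G` with an abelian defect group `D ≠ 1`. Let
`b` be a block of `C_G(D)` with `b^G = B`, `T` its inertial group in `N_G(D)`, `E = T / C_G(D)` the
inertial quotient and `c = b^{N_G(D)}` the Brauer correspondent of `B`. If `E` is abelian and acts freely
on `D \ {1}`, then `B` and `c` are perfectly isometric, `l(B) = l(c) = |E|` and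
`k(B) = k(c) = |E| + (|D| - 1) / |E|`.

The existence of a perfect isometry between a block with an abelian defect group and its Brauer
correspondent is Broué's conjecture on the level of characters; it is a consequence of the derived
equivalence of the abelian defect group conjecture. The equality `l(B) = l(c)` is Alperin's weight
conjecture for `B`.

* `FrobeniusAlperin` (folders `Sig`, `SigO`) gives the simple modules: `l(B) ≥ |E|`; the folder `BrY`
  translates this into the language of characters.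
* The folder `BlkS` shows that the blocks `b_S` of the groups `C_G(S)`, `S ≤ D`, form a block system in the
  sense of the folder `MSy` (generalized decomposition numbers, Brauer's second main theorem).
* The folder `Frb` determines the characters of such a system when `E` acts freely.
* The folder `PIs` compares `B` and `c`.

The classification of the finite simple groups is not used.
-/

set_option autoImplicit false

namespace Pool.Agent.Variants.PerfectIsometry

open Pool.Agent.KB Pool.Agent.KBZ Pool.Agent.KBQ Pool.Agent.PIs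

/-- The main result. `B = block 𝔪 χ` is the block of `χ ∈ Irr G`, `b = block 𝔪 ζ` is the block of
`ζ ∈ Irr (C_G(D))`, `c = block 𝔪 ψ` is the block of `ψ ∈ Irr (N_G(D))`. -/
theorem result (G : Type) [Group G] [Finite G] (p : ℕ) (hp : p.Prime)
    -- a maximal ideal over `p` of the ring of the algebraic integers
    (𝔪 : Ideal AInt) (h𝔪 : 𝔪.IsMaximal) (hp𝔪 : (p : AInt) ∈ 𝔪)
    (χ : G → ℂ) (hχ : χ ∈ Irr G)
    -- `D` is an abelian defect group of `B`, `b` is a block of its centralizer with `b^G = B`
    (D : Subgroup G) (hab : ∀ a ∈ D, ∀ b ∈ D, a * b = b * a) (hD1 : D ≠ ⊥)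
    (hD : Nat.card D = p ^ defect p (block 𝔪 χ))
    (ζ : Subgroup.centralizer (D : Set G) → ℂ)
    (hζ : ζ ∈ Irr (Subgroup.centralizer (D : Set G)))
    (hind : Induces 𝔪 (Subgroup.centralizer (D : Set G)) ζ χ)
    -- `E = T / C_G(D)` is abelian and acts freely on `D \ {1}`
    (hcomm : ∀ g ∈ inertia 𝔪 D ζ, ∀ h ∈ inertia 𝔪 D ζ,
      g * h * g⁻¹ * h⁻¹ ∈ Subgroup.centralizer (D : Set G))
    (hfree : ∀ g ∈ inertia 𝔪 D ζ, ∀ x ∈ D, x ≠ 1 → g * x = x * g →
      g ∈ Subgroup.centralizer (D : Set G))
    -- `c` is the block `b^{N_G(D)}`, the Brauer correspondent of `B`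
    (ψ : Subgroup.normalizer (D : Set G) → ℂ)
    (hψ : ψ ∈ Irr (Subgroup.normalizer (D : Set G)))
    (hindN : Induces 𝔪 ((Subgroup.centralizer (D : Set G)).subgroupOf
      (Subgroup.normalizer (D : Set G))) (fun y => ζ ⟨y.1.1, y.2⟩) ψ) :
    -- `l(B) |C_G(D)| = |T|`, that is `l(B) = |E|`, and `l(c) = l(B)`
    ell p (block 𝔪 χ) * Nat.card (Subgroup.centralizer (D : Set G)) =
      Nat.card (inertia 𝔪 D ζ) ∧
    ell p (block 𝔪 ψ) = ell p (block 𝔪 χ) ∧
    -- `k(B) = k(c) = |E| + (|D| - 1) / |E|`
    (block 𝔪 χ).ncard = (block 𝔪 ψ).ncard ∧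
    (∃ t : ℕ, t * ell p (block 𝔪 χ) + 1 = Nat.card D ∧
      (block 𝔪 χ).ncard = ell p (block 𝔪 χ) + t) ∧
    -- a perfect isometry between `B` and `c`
    ∃ (I : block 𝔪 χ ≃ block 𝔪 ψ) (ε : block 𝔪 χ → ℤ), Perf p 𝔪 I ε :=
  main_of (fun {K H} _ _ _ _ p hp 𝔪 h𝔪 hp𝔪 χ hχ D ι ζ hA hcomm hfree =>
      Pool.Agent.BrY.ell_ge' p hp 𝔪 h𝔪 hp𝔪 χ hχ D ι ζ hA hcomm hfree)
    G p hp 𝔪 h𝔪 hp𝔪 χ hχ D hab hD1 hD ζ hζ hind hcomm hfree ψ hψ hindN

end Pool.Agent.Variants.PerfectIsometry
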