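import Mathlib

set_option autoImplicit false

open scoped BigOperators

namespace Pool.Agent.Results.MP_c1e66d_co.PlanarFactors

/-- The sets `x i + c i • K` (`i < n`) are positive homothets of `K`, and any two different ones of
them are tangent: they meet, and their interiors are disjoint. -/
def Tangent {V : Type} [NormedAddCommGroup V] [NormedSpace ℝ V] (K : Set V) {n : ℕ}
    (c : Fin n → ℝ) (x : Fin n → V) : Prop :=
  (∀ i, 0 < c i) ∧ ∀ i j, i ≠ j →
    ((fun y => x i + c i • y) '' K ∩ (fun y => x j + c j • y) '' K).Nonempty ∧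
    interior ((fun y => x i + c i • y) '' K) ∩ interior ((fun y => x j + c j • y) '' K) = ∅

/-- The centrally symmetric (possibly unbounded) polyhedron with centre `z` cut out by the slabs
`|⟨u j a, y - z⟩| ≤ 1`, the slabs being given in `s` blocks, the `j`-th one with `k j + 1` slabs. -/
def slabBody {d s : ℕ} (k : Fin s → ℕ) (u : (j : Fin s) → Fin (k j + 1) → EuclideanSpace ℝ (Fin d))
    (z : EuclideanSpace ℝ (Fin d)) : Set (EuclideanSpace ℝ (Fin d)) :=
  {y | ∀ j a, |inner ℝ (u j a) (y - z)| ≤ 1}

/-! ### Sign vectors of one block -/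

/-- the sign of a truth value -/
def sg (b : Bool) : ℝ := if b then 1 else -1

lemma sg_not (b : Bool) : sg (!b) = - sg b := by
  cases b <;> simp [sg]

/-- Common points of the intervals `[g i - c i, g i + c i]`. -/
lemma exists_common {ι : Type} [Finite ι] [Nonempty ι] (c g : ι → ℝ)
    (h : ∀ i l, |g i - g l| ≤ c i + c l) :
    ∃ t : ℝ, ∀ i, g i - c i ≤ t ∧ t ≤ g i + c i := by
  refine ⟨⨆ i, (g i - c i), fun i => ⟨?_, ?_⟩⟩
  · exact le_ciSup (f := fun i => g i - c i) (Set.finite_range _).bddAbove i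
  · refine ciSup_le fun l => ?_
    have := (abs_le.mp (h l i)).2
    linarith

/-- The rounding: `true`/`false` if the point is at the left/right end of its interval, otherwise
the given default. -/
noncomputable def rd (h c : ℝ) (b : Bool) : Bool :=
  if h = c then true else if h = -c then false else b

lemma rd_pos {h c : ℝ} (b : Bool) (e : h = c) : rd h c b = true := by
  simp [rd, e]

lemma rd_neg {h c : ℝ} (b : Bool) (hc : 0 < c) (e : h = -c) : rd h c b = false := by
  have hne : ¬ (h = c) := by intro h'; linarith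
  rw [rd, if_neg hne, if_pos e]

lemma rd_le {h c : ℝ} (lam : ℝ) (hc : 0 < c) (h1 : -c ≤ h) (h2 : h ≤ c) :
    lam * h ≤ lam * sg (rd h c (decide (0 ≤ lam))) * c := by
  by_cases e : h = c
  · rw [rd_pos _ e, e]; simp [sg]
  · by_cases e' : h = -c
    · rw [rd_neg _ hc e', e']; simp [sg]
    · by_cases hl : 0 ≤ lam
      · simp only [rd, e, e', hl, decide_true, if_false, sg, if_true]
        nlinarith
      · simp only [rd, e, e', hl, decide_false, if_false, sg, Bool.false_eq_true]
        push Not at hl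
        nlinarith

lemma rd_ge {h c : ℝ} (lam : ℝ) (hc : 0 < c) (h1 : -c ≤ h) (h2 : h ≤ c) :
    lam * sg (rd h c (decide (lam < 0))) * c ≤ lam * h := by
  by_cases e : h = c
  · rw [rd_pos _ e, e]; simp [sg]
  · by_cases e' : h = -c
    · rw [rd_neg _ hc e', e']; simp [sg]
    · by_cases hl : lam < 0
      · simp only [rd, e, e', hl, decide_true, if_false, sg, if_true]
        nlinarith
      · simp only [rd, e, e', hl, decide_false, if_false, sg, Bool.false_eq_true]
        push Not at hl
        nlinarith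

/-- Case of a one-sided relation. -/
lemma block_pos {ι : Type} {k : ℕ} (c : ι → ℝ) (hc : ∀ i, 0 < c i)
    (h : ι → Fin (k + 1) → ℝ) (h1 : ∀ i a, -c i ≤ h i a) (h2 : ∀ i a, h i a ≤ c i)
    (lam : Fin (k + 1) → ℝ) (hrel : ∀ i, 0 < ∑ a, lam a * h i a) :
    ∃ col : ι → (Fin k → Bool), ∀ i l a, h i a = c i → h l a = - c l → col i ≠ col l := by
  set w : ι → Fin (k + 1) → Bool := fun i a => rd (h i a) (c i) (decide (0 ≤ lam a)) with hw
  have hpos : ∀ i, 0 < ∑ a, lam a * sg (w i a) := by
    intro i
    have hle : ∑ a, lam a * h i a ≤ (∑ a, lam a * sg (w i a)) * c i := by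
      rw [Finset.sum_mul]
      exact Finset.sum_le_sum fun a _ => rd_le (lam a) (hc i) (h1 i a) (h2 i a)
    have := lt_of_lt_of_le (hrel i) hle
    exact pos_of_mul_pos_left this (hc i).le
  refine ⟨fun i b => xor (w i b.succ) (w i 0), fun i l a hi hl heq => ?_⟩
  have ei : w i a = true := rd_pos _ hi
  have el : w l a = false := rd_neg _ (hc l) hl
  by_cases h0 : w i 0 = w l 0
  · have : ∀ a, w i a = w l a := by
      intro a
      refine Fin.cases h0 (fun b => ?_) a
      have := congrFun heq b
      simp only [h0] at this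
      revert this
      cases w i b.succ <;> cases w l b.succ <;> cases w l 0 <;> simp
    rw [this a, el] at ei
    exact absurd ei (by simp)
  · have h0' : w i 0 = !(w l 0) := by
      revert h0; cases w i 0 <;> cases w l 0 <;> simp
    have : ∀ a, w i a = !(w l a) := by
      intro a
      refine Fin.cases h0' (fun b => ?_) a
      have := congrFun heq b
      simp only [h0'] at this
      revert this
      cases w i b.succ <;> cases w l b.succ <;> cases w l 0 <;> simp
    have hs : ∑ a, lam a * sg (w i a) = - ∑ a, lam a * sg (w l a) := by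
      rw [← Finset.sum_neg_distrib]
      refine Finset.sum_congr rfl fun a _ => ?_
      rw [this a, sg_not]; ring
    have h3 := hpos i
    have h4 := hpos l
    linarith

/-- Case of a relation of value zero. -/
lemma block_zero {ι : Type} {k : ℕ} (c : ι → ℝ) (hc : ∀ i, 0 < c i)
    (h : ι → Fin (k + 1) → ℝ) (h1 : ∀ i a, -c i ≤ h i a) (h2 : ∀ i a, h i a ≤ c i)
    (a0 : Fin (k + 1)) (β : Fin k → ℝ) (hrel : ∀ i, h i a0 = ∑ b, β b * h i (a0.succAbove b)) :
    ∃ col : ι → (Fin k → Bool), ∀ i l a, h i a = c i → h l a = - c l → col i ≠ col l := by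
  classical
  refine ⟨fun i b => rd (h i (a0.succAbove b)) (c i)
    (if h i a0 = - c i then decide (β b < 0) else decide (0 ≤ β b)), fun i l a hi hl heq => ?_⟩
  by_cases ha : a = a0
  · subst ha
    have hni : ¬ (h i a = - c i) := by
      intro h'; have := hc i; linarith
    have hA : c i ≤ (∑ b, β b * sg (rd (h i (a.succAbove b)) (c i) (decide (0 ≤ β b)))) * c i := by
      rw [Finset.sum_mul]
      calc c i = h i a := hi.symm
        _ = _ := hrel i
        _ ≤ _ := Finset.sum_le_sum fun b _ => rd_le (β b) (hc i) (h1 i _) (h2 i _)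
    have hB : (∑ b, β b * sg (rd (h l (a.succAbove b)) (c l) (decide (β b < 0)))) * c l ≤ - c l := by
      rw [Finset.sum_mul]
      calc _ ≤ ∑ b, β b * h l (a.succAbove b) :=
            Finset.sum_le_sum fun b _ => rd_ge (β b) (hc l) (h1 l _) (h2 l _)
        _ = h l a := (hrel l).symm
        _ = _ := hl
    have hsum : (∑ b, β b * sg (rd (h i (a.succAbove b)) (c i) (decide (0 ≤ β b)))) =
        ∑ b, β b * sg (rd (h l (a.succAbove b)) (c l) (decide (β b < 0))) := by
      refine Finset.sum_congr rfl fun b _ => ?_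
      have := congrFun heq b
      simp only [hni, hl, if_true, if_false] at this
      rw [this]
    rw [hsum] at hA
    have h3 := hc i
    have h4 := hc l
    set S := ∑ b, β b * sg (rd (h l (a.succAbove b)) (c l) (decide (β b < 0))) with hS
    have h5 : 1 ≤ S := by
      by_contra hlt
      push Not at hlt
      nlinarith
    nlinarith
  · obtain ⟨b, rfl⟩ := Fin.exists_succAbove_eq ha
    have := congrFun heq b
    simp only [] at this
    rw [rd_pos _ hi, rd_neg _ (hc l) hl] at this
    exact absurd this (by simp)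

/-- The colouring of one block. -/
lemma block {ι : Type} [Finite ι] [Nonempty ι] {k : ℕ} (c : ι → ℝ) (hc : ∀ i, 0 < c i)
    (g : ι → Fin (k + 1) → ℝ) (lam : Fin (k + 1) → ℝ) (hlam : ∃ a, lam a ≠ 0)
    (hrel : ∀ i, ∑ a, lam a * g i a = 0)
    (hint : ∀ i l a, |g i a - g l a| ≤ c i + c l) :
    ∃ col : ι → (Fin k → Bool), ∀ i l a, g i a - g l a = c i + c l → col i ≠ col l := by
  have hex : ∀ a, ∃ t : ℝ, ∀ i, g i a - c i ≤ t ∧ t ≤ g i a + c i := fun a =>
    exists_common c (fun i => g i a) fun i l => hint i l a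
  choose t ht using hex
  set h : ι → Fin (k + 1) → ℝ := fun i a => g i a - t a with hh
  have h1 : ∀ i a, -c i ≤ h i a := fun i a => by
    have := (ht a i).2; simp only [hh]; linarith
  have h2 : ∀ i a, h i a ≤ c i := fun i a => by
    have := (ht a i).1; simp only [hh]; linarith
  have key : ∀ col : ι → (Fin k → Bool),
      (∀ i l a, h i a = c i → h l a = - c l → col i ≠ col l) →
      ∀ i l a, g i a - g l a = c i + c l → col i ≠ col l := by
    intro col hcol i l a e
    have e1 := (ht a i).1
    have e2 := (ht a l).2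
    refine hcol i l a ?_ ?_ <;> simp only [hh] <;> linarith
  have hT : ∀ i, ∑ a, lam a * h i a = - ∑ a, lam a * t a := by
    intro i
    have : ∑ a, lam a * h i a = ∑ a, lam a * g i a - ∑ a, lam a * t a := by
      rw [← Finset.sum_sub_distrib]
      exact Finset.sum_congr rfl fun a _ => by simp only [hh]; ring
    rw [this, hrel i]; ring
  rcases lt_trichotomy (∑ a, lam a * t a) 0 with hneg | hzero | hpos
  · obtain ⟨col, hcol⟩ := block_pos c hc h h1 h2 lam (fun i => by rw [hT i]; linarith)
    exact ⟨col, key col hcol⟩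
  · obtain ⟨a0, ha0⟩ := hlam
    obtain ⟨col, hcol⟩ := block_zero c hc h h1 h2 a0
      (fun b => - lam (a0.succAbove b) / lam a0) (fun i => by
        have := hT i
        rw [hzero, neg_zero, Fin.sum_univ_succAbove _ a0] at this
        have h3 : h i a0 = (- ∑ b, lam (a0.succAbove b) * h i (a0.succAbove b)) / lam a0 := by
          field_simp
          linarith
        rw [h3, ← Finset.sum_neg_distrib, Finset.sum_div]
        exact Finset.sum_congr rfl fun b _ => by ring)
    exact ⟨col, key col hcol⟩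
  · obtain ⟨col, hcol⟩ := block_pos c hc h h1 h2 (fun a => - lam a) (fun i => by
      have := hT i
      have h3 : ∑ a, - lam a * h i a = - ∑ a, lam a * h i a := by
        rw [← Finset.sum_neg_distrib]
        exact Finset.sum_congr rfl fun a _ => by ring
      rw [h3, this]; linarith)
    exact ⟨col, key col hcol⟩

/-! ### From tangency to slabs -/

section slabs

variable {V : Type} [NormedAddCommGroup V] [NormedSpace ℝ V] {A : Type}

/-- slab polyhedron for general functionals -/
def slab (f : A → V →L[ℝ] ℝ) (z : V) : Set V := {y | ∀ a, |f a (y - z)| ≤ 1}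

lemma mem_homothet (f : A → V →L[ℝ] ℝ) (z x : V) (c : ℝ) (hc : 0 < c) (y : V) :
    y ∈ (fun y => x + c • y) '' slab f z ↔ ∀ a, |f a y - f a (x + c • z)| ≤ c := by
  constructor
  · rintro ⟨w, hw, rfl⟩ a
    have h1 := hw a
    have h2 : f a (x + c • w) - f a (x + c • z) = c * f a (w - z) := by
      simp only [map_add, map_sub, map_smul, smul_eq_mul]; ring
    show |f a (x + c • w) - f a (x + c • z)| ≤ c
    rw [h2, abs_mul, abs_of_pos hc]
    nlinarith
  · intro h
    refine ⟨c⁻¹ • (y - x), fun a => ?_, ?_⟩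
    · have h2 : f a (c⁻¹ • (y - x) - z) = c⁻¹ * (f a y - f a (x + c • z)) := by
        simp only [map_add, map_sub, map_smul, smul_eq_mul]
        field_simp
        ring
      rw [h2, abs_mul, abs_of_pos (inv_pos.mpr hc)]
      have := h a
      rw [inv_mul_le_iff₀ hc]; linarith
    · show x + c • c⁻¹ • (y - x) = y
      rw [smul_smul, mul_inv_cancel₀ hc.ne', one_smul]; abel

lemma mem_interior_homothet [Finite A] (f : A → V →L[ℝ] ℝ) (z x : V) (c : ℝ) (hc : 0 < c) (y : V)
    (hy : ∀ a, |f a y - f a (x + c • z)| < c) :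
    y ∈ interior ((fun y => x + c • y) '' slab f z) := by
  have hopen : IsOpen {y : V | ∀ a, |f a y - f a (x + c • z)| < c} := by
    have : {y : V | ∀ a, |f a y - f a (x + c • z)| < c} =
        ⋂ a, {y : V | |f a y - f a (x + c • z)| < c} := by
      ext y; simp
    rw [this]
    refine isOpen_iInter_of_finite fun a => ?_
    exact isOpen_lt (((f a).continuous.sub continuous_const).abs) continuous_const
  refine mem_interior.mpr ⟨_, fun y' hy' => ?_, hopen, hy⟩
  exact (mem_homothet f z x c hc y').mpr fun a => (hy' a).le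

lemma slab_meet (f : A → V →L[ℝ] ℝ) (z x x' : V) (c c' : ℝ) (hc : 0 < c) (hc' : 0 < c')
    (h : ((fun y => x + c • y) '' slab f z ∩ (fun y => x' + c' • y) '' slab f z).Nonempty) (a : A) :
    |f a (x + c • z) - f a (x' + c' • z)| ≤ c + c' := by
  obtain ⟨y, hy, hy'⟩ := h
  have h1 := (mem_homothet f z x c hc y).mp hy a
  have h2 := (mem_homothet f z x' c' hc' y).mp hy' a
  rw [abs_le] at *
  constructor <;> linarith [h1.1, h1.2, h2.1, h2.2]

lemma slab_disj [Finite A] (f : A → V →L[ℝ] ℝ) (z x x' : V) (c c' : ℝ) (hc : 0 < c) (hc' : 0 < c')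
    (h : interior ((fun y => x + c • y) '' slab f z) ∩
      interior ((fun y => x' + c' • y) '' slab f z) = ∅) :
    ∃ a, c + c' ≤ |f a (x + c • z) - f a (x' + c' • z)| := by
  by_contra hcon
  push Not at hcon
  set X := x + c • z with hX
  set X' := x' + c' • z with hX'
  have hs : 0 < c + c' := by linarith
  set p : V := (c' / (c + c')) • X + (c / (c + c')) • X' with hp
  have e1 : ∀ a, f a p - f a X = c / (c + c') * (f a X' - f a X) := by
    intro a
    rw [hp]
    simp only [map_add, map_smul, smul_eq_mul]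
    field_simp
    ring
  have e2 : ∀ a, f a p - f a X' = c' / (c + c') * (f a X - f a X') := by
    intro a
    rw [hp]
    simp only [map_add, map_smul, smul_eq_mul]
    field_simp
    ring
  have hp1 : p ∈ interior ((fun y => x + c • y) '' slab f z) := by
    refine mem_interior_homothet f z x c hc p fun a => ?_
    rw [← hX, e1 a, abs_mul, abs_of_pos (div_pos hc hs), abs_sub_comm, div_mul_eq_mul_div,
      div_lt_iff₀ hs]
    have := hcon a
    nlinarith
  have hp2 : p ∈ interior ((fun y => x' + c' • y) '' slab f z) := by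
    refine mem_interior_homothet f z x' c' hc' p fun a => ?_
    rw [← hX', e2 a, abs_mul, abs_of_pos (div_pos hc' hs), div_mul_eq_mul_div,
      div_lt_iff₀ hs]
    have := hcon a
    nlinarith
  have : p ∈ (∅ : Set V) := h ▸ ⟨hp1, hp2⟩
  exact this

end slabs

/-! ### The colouring of a pairwise intersecting family -/

lemma colouring {d r : ℕ} (k : Fin r → ℕ)
    (u : (j : Fin r) → Fin (k j + 1) → EuclideanSpace ℝ (Fin d))
    (z : EuclideanSpace ℝ (Fin d)) (hdep : ∀ j, ¬ LinearIndependent ℝ (u j))
    {n : ℕ} (c : Fin n → ℝ) (x : Fin n → EuclideanSpace ℝ (Fin d)) (hc : ∀ i, 0 < c i)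
    (hint : ∀ i l, i ≠ l → ((fun y => x i + c i • y) '' slabBody k u z ∩
      (fun y => x l + c l • y) '' slabBody k u z).Nonempty) :
    ∃ col : Fin n → ((j : Fin r) → Fin (k j) → Bool), ∀ i l,
      interior ((fun y => x i + c i • y) '' slabBody k u z) ∩
        interior ((fun y => x l + c l • y) '' slabBody k u z) = ∅ → col i ≠ col l := by
  classical
  rcases Nat.eq_zero_or_pos n with hn | hn
  · subst hn
    exact ⟨fun i => i.elim0, fun i => i.elim0⟩
  have : Nonempty (Fin n) := ⟨⟨0, hn⟩⟩
  set f : (Σ j : Fin r, Fin (k j + 1)) → EuclideanSpace ℝ (Fin d) →L[ℝ] ℝ :=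
    fun p => innerSL ℝ (u p.1 p.2) with hf
  have hbody : slabBody k u z = slab f z := by
    ext y
    constructor
    · rintro hy ⟨j, a⟩
      exact hy j a
    · intro hy j a
      exact hy ⟨j, a⟩
  rw [hbody] at hint ⊢
  set g : (j : Fin r) → Fin n → Fin (k j + 1) → ℝ :=
    fun j i a => f ⟨j, a⟩ (x i + c i • z) with hg
  have hle : ∀ j i l a, |g j i a - g j l a| ≤ c i + c l := by
    intro j i l a
    by_cases hil : i = l
    · subst hil
      simp only [sub_self, abs_zero]
      have := hc i
      linarith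
    · exact slab_meet f z (x i) (x l) (c i) (c l) (hc i) (hc l) (hint i l hil) ⟨j, a⟩
  have hblk : ∀ j, ∃ col : Fin n → (Fin (k j) → Bool),
      ∀ i l a, g j i a - g j l a = c i + c l → col i ≠ col l := by
    intro j
    obtain ⟨lam, hl0, a, ha⟩ := Fintype.not_linearIndependent_iff.mp (hdep j)
    refine block c hc (g j) lam ⟨a, ha⟩ (fun i => ?_) (hle j)
    have : ∑ a, lam a * g j i a = inner ℝ (∑ a, lam a • u j a) (x i + c i • z) := by
      rw [sum_inner]
      refine Finset.sum_congr rfl fun a _ => ?_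
      rw [real_inner_smul_left]
      rfl
    rw [this, hl0, inner_zero_left]
  choose col hcol using hblk
  refine ⟨fun i j => col j i, fun i l hil heq => ?_⟩
  obtain ⟨⟨j, a⟩, ha⟩ := slab_disj f z (x i) (x l) (c i) (c l) (hc i) (hc l) hil
  have heqj : col j i = col j l := congrFun heq j
  have h1 : c i + c l ≤ |g j i a - g j l a| := ha
  have h2 := hle j i l a
  rcases abs_cases (g j i a - g j l a) with ⟨e, _⟩ | ⟨e, _⟩
  · exact hcol j i l a (by linarith) heqj
  · exact hcol j l i a (by linarith) heqj.symm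

lemma card_colours {r : ℕ} (k : Fin r → ℕ) :
    Fintype.card ((j : Fin r) → Fin (k j) → Bool) = 2 ^ (∑ j, k j) := by
  rw [Fintype.card_pi]
  simp [Finset.prod_pow_eq_pow_sum]


/-! ### The planar colouring -/

/-- no element of `T` lies in an open cone spanned by two elements of `S`
(directions are written `(σ, t)`, the antipode of `(σ, t)` is `(!σ, t)`) -/
def NN (S T : Bool → ℝ → Prop) : Prop :=
  (∀ σ t t' s, S σ t → S σ t' → T σ s → t < s → s < t' → False) ∧
  (∀ σ t t' s, S σ t → S (!σ) t' → T σ s → t' < t → t < s → False) ∧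
  (∀ σ t t' s, S σ t → S (!σ) t' → T σ s → t < t' → s < t → False)

lemma comb_caseI {ι : Type} (S : ι → Bool → ℝ → Prop)
    (hN : ∀ i j, i ≠ j → NN (S i) (S j) ∨ NN (S j) (S i))
    (hA : ∀ i σ t, S i σ t → S i (!σ) t → False)
    (hI : ∀ i, (∀ a b, S i false a → S i true b → a < b) ∨
      (∀ a b, S i false a → S i true b → b < a)) :
    ∃ col : ι → Fin 4, ∀ i j σ t, S i σ t → S j (!σ) t → col i ≠ col j := by
  classical
  set U : ι → Prop := fun i => ∀ t, ¬ S i false t with hU
  set D : ι → Prop := fun i => ∀ t, ¬ S i true t with hD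
  set X : ι → Prop := fun i => ∀ a b, S i false a → S i true b → a < b with hX
  have key : ∀ i j t, S i true t → S j false t →
      (if U i then (0 : Fin 4) else if D i then 1 else if X i then 2 else 3) ≠
      (if U j then (0 : Fin 4) else if D j then 1 else if X j then 2 else 3) := by
    intro i j t hi hj
    have hij : i ≠ j := by
      rintro rfl
      exact hA i true t hi hj
    have hDi : ¬ D i := fun h => h t hi
    have hUj : ¬ U j := fun h => h t hj
    rw [if_neg hDi, if_neg hUj]
    by_cases hUi : U i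
    · rw [if_pos hUi]
      by_cases hDj : D j
      · rw [if_pos hDj]; decide
      · rw [if_neg hDj]
        by_cases hXj : X j
        · rw [if_pos hXj]; decide
        · rw [if_neg hXj]; decide
    · rw [if_neg hUi]
      by_cases hDj : D j
      · rw [if_pos hDj]
        by_cases hXi : X i
        · rw [if_pos hXi]; decide
        · rw [if_neg hXi]; decide
      · rw [if_neg hDj]
        obtain ⟨a, ha⟩ : ∃ a, S i false a := by
          by_contra hcon
          exact hUi fun t ht => hcon ⟨t, ht⟩
        obtain ⟨b, hb⟩ : ∃ b, S j true b := by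
          by_contra hcon
          exact hDj fun t ht => hcon ⟨t, ht⟩
        by_cases hXi : X i
        · rw [if_pos hXi]
          by_cases hXj : X j
          · exfalso
            have h1 := hXi a t ha hi
            have h2 := hXj t b hj hb
            rcases hN i j hij with h | h
            · exact h.2.1 true t a b hi ha hb h1 h2
            · exact h.2.2 false t b a hj hb ha h2 h1
          · rw [if_neg hXj]; decide
        · rw [if_neg hXi]
          by_cases hXj : X j
          · rw [if_pos hXj]; decide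
          · exfalso
            have h1 := (hI i).resolve_left hXi a t ha hi
            have h2 := (hI j).resolve_left hXj t b hj hb
            rcases hN i j hij with h | h
            · exact h.2.2 true t a b hi ha hb h1 h2
            · exact h.2.1 false t b a hj hb ha h2 h1
  refine ⟨fun i => if U i then (0 : Fin 4) else if D i then 1 else if X i then 2 else 3,
    fun i j σ t hi hj => ?_⟩
  cases σ with
  | true => exact key i j t hi hj
  | false => exact (key j i t hj hi).symm

/-- position of a set relative to three vectors spanning positively -/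
lemma comb_cls (S T : Bool → ℝ → Prop) (hN : NN T S ∨ NN S T)
    (hA : ∀ σ t, T σ t → T (!σ) t → False)
    (σ : Bool) (m q M : ℝ) (h1 : S σ m) (h2 : S (!σ) q) (h3 : S σ M) (hmq : m < q) (hqM : q < M) :
    (∀ τ t, T τ t → S τ t) ∨
    ((∀ t, ¬ T (!σ) t) ∧ ∀ t, T σ t → m ≤ t ∧ t ≤ M) ∨
    ((∀ t, T σ t → t ≤ m) ∧ ∀ t, T (!σ) t → q ≤ t) ∨
    ((∀ t, T σ t → M ≤ t) ∧ ∀ t, T (!σ) t → t ≤ q) := by
  have hσ : ∀ τ : Bool, τ = σ ∨ τ = !σ := by
    intro τ; cases τ <;> cases σ <;> simp
  rcases hN with hN | hN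
  · obtain ⟨ha, hb, hc⟩ := hN
    have two : ∀ t t', T σ t → T (!σ) t' → t' < t → M ≤ t ∧ t' ≤ q := by
      intro t t' ht ht' hlt
      constructor
      · by_contra hcon
        push Not at hcon
        exact hb σ t t' M ht ht' h3 hlt hcon
      · by_contra hcon
        push Not at hcon
        exact hc (!σ) t' t q ht' (by simpa using ht) h2 hlt hcon
    have thr : ∀ t t', T σ t → T (!σ) t' → t < t' → t ≤ m ∧ q ≤ t' := by
      intro t t' ht ht' hlt
      constructor
      · by_contra hcon
        push Not at hcon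
        exact hc σ t t' m ht ht' h1 hlt hcon
      · by_contra hcon
        push Not at hcon
        exact hb (!σ) t' t q ht' (by simpa using ht) h2 hlt hcon
    have ne : ∀ t t', T σ t → T (!σ) t' → t < t' ∨ t' < t := by
      intro t t' ht ht'
      rcases lt_trichotomy t t' with h | h | h
      · exact Or.inl h
      · subst h
        exact (hA σ t ht ht').elim
      · exact Or.inr h
    by_cases hm : ∃ t', T (!σ) t'
    · obtain ⟨t0', ht0'⟩ := hm
      by_cases hp : ∃ t, T σ t
      · obtain ⟨t0, ht0⟩ := hp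
        by_cases hall2 : ∀ t t', T σ t → T (!σ) t' → t' < t
        · refine Or.inr (Or.inr (Or.inr ⟨fun t ht => ?_, fun t ht => ?_⟩))
          · exact (two t t0' ht ht0' (hall2 t t0' ht ht0')).1
          · exact (two t0 t ht0 ht (hall2 t0 t ht0 ht)).2
        · by_cases hall3 : ∀ t t', T σ t → T (!σ) t' → t < t'
          · refine Or.inr (Or.inr (Or.inl ⟨fun t ht => ?_, fun t ht => ?_⟩))
            · exact (thr t t0' ht ht0' (hall3 t t0' ht ht0')).1
            · exact (thr t0 t ht0 ht (hall3 t0 t ht0 ht)).2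
          · push Not at hall2 hall3
            obtain ⟨t2, t2', ht2, ht2', hle2⟩ := hall2
            obtain ⟨t1, t1', ht1, ht1', hle1⟩ := hall3
            have hlt2 : t2 < t2' := by
              rcases ne t2 t2' ht2 ht2' with h | h
              · exact h
              · exact absurd hle2 (not_le.mpr h)
            have hlt1 : t1' < t1 := by
              rcases ne t1 t1' ht1 ht1' with h | h
              · exact absurd hle1 (not_le.mpr h)
              · exact h
            have e1 := two t1 t1' ht1 ht1' hlt1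
            have e2 := thr t2 t2' ht2 ht2' hlt2
            have em : t2 = m := by
              by_contra hne
              have : t2 < m := lt_of_le_of_ne e2.1 hne
              exact ha σ t2 t1 m ht2 ht1 h1 this (by linarith [e1.1])
            have eM : t1 = M := by
              by_contra hne
              have : M < t1 := lt_of_le_of_ne e1.1 (Ne.symm hne)
              exact ha σ t2 t1 M ht2 ht1 h3 (by linarith [e2.1]) this
            subst em
            subst eM
            left
            intro τ t ht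
            rcases hσ τ with rfl | rfl
            · rcases ne t t1' ht ht1' with h | h
              · have := (thr t t1' ht ht1' h).1
                rcases this.lt_or_eq with h' | h'
                · exact (ha τ t t1 t2 ht ht1 h1 h' (by linarith)).elim
                · rw [h']; exact h1
              · have := (two t t1' ht ht1' h).1
                rcases this.lt_or_eq with h' | h'
                · exact (ha τ t2 t t1 ht2 ht h3 (by linarith) h').elim
                · rw [← h']; exact h3
            · have : t = q := by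
                apply le_antisymm
                · rcases ne t1 t ht1 ht with h | h
                  · have := (thr t1 t ht1 ht h).1
                    linarith
                  · exact (two t1 t ht1 ht h).2
                · rcases ne t2 t ht2 ht with h | h
                  · exact (thr t2 t ht2 ht h).2
                  · have := (two t2 t ht2 ht h).1
                    linarith
              rw [this]; exact h2
      · push Not at hp
        by_cases hq : ∀ t, T (!σ) t → t ≤ q
        · exact Or.inr (Or.inr (Or.inr ⟨fun t ht => (hp t ht).elim, hq⟩))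
        · push Not at hq
          obtain ⟨t1, ht1, hlt⟩ := hq
          refine Or.inr (Or.inr (Or.inl ⟨fun t ht => (hp t ht).elim, fun t ht => ?_⟩))
          by_contra hcon
          push Not at hcon
          exact ha (!σ) t t1 q ht ht1 h2 hcon hlt
    · push Not at hm
      by_cases hAA : ∀ t, T σ t → m ≤ t ∧ t ≤ M
      · exact Or.inr (Or.inl ⟨hm, hAA⟩)
      · push Not at hAA
        obtain ⟨t1, ht1, hlt⟩ := hAA
        rcases lt_or_ge t1 m with h | h
        · refine Or.inr (Or.inr (Or.inl ⟨fun t ht => ?_, fun t ht => (hm t ht).elim⟩))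
          by_contra hcon
          push Not at hcon
          exact ha σ t1 t m ht1 ht h1 h hcon
        · have hlt' := hlt h
          refine Or.inr (Or.inr (Or.inr ⟨fun t ht => ?_, fun t ht => (hm t ht).elim⟩))
          by_contra hcon
          push Not at hcon
          exact ha σ t t1 M ht ht1 h3 hcon hlt'
  · obtain ⟨ha, hb, hc⟩ := hN
    left
    intro τ t ht
    rcases hσ τ with rfl | rfl
    · have e1 : t ≤ M := by
        by_contra hcon
        push Not at hcon
        exact hb τ M q t h3 h2 ht hqM hcon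
      have e2 : m ≤ t := by
        by_contra hcon
        push Not at hcon
        exact hc τ m q t h1 h2 ht hmq hcon
      rcases e1.lt_or_eq with h | h
      · rcases e2.lt_or_eq with h' | h'
        · exact (ha τ m M t h1 h3 ht h' h).elim
        · rw [← h']; exact h1
      · rw [h]; exact h3
    · have : t = q := by
        apply le_antisymm
        · by_contra hcon
          push Not at hcon
          exact hb (!σ) q m t h2 (by simpa using h1) ht hmq hcon
        · by_contra hcon
          push Not at hcon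
          exact hc (!σ) q M t h2 (by simpa using h3) ht hqM hcon
      rw [this]; exact h2

lemma comb_caseII {ι : Type} (S : ι → Bool → ℝ → Prop)
    (hN : ∀ i j, i ≠ j → NN (S i) (S j) ∨ NN (S j) (S i))
    (hA : ∀ i σ t, S i σ t → S i (!σ) t → False)
    (i₀ : ι) (σ : Bool) (m q M : ℝ) (h1 : S i₀ σ m) (h2 : S i₀ (!σ) q) (h3 : S i₀ σ M)
    (hmq : m < q) (hqM : q < M) :
    ∃ col : ι → Fin 4, ∀ i j σ t, S i σ t → S j (!σ) t → col i ≠ col j := by
  classical
  set P0 : ι → Prop := fun j => ∀ τ t, S j τ t → S i₀ τ t with hP0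
  set PA : ι → Prop := fun j => (∀ t, ¬ S j (!σ) t) ∧ ∀ t, S j σ t → m ≤ t ∧ t ≤ M with hPA
  set PB : ι → Prop := fun j => (∀ t, S j σ t → t ≤ m) ∧ ∀ t, S j (!σ) t → q ≤ t with hPB
  set PC : ι → Prop := fun j => (∀ t, S j σ t → M ≤ t) ∧ ∀ t, S j (!σ) t → t ≤ q with hPC
  have hcls : ∀ j, P0 j ∨ PA j ∨ PB j ∨ PC j := by
    intro j
    by_cases hj : j = i₀
    · subst hj
      exact Or.inl fun τ t h => h
    · exact comb_cls (S i₀) (S j) (hN j i₀ hj) (hA j) σ m q M h1 h2 h3 hmq hqM
  have n0 : ∀ i j τ t, P0 i → P0 j → S i τ t → S j (!τ) t → False := fun i j τ t hi hj a b =>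
    hA i₀ τ t (hi τ t a) (hj (!τ) t b)
  have key : ∀ i j t, S i σ t → S j (!σ) t →
      (if P0 i then (0 : Fin 4) else if PA i then 1 else if PB i then 2 else 3) ≠
      (if P0 j then (0 : Fin 4) else if PA j then 1 else if PB j then 2 else 3) := by
    intro i j t hi hj
    have hAj : ¬ PA j := fun h => h.1 t hj
    rw [if_neg hAj]
    by_cases h0i : P0 i
    · rw [if_pos h0i]
      by_cases h0j : P0 j
      · exact (n0 i j σ t h0i h0j hi hj).elim
      · rw [if_neg h0j]
        by_cases hBj : PB j
        · rw [if_pos hBj]; decide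
        · rw [if_neg hBj]; decide
    · rw [if_neg h0i]
      by_cases hAi : PA i
      · rw [if_pos hAi]
        by_cases h0j : P0 j
        · rw [if_pos h0j]; decide
        · rw [if_neg h0j]
          by_cases hBj : PB j
          · rw [if_pos hBj]; decide
          · rw [if_neg hBj]; decide
      · rw [if_neg hAi]
        by_cases h0j : P0 j
        · rw [if_pos h0j]
          by_cases hBi : PB i
          · rw [if_pos hBi]; decide
          · rw [if_neg hBi]; decide
        · rw [if_neg h0j]
          by_cases hBi : PB i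
          · rw [if_pos hBi]
            by_cases hBj : PB j
            · exfalso
              have := hBi.1 t hi
              have := hBj.2 t hj
              linarith
            · rw [if_neg hBj]; decide
          · rw [if_neg hBi]
            by_cases hBj : PB j
            · rw [if_pos hBj]; decide
            · exfalso
              have hCi : PC i := (((hcls i).resolve_left h0i).resolve_left hAi).resolve_left hBi
              have hCj : PC j := (((hcls j).resolve_left h0j).resolve_left hAj).resolve_left hBj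
              have := hCi.1 t hi
              have := hCj.2 t hj
              linarith
  refine ⟨fun i => if P0 i then (0 : Fin 4) else if PA i then 1 else if PB i then 2 else 3,
    fun i j τ t hi hj => ?_⟩
  have hτ : τ = σ ∨ τ = !σ := by
    cases τ <;> cases σ <;> simp
  rcases hτ with rfl | rfl
  · exact key i j t hi hj
  · rw [Bool.not_not] at hj
    exact (key j i t hj hi).symm

/-- **Combinatorial lemma.** -/
lemma comb {ι : Type} (S : ι → Bool → ℝ → Prop)
    (hN : ∀ i j, i ≠ j → NN (S i) (S j) ∨ NN (S j) (S i))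
    (hA : ∀ i σ t, S i σ t → S i (!σ) t → False) :
    ∃ col : ι → Fin 4, ∀ i j σ t, S i σ t → S j (!σ) t → col i ≠ col j := by
  by_cases hI : ∀ i, (∀ a b, S i false a → S i true b → a < b) ∨
      (∀ a b, S i false a → S i true b → b < a)
  · exact comb_caseI S hN hA hI
  · push Not at hI
    obtain ⟨i₀, ⟨a, b, ha, hb, hab⟩, ⟨b', a', hb', ha', hab'⟩⟩ := hI
    have e1 : b < a := by
      rcases hab.lt_or_eq with h | h
      · exact h
      · subst h
        exact (hA i₀ true b hb ha).elim
    have e2 : b' < a' := by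
      rcases hab'.lt_or_eq with h | h
      · exact h
      · subst h
        exact (hA i₀ true b' ha' hb').elim
    rcases lt_trichotomy a a' with h | h | h
    · exact comb_caseII S hN hA i₀ true b a a' hb ha ha' e1 h
    · subst h
      exact (hA i₀ true a ha' ha).elim
    · exact comb_caseII S hN hA i₀ false b' a' a hb' ha' ha e2 h

/-- the linear functional with coefficients `u` -/
def LL (u : ℝ × ℝ) (y : (EuclideanSpace ℝ (Fin 2))) : ℝ := u.1 * y 0 + u.2 * y 1

lemma LL_add (u : ℝ × ℝ) (y z : (EuclideanSpace ℝ (Fin 2))) : LL u (y + z) = LL u y + LL u z := by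
  simp only [LL, PiLp.add_apply]; ring

lemma LL_smul (u : ℝ × ℝ) (a : ℝ) (y : (EuclideanSpace ℝ (Fin 2))) : LL u (a • y) = a * LL u y := by
  simp only [LL, PiLp.smul_apply, smul_eq_mul]; ring

lemma LL_sub (u : ℝ × ℝ) (y z : (EuclideanSpace ℝ (Fin 2))) : LL u (y - z) = LL u y - LL u z := by
  simp only [LL, PiLp.sub_apply]; ring

lemma LL_neg (u : ℝ × ℝ) (y : (EuclideanSpace ℝ (Fin 2))) : LL (-u) y = - LL u y := by
  simp only [LL, Prod.fst_neg, Prod.snd_neg]; ring

lemma LL_cont (u : ℝ × ℝ) : Continuous (LL u) := by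
  unfold LL
  fun_prop

/-- two independent functionals determine a vector -/
lemma LL_eq_zero {u u' : ℝ × ℝ} (hdet : u.1 * u'.2 - u.2 * u'.1 ≠ 0) {y : (EuclideanSpace ℝ (Fin 2))} (h : LL u y = 0)
    (h' : LL u' y = 0) : y = 0 := by
  simp only [LL] at h h'
  have e0 : (u.1 * u'.2 - u.2 * u'.1) * y 0 = 0 := by linear_combination u'.2 * h - u.2 * h'
  have e1 : (u.1 * u'.2 - u.2 * u'.1) * y 1 = 0 := by linear_combination u.1 * h' - u'.1 * h
  have f0 := (mul_eq_zero.mp e0).resolve_left hdet
  have f1 := (mul_eq_zero.mp e1).resolve_left hdet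
  ext i
  fin_cases i
  · exact f0
  · exact f1

/-- the homothet `x + c K` -/
def Hm {V : Type} [AddCommGroup V] [Module ℝ V] (K : Set V) (c : ℝ) (x : V) : Set V :=
  (fun y => x + c • y) '' K

section key

variable {K : Set (EuclideanSpace ℝ (Fin 2))} (hK : Convex ℝ K) {h : ℝ × ℝ → ℝ}
  (h1 : ∀ u, ∀ y ∈ K, LL u y ≤ h u) (h2 : ∀ u, ∃ p ∈ K, LL u p = h u)

include hK h1 h2 in
/-- **Key fact.** -/
lemma keyN {ci cj : ℝ} (hcj : 0 < cj) (hcc : cj ≤ ci) (xi xj : (EuclideanSpace ℝ (Fin 2))) (u u' v : ℝ × ℝ) (α β : ℝ)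
    (hα : 0 < α) (hβ : 0 < β) (hv : ∀ y, LL v y = α * LL u y + β * LL u' y)
    (hdet : u.1 * u'.2 - u.2 * u'.1 ≠ 0)
    (e1 : LL u xi + ci * h u ≤ LL u xj + cj * h u)
    (e2 : LL u' xi + ci * h u' ≤ LL u' xj + cj * h u')
    (e3 : LL v xj + cj * h v ≤ LL v xi + ci * h v) : Hm K cj xj ⊆ Hm K ci xi := by
  have hci : 0 < ci := lt_of_lt_of_le hcj hcc
  obtain ⟨p, hp, hpv⟩ := h2 v
  have A0 : LL u p ≤ h u := h1 u p hp
  have B0 : LL u' p ≤ h u' := h1 u' p hp
  have hc0 : 0 ≤ ci - cj := by linarith
  have F1 : LL u (xi - xj) + (ci - cj) * h u ≤ 0 := by rw [LL_sub]; linarith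
  have F2 : LL u' (xi - xj) + (ci - cj) * h u' ≤ 0 := by rw [LL_sub]; linarith
  have F3 : 0 ≤ LL v (xi - xj) + (ci - cj) * h v := by rw [LL_sub]; linarith
  have hvv : LL v (xi - xj) + (ci - cj) * h v =
      α * (LL u (xi - xj) + (ci - cj) * h u) + β * (LL u' (xi - xj) + (ci - cj) * h u')
        - (ci - cj) * (α * (h u - LL u p) + β * (h u' - LL u' p)) := by
    rw [hv, ← hpv, hv]; ring
  have m1 : 0 ≤ (ci - cj) * (h u - LL u p) := mul_nonneg hc0 (by linarith)
  have m2 : 0 ≤ (ci - cj) * (h u' - LL u' p) := mul_nonneg hc0 (by linarith)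
  have m1' : 0 ≤ α * ((ci - cj) * (h u - LL u p)) := mul_nonneg hα.le m1
  have m2' : 0 ≤ β * ((ci - cj) * (h u' - LL u' p)) := mul_nonneg hβ.le m2
  have n1 : α * (LL u (xi - xj) + (ci - cj) * h u) ≤ 0 :=
    mul_nonpos_of_nonneg_of_nonpos hα.le F1
  have n2 : β * (LL u' (xi - xj) + (ci - cj) * h u') ≤ 0 :=
    mul_nonpos_of_nonneg_of_nonpos hβ.le F2
  have z1 : α * (LL u (xi - xj) + (ci - cj) * h u) = 0 := by linarith
  have z2 : β * (LL u' (xi - xj) + (ci - cj) * h u') = 0 := by linarith
  have z3 : α * ((ci - cj) * (h u - LL u p)) = 0 := by linarith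
  have z4 : β * ((ci - cj) * (h u' - LL u' p)) = 0 := by linarith
  have z1 := (mul_eq_zero.mp z1).resolve_left hα.ne'
  have z2 := (mul_eq_zero.mp z2).resolve_left hβ.ne'
  have z3 := (mul_eq_zero.mp z3).resolve_left hα.ne'
  have z4 := (mul_eq_zero.mp z4).resolve_left hβ.ne'
  have w : (xi - xj) + (ci - cj) • p = 0 := by
    apply LL_eq_zero hdet
    · rw [LL_add, LL_smul]; linarith
    · rw [LL_add, LL_smul]; linarith
  rintro _ ⟨k, hk, rfl⟩
  refine ⟨p + (cj / ci) • (k - p), ?_, ?_⟩
  · have hle : cj / ci ≤ 1 := by rw [div_le_one hci]; exact hcc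
    have hge : 0 ≤ cj / ci := (div_pos hcj hci).le
    have := hK hp hk (sub_nonneg.mpr hle) hge (by ring)
    convert this using 1
    module
  · show xi + ci • (p + (cj / ci) • (k - p)) = xj + cj • k
    have : xi = xj - (ci - cj) • p := by
      rw [← sub_eq_zero]; rw [← w]; abel
    rw [this, smul_add, smul_smul, mul_div_cancel₀ _ hci.ne']
    module

end key

section fam

variable {K : Set (EuclideanSpace ℝ (Fin 2))} (hK : Convex ℝ K) (hKi : (interior K).Nonempty) {h : ℝ × ℝ → ℝ}
  (h1 : ∀ u, ∀ y ∈ K, LL u y ≤ h u) (h2 : ∀ u, ∃ p ∈ K, LL u p = h u)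

include h1 h2 in
lemma h_hom (u : ℝ × ℝ) (a : ℝ) (ha : 0 < a) : h (a • u) = a * h u := by
  have hl : ∀ y, LL (a • u) y = a * LL u y := by
    intro y; simp only [LL, Prod.smul_fst, Prod.smul_snd, smul_eq_mul]; ring
  apply le_antisymm
  · obtain ⟨p, hp, hpe⟩ := h2 (a • u)
    rw [← hpe, hl]
    exact mul_le_mul_of_nonneg_left (h1 u p hp) ha.le
  · obtain ⟨p, hp, hpe⟩ := h2 u
    rw [← hpe, ← hl]
    exact h1 _ p hp

include hKi h1 in
lemma h_pos (u : ℝ × ℝ) (hu : u ≠ 0) : 0 < h u + h (-u) := by
  obtain ⟨y0, hy0⟩ := hKi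
  set v : (EuclideanSpace ℝ (Fin 2)) := !₂[u.1, u.2] with hv
  have hcont : Continuous fun e : ℝ => y0 + e • v := by fun_prop
  have hmem : (fun e : ℝ => y0 + e • v) ⁻¹' (interior K) ∈ nhds (0 : ℝ) := by
    apply hcont.continuousAt.preimage_mem_nhds
    apply isOpen_interior.mem_nhds
    simpa using hy0
  obtain ⟨ε, hε, hball⟩ := Metric.mem_nhds_iff.mp hmem
  have hin : y0 + (ε / 2) • v ∈ interior K := by
    apply hball
    rw [Metric.mem_ball, dist_zero_right, Real.norm_eq_abs, abs_of_pos (by linarith)]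
    linarith
  have g1 := h1 u _ (interior_subset hin)
  have g2 := h1 (-u) _ (interior_subset hy0)
  rw [LL_add, LL_smul] at g1
  rw [LL_neg] at g2
  have hvv : LL u v = u.1 ^ 2 + u.2 ^ 2 := by
    simp [LL, hv]; ring
  have hpos : 0 < u.1 ^ 2 + u.2 ^ 2 := by
    by_contra hcon
    push Not at hcon
    have a1 : u.1 = 0 := by nlinarith [sq_nonneg u.1, sq_nonneg u.2]
    have a2 : u.2 = 0 := by nlinarith [sq_nonneg u.1, sq_nonneg u.2]
    exact hu (Prod.ext a1 a2)
  have : 0 < ε / 2 * LL u v := by rw [hvv]; positivity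
  linarith

include h1 in
lemma meet_ge {ci cj : ℝ} (hci : 0 < ci) (hcj : 0 < cj) (xi xj : (EuclideanSpace ℝ (Fin 2)))
    (hm : (Hm K ci xi ∩ Hm K cj xj).Nonempty) (u : ℝ × ℝ) :
    0 ≤ (LL u xi + ci * h u) + (LL (-u) xj + cj * h (-u)) := by
  obtain ⟨y, ⟨a, ha, hay⟩, ⟨b, hb, hby⟩⟩ := hm
  have g1 : LL u y ≤ LL u xi + ci * h u := by
    rw [← hay]
    show LL u (xi + ci • a) ≤ _
    rw [LL_add, LL_smul]
    have := mul_le_mul_of_nonneg_left (h1 u a ha) hci.le
    linarith
  have g2 : LL (-u) y ≤ LL (-u) xj + cj * h (-u) := by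
    rw [← hby]
    show LL (-u) (xj + cj • b) ≤ _
    rw [LL_add, LL_smul]
    have := mul_le_mul_of_nonneg_left (h1 (-u) b hb) hcj.le
    linarith
  rw [LL_neg] at g2
  linarith

lemma LL_repr (f : (EuclideanSpace ℝ (Fin 2)) →L[ℝ] ℝ) : ∃ u : ℝ × ℝ, ∀ y, f y = LL u y := by
  refine ⟨(f (EuclideanSpace.single 0 1), f (EuclideanSpace.single 1 1)), fun y => ?_⟩
  have : y = y 0 • EuclideanSpace.single (0 : Fin 2) (1 : ℝ) +
      y 1 • EuclideanSpace.single (1 : Fin 2) (1 : ℝ) := by
    ext i
    fin_cases i <;> simp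
  conv_lhs => rw [this]
  rw [map_add, map_smul, map_smul]
  simp only [LL, smul_eq_mul]
  ring

include hK hKi h2 in
lemma sep_ex {ci cj : ℝ} (hci : 0 < ci) (hcj : 0 < cj) (xi xj : (EuclideanSpace ℝ (Fin 2))) (hKc : IsClosed K)
    (hd : interior (Hm K ci xi) ∩ interior (Hm K cj xj) = ∅) :
    ∃ u : ℝ × ℝ, u ≠ 0 ∧ (LL u xi + ci * h u) + (LL (-u) xj + cj * h (-u)) ≤ 0 := by
  have hconv : ∀ (c : ℝ) (x : (EuclideanSpace ℝ (Fin 2))), Convex ℝ (Hm K c x) := by
    rintro c x _ ⟨k, hk, rfl⟩ _ ⟨k', hk', rfl⟩ a b ha hb hab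
    refine ⟨a • k + b • k', hK hk hk' ha hb hab, ?_⟩
    show x + c • (a • k + b • k') = a • (x + c • k) + b • (x + c • k')
    have : a = 1 - b := by linarith
    subst this
    module
  -- the homothety as a homeomorphism
  have hhom : ∀ (c : ℝ) (_ : 0 < c) (x : (EuclideanSpace ℝ (Fin 2))), ∃ φ : (EuclideanSpace ℝ (Fin 2)) ≃ₜ (EuclideanSpace ℝ (Fin 2)), ∀ y, φ y = x + c • y := by
    intro c hc x
    refine ⟨(Homeomorph.smulOfNeZero c hc.ne').trans (Homeomorph.addLeft x), fun y => rfl⟩
  have hint : ∀ (c : ℝ) (_ : 0 < c) (x : (EuclideanSpace ℝ (Fin 2))), (interior (Hm K c x)).Nonempty := by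
    intro c hc x
    obtain ⟨φ, hφ⟩ := hhom c hc x
    have e : Hm K c x = φ '' K := by
      ext y; simp only [Hm, Set.mem_image, hφ]
    rw [e, ← φ.image_interior]
    exact hKi.image _
  have hcl : ∀ (c : ℝ) (_ : 0 < c) (x : (EuclideanSpace ℝ (Fin 2))), IsClosed (Hm K c x) := by
    intro c hc x
    obtain ⟨φ, hφ⟩ := hhom c hc x
    have e : Hm K c x = φ '' K := by
      ext y; simp only [Hm, Set.mem_image, hφ]
    rw [e]
    exact φ.isClosedMap _ hKc
  have hdis : Disjoint (interior (Hm K ci xi)) (interior (Hm K cj xj)) :=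
    Set.disjoint_iff_inter_eq_empty.mpr hd
  obtain ⟨f, a, hfa, hfb⟩ := geometric_hahn_banach_open_open (hconv ci xi).interior isOpen_interior
    (hconv cj xj).interior isOpen_interior hdis
  obtain ⟨u, hu⟩ := LL_repr f
  have G1 : ∀ y ∈ Hm K ci xi, LL u y ≤ a := by
    have hsub : Hm K ci xi ⊆ {y | LL u y ≤ a} := by
      have hcc : IsClosed {y : (EuclideanSpace ℝ (Fin 2)) | LL u y ≤ a} := isClosed_le (LL_cont u) continuous_const
      have e := (hconv ci xi).closure_interior_eq_closure_of_nonempty_interior (hint ci hci xi)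
      rw [(hcl ci hci xi).closure_eq] at e
      rw [← e]
      apply closure_minimal _ hcc
      intro y hy
      have := hfa y hy
      rw [hu] at this
      exact this.le
    exact fun y hy => hsub hy
  have G2 : ∀ y ∈ Hm K cj xj, a ≤ LL u y := by
    have hsub : Hm K cj xj ⊆ {y | a ≤ LL u y} := by
      have hcc : IsClosed {y : (EuclideanSpace ℝ (Fin 2)) | a ≤ LL u y} := isClosed_le continuous_const (LL_cont u)
      have e := (hconv cj xj).closure_interior_eq_closure_of_nonempty_interior (hint cj hcj xj)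
      rw [(hcl cj hcj xj).closure_eq] at e
      rw [← e]
      apply closure_minimal _ hcc
      intro y hy
      have := hfb y hy
      rw [hu] at this
      exact this.le
    exact fun y hy => hsub hy
  refine ⟨u, ?_, ?_⟩
  · rintro rfl
    obtain ⟨y, hy⟩ := hint ci hci xi
    obtain ⟨z, hz⟩ := hint cj hcj xj
    have a1 := hfa y hy
    have a2 := hfb z hz
    rw [hu] at a1 a2
    simp only [LL, Prod.fst_zero, Prod.snd_zero, zero_mul, add_zero] at a1 a2
    linarith
  · obtain ⟨p, hp, hpe⟩ := h2 u
    obtain ⟨p', hp', hpe'⟩ := h2 (-u)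
    have b1 := G1 (xi + ci • p) ⟨p, hp, rfl⟩
    have b2 := G2 (xj + cj • p') ⟨p', hp', rfl⟩
    rw [LL_add, LL_smul, hpe] at b1
    rw [LL_add, LL_smul] at b2
    rw [LL_neg] at hpe'
    rw [LL_neg, ← hpe']
    linarith

end fam

/-- the sign of a truth value -/
def sgn (b : Bool) : ℝ := if b then 1 else -1

lemma sgn_not (b : Bool) : sgn (!b) = - sgn b := by
  cases b <;> simp [sgn]

lemma sgn_sq (b : Bool) : sgn b * sgn b = 1 := by
  cases b <;> simp [sgn]

/-- the direction with coordinates `(σ, t)` (the circle is cut at `(1, s)`) -/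
def DD (s : ℝ) (σ : Bool) (t : ℝ) : ℝ × ℝ := (sgn σ * t, sgn σ * (s * t + 1))

lemma DD_not (s : ℝ) (σ : Bool) (t : ℝ) : DD s (!σ) t = - DD s σ t := by
  simp only [DD, sgn_not]
  ext <;> simp

lemma DD_ne (s : ℝ) (σ : Bool) (t : ℝ) : DD s σ t ≠ 0 := by
  intro h
  have h0 : sgn σ * t = 0 := congrArg Prod.fst h
  have h1 : sgn σ * (s * t + 1) = 0 := congrArg Prod.snd h
  have hs : sgn σ ≠ 0 := by cases σ <;> simp [sgn]
  have e0 := (mul_eq_zero.mp h0).resolve_left hs
  have e1 := (mul_eq_zero.mp h1).resolve_left hs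
  rw [e0] at e1
  norm_num at e1

lemma DD_det (s : ℝ) (σ τ : Bool) (t t' : ℝ) (h : t ≠ t') :
    (DD s σ t).1 * (DD s τ t').2 - (DD s σ t).2 * (DD s τ t').1 ≠ 0 := by
  have : (DD s σ t).1 * (DD s τ t').2 - (DD s σ t).2 * (DD s τ t').1 =
      sgn σ * sgn τ * (t - t') := by
    simp only [DD]; ring
  rw [this]
  have hs : sgn σ ≠ 0 := by cases σ <;> simp [sgn]
  have hs' : sgn τ ≠ 0 := by cases τ <;> simp [sgn]
  exact mul_ne_zero (mul_ne_zero hs hs') (sub_ne_zero.mpr h)

lemma planar_anti {ι : Type} [Finite ι] (K : Set (EuclideanSpace ℝ (Fin 2))) (hK : Convex ℝ K) (hKc : IsCompact K)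
    (hKi : (interior K).Nonempty) (c : ι → ℝ) (x : ι → (EuclideanSpace ℝ (Fin 2))) (hc : ∀ i, 0 < c i)
    (hm : ∀ i j, (Hm K (c i) (x i) ∩ Hm K (c j) (x j)).Nonempty)
    (hanti : ∀ i j, i ≠ j → ¬ Hm K (c j) (x j) ⊆ Hm K (c i) (x i)) :
    ∃ col : ι → Fin 4, ∀ i j, i ≠ j →
      interior (Hm K (c i) (x i)) ∩ interior (Hm K (c j) (x j)) = ∅ → col i ≠ col j := by
  classical
  have hne : K.Nonempty := hKi.mono interior_subset
  have hex : ∀ u : ℝ × ℝ, ∃ p ∈ K, ∀ y ∈ K, LL u y ≤ LL u p := fun u => by
    obtain ⟨p, hp, hpm⟩ := hKc.exists_isMaxOn hne (LL_cont u).continuousOn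
    exact ⟨p, hp, fun y hy => hpm hy⟩
  choose p hpK hpm using hex
  set h : ℝ × ℝ → ℝ := fun u => LL u (p u) with hh
  have h1 : ∀ u, ∀ y ∈ K, LL u y ≤ h u := fun u y hy => hpm u y hy
  have h2 : ∀ u, ∃ p ∈ K, LL u p = h u := fun u => ⟨p u, hpK u, rfl⟩
  -- witnesses
  have hw : ∀ q : ι × ι, ∃ u : ℝ × ℝ,
      interior (Hm K (c q.1) (x q.1)) ∩ interior (Hm K (c q.2) (x q.2)) = ∅ →
      u ≠ 0 ∧ (LL u (x q.1) + c q.1 * h u) + (LL (-u) (x q.2) + c q.2 * h (-u)) ≤ 0 := by
    intro q
    by_cases hd : interior (Hm K (c q.1) (x q.1)) ∩ interior (Hm K (c q.2) (x q.2)) = ∅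
    · obtain ⟨u, hu⟩ := sep_ex hK hKi h2 (hc q.1) (hc q.2) (x q.1) (x q.2) hKc.isClosed hd
      exact ⟨u, fun _ => hu⟩
    · exact ⟨0, fun h' => absurd h' hd⟩
  choose w hw using hw
  obtain ⟨s, hs⟩ := ((Set.finite_range fun q : ι × ι => (w q).2 / (w q).1).infinite_compl).nonempty
  have hgen : ∀ q : ι × ι, w q ≠ 0 → (w q).2 - s * (w q).1 ≠ 0 := by
    intro q hq h0
    by_cases h00 : (w q).1 = 0
    · rw [h00] at h0
      apply hq
      ext
      · exact h00
      · show (w q).2 = 0
        linarith
    · apply hs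
      refine ⟨q, ?_⟩
      show (w q).2 / (w q).1 = s
      rw [div_eq_iff h00]
      linarith
  set r : ι → ℝ × ℝ → ℝ := fun i u => LL u (x i) + c i * h u with hr
  have hG : ∀ i j u, 0 ≤ r i u + r j (-u) := fun i j u =>
    meet_ge h1 (hc i) (hc j) (x i) (x j) (hm i j) u
  set S : ι → Bool → ℝ → Prop := fun i σ t => ∃ j, r i (DD s σ t) + r j (DD s (!σ) t) ≤ 0 with hS
  have hmin : ∀ i σ t, S i σ t → ∀ k, r i (DD s σ t) ≤ r k (DD s σ t) := by
    rintro i σ t ⟨j, hj⟩ k
    rw [DD_not] at hj
    have := hG k j (DD s σ t)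
    linarith
  have hA : ∀ i σ t, S i σ t → S i (!σ) t → False := by
    intro i σ t hi hi'
    have hi2 := hmin i (!σ) t hi'
    obtain ⟨j, hj⟩ := hi
    have hj2 := hi2 j
    rw [DD_not] at hj hj2
    have hpos := h_pos hKi h1 (DD s σ t) (DD_ne s σ t)
    have : r i (DD s σ t) + r i (-(DD s σ t)) = c i * (h (DD s σ t) + h (-(DD s σ t))) := by
      simp only [hr, LL_neg]; ring
    have h3 : 0 < c i * (h (DD s σ t) + h (-(DD s σ t))) := mul_pos (hc i) hpos
    linarith
  have hNN : ∀ i j, i ≠ j → c j ≤ c i → NN (S i) (S j) := by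
    intro i j hij hcc
    have hno := hanti i j hij
    refine ⟨fun σ t t' z ht ht' hz hlt hlt' => ?_, fun σ t t' z ht ht' hz hlt hlt' => ?_,
      fun σ t t' z ht ht' hz hlt hlt' => ?_⟩
    · have hd : 0 < t' - t := by linarith
      apply hno
      apply keyN hK h1 h2 (hc j) hcc (x i) (x j) (DD s σ t) (DD s σ t') (DD s σ z)
        ((t' - z) / (t' - t)) ((z - t) / (t' - t)) (div_pos (by linarith) hd)
        (div_pos (by linarith) hd) ?_ (DD_det s σ σ t t' (by linarith)) (hmin i σ t ht j)
        (hmin i σ t' ht' j) (hmin j σ z hz i)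
      intro y
      simp only [LL, DD]
      field_simp
      ring
    · have hd : 0 < t - t' := by linarith
      apply hno
      apply keyN hK h1 h2 (hc j) hcc (x i) (x j) (DD s σ t) (DD s (!σ) t') (DD s σ z)
        (1 + (z - t) / (t - t')) ((z - t) / (t - t'))
        (add_pos one_pos (div_pos (by linarith) hd))
        (div_pos (by linarith) hd) ?_ (DD_det s σ (!σ) t t' (by linarith)) (hmin i σ t ht j)
        (hmin i (!σ) t' ht' j) (hmin j σ z hz i)
      intro y
      simp only [LL, DD, sgn_not]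
      field_simp
      ring
    · have hd : 0 < t' - t := by linarith
      apply hno
      apply keyN hK h1 h2 (hc j) hcc (x i) (x j) (DD s σ t) (DD s (!σ) t') (DD s σ z)
        (1 + (t - z) / (t' - t)) ((t - z) / (t' - t))
        (add_pos one_pos (div_pos (by linarith) hd))
        (div_pos (by linarith) hd) ?_ (DD_det s σ (!σ) t t' (by linarith)) (hmin i σ t ht j)
        (hmin i (!σ) t' ht' j) (hmin j σ z hz i)
      intro y
      simp only [LL, DD, sgn_not]
      field_simp
      ring
  obtain ⟨col, hcol⟩ := comb S (fun i j hij => by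
    rcases le_total (c j) (c i) with hle | hle
    · exact Or.inl (hNN i j hij hle)
    · exact Or.inr (hNN j i hij.symm hle)) hA
  refine ⟨col, fun i j _ hd => ?_⟩
  obtain ⟨hu0, hu⟩ := hw (i, j) hd
  have hβ := hgen (i, j) hu0
  set u := w (i, j) with hudef
  set β := u.2 - s * u.1 with hβdef
  have hrhom : ∀ (k : ι) (v : ℝ × ℝ) (a : ℝ), 0 < a → r k (a • v) = a * r k v := by
    intro k v a ha
    simp only [hr]
    rw [h_hom h1 h2 v a ha]
    simp only [LL, Prod.smul_fst, Prod.smul_snd, smul_eq_mul]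
    ring
  have hu' : r i u + r j (-u) ≤ 0 := hu
  rcases lt_or_gt_of_ne hβ with hneg | hpos
  · have e : u = (-β) • DD s false (u.1 / β) := by
      ext
      · simp only [DD, sgn, Prod.smul_fst, smul_eq_mul]
        field_simp
        simp
      · simp only [DD, sgn, Prod.smul_snd, smul_eq_mul]
        field_simp
        simp
        rw [hβdef]; ring
    have e' : -u = (-β) • DD s true (u.1 / β) := by
      have := DD_not s false (u.1 / β)
      simp only [Bool.not_false] at this
      rw [this, smul_neg, ← e]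
    rw [e', hrhom j _ _ (by linarith)] at hu'
    rw [e, hrhom i _ _ (by linarith)] at hu'
    have e3 : r i (DD s false ((-β • DD s false (u.1 / β)).1 / β)) +
        r j (DD s true ((-β • DD s false (u.1 / β)).1 / β)) ≤ 0 := by
      rw [← e]
      rw [← e] at hu'
      have hb : 0 < -β := by linarith
      by_contra hcon
      push Not at hcon
      have := mul_pos hb hcon
      linarith
    rw [← e] at e3
    exact hcol i j false (u.1 / β) ⟨j, by simpa using e3⟩ ⟨i, by
      simp only [Bool.not_false, Bool.not_true]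
      linarith⟩
  · have e : u = β • DD s true (u.1 / β) := by
      ext
      · simp only [DD, sgn, Prod.smul_fst, smul_eq_mul]
        field_simp
        simp
      · simp only [DD, sgn, Prod.smul_snd, smul_eq_mul]
        field_simp
        simp
        rw [hβdef]; ring
    have e' : -u = β • DD s false (u.1 / β) := by
      have := DD_not s true (u.1 / β)
      simp only [Bool.not_true] at this
      rw [this, smul_neg, ← e]
    have hu2 : β * (r i (DD s true (u.1 / β)) + r j (DD s false (u.1 / β))) ≤ 0 := by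
      rw [mul_add, ← hrhom i _ _ hpos, ← hrhom j _ _ hpos, ← e, ← e']
      exact hu'
    have e3 : r i (DD s true (u.1 / β)) + r j (DD s false (u.1 / β)) ≤ 0 := by
      by_contra hcon
      push Not at hcon
      have := mul_pos hpos hcon
      linarith
    exact hcol i j true (u.1 / β) ⟨j, by simpa using e3⟩ ⟨i, by
      simp only [Bool.not_false, Bool.not_true]
      linarith⟩




/-- **Planar 4-colouring.** -/
theorem planar_col (K : Set (EuclideanSpace ℝ (Fin 2))) (hK : Convex ℝ K) (hKc : IsCompact K)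
    (hKi : (interior K).Nonempty) : ∀ (n : ℕ) (ι : Type) [Fintype ι] (_ : Fintype.card ι = n)
    (c : ι → ℝ) (x : ι → (EuclideanSpace ℝ (Fin 2))) (_ : ∀ i, 0 < c i)
    (_ : ∀ i j, (Hm K (c i) (x i) ∩ Hm K (c j) (x j)).Nonempty),
    ∃ col : ι → Fin 4, ∀ i j, i ≠ j →
      interior (Hm K (c i) (x i)) ∩ interior (Hm K (c j) (x j)) = ∅ → col i ≠ col j := by
  classical
  intro n
  induction n with
  | zero =>
    intro ι _ hcard c x hc hm
    have : IsEmpty ι := Fintype.card_eq_zero_iff.mp hcard
    exact ⟨fun i => (this.false i).elim, fun i => (this.false i).elim⟩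
  | succ n ih =>
    intro ι _ hcard c x hc hm
    by_cases hanti : ∀ i j, i ≠ j → ¬ Hm K (c j) (x j) ⊆ Hm K (c i) (x i)
    · exact planar_anti K hK hKc hKi c x hc hm hanti
    · push Not at hanti
      obtain ⟨i, j, hij, hsub⟩ := hanti
      obtain ⟨col, hcol⟩ := ih {k : ι // k ≠ i} (by
        rw [Fintype.card_subtype_compl, Fintype.card_subtype_eq, hcard]; rfl)
        (fun k => c k) (fun k => x k) (fun k => hc k) (fun k l => hm k l)
      have hint : ∀ k, k ≠ i →
          interior (Hm K (c i) (x i)) ∩ interior (Hm K (c k) (x k)) = ∅ →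
          interior (Hm K (c j) (x j)) ∩ interior (Hm K (c k) (x k)) = ∅ := by
        intro k _ hd
        rw [← Set.subset_empty_iff, ← hd]
        exact Set.inter_subset_inter_left _ (interior_mono hsub)
      have hjne : (interior (Hm K (c j) (x j))).Nonempty := by
        have e : Hm K (c j) (x j) =
            ((Homeomorph.smulOfNeZero (c j) (hc j).ne').trans (Homeomorph.addLeft (x j))) '' K := by
          ext y; rfl
        rw [e, ← Homeomorph.image_interior]
        exact hKi.image _
      have hkj : ∀ k, k ≠ i →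
          interior (Hm K (c i) (x i)) ∩ interior (Hm K (c k) (x k)) = ∅ → j ≠ k := by
        rintro k hk hd rfl
        have := hint j hk hd
        rw [Set.inter_self] at this
        rw [this] at hjne
        exact Set.not_nonempty_empty hjne
      have key : ∀ k (hk : k ≠ i),
          interior (Hm K (c i) (x i)) ∩ interior (Hm K (c k) (x k)) = ∅ →
          col ⟨j, hij.symm⟩ ≠ col ⟨k, hk⟩ := fun k hk hd =>
        hcol ⟨j, hij.symm⟩ ⟨k, hk⟩ (fun h => hkj k hk hd (congrArg Subtype.val h)) (hint k hk hd)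
      refine ⟨fun k => if hk : k = i then col ⟨j, hij.symm⟩ else col ⟨k, hk⟩, fun k l hkl hd => ?_⟩
      by_cases hk : k = i
      · subst hk
        have hl : l ≠ k := hkl.symm
        simp only [dif_pos, dif_neg hl]
        exact key l hl hd
      · by_cases hl : l = i
        · subst hl
          simp only [dif_pos, dif_neg hk]
          exact (key k hk (by rw [Set.inter_comm]; exact hd)).symm
        · simp only [dif_neg hk, dif_neg hl]
          exact hcol ⟨k, hk⟩ ⟨l, hl⟩ (fun h => hkl (congrArg Subtype.val h)) hd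

/-! ### Products -/

/-- The homothets of a product of planar bodies with a slab body, coordinatewise. -/
lemma colour_all {d s r : ℕ} (B : Fin r → Set (EuclideanSpace ℝ (Fin 2)))
    (hB : ∀ b, Convex ℝ (B b) ∧ IsCompact (B b) ∧ (interior (B b)).Nonempty)
    (k : Fin s → ℕ) (u : (j : Fin s) → Fin (k j + 1) → EuclideanSpace ℝ (Fin d))
    (hdep : ∀ j, ¬ LinearIndependent ℝ (u j)) (z : EuclideanSpace ℝ (Fin d))
    {n : ℕ} (c : Fin n → ℝ)
    (x : Fin n → (Fin r → EuclideanSpace ℝ (Fin 2)) × EuclideanSpace ℝ (Fin d))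
    (hc : ∀ i, 0 < c i)
    (hm : ∀ i l, i ≠ l →
      ((fun y => x i + c i • y) '' (Set.univ.pi B ×ˢ slabBody k u z) ∩
        (fun y => x l + c l • y) '' (Set.univ.pi B ×ˢ slabBody k u z)).Nonempty) :
    ∃ col : Fin n → (Fin r → Fin 4) × ((j : Fin s) → Fin (k j) → Bool), ∀ i l, i ≠ l →
      interior ((fun y => x i + c i • y) '' (Set.univ.pi B ×ˢ slabBody k u z)) ∩
        interior ((fun y => x l + c l • y) '' (Set.univ.pi B ×ˢ slabBody k u z)) = ∅ →
      col i ≠ col l := by
  classical
  have himg : ∀ i, (fun y => x i + c i • y) '' (Set.univ.pi B ×ˢ slabBody k u z) =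
      (Set.univ.pi fun b => Hm (B b) (c i) ((x i).1 b)) ×ˢ
        ((fun y => (x i).2 + c i • y) '' slabBody k u z) := by
    intro i
    ext ⟨p, q⟩
    constructor
    · rintro ⟨⟨y1, y2⟩, ⟨h1, h2⟩, he⟩
      have he1 := congrArg Prod.fst he
      have he2 := congrArg Prod.snd he
      refine ⟨fun b _ => ⟨y1 b, h1 b (Set.mem_univ b), ?_⟩, ⟨y2, h2, he2⟩⟩
      exact congrFun he1 b
    · rintro ⟨h1, ⟨y2, h2, he2⟩⟩
      have h1' : ∀ b, ∃ y ∈ B b, (x i).1 b + c i • y = p b := fun b => h1 b (Set.mem_univ b)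
      choose y1 hy1 hye using h1'
      exact ⟨⟨y1, y2⟩, ⟨fun b _ => hy1 b, h2⟩, Prod.ext (funext hye) he2⟩
  simp only [himg] at hm ⊢
  have hpl : ∀ b : Fin r, ∃ col : Fin n → Fin 4, ∀ i l, i ≠ l →
      interior (Hm (B b) (c i) ((x i).1 b)) ∩ interior (Hm (B b) (c l) ((x l).1 b)) = ∅ →
      col i ≠ col l := by
    intro b
    refine planar_col (B b) (hB b).1 (hB b).2.1 (hB b).2.2 n (Fin n) (Fintype.card_fin n) c
      (fun i => (x i).1 b) hc fun i l => ?_
    by_cases hil : i = l
    · subst hil
      rw [Set.inter_self]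
      obtain ⟨y, hy⟩ := (hB b).2.2
      exact ⟨_, ⟨y, interior_subset hy, rfl⟩⟩
    · obtain ⟨⟨p, q⟩, hpq1, hpq2⟩ := hm i l hil
      exact ⟨p b, hpq1.1 b (Set.mem_univ b), hpq2.1 b (Set.mem_univ b)⟩
  choose colP hcolP using hpl
  obtain ⟨colS, hcolS⟩ := colouring k u z hdep c (fun i => (x i).2) hc fun i l hil => by
    obtain ⟨⟨p, q⟩, hpq1, hpq2⟩ := hm i l hil
    exact ⟨q, hpq1.2, hpq2.2⟩
  refine ⟨fun i => (fun b => colP b i, colS i), fun i l hil hd heq => ?_⟩
  have e1 : ∀ b, colP b i = colP b l := fun b => congrFun (congrArg Prod.fst heq) b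
  have e2 : colS i = colS l := congrArg Prod.snd heq
  have n1 : ∀ b, (interior (Hm (B b) (c i) ((x i).1 b)) ∩
      interior (Hm (B b) (c l) ((x l).1 b))).Nonempty := by
    intro b
    by_contra hcon
    rw [Set.not_nonempty_iff_eq_empty] at hcon
    exact hcolP b i l hil hcon (e1 b)
  have n2 : (interior ((fun y => (x i).2 + c i • y) '' slabBody k u z) ∩
      interior ((fun y => (x l).2 + c l • y) '' slabBody k u z)).Nonempty := by
    by_contra hcon
    rw [Set.not_nonempty_iff_eq_empty] at hcon
    exact hcolS i l hcon e2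
  choose p hp using n1
  obtain ⟨q, hq⟩ := n2
  rw [interior_prod_eq, interior_prod_eq, interior_pi_set Set.finite_univ,
    interior_pi_set Set.finite_univ] at hd
  have : (p, q) ∈ (∅ : Set ((Fin r → EuclideanSpace ℝ (Fin 2)) × EuclideanSpace ℝ (Fin d))) := by
    rw [← hd]
    exact ⟨⟨fun b _ => (hp b).1, hq.1⟩, ⟨fun b _ => (hp b).2, hq.2⟩⟩
  exact this

lemma card_all {d s r : ℕ} (k : Fin s → ℕ) (hk : ∑ j, k j = d) :
    Fintype.card ((Fin r → Fin 4) × ((j : Fin s) → Fin (k j) → Bool)) = 2 ^ (2 * r + d) := by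
  rw [Fintype.card_prod, card_colours, hk, Fintype.card_fun, Fintype.card_fin, Fintype.card_fin,
    pow_add, pow_mul]
  norm_num

/-- **Main theorem.**  Let `B b` (`b < r`) be arbitrary planar convex bodies, and let `slabBody k u z`
be a centrally symmetric polyhedron in `ℝ^d` whose facet normals come in `s` linearly dependent
blocks of `k j + 1` vectors with `∑ k j = d`.  Put
`K₂ = B 0 × ⋯ × B (r-1) × slabBody k u z`, a set in `(ℝ²)^r × ℝ^d`.
1. Every finite family of pairwise intersecting positive homothets of `K₂` has a colouring with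
`2 ^ (2 r + d)` colours for which members with disjoint interiors have different colours.
2. Every pairwise tangent family of positive homothets of `K₂` has at most `2 ^ (2 r + d)` members.
3. If `K₁ ⊆ ℝ^m` is any set such that pairwise tangent families of positive homothets of `K₁` have at
most `N` members, then pairwise tangent families of positive homothets of `K₁ × K₂` have at most
`N * 2 ^ (2 r + d)` members. -/
theorem result (d s r : ℕ) (B : Fin r → Set (EuclideanSpace ℝ (Fin 2)))
    (hB : ∀ b, Convex ℝ (B b) ∧ IsCompact (B b) ∧ (interior (B b)).Nonempty)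
    (k : Fin s → ℕ) (hk : ∑ j, k j = d)
    (u : (j : Fin s) → Fin (k j + 1) → EuclideanSpace ℝ (Fin d))
    (hdep : ∀ j, ¬ LinearIndependent ℝ (u j)) (z : EuclideanSpace ℝ (Fin d)) :
    (∀ (n : ℕ) (c : Fin n → ℝ)
      (x : Fin n → (Fin r → EuclideanSpace ℝ (Fin 2)) × EuclideanSpace ℝ (Fin d)),
      (∀ i, 0 < c i) →
      (∀ i j, i ≠ j → ((fun y => x i + c i • y) '' (Set.univ.pi B ×ˢ slabBody k u z) ∩
        (fun y => x j + c j • y) '' (Set.univ.pi B ×ˢ slabBody k u z)).Nonempty) →
      ∃ col : Fin n → Fin (2 ^ (2 * r + d)), ∀ i j, i ≠ j →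
        interior ((fun y => x i + c i • y) '' (Set.univ.pi B ×ˢ slabBody k u z)) ∩
          interior ((fun y => x j + c j • y) '' (Set.univ.pi B ×ˢ slabBody k u z)) = ∅ →
        col i ≠ col j) ∧
    (∀ (n : ℕ) (c : Fin n → ℝ)
      (x : Fin n → (Fin r → EuclideanSpace ℝ (Fin 2)) × EuclideanSpace ℝ (Fin d)),
      Tangent (Set.univ.pi B ×ˢ slabBody k u z) c x → n ≤ 2 ^ (2 * r + d)) ∧
    (∀ (m N : ℕ) (K₁ : Set (EuclideanSpace ℝ (Fin m))),
      (∀ (n : ℕ) (c : Fin n → ℝ) (x : Fin n → EuclideanSpace ℝ (Fin m)),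
        Tangent K₁ c x → n ≤ N) →
      ∀ (n : ℕ) (c : Fin n → ℝ) (x : Fin n → EuclideanSpace ℝ (Fin m) ×
        ((Fin r → EuclideanSpace ℝ (Fin 2)) × EuclideanSpace ℝ (Fin d))),
        Tangent (K₁ ×ˢ (Set.univ.pi B ×ˢ slabBody k u z)) c x → n ≤ N * 2 ^ (2 * r + d)) := by
  classical
  have hcard := card_all (r := r) k hk
  refine ⟨fun n c x hc hm => ?_, fun n c x hx => ?_, fun m N K₁ hK₁ n c x hx => ?_⟩
  · obtain ⟨col, hcol⟩ := colour_all B hB k u hdep z c x hc hm
    refine ⟨fun i => (Fintype.equivFinOfCardEq hcard) (col i), fun i j hij hd heq => ?_⟩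
    exact hcol i j hij hd ((Fintype.equivFinOfCardEq hcard).injective heq)
  · obtain ⟨col, hcol⟩ := colour_all B hB k u hdep z c x hx.1 fun i l hil => (hx.2 i l hil).1
    have hinj : Function.Injective col := by
      intro i l heq
      by_contra hil
      exact hcol i l hil (hx.2 i l hil).2 heq
    have := Fintype.card_le_of_injective col hinj
    rwa [Fintype.card_fin, hcard] at this
  · obtain ⟨hc, hx⟩ := hx
    set K₂ : Set ((Fin r → EuclideanSpace ℝ (Fin 2)) × EuclideanSpace ℝ (Fin d)) :=
      Set.univ.pi B ×ˢ slabBody k u z with hK₂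
    have himg : ∀ i, (fun y => x i + c i • y) '' (K₁ ×ˢ K₂) =
        ((fun y => (x i).1 + c i • y) '' K₁) ×ˢ ((fun y => (x i).2 + c i • y) '' K₂) := by
      intro i
      ext ⟨p, q⟩
      constructor
      · rintro ⟨⟨y1, y2⟩, ⟨h1, h2⟩, he⟩
        have he1 := congrArg Prod.fst he
        have he2 := congrArg Prod.snd he
        exact ⟨⟨y1, h1, he1⟩, ⟨y2, h2, he2⟩⟩
      · rintro ⟨⟨y1, h1, he1⟩, ⟨y2, h2, he2⟩⟩
        exact ⟨⟨y1, y2⟩, ⟨h1, h2⟩, Prod.ext he1 he2⟩
    have hmeet : ∀ i l, i ≠ l →
        ((fun y => (x i).1 + c i • y) '' K₁ ∩ (fun y => (x l).1 + c l • y) '' K₁).Nonempty ∧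
        ((fun y => (x i).2 + c i • y) '' K₂ ∩ (fun y => (x l).2 + c l • y) '' K₂).Nonempty := by
      intro i l hil
      obtain ⟨⟨p, q⟩, hpq1, hpq2⟩ := (hx i l hil).1
      rw [himg] at hpq1 hpq2
      exact ⟨⟨p, hpq1.1, hpq2.1⟩, ⟨q, hpq1.2, hpq2.2⟩⟩
    have hdisj : ∀ i l, i ≠ l →
        interior ((fun y => (x i).1 + c i • y) '' K₁) ∩
          interior ((fun y => (x l).1 + c l • y) '' K₁) = ∅ ∨
        interior ((fun y => (x i).2 + c i • y) '' K₂) ∩
          interior ((fun y => (x l).2 + c l • y) '' K₂) = ∅ := by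
      intro i l hil
      by_contra hcon
      push Not at hcon
      obtain ⟨⟨p, hp⟩, ⟨q, hq⟩⟩ := hcon
      have h := (hx i l hil).2
      rw [himg, himg, interior_prod_eq, interior_prod_eq] at h
      have : (p, q) ∈ (∅ : Set (EuclideanSpace ℝ (Fin m) ×
          ((Fin r → EuclideanSpace ℝ (Fin 2)) × EuclideanSpace ℝ (Fin d)))) := by
        rw [← h]
        exact ⟨⟨hp.1, hq.1⟩, ⟨hp.2, hq.2⟩⟩
      exact this
    obtain ⟨col, hcol⟩ := colour_all B hB k u hdep z c (fun i => (x i).2) hc
      fun i l hil => (hmeet i l hil).2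
    have hclass : ∀ γ ∈ (Finset.univ : Finset (Fin n)).image col,
        (Finset.univ.filter fun i => col i = γ).card ≤ N := by
      intro γ _
      set S := Finset.univ.filter fun i => col i = γ with hS
      set e := S.orderEmbOfFin rfl with he
      refine hK₁ S.card (fun i => c (e i)) (fun i => (x (e i)).1) ⟨fun i => hc _, fun i l hil => ?_⟩
      have hne : e i ≠ e l := fun h => hil (e.injective h)
      refine ⟨(hmeet _ _ hne).1, ?_⟩
      rcases hdisj _ _ hne with h | h
      · exact h
      · exfalso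
        have hi := Finset.mem_filter.mp (Finset.orderEmbOfFin_mem S rfl i)
        have hl := Finset.mem_filter.mp (Finset.orderEmbOfFin_mem S rfl l)
        exact hcol _ _ hne h (hi.2.trans hl.2.symm)
    have h1 := Finset.card_le_mul_card_image (Finset.univ : Finset (Fin n)) N hclass
    have h2 : ((Finset.univ : Finset (Fin n)).image col).card ≤ 2 ^ (2 * r + d) := by
      refine (Finset.card_le_univ _).trans ?_
      rw [hcard]
    rw [Finset.card_univ, Fintype.card_fin] at h1
    exact h1.trans (Nat.mul_le_mul_left N h2)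

end Pool.Agent.Results.MP_c1e66d_co.PlanarFactors
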