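import Pool.Agent.PRT.Main2

/-!
# A polynomial time Turing machine which lists near-primitive roots

`encList` is the encoding of a list of natural numbers in binary; `Most M l P`: the list `l` is not
empty and at most the part `1 / M` of its entries fails `P`; `Nat.size p` is the number of binary
digits of `p`.
-/

set_option autoImplicit false

namespace Pool.Agent.Results.MP_18a8a6_lc.PolyTimeList

open Pool.Agent.PRT

/-- `p - 1` has at most one prime factor (of any multiplicity) above `R`. -/
def OneBig (R p : ℕ) : Prop := ∀ q q' : ℕ, q.Prime → q'.Prime → q ∣ p - 1 → q' ∣ p - 1 →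
  R < q → R < q' → q = q'

/-- With `L` the number of digits of `p`: all but at most the part `1 / L ^ c` of the entries of `l`
satisfy `P`, and if `p - 1` has at most one prime factor above `L ^ c` then also the first entry
does. -/
def Good (c p : ℕ) (l : List ℕ) (P : ℕ → Prop) : Prop :=
  Most (Nat.size p ^ c) l P ∧ (OneBig (Nat.size p ^ c) p → ∀ x ∈ l.head?, P x)

/-- For all `ε > 0` and `c` there is a function `f` from natural numbers to lists of natural numbers
which is computed in polynomial time by a Turing machine (the input in binary), such that for every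
prime `p`, with `L` the number of binary digits of `p`, all but the part `1 / L ^ c` of the entries
of `f p`, and the first one if `p - 1` has at most one prime factor above `L ^ c`,

* generate a subgroup of index less than `p ^ ε` of the multiplicative group modulo `p`;
* are primitive roots modulo `p`, if no odd prime factor of `p - 1` is smaller than `p ^ ε`;
* are primitive roots modulo `p`, if `p` is not one of at most `2 ^ (ε L)` exceptional primes with
  `L` digits, `L` large. -/
theorem result (ε : ℝ) (hε : 0 < ε) (c : ℕ) : ∃ f : ℕ → List ℕ,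
    Nonempty (Turing.TM2ComputableInPolyTime Nat.bits encList f) ∧
    (∀ p : ℕ, p.Prime → Good c p (f p)
      (fun x => (p : ℝ) - 1 < (p : ℝ) ^ ε * orderOf (x : ZMod p))) ∧
    (∀ p : ℕ, p.Prime → (∀ q : ℕ, q.Prime → q ∣ p - 1 → q ≠ 2 → (p : ℝ) ^ ε ≤ q) →
      Good c p (f p) (fun x => orderOf (x : ZMod p) = p - 1)) ∧
    ∃ L0 : ℕ, ∀ L : ℕ, L0 ≤ L → ∃ E : Finset ℕ, (E.card : ℝ) ≤ (2 : ℝ) ^ (ε * L) ∧
      ∀ p : ℕ, p.Prime → Nat.size p = L → p ∉ E →
        Good c p (f p) (fun x => orderOf (x : ZMod p) = p - 1) := by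
  obtain ⟨A1, p0, hA1, h1⟩ := top_of_rough ε hε
  obtain ⟨A2, L0, h2⟩ := few_bad' ε hε
  obtain ⟨t, ht⟩ := exists_table
  obtain ⟨A, hA⟩ : ∃ A, A = max A1 A2 := ⟨_, rfl⟩
  have hge : ∀ p : ℕ, p.Prime → Nat.size p ^ A1 ≤ Nat.size p ^ A ∧
      Nat.size p ^ A2 ≤ Nat.size p ^ A := by
    intro p hp
    have hs : 0 < Nat.size p := Nat.size_pos.2 hp.pos
    constructor
    · exact Nat.pow_le_pow_right hs (by rw [hA]; exact le_max_left _ _)
    · exact Nat.pow_le_pow_right hs (by rw [hA]; exact le_max_right _ _)
  -- a small prime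
  have hsmall : ∀ (p : ℕ) (P : ℕ → Prop), p < p0 → P (t p) →
      Good c p (listG A c p0 t p) P := by
    intro p P hlt hP
    rw [listG_small hlt]
    constructor
    · refine ⟨by simp, ?_⟩
      rw [List.countP_singleton]
      simp [hP]
    · intro _ x hx
      rw [List.head?_cons, Option.mem_some_iff] at hx
      rw [← hx]
      exact hP
  -- a large prime
  have hlarge : ∀ (p : ℕ) (_ : Fact p.Prime) (P : ℕ → Prop), p0 ≤ p →
      (∀ (x : ℕ) (u : (ZMod p)ˣ), (x : ZMod p) = u →
        Subgroup.zpowers u = PrimRoot.genSub (aU p) (Nat.size p ^ A) → P x) →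
      Good c p (listG A c p0 t p) P := by
    intro p hpf P hp hP
    constructor
    · refine (listG_most p hp).mono ?_
      rintro x _ ⟨u, hxu, hu⟩
      exact hP x u hxu hu
    · intro hR x hx
      obtain ⟨u, hxu, hu⟩ := listG_head p hp hR x hx
      exact hP x u hxu hu
  -- the whole group
  have htop : ∀ p : ℕ, p.Prime → (∀ _ : Fact p.Prime, p0 ≤ p →
      PrimRoot.genSub (aU p) (Nat.size p ^ A) = ⊤) →
      Good c p (listG A c p0 t p) (fun x => orderOf (x : ZMod p) = p - 1) := by
    intro p hp hg
    rcases lt_or_ge p p0 with hlt | hge'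
    · exact hsmall p _ hlt (ht p hp)
    · have hpf : Fact p.Prime := ⟨hp⟩
      refine hlarge p hpf _ hge' fun x u hxu hu => ?_
      have h3 := order_of_gen p hxu hu
      rwa [hg hpf hge', Subgroup.index_top, mul_one] at h3
  refine ⟨listG A c p0 t, listG_poly A c p0 t, ?_, ?_, L0, ?_⟩
  · intro p hp
    have hpf : Fact p.Prime := ⟨hp⟩
    have hp1 : (1 : ℝ) < (p : ℝ) ^ ε :=
      Real.one_lt_rpow (by exact_mod_cast hp.one_lt) hε
    rcases lt_or_ge p p0 with hlt | hge'
    · refine hsmall p _ hlt ?_
      refine order_lt (i := 1) ?_ (by simpa using hp1)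
      simpa using ht p hp
    · refine hlarge p hpf _ hge' fun x u hxu hu => ?_
      exact order_lt (order_of_gen p hxu hu) (h1 p hge' _ (hge p hp).1).1
  · intro p hp hr
    exact htop p hp fun _ hge' => (h1 p hge' _ (hge p hp).1).2 hr
  · intro L hL
    obtain ⟨E, hE, h⟩ := h2 L hL
    refine ⟨E, hE, fun p hp hpL hpE => ?_⟩
    exact htop p hp fun _ _ => h p hpL hpE _ (hge p hp).2

end Pool.Agent.Results.MP_18a8a6_lc.PolyTimeList
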