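import Pool.Agent.QNM.Main
import Pool.Agent.QNM.Bridge

/-!
# Quadratic nonresidues modulo primes in deterministic polynomial time

Input and output are written in binary (`Nat.bits`, least significant digit first).
-/

set_option autoImplicit false

namespace Pool.Agent.Results.MP_18a8a6_lc.PolyTimeNonresidue

/-- There is a function `f` from natural numbers to natural numbers, computed in polynomial time by a
Turing machine (input and output in binary), such that for every odd prime `p` the number `f p < p` is
a quadratic nonresidue modulo `p` and generates the Sylow 2-subgroup of the multiplicative group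
modulo `p` (its order is the largest power of `2` which divides `p - 1`). -/
theorem result : ∃ f : ℕ → ℕ,
    Nonempty (Turing.TM2ComputableInPolyTime Nat.bits Nat.bits f) ∧
    ∀ p : ℕ, p.Prime → p ≠ 2 →
      f p < p ∧ ¬ IsSquare ((f p : ℕ) : ZMod p) ∧
        orderOf ((f p : ℕ) : ZMod p) = 2 ^ (p - 1).factorization 2 := by
  obtain ⟨f, _, hf, _, h⟩ := QNM.machine (QNM.small_of_small' QNM.small')
  exact ⟨f, hf, fun p hp h2 => ⟨(h p hp h2).1.1, (h p hp h2).1.2.2, (h p hp h2).1.2.1⟩⟩

end Pool.Agent.Results.MP_18a8a6_lc.PolyTimeNonresidue
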