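import Pool.Agent.PB3.Stmt

/-!
# Local systems of prime rank on configuration spaces

An irreducible complex representation of prime rank of the pure braid group, such that at least
one generator is not derogatory, is up to a character pulled back from the line minus three
points.
-/

namespace Pool.Agent.Variants.PrimeRank

open Pool.Agent.Conf14 Pool.Agent.PB3

/-- Let `ρ` be an irreducible representation of rank at least two of the pure braid group, of
prime rank, or such that for every strand `s` the generators on `s` act as scalars or without
common invariant subspace.  Then `ρ` is up to a character the pullback of a representation of the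
fundamental group of the line minus three points under a forgetful map or a cross ratio map, or
all generators are derogatory: the minimal polynomial of each `ρ (A i j)` has degree less than
the rank. -/
theorem result {n : ℕ} {V : Type*} [AddCommGroup V] [Module ℂ V] [FiniteDimensional ℂ V]
    (ρ : Representation ℂ (PureBraid n) V) [ρ.IsIrreducible] (h2 : 2 ≤ Module.finrank ℂ V)
    (h : (Module.finrank ℂ V).Prime ∨ ∀ s : Fin n,
      (∀ i j (hij : i < j), i = s ∨ j = s → ∃ c : ℂ, ρ (A i j hij) = c • LinearMap.id) ∨
      ∀ W : Submodule ℂ V, (∀ i j (hij : i < j), i = s ∨ j = s → ∀ x ∈ W, ρ (A i j hij) x ∈ W) →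
        W = ⊥ ∨ W = ⊤) :
    FromLine ρ ∨ ∀ (i j : Fin n) (h : i < j),
      (minpoly ℂ (ρ (A i j h))).natDegree < Module.finrank ℂ V :=
  prime_rank ρ h2 h

end Pool.Agent.Variants.PrimeRank
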