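import Pool.Agent.MP_5082c5_lc.Final

/-!
# MP_5082c5_lc: reversal-space trade-off for the recognition of the primes
-/

namespace Pool.Agent.Results.MP_5082c5_lc.ReversalSpace

open Pool.Agent.MP_5082c5_lc

/-- **Main result.** Let `M` be a deterministic Turing machine with two-way read-only input that
recognizes the primes, `R(n)` the maximal number of reversals of its input head and `S(n)` its
space function. There is `c > 0` with `c n ≤ (R(n) + 1) (S(n) + 1)` for all `n`. -/
theorem result (M : TM) (hM : ∀ w, Accepts M w ↔ w ∈ PRIMES) :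
    ∃ c : ℝ, 0 < c ∧ ∀ n R S : ℕ, reversals M n ≤ R → space M n ≤ S →
      c * n ≤ ((R : ℝ) + 1) * (S + 1) :=
  reversal_space_all M hM

end Pool.Agent.Results.MP_5082c5_lc.ReversalSpace
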