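import Pool.Agent.MP_5082c5_lc.Final

/-!
# MP_5082c5_lc: time-space trade-off for the recognition of the primes
-/

namespace Pool.Agent.Results.MP_5082c5_lc.TimeSpace

open Pool.Agent.MP_5082c5_lc

/-- **Main result.** Let `M` be a deterministic Turing machine with two-way read-only input that
recognizes the primes, `T(n)` its maximal running time and `S(n)` its space function. There is
`c > 0` with `c n² ≤ T(n) (S(n) + 1)` for all `n`. -/
theorem result (M : TM) (hM : ∀ w, Accepts M w ↔ w ∈ PRIMES) :
    ∃ c : ℝ, 0 < c ∧ ∀ n T S : ℕ, time M n ≤ T → space M n ≤ S →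
      c * (n : ℝ) ^ 2 ≤ (T : ℝ) * (S + 1) :=
  time_space_all M hM

end Pool.Agent.Results.MP_5082c5_lc.TimeSpace
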