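import Pool.Agent.QR80.Dec

/-!
# Semisimple local systems of rank below a quadratic bound on moduli spaces of curves

If `g ≥ 6`, `2 m + 2 ≤ g`, then every semisimple representation of dimension less than `4 ^ m` and
less than `2 g (g - 1)` of the mapping class group of the surface of genus `g` with `n + 1` marked
points and one boundary component is a direct sum of trivial representations and copies of the
first homology of the closed surface.
-/

namespace Pool.Agent.Variants.QuadraticRange

open Pool.Agent.HG13 Pool.Agent.QR80

/-- Let `6 ≤ g`, `2 m + 2 ≤ g`, let `Γ` be the group of automorphisms of the free group `F = Fr g n`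
generated by the Dehn twists `Bt i` and `TP s t` (the elements of `twists g n`), and let `ρ` be a
semisimple representation of dimension less than `4 ^ m` of `F ⋊ Γ`. Then `F` acts trivially, every
conjugate in `Γ` of `TP 0 1` acts unipotently, and if moreover the dimension is less than
`2 g (g - 1)`, then `ρ` is a direct sum of trivial representations and copies of the first homology
of the closed surface. -/
theorem result (g n m : ℕ) (h6 : 6 ≤ g) (hg : 2 * m + 2 ≤ g) (Γ : Subgroup (MulAut (Fr g n)))
    (hΓ : Γ = Subgroup.closure (twists g n)) {V : Type*} [AddCommGroup V] [Module ℂ V]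
    [FiniteDimensional ℂ V] (ρ : Representation ℂ (ModG Γ) V) (hs : Semis ρ)
    (hV : Module.finrank ℂ V < 4 ^ m) :
    TrivF ρ ∧ (∀ t : Γ, IsTwist Γ t → UnipAt ρ (incl Γ t)) ∧
    (Module.finrank ℂ V < 2 * g * (g - 1) → ∃ a b : ℕ, IsSum ρ a b) := by
  have hΓ' : twists g n ⊆ Γ := by
    rw [hΓ]
    exact Subgroup.subset_closure
  obtain ⟨h1, -, h3, -⟩ := high_genus' g n m hg Γ hΓ' ρ hV
  exact ⟨h3 hs, h1, fun h2 => semis_quadratic g n m hg h6 Γ hΓ ρ hs hV h2⟩

end Pool.Agent.Variants.QuadraticRange
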