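import Pool.Agent.CGQF.Transfer

/-!
# The Calegari-Geraghty vanishing conjecture for quaternion division algebras over number fields

Let `D` be a quaternion division algebra over the number field `F`, split at `r ≥ 1` archimedean
places, and `Y(K_f)` the locally symmetric space of level `K_f` of the multiplicative group of
`D`. For every prime `p`, every local system `W` and every non-Eisenstein maximal ideal `m` of the
Hecke algebra, the localisation at `m` of the cohomology of `Y(K_f)` is concentrated in the degrees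
from `1` to `d_Y - 1`, and from `2` to `d_Y - 2` if `r ≥ 2`. If `r` is `1` or `2`, this is the range
from `q₀` to `q₀ + ℓ₀` of the conjecture.
-/

open Pool.Agent.CGQF in
open Pool.Agent.CG2F (Pr HeckeAlg r2) in
theorem Pool.Agent.Results.MP_34be05_nt.QuaternionDivision.result
    (F : Type) [Field F] [NumberField F] (q : QData F) (hD : q.IsDivision)
    (hq : 1 ≤ sp q + r2 F) (p : Pr) (S : Finset Pr) (L : Level q p S) (hTF : L.TorsionFree)
    (O : Type) [CommRing O] [IsDomain O] [IsDiscreteValuationRing O]
    (hpO : ((p : ℕ) : O) ∈ IsLocalRing.maximalIdeal O)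
    (W : Type) [AddCommGroup W] [Module O W] [Module.Finite O W]
    (σ : Coef L O W) (hσ : IsContinuousRep L σ)
    (m : Ideal (HeckeAlg F S O)) [m.IsMaximal]
    (k : Type) [Field k] [Algebra (Res m) k] (ρ : GRep F k) (hatt : Attached m k ρ) (hne : NonEisenstein ρ)
    (i : ℕ) (hm : InSupport L σ i m) :
    (1 ≤ i ∧ (i : ℤ) ≤ dY q - 1) ∧
    (2 ≤ sp q + r2 F → 2 ≤ i ∧ (i : ℤ) ≤ dY q - 2) ∧
    (sp q + r2 F ≤ 2 → q0 q ≤ i ∧ (i : ℤ) ≤ q0 q + ell0 q) :=
  main F q hD hq p S L hTF O hpO W σ hσ m k ρ hatt hne i hm
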