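import Pool.Agent.KBY.FinC
import Pool.Agent.KBY.Tra
import Pool.Agent.KBR.Fin3

/-!
# Brauer's inequality `k(B) ≤ p^d` and abelian defect groups of rank at most three

Let `p` be an odd prime. Let `B` be a `p`-block of a finite group with an abelian defect group `D` of
rank at most three (that is, `D` has at most `p ^ 3` elements `x` with `x ^ p = 1`). Then
`k(B) ≤ |D|` (`Pool.Agent.KBR.Fin3_main`; below this is the case `N = G`). We prove more generally:
if `N` is a normal subgroup of `G`, `b` is a block of `N` with an abelian defect group of rank at most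
three and `G / N` is `p`-solvable with `p`-factors of rank at most three, then `k(B) ≤ p ^ d` for all
blocks `B` of `G` over `b`, `d` the defect of `B`.

The proof for `N = G` uses one element `u` of `D`. The inertial quotient of the block `b_u` of `C_G(u)`
is the centralizer `C_E(u)` of `u` in the inertial quotient `E` of `B`, and `k(B) ≤ |D|` if
`l(b_u) ≤ p + 1` (`MainZ_main`, from our theorem on major subsections). Three cases:

* `D` has an element `u` with `C_E(u) = 1`; then `l(b_u) = 1`;
* `|D : ⟨u⟩| ≤ p`; then `l(b_u) ≤ p - 1`;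
* `|D : ⟨u⟩| = p ^ 2`, `D / ⟨u⟩` is elementary, no element of `C_E(u)` other than `1` acts on
  `D / ⟨u⟩` as a scalar, and there is a line `⟨w⟩` of `D / ⟨u⟩` such that an element of `C_E(u)`
  which preserves the line fixes it. Then `l(b_u) ≤ p + 1`: the columns `d^z_χ` of the generalized
  decomposition matrix with `z` in `⟨u, w⟩`, projected to the rational characters of
  `⟨u, w⟩ / ⟨u⟩`, satisfy a rank estimate.

The existence of `u` and `w` is proved from the classification-free theory of subgroups of
`GL_2(p)` and `GL_3(p)` of order prime to `p` (no two lemmas on reflections are needed: a counting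
of fixed lines in the plane is enough). The passage from `N` to `G` is the closure theorem of the
folder `Pool/Agent/KBY`.

Blocks are classes of irreducible complex characters whose central characters are congruent modulo
a maximal ideal of the ring of algebraic integers over `p`; the defect `d` is the least number such
that the `p`-part of `|G|` divides `p^d χ(1)` for all characters of the block. Every subgroup `D` of
order `p ^ d` with a block `b` of `C_G(D)` such that `b^G = B` is a defect group of `B`, and every
defect group has these properties.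
-/

set_option autoImplicit false

namespace Pool.Agent.Variants.RankThreeClosure

open Pool.Agent.KB Pool.Agent.KBZ Pool.Agent.KBQ Pool.Agent.KBY

/-- The main result: `b = block 𝔪 θ` is a block of the normal subgroup `N` of `G`, `B = block 𝔪 χ` is a
block of `G` over `b`, of defect `d = defect p (block 𝔪 χ)`. -/
theorem result (N G : Type) [Group N] [Fintype N] [Group G] [Fintype G] (p : ℕ) (hp : p.Prime)
    (hp2 : p ≠ 2) (𝔪 : Ideal AInt) (h𝔪 : 𝔪.IsMaximal) (hp𝔪 : (p : AInt) ∈ 𝔪)
    -- `N` is a normal subgroup of `G`
    (ι : N →* G) (hι : Function.Injective ι) (hN : ι.range.Normal)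
    -- there is a series from `N` to `G` with factors of order prime to `p` or elementary abelian
    -- of order at most `p ^ 3`, at most `n` of the second kind
    (n : ℕ) (hser : Ser p 3 n ι.range)
    -- `D` is an abelian defect group of `b`, `ζ` is in a block of its centralizer which induces `b`
    (θ : N → ℂ) (hθ : θ ∈ Irr N) (D : Subgroup N) (hab : ∀ a ∈ D, ∀ b ∈ D, a * b = b * a)
    (hD : Nat.card D = p ^ defect p (block 𝔪 θ))
    (ζ : Subgroup.centralizer (D : Set N) → ℂ) (hζ : ζ ∈ Irr (Subgroup.centralizer (D : Set N)))
    (hind : Induces 𝔪 (Subgroup.centralizer (D : Set N)) ζ θ)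
    -- `D` has rank at most three
    (hr : Nat.card {x : D // x ^ p = 1} ≤ p ^ 3)
    -- `χ` lies over `θ`
    (χ : G → ℂ) (hχ : χ ∈ Irr G) (hχθ : Over ι χ θ) :
    (block 𝔪 χ).Finite ∧ (block 𝔪 χ).ncard ≤ p ^ defect p (block 𝔪 χ) := by
  classical
  have : Fintype (Subgroup.centralizer (D : Set N)) := Fintype.ofFinite _
  have h : Nrm ι := Nrm.of_range hι hN
  have hA := Sub_AbD p 𝔪 θ hθ D hab hD ζ hζ hind
  have hadb : ADB p 𝔪 3 1 := by
    intro G' H' _ _ _ _ χ' D' ι' ζ' hχ' hA' hr'
    rw [one_mul, hA'.card]
    exact (Pool.Agent.KBR.Fin3_main p hp hp2 𝔪 h𝔪 hp𝔪 χ' hχ' D' ι' ζ' hA' hr').2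
  refine ⟨Pool.Agent.KBU.Gam_fin 𝔪 χ, ?_⟩
  have h1 := FinC_adb p hp 𝔪 h𝔪 hp𝔪 3 1 hadb θ hθ D _ ζ hA hr n h hser χ hχ hχθ
  rwa [one_pow, one_mul] at h1

end Pool.Agent.Variants.RankThreeClosure
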