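import Pool.Agent.KBQ.Sub
import Pool.Agent.KBR.Fin3

/-!
# Brauer's inequality `k(B) ≤ |D|` for abelian defect groups of rank at most three

Let `p` be an odd prime and let `B` be a `p`-block of a finite group `G` with an abelian defect group
`D` of rank at most three (that is, `D` has at most `p ^ 3` elements `x` with `x ^ p = 1`). Then
`k(B) ≤ |D|`.

The proof uses one element `u` of `D`. The inertial quotient of the block `b_u` of `C_G(u)` is the
centralizer `C_E(u)` of `u` in the inertial quotient `E` of `B`, and `k(B) ≤ |D|` if
`l(b_u) ≤ p + 1` (`MainZ_main`, from our theorem on major subsections). Three cases: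

* `D` has an element `u` with `C_E(u) = 1`; then `l(b_u) = 1`;
* `|D : ⟨u⟩| ≤ p`; then `l(b_u) ≤ p - 1`;
* `|D : ⟨u⟩| = p ^ 2`, `D / ⟨u⟩` is elementary, no element of `C_E(u)` other than `1` acts on
  `D / ⟨u⟩` as a scalar, and there is a line `⟨w⟩` of `D / ⟨u⟩` such that an element of `C_E(u)`
  which preserves the line fixes it. Then `l(b_u) ≤ p + 1`: the columns `d^z_χ` of the generalized
  decomposition matrix with `z` in `⟨u, w⟩`, projected to the rational characters of
  `⟨u, w⟩ / ⟨u⟩`, satisfy a rank estimate.

The existence of `u` and `w` is proved from the classification-free theory of subgroups of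
`GL_2(p)` and `GL_3(p)` of order prime to `p` (no two lemmas on reflections are needed: a counting
of fixed lines in the plane is enough).

Blocks are classes of irreducible complex characters whose central characters are congruent modulo
a maximal ideal of the ring of algebraic integers over `p`; the defect `d` is the least number such
that the `p`-part of `|G|` divides `p^d χ(1)` for all characters of the block. Every subgroup `D` of
order `p ^ d` with a block `b` of `C_G(D)` such that `b^G = B` is a defect group of `B`, and every
defect group has these properties.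
-/

set_option autoImplicit false

namespace Pool.Agent.Variants.RankThreeKB

open Pool.Agent.KB Pool.Agent.KBZ Pool.Agent.KBQ

/-- The main result: `B = block 𝔪 χ` is the block of the irreducible character `χ`, `b = block 𝔪 ζ`
is the block of `ζ ∈ Irr (C_G(D))`. -/
theorem result (G : Type) [Group G] [Finite G] (p : ℕ) (hp : p.Prime) (hp2 : p ≠ 2)
    (𝔪 : Ideal AInt) (h𝔪 : 𝔪.IsMaximal) (hp𝔪 : (p : AInt) ∈ 𝔪) (χ : G → ℂ) (hχ : χ ∈ Irr G)
    -- `D` is an abelian defect group of `B`, `b` is a block of its centralizer with `b^G = B`
    (D : Subgroup G) (hab : ∀ a ∈ D, ∀ b ∈ D, a * b = b * a)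
    (hD : Nat.card D = p ^ defect p (block 𝔪 χ))
    (ζ : Subgroup.centralizer (D : Set G) → ℂ) (hζ : ζ ∈ Irr (Subgroup.centralizer (D : Set G)))
    (hind : Induces 𝔪 (Subgroup.centralizer (D : Set G)) ζ χ)
    -- `D` has rank at most three
    (hr : Nat.card {x : D // x ^ p = 1} ≤ p ^ 3) :
    (block 𝔪 χ).Finite ∧ (block 𝔪 χ).ncard ≤ Nat.card D := by
  classical
  haveI : Fintype G := Fintype.ofFinite G
  haveI : Fintype (Subgroup.centralizer (D : Set G)) := Fintype.ofFinite _
  have hA := Sub_AbD p 𝔪 χ hχ D hab hD ζ hζ hind
  rw [hD]
  exact Pool.Agent.KBR.Fin3_main p hp hp2 𝔪 h𝔪 hp𝔪 χ hχ D _ ζ hA hr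

end Pool.Agent.Variants.RankThreeKB
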