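import Pool.Agent.Isp.Main
import Pool.Agent.MSf.ThK
import Pool.Agent.BrP.Gb
import Pool.Agent.P2c.Fin

/-!
# Blocks with abelian defect groups of rank two

Let `p` be any prime and `B` a `p`-block of a finite group `G` with an abelian defect group `D`. Let `b` be a
block of `C_G(D)` with `b^G = B`, `T` its inertial group in `N_G(D)`, `E = T / C_G(D)` the inertial quotient,
`c = b^{N_G(D)}` the Brauer correspondent of `B` and `b_S = b^{C_G(S)}` for `S ≤ D`.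

(R) `D = ⟨x⟩ × ⟨y⟩` has rank two, and `x`, `y` have different orders or `E` is abelian.

(F) `E` is abelian and `D = D₁ × D₂` with `T`-stable factors, `D₁ ≠ 1` is cyclic, `C_E(D₁)` acts freely on
`D₂ ∖ 1`, and `E / C_E(D₂)` acts freely on `V ∖ 1` for some `T`-stable subgroup `V ≠ 1` of `D₂`.

If (R) or (F) holds then `k(B) = k(c)`, `l(B) = l(c)`, and `l(b_S) = |C_E(S)|` for every `S ≤ D`, `S ≠ 1`.

If (R) holds, or (F) with `V = D₂`, then `B` and `c` are isotypic (in the sense of Broué: there are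
compatible perfect isometries between `b_S` and its Brauer correspondent for all `S ≤ D`); moreover `B` is
isotypic to every block `B'` of every finite group with `k(B') = k(B)` and the same defect group and action
of the inertial quotient. In particular Broué's isotypy conjecture holds for all the blocks with an abelian
defect group of rank two which is not homocyclic. The blocks may be twisted (`l(B) < |E|`).

The proof has two parts. Theorem P (libraries `P2`, `P2c`, `BrP`): the dimension of the centre of the block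
algebra, by a form in characteristic zero of the source algebra in which the group algebra of `D₁` is
replaced by truncated polynomials. Theorem ISP (library `Isp`): the generalized decomposition numbers of the
blocks `b_S`, by a classification of certain families of integral vectors. The classification of the finite
simple groups is not used.
-/

set_option autoImplicit false

namespace Pool.Agent.Variants.RankTwo

open Pool.Agent.KB Pool.Agent.KBZ Pool.Agent.KBQ Pool.Agent.PIs Pool.Agent.MSf Pool.Agent.Ity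

/-- Isotypy of `B = block 𝔪 χ` with its Brauer correspondent `c = block 𝔪 ψ`: compatible perfect isometries
between the blocks of `C_G(S)` and `C_G(S) ⊓ N_G(D)` induced by the block of `ζ`, for all `S ≤ D`. For
`S = 1` these are the blocks `B` and `c`. -/
def IsotypicCorr (G : Type) [Group G] [Finite G] (p : ℕ) (𝔪 : Ideal AInt) (χ : G → ℂ)
    (D : Subgroup G) (ζ : Subgroup.centralizer (D : Set G) → ℂ) : Prop :=
  ∀ ψ ∈ Irr (Subgroup.normalizer (D : Set G)),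
    Induces 𝔪 ((Subgroup.centralizer (D : Set G)).subgroupOf
      (Subgroup.normalizer (D : Set G))) (fun y => ζ ⟨y.1.1, y.2⟩) ψ →
    LB 𝔪 D ζ (Subgroup.centralizer ((⊥ : Subgroup G) : Set G)) = block 𝔪 χ ∧
    LB 𝔪 D ζ (Subgroup.centralizer ((⊥ : Subgroup G) : Set G) ⊓
      Subgroup.normalizer (D : Set G)) =
        {f | (∀ g, g ∉ Subgroup.normalizer (D : Set G) → f g = 0) ∧
          (fun y : Subgroup.normalizer (D : Set G) => f y) ∈ block 𝔪 ψ} ∧
    ∃ I ε, Isot p 𝔪 D ζ D ζ D.subtype (fun S => Subgroup.centralizer (S : Set G))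
      (fun S => Subgroup.centralizer (S : Set G) ⊓ Subgroup.normalizer (D : Set G)) I ε

/-- Isotypy of `B = block 𝔪 χ` with every block `B' = block 𝔪 χ'` of every finite group `G'` with a defect
group `D'` isomorphic to `D`, the same action of the inertial quotient, and `k(B') = k(B)`. -/
def IsotypicAll (G : Type) [Group G] [Finite G] (p : ℕ) (𝔪 : Ideal AInt) (χ : G → ℂ)
    (D : Subgroup G) (ζ : Subgroup.centralizer (D : Set G) → ℂ) : Prop :=
  ∀ (G' : Type) [Group G'] [Finite G'] (χ' : G' → ℂ), χ' ∈ Irr G' →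
    ∀ D' : Subgroup G', Nat.card D' = p ^ defect p (block 𝔪 χ') →
    ∀ ζ' : Subgroup.centralizer (D' : Set G') → ℂ,
      ζ' ∈ Irr (Subgroup.centralizer (D' : Set G')) →
      Induces 𝔪 (Subgroup.centralizer (D' : Set G')) ζ' χ' →
      (block 𝔪 χ).ncard = (block 𝔪 χ').ncard →
    ∀ φ : D ≃* D',
      (∀ g ∈ inertia 𝔪 D ζ, ∃ g' ∈ inertia 𝔪 D' ζ', ∀ x y : D,
        (y : G) = g * x * g⁻¹ → (φ y : G') = g' * φ x * g'⁻¹) →
      (∀ g' ∈ inertia 𝔪 D' ζ', ∃ g ∈ inertia 𝔪 D ζ, ∀ x y : D,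
        (y : G) = g * x * g⁻¹ → (φ y : G') = g' * φ x * g'⁻¹) →
      LB 𝔪 D ζ (Subgroup.centralizer ((⊥ : Subgroup G) : Set G)) = block 𝔪 χ ∧
      LB 𝔪 D' ζ' (Subgroup.centralizer ((⊥ : Subgroup G') : Set G')) = block 𝔪 χ' ∧
      ∃ I ε, Isot p 𝔪 D ζ D' ζ' (D'.subtype.comp φ.toMonoidHom)
        (fun S => Subgroup.centralizer (S : Set G))
        (fun S => Subgroup.centralizer
          ((S.subgroupOf D).map (D'.subtype.comp φ.toMonoidHom) : Set G')) I ε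

/-- The inertial quotient `E` is abelian. -/
def AbelianE {G : Type} [Group G] (𝔪 : Ideal AInt) (D : Subgroup G)
    (ζ : Subgroup.centralizer (D : Set G) → ℂ) : Prop :=
  ∀ g ∈ inertia 𝔪 D ζ, ∀ h ∈ inertia 𝔪 D ζ,
    g * h * g⁻¹ * h⁻¹ ∈ Subgroup.centralizer (D : Set G)

/-- (R): `D` has rank two and is not homocyclic, or `D` has rank two and `E` is abelian. -/
def RankTwoD {G : Type} [Group G] (𝔪 : Ideal AInt) (D : Subgroup G)
    (ζ : Subgroup.centralizer (D : Set G) → ℂ) : Prop :=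
  ∃ x y : G, x ≠ 1 ∧ y ≠ 1 ∧ Subgroup.zpowers x ⊔ Subgroup.zpowers y = D ∧
    Subgroup.zpowers x ⊓ Subgroup.zpowers y = ⊥ ∧ (orderOf x ≠ orderOf y ∨ AbelianE 𝔪 D ζ)

/-- (F): `E` is abelian, `D = D₁ × D₂` with stable factors, `D₁ ≠ 1` is cyclic, the centralizer of `D₁` is
free on `D₂ ∖ 1`, and `E / C_E(D₂)` is free on `V ∖ 1`, `1 ≠ V ≤ D₂` stable. -/
def CyclicFactor {G : Type} [Group G] (𝔪 : Ideal AInt) (D : Subgroup G)
    (ζ : Subgroup.centralizer (D : Set G) → ℂ) (D₂ V : Subgroup G) : Prop :=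
  AbelianE 𝔪 D ζ ∧ ∃ D₁ : Subgroup G, D₁ ≠ ⊥ ∧ IsCyclic D₁ ∧ D₁ ⊔ D₂ = D ∧ D₁ ⊓ D₂ = ⊥ ∧
    (∀ g ∈ inertia 𝔪 D ζ, ∀ x ∈ D₁, g * x * g⁻¹ ∈ D₁) ∧
    (∀ g ∈ inertia 𝔪 D ζ, ∀ x ∈ D₂, g * x * g⁻¹ ∈ D₂) ∧
    (∀ g ∈ inertia 𝔪 D ζ, (∀ x ∈ D₁, g * x = x * g) → ∀ x ∈ D₂, x ≠ 1 →
      g * x = x * g → g ∈ Subgroup.centralizer (D : Set G)) ∧
    V ≤ D₂ ∧ V ≠ ⊥ ∧ (∀ g ∈ inertia 𝔪 D ζ, ∀ x ∈ V, g * x * g⁻¹ ∈ V) ∧
    ∀ g ∈ inertia 𝔪 D ζ, ∀ x ∈ V, x ≠ 1 → g * x = x * g → ∀ y ∈ D₂, g * y = y * g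

/-- The main result. `B = block 𝔪 χ` is the block of `χ ∈ Irr G`, `b = block 𝔪 ζ` is the block of
`ζ ∈ Irr (C_G(D))`, `T = inertia 𝔪 D ζ`. -/
theorem result (G : Type) [Group G] [Finite G] (p : ℕ) (hp : p.Prime)
    -- a maximal ideal over `p` of the ring of the algebraic integers
    (𝔪 : Ideal AInt) (h𝔪 : 𝔪.IsMaximal) (hp𝔪 : (p : AInt) ∈ 𝔪)
    (χ : G → ℂ) (hχ : χ ∈ Irr G)
    -- `D` is an abelian defect group of `B`, `b` is a block of its centralizer with `b^G = B`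
    (D : Subgroup G) (hab : ∀ a ∈ D, ∀ b ∈ D, a * b = b * a)
    (hD : Nat.card D = p ^ defect p (block 𝔪 χ))
    (ζ : Subgroup.centralizer (D : Set G) → ℂ)
    (hζ : ζ ∈ Irr (Subgroup.centralizer (D : Set G)))
    (hind : Induces 𝔪 (Subgroup.centralizer (D : Set G)) ζ χ) :
    (RankTwoD 𝔪 D ζ ∨ (∃ D₂ V, CyclicFactor 𝔪 D ζ D₂ V) →
      -- `l(b_S) = |C_E(S)|` for `S ≠ 1`
      (∀ S : Subgroup G, S ≤ D → S ≠ ⊥ → ∀ η ∈ Irr (Subgroup.centralizer (S : Set G)),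
        Induces 𝔪 ((Subgroup.centralizer (D : Set G)).subgroupOf
          (Subgroup.centralizer (S : Set G))) (fun y => ζ ⟨y.1.1, y.2⟩) η →
        ell p (block 𝔪 η) * Nat.card (Subgroup.centralizer (D : Set G)) =
          Nat.card {g : G // g ∈ inertia 𝔪 D ζ ∧ ∀ x ∈ S, g * x = x * g}) ∧
      -- `l(B) = l(c)`, `k(B) = k(c)`
      (∀ ψ ∈ Irr (Subgroup.normalizer (D : Set G)),
        Induces 𝔪 ((Subgroup.centralizer (D : Set G)).subgroupOf
          (Subgroup.normalizer (D : Set G))) (fun y => ζ ⟨y.1.1, y.2⟩) ψ →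
        ell p (block 𝔪 χ) = ell p (block 𝔪 ψ) ∧ (block 𝔪 χ).ncard = (block 𝔪 ψ).ncard)) ∧
    (RankTwoD 𝔪 D ζ ∨ (∃ D₂, CyclicFactor 𝔪 D ζ D₂ D₂) →
      -- `B` is isotypic to `c` and to all the blocks with the same `D`, action of `E` and `k`
      IsotypicCorr G p 𝔪 χ D ζ ∧ IsotypicAll G p 𝔪 χ D ζ) := by
  have hP : BrP.ThmP := BrP.center_P P2c.thmPA
  refine ⟨fun h => ?_, fun h => ?_⟩
  · rcases h with ⟨x, y, hx, hy, hs, hi, h⟩ | ⟨D₂, V, hcomm, D₁, h1, hcyc, hs, hi, hn₁, hn₂, hfr,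
      hle, hV, hVs, hVf⟩
    · exact BrP.main_R thmK hP G p hp 𝔪 h𝔪 hp𝔪 χ hχ D hab hD ζ hζ hind x y hx hy hs hi h
    · exact BrP.main_P thmK hP G p hp 𝔪 h𝔪 hp𝔪 χ hχ D hab hD ζ hζ hind hcomm D₁ D₂ V h1 hcyc hs hi
        hn₁ hn₂ hfr hle hV hVs hVf
  · rcases h with ⟨x, y, hx, hy, hs, hi, h⟩ | ⟨D₂, hcomm, D₁, h1, hcyc, hs, hi, hn₁, hn₂, -, -, hV,
      -, hVf⟩
    · exact Isp.iso_R thmK hP G p hp 𝔪 h𝔪 hp𝔪 χ hχ D hab hD ζ hζ hind x y hx hy hs hi h
    · exact Isp.iso_P thmK hP G p hp 𝔪 h𝔪 hp𝔪 χ hχ D hab hD ζ hζ hind hcomm D₁ D₂ h1 hV hcyc hs hi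
        hn₁ hn₂ hVf

end Pool.Agent.Variants.RankTwo
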