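import Pool.Agent.RkH.Main

/-!
# Blocks with abelian defect groups and hyperfocal subgroup of rank at most two

Let `p` be any prime and `B` a `p`-block of a finite group `G` with an abelian defect group `D ≠ 1`. Let `b` be
a block of `C_G(D)` with `b^G = B`, `T` its inertial group in `N_G(D)`, `E = T / C_G(D)` the inertial quotient,
`c = b^{N_G(D)}` the Brauer correspondent of `B` and `b_S = b^{C_G(S)}` for `S ≤ D`. The group `[D, T]` is the
hyperfocal subgroup of `B`; `D = C_D(T) × [D, T]`.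

(R) `[D, T] = ⟨x⟩ × ⟨y⟩`, and `E` is abelian, or `x`, `y` have different orders, or `|[D, T]| = 9`.

(F) `E` is abelian and `[D, T] = D₁ × D₂` with `T`-stable factors, `D₁` is cyclic, `C_E(D₁)` acts freely on
`D₂ ∖ 1`, and `E / C_E(D₂)` acts freely on `V ∖ 1` for some `T`-stable subgroup `V ≠ 1` of `D₂`.

1. If (R) or (F) holds then `k(B) = k(c)`, `l(B) = l(c)`, and `l(b_S) = |C_E(S)|` for every `S ≤ D` which is not
   centralized by `T`.
2. If (R) holds, or (F) with `V = D₂`, then `B` and `c` are isotypic (in the sense of Broué: there are compatible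
   perfect isometries between `b_S` and its Brauer correspondent for all `S ≤ D`); moreover `B` is isotypic to
   every block `B'` of every finite group with `k(B') = k(B)` and the same defect group and action of the
   inertial quotient.
3. If (R) holds and `E` is not abelian then `p = 3`, `E` is `SD₁₆`, `Q₈` or `D₈`, and
   * `|E| = 16`: `k(B) = |D|`, `l(B) = 7`;
   * `|E| = 8`, `E` free on `[D, T] ∖ 1` (`Q₈`): `k(B) = 2 |D| / 3`, `l(B) = 5`;
   * `|E| = 8`, `E` not free on `[D, T] ∖ 1` (`D₈`): `k(B) = |D|`, `l(B) = 5` or `k(B) = 2 |D| / 3`, `l(B) = 2`.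

So the isotypy form of the conjecture holds for all the blocks with an abelian defect group of rank two which is
not homocyclic, for all the blocks with an abelian defect group of rank two and an abelian inertial quotient,
and for all the blocks with a defect group of order 9, twisted blocks (`l(B) < |E|`) included. For `|D| = 9` the
numbers `k(B)`, `l(B)` were left open by Kiyota (1984) for `E = C₈, D₈, Q₈, SD₁₆`. (For `p = 2, 3` and `x`, `y` of
different orders `|E| ≤ 4`: these cases are due to Puig and Usami.)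

The proof. Abelian `E`: Theorem K (library `KtU`) and Theorem P (libraries `P2`, `P2c`, `BrP`) give the dimension
of the centre of the block algebra, by forms in characteristic zero of the source algebra; Theorem ISP (library
`Isp`) gives the generalized decomposition numbers of the blocks `b_S`, by a classification of certain families
of integral vectors; Theorem W (libraries `Wat`, `WatG`, `WatI`) and the library `Hyf`: the passage from `D` to
`[D, T]`. Nonabelian `E`, `W = [D, T]` of order 9: the block system of `B` is reduced to one over `W`. The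
generalized decomposition numbers at the elements of the lines of `W` are vectors with integral coordinates; the
sums of squares are 9 or 6 (`Kiy.Ltb`, `Kiy.Ltc`, `Kiy.Col`). For `D₈` and `SD₁₆` they are determined by these
relations (`Kiy.Cmb`, `Kiy.Lab`), the type of a line is the same for `B` and `c` (`Kiy.Mm`), and no line is
twisted for `SD₁₆` (`Kiy.Ext`). For `Q₈` the relations leave `k(B) / |C_D(T)| ∈ {3, 6, 9}`; the values 3 and 9 are
excluded (`Kiy.Qz`) by Theorem Q (library `K9`): the source algebra of a block with `|D| = 9` and `E = Q₈` is a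
deformation of `k[D ⋊ E]` plus projectives, it is graded by `ℤ[w, w⁻¹]`, and its hermitian Cartan form over
`ℤ[w, w⁻¹]` is compared with the one of `k[D ⋊ E]` on the unit circle: an even form would have determinants
congruent modulo 8 at `w = 1` and `w = -1`, but these are `9` and `-27`, and the form has rank at least 3. The
classification of the finite simple groups is not used.
-/

set_option autoImplicit false

namespace Pool.Agent.Variants.RankTwoHyperfocal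

open Pool.Agent.KB Pool.Agent.KBZ Pool.Agent.KBQ Pool.Agent.PIs Pool.Agent.MSf Pool.Agent.Ity

/-- Isotypy of `B = block 𝔪 χ` with its Brauer correspondent `c = block 𝔪 ψ`: compatible perfect isometries
between the blocks of `C_G(S)` and `C_G(S) ⊓ N_G(D)` induced by the block of `ζ`, for all `S ≤ D`. For
`S = 1` these are the blocks `B` and `c`. -/
def IsotypicCorr (G : Type) [Group G] [Finite G] (p : ℕ) (𝔪 : Ideal AInt) (χ : G → ℂ)
    (D : Subgroup G) (ζ : Subgroup.centralizer (D : Set G) → ℂ) : Prop :=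
  ∀ ψ ∈ Irr (Subgroup.normalizer (D : Set G)),
    Induces 𝔪 ((Subgroup.centralizer (D : Set G)).subgroupOf
      (Subgroup.normalizer (D : Set G))) (fun y => ζ ⟨y.1.1, y.2⟩) ψ →
    LB 𝔪 D ζ (Subgroup.centralizer ((⊥ : Subgroup G) : Set G)) = block 𝔪 χ ∧
    LB 𝔪 D ζ (Subgroup.centralizer ((⊥ : Subgroup G) : Set G) ⊓
      Subgroup.normalizer (D : Set G)) =
        {f | (∀ g, g ∉ Subgroup.normalizer (D : Set G) → f g = 0) ∧
          (fun y : Subgroup.normalizer (D : Set G) => f y) ∈ block 𝔪 ψ} ∧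
    ∃ I ε, Isot p 𝔪 D ζ D ζ D.subtype (fun S => Subgroup.centralizer (S : Set G))
      (fun S => Subgroup.centralizer (S : Set G) ⊓ Subgroup.normalizer (D : Set G)) I ε

/-- Isotypy of `B = block 𝔪 χ` with every block `B' = block 𝔪 χ'` of every finite group `G'` with a defect
group `D'` isomorphic to `D`, the same action of the inertial quotient, and `k(B') = k(B)`. -/
def IsotypicAll (G : Type) [Group G] [Finite G] (p : ℕ) (𝔪 : Ideal AInt) (χ : G → ℂ)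
    (D : Subgroup G) (ζ : Subgroup.centralizer (D : Set G) → ℂ) : Prop :=
  ∀ (G' : Type) [Group G'] [Finite G'] (χ' : G' → ℂ), χ' ∈ Irr G' →
    ∀ D' : Subgroup G', Nat.card D' = p ^ defect p (block 𝔪 χ') →
    ∀ ζ' : Subgroup.centralizer (D' : Set G') → ℂ,
      ζ' ∈ Irr (Subgroup.centralizer (D' : Set G')) →
      Induces 𝔪 (Subgroup.centralizer (D' : Set G')) ζ' χ' →
      (block 𝔪 χ).ncard = (block 𝔪 χ').ncard →
    ∀ φ : D ≃* D',
      (∀ g ∈ inertia 𝔪 D ζ, ∃ g' ∈ inertia 𝔪 D' ζ', ∀ x y : D,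
        (y : G) = g * x * g⁻¹ → (φ y : G') = g' * φ x * g'⁻¹) →
      (∀ g' ∈ inertia 𝔪 D' ζ', ∃ g ∈ inertia 𝔪 D ζ, ∀ x y : D,
        (y : G) = g * x * g⁻¹ → (φ y : G') = g' * φ x * g'⁻¹) →
      LB 𝔪 D ζ (Subgroup.centralizer ((⊥ : Subgroup G) : Set G)) = block 𝔪 χ ∧
      LB 𝔪 D' ζ' (Subgroup.centralizer ((⊥ : Subgroup G') : Set G')) = block 𝔪 χ' ∧
      ∃ I ε, Isot p 𝔪 D ζ D' ζ' (D'.subtype.comp φ.toMonoidHom)
        (fun S => Subgroup.centralizer (S : Set G))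
        (fun S => Subgroup.centralizer
          ((S.subgroupOf D).map (D'.subtype.comp φ.toMonoidHom) : Set G')) I ε

/-- The hyperfocal subgroup `[D, T]`. -/
def hypSub {G : Type} [Group G] (𝔪 : Ideal AInt) (D : Subgroup G)
    (ζ : Subgroup.centralizer (D : Set G) → ℂ) : Subgroup G :=
  Subgroup.closure {x | ∃ d ∈ D, ∃ g ∈ inertia 𝔪 D ζ, x = d * g * d⁻¹ * g⁻¹}

/-- The inertial quotient `E` is abelian. -/
def AbelianE {G : Type} [Group G] (𝔪 : Ideal AInt) (D : Subgroup G)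
    (ζ : Subgroup.centralizer (D : Set G) → ℂ) : Prop :=
  ∀ g ∈ inertia 𝔪 D ζ, ∀ h ∈ inertia 𝔪 D ζ,
    g * h * g⁻¹ * h⁻¹ ∈ Subgroup.centralizer (D : Set G)

/-- (R): `[D, T]` is a direct product of two cyclic groups `⟨x⟩`, `⟨y⟩` (possibly trivial), and `E` is abelian, or
`x` and `y` have different orders, or `[D, T]` has order 9. -/
def RankTwo {G : Type} [Group G] (𝔪 : Ideal AInt) (D : Subgroup G)
    (ζ : Subgroup.centralizer (D : Set G) → ℂ) : Prop :=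
  ∃ x y : G, Subgroup.zpowers x ⊔ Subgroup.zpowers y = hypSub 𝔪 D ζ ∧
    Subgroup.zpowers x ⊓ Subgroup.zpowers y = ⊥ ∧
    (AbelianE 𝔪 D ζ ∨ orderOf x ≠ orderOf y ∨ Nat.card (hypSub 𝔪 D ζ) = 9)

/-- (F): `E` is abelian, `[D, T] = D₁ × D₂` with stable factors, `D₁` is cyclic, the centralizer of `D₁` is
free on `D₂ ∖ 1`, and `E / C_E(D₂)` is free on `V ∖ 1`, `1 ≠ V ≤ D₂` stable. -/
def CyclicFactor {G : Type} [Group G] (𝔪 : Ideal AInt) (D : Subgroup G)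
    (ζ : Subgroup.centralizer (D : Set G) → ℂ) (D₂ V : Subgroup G) : Prop :=
  AbelianE 𝔪 D ζ ∧ ∃ D₁ : Subgroup G, IsCyclic D₁ ∧ D₁ ⊔ D₂ = hypSub 𝔪 D ζ ∧ D₁ ⊓ D₂ = ⊥ ∧
    (∀ g ∈ inertia 𝔪 D ζ, ∀ x ∈ D₁, g * x * g⁻¹ ∈ D₁) ∧
    (∀ g ∈ inertia 𝔪 D ζ, ∀ x ∈ D₂, g * x * g⁻¹ ∈ D₂) ∧
    (∀ g ∈ inertia 𝔪 D ζ, (∀ x ∈ D₁, g * x = x * g) → ∀ x ∈ D₂, x ≠ 1 →
      g * x = x * g → g ∈ Subgroup.centralizer (D : Set G)) ∧
    V ≤ D₂ ∧ V ≠ ⊥ ∧ (∀ g ∈ inertia 𝔪 D ζ, ∀ x ∈ V, g * x * g⁻¹ ∈ V) ∧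
    ∀ g ∈ inertia 𝔪 D ζ, ∀ x ∈ V, x ≠ 1 → g * x = x * g → ∀ y ∈ D₂, g * y = y * g

/-- `E` acts freely on `[D, T] ∖ 1`. -/
def FreeH {G : Type} [Group G] (𝔪 : Ideal AInt) (D : Subgroup G)
    (ζ : Subgroup.centralizer (D : Set G) → ℂ) : Prop :=
  ∀ g ∈ inertia 𝔪 D ζ, ∀ x ∈ hypSub 𝔪 D ζ, x ≠ 1 → g * x = x * g →
    g ∈ Subgroup.centralizer (D : Set G)

/-- The main result. `B = block 𝔪 χ` is the block of `χ ∈ Irr G`, `b = block 𝔪 ζ` is the block of
`ζ ∈ Irr (C_G(D))`, `T = inertia 𝔪 D ζ`. -/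
theorem result (G : Type) [Group G] [Finite G] (p : ℕ) (hp : p.Prime)
    -- a maximal ideal over `p` of the ring of the algebraic integers
    (𝔪 : Ideal AInt) (h𝔪 : 𝔪.IsMaximal) (hp𝔪 : (p : AInt) ∈ 𝔪)
    (χ : G → ℂ) (hχ : χ ∈ Irr G)
    -- `D ≠ 1` is an abelian defect group of `B`, `b` is a block of its centralizer with `b^G = B`
    (D : Subgroup G) (hD1 : D ≠ ⊥) (hab : ∀ a ∈ D, ∀ b ∈ D, a * b = b * a)
    (hD : Nat.card D = p ^ defect p (block 𝔪 χ))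
    (ζ : Subgroup.centralizer (D : Set G) → ℂ)
    (hζ : ζ ∈ Irr (Subgroup.centralizer (D : Set G)))
    (hind : Induces 𝔪 (Subgroup.centralizer (D : Set G)) ζ χ) :
    (RankTwo 𝔪 D ζ ∨ (∃ D₂ V, CyclicFactor 𝔪 D ζ D₂ V) →
      -- `l(b_S) = |C_E(S)|` if `T` does not centralize `S`
      (∀ S : Subgroup G, S ≤ D → (∃ s ∈ S, ∃ g ∈ inertia 𝔪 D ζ, g * s ≠ s * g) →
        ∀ η ∈ Irr (Subgroup.centralizer (S : Set G)),
        Induces 𝔪 ((Subgroup.centralizer (D : Set G)).subgroupOf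
          (Subgroup.centralizer (S : Set G))) (fun y => ζ ⟨y.1.1, y.2⟩) η →
        ell p (block 𝔪 η) * Nat.card (Subgroup.centralizer (D : Set G)) =
          Nat.card {g : G // g ∈ inertia 𝔪 D ζ ∧ ∀ x ∈ S, g * x = x * g}) ∧
      -- `l(B) = l(c)`, `k(B) = k(c)`
      (∀ ψ ∈ Irr (Subgroup.normalizer (D : Set G)),
        Induces 𝔪 ((Subgroup.centralizer (D : Set G)).subgroupOf
          (Subgroup.normalizer (D : Set G))) (fun y => ζ ⟨y.1.1, y.2⟩) ψ →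
        ell p (block 𝔪 χ) = ell p (block 𝔪 ψ) ∧ (block 𝔪 χ).ncard = (block 𝔪 ψ).ncard)) ∧
    (RankTwo 𝔪 D ζ ∨ (∃ D₂, CyclicFactor 𝔪 D ζ D₂ D₂) →
      -- `B` is isotypic to `c` and to all the blocks with the same `D`, action of `E` and `k`
      IsotypicCorr G p 𝔪 χ D ζ ∧ IsotypicAll G p 𝔪 χ D ζ) ∧
    -- the numbers if `E` is not abelian
    (RankTwo 𝔪 D ζ → ¬ AbelianE 𝔪 D ζ → p = 3 ∧
      ((Nat.card (inertia 𝔪 D ζ) = 16 * Nat.card (Subgroup.centralizer (D : Set G)) ∧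
        (block 𝔪 χ).ncard = Nat.card D ∧ ell p (block 𝔪 χ) = 7) ∨
      (Nat.card (inertia 𝔪 D ζ) = 8 * Nat.card (Subgroup.centralizer (D : Set G)) ∧
        FreeH 𝔪 D ζ ∧
        3 * (block 𝔪 χ).ncard = 2 * Nat.card D ∧ ell p (block 𝔪 χ) = 5) ∨
      (Nat.card (inertia 𝔪 D ζ) = 8 * Nat.card (Subgroup.centralizer (D : Set G)) ∧
        ¬ FreeH 𝔪 D ζ ∧
        (((block 𝔪 χ).ncard = Nat.card D ∧ ell p (block 𝔪 χ) = 5) ∨
        (3 * (block 𝔪 χ).ncard = 2 * Nat.card D ∧ ell p (block 𝔪 χ) = 2))))) := by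
  have hP : BrP.ThmP := BrP.center_P P2c.thmPA
  have hF : ∀ D₂ V, CyclicFactor 𝔪 D ζ D₂ V → ∃ D₁, Hyf.HFc 𝔪 D ζ D₁ D₂ V := by
    rintro D₂ V ⟨h1, D₁, h2, h3, h4, h5, h6, h7, h8, h9, h10, h11⟩
    exact ⟨D₁, ⟨h1, h2, h3, h4, h5, h6, h7, h8, h9, h10, h11⟩⟩
  have hR : RankTwo 𝔪 D ζ → (∃ D₁ D₂ : Subgroup G, Hyf.HFc 𝔪 D ζ D₁ D₂ D₂) ∨
      (HypE 𝔪 D ζ ∧ Isk.CasT 𝔪 D ζ) ∨ (p = 3 ∧ Nat.card (Hyf.hyp 𝔪 D ζ) ≤ 9) := by
    rintro ⟨x, y, hs, hi, h⟩
    exact RkH.cases_H G p hp 𝔪 h𝔪 hp𝔪 χ hχ D hab hD ζ hζ hind hD1 x y hs hi h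
  refine ⟨fun h => ?_, fun h => ?_, fun h hE => ?_⟩
  · rcases h with h | ⟨D₂, V, h⟩
    · rcases hR h with ⟨D₁, D₂, h⟩ | ⟨h, -⟩ | ⟨rfl, h⟩
      · exact Hyf.num_H thmK hP G p hp 𝔪 h𝔪 hp𝔪 χ hχ D hab hD ζ hζ hind h
      · have h1 := (FIX_main thmK G p hp 𝔪 h𝔪 hp𝔪 χ hχ D hab hD ζ hζ hind h).1
        exact ⟨fun S hS _ => h1.2.2.1 S hS, h1.2.2.2⟩
      · exact (Kiy.main_K G 𝔪 h𝔪 hp𝔪 χ hχ D hab hD ζ hζ hind thmK hP K9.thmQ h hD1).2
    · obtain ⟨D₁, h⟩ := hF D₂ V h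
      exact Hyf.num_H thmK hP G p hp 𝔪 h𝔪 hp𝔪 χ hχ D hab hD ζ hζ hind h
  · rcases h with h | ⟨D₂, h⟩
    · rcases hR h with ⟨D₁, D₂, h⟩ | ⟨h, hc⟩ | ⟨rfl, h⟩
      · exact Hyf.iso_H thmK hP G p hp 𝔪 h𝔪 hp𝔪 χ hχ D hab hD ζ hζ hind h
      · have h1 := (FIX_main thmK G p hp 𝔪 h𝔪 hp𝔪 χ hχ D hab hD ζ hζ hind h).2 hc
        exact ⟨h1.1, Isp.ConAllE.of_I h1.2⟩
      · exact (Kiy.main_K G 𝔪 h𝔪 hp𝔪 χ hχ D hab hD ζ hζ hind thmK hP K9.thmQ h hD1).1
    · obtain ⟨D₁, h⟩ := hF D₂ D₂ h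
      exact Hyf.iso_H thmK hP G p hp 𝔪 h𝔪 hp𝔪 χ hχ D hab hD ζ hζ hind h
  · obtain ⟨x, y, hs, hi, h⟩ := h
    obtain ⟨rfl, h9⟩ := RkH.nab_H G p hp 𝔪 h𝔪 hp𝔪 χ hχ D hab hD ζ hζ hind hD1 x y hs hi h hE
    refine ⟨rfl, ?_⟩
    rcases Kiy.exp_K G 𝔪 h𝔪 hp𝔪 χ hχ D hab hD ζ hζ hind thmK hP K9.thmQ hE h9 with h | h | h
    · exact Or.inl h
    · exact Or.inr (Or.inl h)
    · obtain ⟨a, ⟨g, hg, x, hx, hx1, hgx, hgC⟩, b⟩ := h
      exact Or.inr (Or.inr ⟨a, fun hf => hgC (hf g hg x hx hx1 hgx), b⟩)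

end Pool.Agent.Variants.RankTwoHyperfocal
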