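import Pool.Agent.Edg.Fin

/-!
MP_46801b_nt (Edgar): `1 + q + ... + q^(x-1) = p^y` with `p`, `q` odd primes, `x ≥ 5`, `y ≥ 2`.

A lower bound for `p^(y/d)` in terms of `q`, for every odd common divisor `d` of `y` and `q - 1`.
-/

namespace Pool.Agent.Variants.RepunitBaseBound

open Pool.Agent.Edg

/-- Let `1 + q + ... + q^(x-1) = p^y` with primes `p ≠ 2`, `q`, and `x ≥ 5`, `y ≥ 2`. Let `d` be
an odd common divisor of `y` and `q - 1`, `P = p^(y/d)`, and `f` the order of `q` modulo `x`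
(`f = 0` if `q = x`). If `f` is odd, then `(q/2)^(4f) ≤ P^(f+1)`. If `f` is even (or `q = x`) and
`x ≥ 7`, then `(q/2)^(x-1) ≤ P^N`, `N` the number of integers `c` with `x/4 < c < x/3`. In all
cases `(q/2)^3 ≤ P`. -/
theorem result (p q x y d : ℕ) (hp : p.Prime) (hp2 : p ≠ 2) (hq : q.Prime)
    (hx : 5 ≤ x) (hy : 2 ≤ y)
    (h : ∑ i ∈ Finset.range x, q ^ i = p ^ y)
    (hd : Odd d) (hdy : d ∣ y) (hdq : d ∣ q - 1) :
    (Odd (orderOf (q : ZMod x)) → q ^ (4 * orderOf (q : ZMod x)) ≤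
      2 ^ (4 * orderOf (q : ZMod x)) * (p ^ (y / d)) ^ (orderOf (q : ZMod x) + 1)) ∧
    (¬ Odd (orderOf (q : ZMod x)) → 7 ≤ x → q ^ (x - 1) ≤ 2 ^ (x - 1) *
      (p ^ (y / d)) ^ ((Finset.range x).filter fun c => x < 4 * c ∧ 3 * c < x).card) ∧
    q ^ 3 ≤ 8 * p ^ (y / d) :=
  size_all hp hp2 hq hx hy h hd hdy hdq

end Pool.Agent.Variants.RepunitBaseBound
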