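import Pool.Agent.Edg.Cn

/-!
MP_46801b_nt (Edgar): `1 + q + ... + q^(x-1) = p^y` with `p`, `q` odd primes, `x ≥ 5`, `y ≥ 2`.

For every odd prime `l` dividing `q - 1` the full power of `l` in the exponent `y` divides the
class number of the cyclotomic field of `x`-th roots of unity.
-/

namespace Pool.Agent.Variants.RepunitClassNumber

open Pool.Agent.Edg

/-- If `1 + q + ... + q^(x-1) = p^y` with `p`, `q` odd primes, `x ≥ 5`, `y ≥ 2`, then for every
odd prime `l` dividing `q - 1` the number `l ^ v_l(y)` divides the class number of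
`K = ℚ(ζ_x)`, the field of `x`-th roots of unity. -/
theorem result (p q x y l : ℕ) (hp : p.Prime) (hp2 : p ≠ 2) (hq : q.Prime)
    (hq2 : q ≠ 2) (hx : 5 ≤ x) (hy : 2 ≤ y)
    (h : ∑ i ∈ Finset.range x, q ^ i = p ^ y)
    (hl : l.Prime) (hl2 : l ≠ 2) (hlq : l ∣ q - 1)
    (K : Type) [Field K] [NumberField K] [IsCyclotomicExtension {x} ℚ K] :
    l ^ padicValNat l y ∣ NumberField.classNumber K := by
  obtain ⟨hxp, hord, hxp1, hxq⟩ := basic hp hp2 hq (by omega) hy h
  have : Fact x.Prime := ⟨hxp⟩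
  have : Fact p.Prime := ⟨hp⟩
  exact pow_dvd_order K ⟨hp, hq, hord⟩ hx hp2 hq2 hxp1 hxq hl hl2 hlq h

end Pool.Agent.Variants.RepunitClassNumber
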