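import Pool.Agent.RB.Num
import Pool.Agent.RB.Lin

set_option autoImplicit false

/-!
# Rota's basis conjecture when many of the bases coincide, characteristic zero
-/

namespace Pool.Agent.Results.MP_fc208c_co.CoincidingBases

/-- **Rota's basis conjecture for coinciding bases.**  Let `M` be a matroid of rank `n` whose ground
set is the disjoint union of the bases `B 0, ..., B (n-1)`, represented by vectors `v` over a field
`F`.  Assume that, apart from at most `k ≥ 1` of them (the `B i` with `i ∈ K`), the bases are pairwise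
parallel, and that `n` is a sum of numbers `p - 1 + 2 q` (one for each entry `(p, q)` of a list `L`),
`p` an odd prime, `p > k`, `q (k - 2) ≤ p - 1`, where `F` has characteristic `0` or the
characteristic of `F` is `p` for all entries.  Then there are `n` pairwise disjoint bases, each with exactly one
element in every `B i`.  This holds in particular if `F` has characteristic `0`, `n` is even and
`2 (k - 1) (k - 2) ≤ n`. -/
theorem result {F W α : Type} [Field F] [AddCommGroup W] [Module F W] (M : Matroid α) (v : α → W)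
    (hv : ∀ I ⊆ M.E, M.Indep I ↔ LinearIndepOn F v I) (n : ℕ) (B : Fin n → Set α)
    (hB : ∀ i, M.IsBase (B i)) (hn : ∀ i, (B i).encard = (n : ℕ∞))
    (hd : ∀ i j, i ≠ j → Disjoint (B i) (B j)) (hE : ⋃ i, B i = M.E)
    (k : ℕ) (hk : 1 ≤ k) (K : Finset (Fin n)) (hK : K.card ≤ k)
    (hpar : ∀ i j, i ∉ K → j ∉ K → ∀ x ∈ B i, ∃ y ∈ B j, M.closure {x} = M.closure {y})
    (h : (∃ L : List (ℕ × ℕ), n = (L.map fun x => x.1 - 1 + 2 * x.2).sum ∧
        ∀ x ∈ L, x.1.Prime ∧ x.1 ≠ 2 ∧ k < x.1 ∧ x.2 * (k - 2) ≤ x.1 - 1 ∧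
          (ringChar F = 0 ∨ ringChar F = x.1)) ∨
      (ringChar F = 0 ∧ Even n ∧ 2 * ((k - 1) * (k - 2)) ≤ n)) :
    ∃ T : Fin n → Set α, (∀ j, M.IsBase (T j)) ∧ (∀ j i, (T j ∩ B i).encard = 1) ∧
      (∀ j l, j ≠ l → Disjoint (T j) (T l)) := by
  classical
  have key : ∃ f : Fin n → Fin k → Fin n, ((Pool.Agent.RB.Cf k f : ℤ) : F) ≠ 0 := by
    have z : ringChar F = 0 → ∀ m : ℕ, m = n → Pool.Agent.RB.Ok k m →
        ∃ f : Fin n → Fin k → Fin n, ((Pool.Agent.RB.Cf k f : ℤ) : F) ≠ 0 := by
      rintro hF m rfl ⟨f, hf⟩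
      have : CharP F 0 := by rw [← hF]; exact ringChar.charP F
      have : CharZero F := CharP.charP_to_charZero F
      exact ⟨f, by exact_mod_cast hf⟩
    rcases h with ⟨L, hnL, hL⟩ | ⟨hF, he, h2⟩
    · have hA : Pool.Agent.RB.Adm k L := fun x hx => ⟨(hL x hx).1, (hL x hx).2.1, (hL x hx).2.2.1, (hL x hx).2.2.2.1⟩
      by_cases hF : ringChar F = 0
      · exact z hF _ hnL.symm (Pool.Agent.RB.Ok_list hk L hA)
      · by_cases hne : L = []
        · have h0 : n = 0 := by rw [hnL, hne]; rfl
          subst h0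
          exact ⟨fun s _ => s, by rw [Pool.Agent.RB.Cf_zero]; simp⟩
        · obtain ⟨x0, hx0⟩ := List.exists_mem_of_ne_nil L hne
          have hall : ∀ x ∈ L, x.1 = ringChar F := fun x hx => by
            rcases (hL x hx).2.2.2.2 with h0 | h0
            · exact absurd h0 hF
            · exact h0.symm
          have hp : (ringChar F).Prime := by rw [← hall x0 hx0]; exact (hL x0 hx0).1
          have : Fact (ringChar F).Prime := ⟨hp⟩
          have ok := Pool.Agent.RB.OkP_list (p := ringChar F) hk L hA hall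
          rw [show Pool.Agent.RB.sz L = n from hnL.symm] at ok
          obtain ⟨f, hf⟩ := ok
          refine ⟨f, fun h0 => hf ?_⟩
          rw [ZMod.intCast_zmod_eq_zero_iff_dvd]
          exact (CharP.intCast_eq_zero_iff F (ringChar F) _).mp h0
    · obtain ⟨L, hL, hs⟩ := Pool.Agent.RB.exists_list he h2
      exact z hF _ hs (Pool.Agent.RB.Ok_list hk L hL)
  obtain ⟨f, hf⟩ := key
  exact Pool.Agent.RB.rota_coinc M v hv f hf B hB hn hd K hK hpar

end Pool.Agent.Results.MP_fc208c_co.CoincidingBases
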