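import Pool.Agent.RotaP.Fin2

set_option autoImplicit false

namespace Pool.Agent.Results.MP_fc208c_co.ParallelClasses

/-- Rota's basis conjecture for bases which coincide up to parallel elements.

`M` is a matroid of rank `n` and `B 0, ..., B (n-1)` are pairwise disjoint bases; `c i` is the class of
`B i`, and two bases `B i`, `B j` of the same class coincide up to parallel elements: every element of
`B i` is parallel to an element of `B j` (`M.closure {x} = M.closure {y}`). `s j` is the number of bases
in the classes `0, ..., j-1`. If `s j` divides `s (j+1)` for all `j ≥ 2`, or if `s 2 ≤ 2` and `s j`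
divides `s (j+1)` for all `j ≥ 3`, then there are `n` pairwise disjoint bases, each meeting every `B i`
in exactly one element. -/
theorem result (α : Type*) (M : Matroid α) (n : ℕ) (B : Fin n → Set α)
    (hB : ∀ i, M.IsBase (B i)) (hn : ∀ i, (B i).encard = (n : ℕ∞))
    (hd : ∀ i j, i ≠ j → Disjoint (B i) (B j)) (c : Fin n → ℕ)
    (hpar : ∀ i j, c i = c j → ∀ x ∈ B i, ∃ y ∈ B j, M.closure {x} = M.closure {y})
    (s : ℕ → ℕ) (hs : ∀ j, s j = (Finset.univ.filter (fun i => c i < j)).card)
    (h : (∀ j, 2 ≤ j → s j ∣ s (j + 1)) ∨ (s 2 ≤ 2 ∧ ∀ j, 3 ≤ j → s j ∣ s (j + 1))) :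
    ∃ T : Fin n → Set α, (∀ k, M.IsBase (T k)) ∧ (∀ k i, (T k ∩ B i).encard = 1) ∧
      (∀ k l, k ≠ l → Disjoint (T k) (T l)) :=
  RotaP.rota_classes α M n B hB hn hd c hpar s hs h

end Pool.Agent.Results.MP_fc208c_co.ParallelClasses
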