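import Pool.Agent.RBh.Num
import Pool.Agent.RBn.Bd
import Pool.Agent.RB.Lin

set_option autoImplicit false

/-!
# Rota's basis conjecture in even rank when `n - p + 1` of the bases coincide, `p` a prime
-/

namespace Pool.Agent.Results.MP_fc208c_co.PrimeCoinciding

/-- **Rota's basis conjecture when `n - p + 1` of the `n` bases coincide, `p ≤ n + 1` prime, `n` even.**
Let `M` be a matroid of even rank `n` whose ground set is the disjoint union of the bases
`B 0, ..., B (n-1)`, represented by vectors `v` over a field `F`.  Let all the `B i` with `i ∉ K` be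
pairwise parallel (the `B i` with `i ∈ K` are arbitrary), and assume that

* there is a prime `p` with `K.card < p ≤ n + 1`, where `F` has characteristic `0`, `p`, or larger than
  `((p - 1)!)^n`, or
* `K` has at most `n / 2` elements and `F` has characteristic `0` or larger than `(n!)^n`.

Then there are `n` pairwise disjoint bases, each with exactly one element in every `B i`. -/
theorem result {F W α : Type} [Field F] [AddCommGroup W] [Module F W] (M : Matroid α) (v : α → W)
    (hv : ∀ I ⊆ M.E, M.Indep I ↔ LinearIndepOn F v I) (n : ℕ) (he : Even n) (B : Fin n → Set α)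
    (hB : ∀ i, M.IsBase (B i)) (hn : ∀ i, (B i).encard = (n : ℕ∞))
    (hd : ∀ i j, i ≠ j → Disjoint (B i) (B j)) (hE : ⋃ i, B i = M.E) (K : Finset (Fin n))
    (hpar : ∀ i j, i ∉ K → j ∉ K → ∀ x ∈ B i, ∃ y ∈ B j, M.closure {x} = M.closure {y})
    (h : (∃ p : ℕ, p.Prime ∧ K.card < p ∧ p ≤ n + 1 ∧
        (ringChar F = 0 ∨ ringChar F = p ∨ (p - 1).factorial ^ n < ringChar F)) ∨
      (2 * K.card ≤ n ∧ (ringChar F = 0 ∨ n.factorial ^ n < ringChar F))) :
    ∃ T : Fin n → Set α, (∀ j, M.IsBase (T j)) ∧ (∀ j i, (T j ∩ B i).encard = 1) ∧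
      (∀ j l, j ≠ l → Disjoint (T j) (T l)) := by
  classical
  have main : ∀ p : ℕ, p.Prime → K.card < p → p ≤ n + 1 →
      (ringChar F = 0 ∨ ringChar F = p ∨ (p - 1).factorial ^ n < ringChar F) →
      ∃ T : Fin n → Set α, (∀ j, M.IsBase (T j)) ∧ (∀ j i, (T j ∩ B i).encard = 1) ∧
        (∀ j l, j ≠ l → Disjoint (T j) (T l)) := by
    intro p hp hK hpn hF
    have key : ∃ f : Fin n → Fin (p - 1) → Fin n, ((Pool.Agent.RB.Cf (p - 1) f : ℤ) : F) ≠ 0 := by
      by_cases hp2 : p = 2
      · subst hp2
        refine ⟨fun s _ => s, ?_⟩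
        rw [show Pool.Agent.RB.Cf (2 - 1) (fun (s : Fin n) _ => s) = 1 from Pool.Agent.RB.Cf_one n]
        simp
      · have : Fact p.Prime := ⟨hp⟩
        obtain ⟨f, hf⟩ := Pool.Agent.RBh.OkP_all (p := p) hp2 n he (by omega)
        refine ⟨f, ?_⟩
        rcases hF with hF | hF | hF
        · exact Pool.Agent.RBn.cast_ne f (fun h0 => hf (by rw [h0]; simp)) (Or.inl hF)
        · intro h0
          apply hf
          have h1 := (CharP.intCast_eq_zero_iff F (ringChar F) _).mp h0
          rw [hF] at h1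
          rw [ZMod.intCast_zmod_eq_zero_iff_dvd]
          exact h1
        · exact Pool.Agent.RBn.cast_ne f (fun h0 => hf (by rw [h0]; simp)) (Or.inr hF)
    obtain ⟨f, hf⟩ := key
    exact Pool.Agent.RB.rota_coinc M v hv f hf B hB hn hd K (by omega) hpar
  rcases h with ⟨p, hp, hK, hpn, hF⟩ | ⟨hK, hF⟩
  · exact main p hp hK hpn hF
  · rcases Nat.eq_zero_or_pos n with rfl | hpos
    · exact ⟨fun j => j.elim0, fun j => j.elim0, fun j => j.elim0, fun j => j.elim0⟩
    · obtain ⟨m, hm⟩ := he
      obtain ⟨p, hp, hp1, hp2⟩ := Nat.exists_prime_lt_and_le_two_mul (n / 2) (by omega)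
      refine main p hp (by omega) (by omega) ?_
      rcases hF with hF | hF
      · exact Or.inl hF
      · refine Or.inr (Or.inr (lt_of_le_of_lt ?_ hF))
        exact Nat.pow_le_pow_left (Nat.factorial_le (by omega)) n

end Pool.Agent.Results.MP_fc208c_co.PrimeCoinciding
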