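import Pool.Agent.SawDiff.Main
import Pool.Agent.Bubble.Paths

/-! Bounded amplitude and non-concentration imply the diffusive scale for self-avoiding walks. -/

set_option autoImplicit false

namespace Pool.Agent.Variants.SawDiffusiveScale

open Pool.Agent.SubBall Pool.Agent.Bubble
open Filter

/-- Two points of `ℤ^d` are neighbours if their difference is plus or minus a standard unit
vector. -/
def Nbr {d : ℕ} (u v : Fin d → ℤ) : Prop :=
  ∃ i : Fin d, v - u = Pi.single i 1 ∨ v - u = - Pi.single i 1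

/-- The self-avoiding walks `(ω 0, …, ω N)` of length `N` in `ℤ^d` with `ω 0 = 0`. -/
def SAW (d N : ℕ) : Set (Fin (N + 1) → (Fin d → ℤ)) :=
  {ω | ω 0 = 0 ∧ (∀ j : Fin N, Nbr (ω j.castSucc) (ω j.succ)) ∧ Function.Injective ω}

/-- `c d N`: the number of self-avoiding walks of length `N` from the origin. -/
noncomputable def c (d N : ℕ) : ℕ := (SAW d N).ncard

/-- The mean-square displacement `⟨|ω(N)|²⟩` in `ℤ^d`. -/
noncomputable def msd (d N : ℕ) : ℝ :=
  (∑ᶠ ω ∈ SAW d N, ∑ i : Fin d, ((ω (Fin.last N) i : ℤ) : ℝ) ^ 2) / ((SAW d N).ncard : ℝ)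

/-- the path of a sequence of steps -/
def path (m N : ℕ) (w : ℕ → St m) : Fin (N + 1) → (Fin (m + 2) → ℤ) :=
  fun j => pos (stv m) w j

theorem stv_inj (m : ℕ) : Function.Injective (stv m) := by
  rintro ⟨i, b⟩ ⟨j, b'⟩ h
  have h1 := congrFun h i
  by_cases hij : i = j
  · subst hij
    cases b <;> cases b' <;> simp [stv] at h1 ⊢
  · cases b <;> cases b' <;> simp [stv, hij] at h1

theorem nbr_iff {m : ℕ} {u v : Fin (m + 2) → ℤ} : Nbr u v ↔ ∃ s : St m, stv m s = v - u := by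
  constructor
  · rintro ⟨i, h | h⟩
    · exact ⟨(i, true), by rw [h]; simp [stv]⟩
    · exact ⟨(i, false), by rw [h]; simp [stv]⟩
  · rintro ⟨⟨i, b⟩, h⟩
    refine ⟨i, ?_⟩
    rw [← h]
    cases b <;> simp [stv]

theorem path_mem {m N : ℕ} {w : ℕ → St m} (hw : w ∈ saws (stv m) N) :
    path m N w ∈ SAW (m + 2) N := by
  have h := (mem_saws.1 hw).2
  refine ⟨?_, ?_, ?_⟩
  · simp [path]
  · intro j
    rw [nbr_iff]
    refine ⟨w j, ?_⟩
    simp only [path, Fin.val_succ, Fin.val_castSucc]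
    rw [pos_succ]
    abel
  · intro i j hij
    simp only [path] at hij
    rcases lt_trichotomy (i : ℕ) (j : ℕ) with h1 | h1 | h1
    · exact absurd hij (h i j h1 (Nat.lt_succ_iff.1 j.2))
    · exact Fin.ext h1
    · exact absurd hij.symm (h j i h1 (Nat.lt_succ_iff.1 i.2))

theorem path_inj {m N : ℕ} {w w' : ℕ → St m} (hw : w ∈ saws (stv m) N)
    (hw' : w' ∈ saws (stv m) N) (h : path m N w = path m N w') : w = w' := by
  have hp : ∀ j ≤ N, pos (stv m) w j = pos (stv m) w' j := by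
    intro j hj
    have := congrFun h ⟨j, Nat.lt_succ_iff.2 hj⟩
    simpa [path] using this
  funext a
  by_cases ha : a < N
  · apply stv_inj m
    have h1 := hp (a + 1) (by omega)
    rw [pos_succ, pos_succ, hp a (by omega)] at h1
    exact add_left_cancel h1
  · rw [(mem_saws.1 hw).1 a (by omega), (mem_saws.1 hw').1 a (by omega)]

theorem path_surj {m N : ℕ} {ω : Fin (N + 1) → (Fin (m + 2) → ℤ)} (hω : ω ∈ SAW (m + 2) N) :
    ∃ w ∈ saws (stv m) N, path m N w = ω := by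
  obtain ⟨h0, h1, h2⟩ := hω
  have h3 : ∀ j : Fin N, ∃ s : St m, stv m s = ω j.succ - ω j.castSucc := fun j =>
    nbr_iff.1 (h1 j)
  choose s hs using h3
  have hp : ∀ j, ∀ hj : j ≤ N, pos (stv m) (ext0 N s) j = ω ⟨j, Nat.lt_succ_iff.2 hj⟩ := by
    intro j
    induction j with
    | zero =>
      intro _
      rw [pos_zero]
      exact h0.symm
    | succ j ih =>
      intro hj
      have hjN : j < N := by omega
      rw [pos_succ, ih (by omega)]
      have h4 : ext0 N s j = s ⟨j, hjN⟩ := by simp [ext0, hjN]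
      rw [h4, hs ⟨j, hjN⟩]
      simp only [Fin.succ_mk, Fin.castSucc_mk]
      abel
  refine ⟨ext0 N s, ?_, ?_⟩
  · rw [mem_saws]
    refine ⟨?_, ?_⟩
    · intro a ha
      simp [ext0, not_lt.2 ha]
    · intro i j hij hj heq
      rw [hp i (by omega), hp j hj] at heq
      have h4 := h2 heq
      rw [Fin.mk.injEq] at h4
      omega
  · funext j
    exact hp j (Nat.lt_succ_iff.1 j.2)

open Classical in
theorem SAW_eq (m N : ℕ) :
    SAW (m + 2) N = (((saws (stv m) N).image (path m N) : Finset _) :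
      Set (Fin (N + 1) → (Fin (m + 2) → ℤ))) := by
  ext ω
  rw [Finset.coe_image]
  constructor
  · intro h
    obtain ⟨w, hw, hw'⟩ := path_surj h
    exact ⟨w, hw, hw'⟩
  · rintro ⟨w, hw, rfl⟩
    exact path_mem hw

theorem c_eq (m n : ℕ) : c (m + 2) n = (saws (stv m) n).card := by
  classical
  unfold c
  rw [SAW_eq, Set.ncard_coe_finset]
  exact Finset.card_image_of_injOn (fun w hw w' hw' h => path_inj hw hw' h)

theorem msd_eq (m N : ℕ) : msd (m + 2) N =
    (∑ w ∈ saws (stv m) N, ∑ i : Fin (m + 2), ((pos (stv m) w N i : ℤ) : ℝ) ^ 2) /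
      ((saws (stv m) N).card : ℝ) := by
  classical
  unfold msd
  rw [SAW_eq, finsum_mem_coe_finset, Set.ncard_coe_finset]
  have hinj : Set.InjOn (path m N) (saws (stv m) N : Set (ℕ → St m)) :=
    fun w hw w' hw' h => path_inj hw hw' h
  rw [Finset.sum_image hinj, Finset.card_image_of_injOn hinj]
  rfl


open Classical in
theorem small_eq (m n : ℕ) (t : ℝ) :
    {ω ∈ SAW (m + 2) n | ∑ i : Fin (m + 2), ((ω (Fin.last n) i : ℤ) : ℝ) ^ 2 ≤ t}.ncard =
      ((saws (stv m) n).filter (fun w => ∑ i : Fin (m + 2),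
        ((pos (stv m) w n i : ℤ) : ℝ) ^ 2 ≤ t)).card := by
  have h1 : {ω ∈ SAW (m + 2) n | ∑ i : Fin (m + 2), ((ω (Fin.last n) i : ℤ) : ℝ) ^ 2 ≤ t} =
      ((((saws (stv m) n).filter (fun w => ∑ i : Fin (m + 2),
        ((pos (stv m) w n i : ℤ) : ℝ) ^ 2 ≤ t)).image (path m n) : Finset _) :
        Set (Fin (n + 1) → (Fin (m + 2) → ℤ))) := by
    ext ω
    rw [Finset.coe_image]
    constructor
    · rintro ⟨h, hx⟩
      obtain ⟨w, hw, hw'⟩ := path_surj h
      refine ⟨w, ?_, hw'⟩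
      rw [Finset.mem_coe, Finset.mem_filter]
      refine ⟨hw, ?_⟩
      rw [← hw'] at hx
      simpa [path] using hx
    · rintro ⟨w, hw, rfl⟩
      rw [Finset.mem_coe, Finset.mem_filter] at hw
      refine ⟨path_mem hw.1, ?_⟩
      simpa [path] using hw.2
  rw [h1, Set.ncard_coe_finset]
  exact Finset.card_image_of_injOn
    (fun w hw w' hw' h => path_inj (Finset.mem_filter.1 hw).1 (Finset.mem_filter.1 hw').1 h)

/-- **Main result.** Let `d ≥ 2` and let `μ` be the limit of `c d n ^ (1 / n)`. Suppose that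
`c d n ≤ A * μ ^ n` for all `n`, and that the endpoint is not concentrated near the origin on the
scale of the mean-square displacement: for every `η > 0` there is `δ > 0` such that, for all large
`n`, at most `η * c d n` self-avoiding walks of length `n` satisfy `|ω n| ^ 2 ≤ δ * msd d n`. Then,
for every `ε > 0`, `n ^ (1 - ε) ≤ msd d n ≤ n ^ (1 + ε)` for all large `n`. -/
theorem result (d : ℕ) (hd : 2 ≤ d) : ∃ μ : ℝ, 0 < μ ∧
    Tendsto (fun n : ℕ => (c d n : ℝ) ^ (1 / (n : ℝ))) atTop (nhds μ) ∧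
    ∀ A : ℝ, (∀ n : ℕ, (c d n : ℝ) ≤ A * μ ^ n) →
      (∀ η : ℝ, 0 < η → ∃ δ : ℝ, 0 < δ ∧ ∀ᶠ n : ℕ in atTop,
        ({ω ∈ SAW d n | ∑ i : Fin d, ((ω (Fin.last n) i : ℤ) : ℝ) ^ 2 ≤ δ * msd d n}.ncard : ℝ) ≤
          η * c d n) →
      ∀ ε : ℝ, 0 < ε → ∀ᶠ n : ℕ in atTop,
        (n : ℝ) ^ (1 - ε) ≤ msd d n ∧ msd d n ≤ (n : ℝ) ^ (1 + ε) := by
  classical
  obtain ⟨m, rfl⟩ : ∃ m, d = m + 2 := ⟨d - 2, by omega⟩
  obtain ⟨μ, hμ, h1, -, h3⟩ := exists_mu m
  have hms : ∀ n, msd (m + 2) n = SawDiff.ms m n := fun n => msd_eq m n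
  refine ⟨μ, hμ, ?_, ?_⟩
  · refine h3.congr (fun n => ?_)
    rw [c_eq]
  · intro A hA hnc ε hε
    simp only [hms]
    refine SawDiff.main_words m hμ h1 (A := A) ?_ ?_ hε
    · intro n
      have h4 := hA n
      rw [c_eq] at h4
      unfold an
      rwa [div_le_iff₀ (pow_pos hμ n)]
    · intro η hη
      obtain ⟨δ, hδ, h5⟩ := hnc η hη
      refine ⟨δ, hδ, ?_⟩
      filter_upwards [h5] with n hn
      rwa [small_eq, c_eq, hms] at hn

end Pool.Agent.Variants.SawDiffusiveScale
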