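import Pool.Agent.C4f.Avg

/-!
# MP_782628_co: polarity graphs of commutative semifield planes

Problem MP_782628_co (Erdős) asks whether `R(C₄, m) ≥ m ^ (2 - ε)` for infinitely many `m`. The densest
`C₄`-free graphs known are polarity graphs of projective planes. This file bounds from below the independence
number of the polarity graphs of the commutative semifield planes, and of all the subgraphs of their affine
parts: it is at least `n / (100 √q)`.
-/

namespace Pool.Agent.Variants.SemifieldGraphs

open Finset Pool.Agent.C4f

/-- Let `X` be a finite abelian group of order `q` with a symmetric biadditive product `b : X × X → X` without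
zero divisors (a commutative presemifield). Every graph `G` on `n` vertices whose vertices have different labels
`(x, z)` in `X × X` with `b (x u) (x v) = z u + z v` for all adjacent `u`, `v` has an independent set of at least
`n / (100 √q)` vertices. -/
theorem result (X : Type) [AddCommGroup X] [Fintype X] (b : X →+ X →+ X) (hs : ∀ x y, b x y = b y x)
    (hb : ∀ x y, b x y = 0 → x = 0 ∨ y = 0) (V : Type) [Fintype V] (G : SimpleGraph V) (x z : V → X)
    (hinj : Function.Injective fun v => (x v, z v)) (hG : ∀ u v, G.Adj u v → b (x u) (x v) = z u + z v) :
    ∃ I : Finset V, G.IsIndepSet (I : Set V) ∧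
      (Fintype.card V : ℝ) / (100 * Real.sqrt (Fintype.card X)) ≤ I.card :=
  partB b hs hb G x z hinj hG

end Pool.Agent.Variants.SemifieldGraphs
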