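import Pool.Agent.SgR.Fin

/-! `σ(n + 1) = k σ(n)` for one `k`: the bound of Erdős, Pomerance and Sárközy unless there is an
exceptional pair `m`, `m + 1`. -/

set_option autoImplicit false

namespace Pool.Agent.Variants.SigmaSingleQuotient

open Finset ArithmeticFunction

/-- `m` and `m + 1` form an exceptional pair for `k`: `σ(m) / m` is an integer `j` and
`σ(m + 1) / (m + 1) = j / k` -/
def Exceptional (k m : ℕ) : Prop :=
  1 ≤ m ∧ ∃ j : ℕ, sigma 1 m = j * m ∧ k * sigma 1 (m + 1) = j * (m + 1)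

theorem result : ∃ X0 : ℕ, ∀ k : ℕ, 1 ≤ k →
    (∀ X : ℕ, X0 ≤ X → (((Icc 1 X).filter fun n => sigma 1 (n + 1) = k * sigma 1 n).card : ℝ) ≤
      X * Real.exp (-((Real.log X) ^ (1 / 3 : ℝ) / 4))) ∨
    ((∃ m : ℕ, Exceptional k m) ∧
      ((∃ a : ℕ, k = 2 ^ a) → ∃ N : ℕ, 1 < N ∧ Odd N ∧ N ∣ sigma 1 N)) := by
  obtain ⟨X0, h⟩ := Pool.Agent.SgR.one_quotient
  refine ⟨X0, fun k hk => ?_⟩
  rcases h k hk with h1 | ⟨m, j, hm, h1, h2⟩
  · left
    intro X hX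
    refine le_trans (le_of_eq ?_) (h1 X hX)
    congr!
  · right
    refine ⟨⟨m, hm, j, h1, h2⟩, ?_⟩
    rintro ⟨a, rfl⟩
    obtain ⟨N, h3, h4, h5⟩ := Pool.Agent.SgR.exc_two_pow hm h1 h2
    exact ⟨N, h3, by rw [Nat.odd_iff]; omega, h5⟩

end Pool.Agent.Variants.SigmaSingleQuotient
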