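import Pool.Agent.Smx.Num

/-!
# Pairwise tangent positive homothets of simplices and of polars of zonotopes

Both kinds of bodies lead to points `a i` of `ℓ_1^m` and numbers `c i > 0` with
`∑ k, |a i k - a j k| = c i + c j` for `i ≠ j` (`m = d + 1` for a `d`-dimensional simplex).
Clamp every coordinate between its second smallest and its second largest value and scale the
smallest `c` to `1` (then `1 ≤ c i ≤ m - 1`); compare in every coordinate the weighted sum of the
distances, which is `N - 1` in total, with the value of the quadratic form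
`-∑ w i w j |a i k - a j k| / 2` at one test vector `w`.
-/

set_option autoImplicit false

open Pool.Agent.StB Pool.Agent.Smx

namespace Pool.Agent.Results.MP_c1e66d_co.Simplices

/-- `K` is a `d`-dimensional simplex (then `s = 0` and `m = d + 1`), or
`K = {y ∈ ℝ^d : |f l y| ≤ 1 for l < s, ∑ k < m, |g k y| ≤ 1}`. -/
theorem result (d s m N : ℕ) (K : Set (E d))
    (hK : (s = 0 ∧ m = d + 1 ∧ ∃ p : Fin (d + 1) → E d, AffineIndependent ℝ p ∧
        K = convexHull ℝ (Set.range p)) ∨
      ∃ (f : Fin s → E d →ₗ[ℝ] ℝ) (g : Fin m → E d →ₗ[ℝ] ℝ),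
        K = {y | (∀ l, |f l y| ≤ 1) ∧ ∑ k, |g k y| ≤ 1})
    (c : Fin N → ℝ) (x : Fin N → E d) (hT : Tangent K c x) :
    (N : ℝ) ≤ 2 ^ s * ((4 * m * Real.log m + 2 * m + 4) / 3) ∧
    (1 ≤ m → m ≤ 4 → N ≤ 2 ^ s * (2 * m)) ∧
    (∀ e, 3 ≤ e → s + e ≤ d → (m ≤ e + 1 ∨ m * e ≤ 2 ^ e) → N ≤ 2 ^ d) := by
  have h1 : N ≤ 2 ^ s * ⌊(4 * (m : ℝ) * Real.log m + 2 * m + 4) / 3⌋₊ := by
    rcases hK with ⟨hs, hm, p, hp, rfl⟩ | ⟨f, g, rfl⟩
    · subst hs hm
      rw [pow_zero, one_mul]
      exact Nat.le_floor (simplex_log p hp c x hT)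
    · exact body_log f g c x hT
  have h2 : 1 ≤ m → m ≤ 4 → N ≤ 2 ^ s * (2 * m) := by
    intro hm1 hm4
    rcases hK with ⟨hs, hm, p, hp, rfl⟩ | ⟨f, g, rfl⟩
    · subst hs hm
      rw [pow_zero, one_mul]
      exact simplex_small (by omega) p hp c x hT
    · exact body_small hm1 hm4 f g c x hT
  have hb0 : 0 ≤ (4 * (m : ℝ) * Real.log m + 2 * m + 4) / 3 := by
    have : 0 ≤ Real.log (m : ℝ) := Real.log_natCast_nonneg m
    positivity
  refine ⟨?_, h2, ?_⟩
  · have h3 : (N : ℝ) ≤ 2 ^ s * (⌊(4 * (m : ℝ) * Real.log m + 2 * m + 4) / 3⌋₊ : ℝ) := by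
      exact_mod_cast h1
    exact h3.trans (mul_le_mul_of_nonneg_left (Nat.floor_le hb0) (by positivity))
  · intro e he hse hme
    rcases Nat.lt_or_ge m 5 with h5 | h5
    · rcases Nat.eq_zero_or_pos m with h0 | h0
      · subst h0
        refine h1.trans (small_le (Nat.floor_le_of_le ?_) hse)
        have := bound_le' (n := 0) he (by simp)
        exact_mod_cast this
      · refine (h2 h0 (by omega)).trans (small_le ?_ hse)
        calc 2 * m ≤ 2 ^ 3 := by omega
          _ ≤ 2 ^ e := Nat.pow_le_pow_right (by norm_num) he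
    · refine h1.trans (small_le (Nat.floor_le_of_le ?_) hse)
      rcases hme with hme | hme
      · refine (bound_le h5).trans ?_
        have h4 : (2 : ℝ) ^ (m - 1) ≤ 2 ^ e := pow_le_pow_right₀ (by norm_num) (by omega)
        exact_mod_cast h4
      · exact_mod_cast bound_le' he hme

end Pool.Agent.Results.MP_c1e66d_co.Simplices
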