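import Pool.Agent.Sgs.Prod2

/-!
# Random differences and systems with singular spectrum

Put each `n` in `S` independently with probability `p n`, where `n * p n` tends to infinity.  Almost surely, the
following holds for all systems of the class below at once, for all `r`, and for all measurable sets `A`: there are
arbitrarily large `d` in `S` with `μ (A ∩ T⁻ᵈ A ∩ ⋯ ∩ T⁻ʳᵈ A) > μ(A)^(r+1) - ε`.

The class: products `T = R × S` of a transformation `R` with discrete spectrum (possibly trivial, or not ergodic) and a
transformation `S` such that every bounded function of integral zero is a sum `g + h` of two bounded functions, the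
spectral measure of `g` being singular (with respect to Lebesgue measure on the circle) and without atoms, and `h` being
mixing of all orders.  So `S` may be any weakly mixing transformation with singular spectrum (the generic transformation
is of this kind), or any transformation that is mixing of all orders.

Idea: almost surely the weights `1_S(d) / (d p(d))` are close to `1/d` on every block `[2^j, 4^j]`, uniformly in all
frequencies.  For such weights one proves by induction on `r` (after B. Host's theorem on pairwise independent joinings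
of systems with singular spectrum) that the weighted averages of `∫ f_0 f_1∘S^d ⋯ f_r∘S^(rd)` tend to the product of
the integrals, also after multiplication by arbitrary further weights in `[0, 1]`.  The induction hypothesis gives the
`L²` norm of linear combinations of averages twisted in one slot; singularity of the spectral measure of that slot then
forces the averages to be small.  For sets in the product this shows that, on the average over `d` in `S` with any
further weights, `μ (A ∩ ⋯ ∩ T⁻ʳᵈ A)` is `∫ F F∘R^d ⋯ F∘R^(rd)`, where `F z` is the measure of the fibre of `A`; and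
`F∘R^d` is close to `F` for the `d` in a Bohr set.
-/

set_option autoImplicit false

open Filter MeasureTheory ProbabilityTheory
open scoped Topology

namespace Pool.Agent.Results.MP_24534d_co.SingularSpectrum

/-- `f` is measurable and bounded. -/
def Bdd {X : Type} [MeasurableSpace X] (f : X → ℂ) : Prop :=
  Measurable f ∧ ∃ C : ℝ, ∀ x, ‖f x‖ ≤ C

/-- `R` has discrete spectrum: every bounded measurable function is approximated, in mean square, by finite sums of
bounded eigenfunctions (the eigenvalues are the `fourier 1 κ = exp (2 π i κ)`, `κ` in the circle `ℝ / ℤ`). -/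
def DiscreteSpectrum {Z : Type} [MeasurableSpace Z] (ζ : Measure Z) (R : Z ≃ᵐ Z) : Prop :=
  ∀ F : Z → ℂ, Bdd F → ∀ ε : ℝ, 0 < ε →
    ∃ (s : Finset (AddCircle (1 : ℝ))) (v : AddCircle (1 : ℝ) → Z → ℂ), (∀ κ, Bdd (v κ)) ∧
      (∀ κ, ∀ᵐ z ∂ζ, v κ (R z) = fourier 1 κ * v κ z) ∧ ∫ z, ‖F z - ∑ κ ∈ s, v κ z‖ ^ 2 ∂ζ ≤ ε

/-- `σ` is the spectral measure of `g`: the finite measure on the circle `ℝ / ℤ` whose Fourier coefficients are the
correlations `∫ g(S^n y) conj(g y) dν`. -/
def Spectral {Y : Type} [MeasurableSpace Y] (ν : Measure Y) (S : Y ≃ᵐ Y) (g : Y → ℂ)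
    (σ : Measure (AddCircle (1 : ℝ))) : Prop :=
  IsFiniteMeasure σ ∧
    ∀ n : ℕ, ∫ y, g (S^[n] y) * (starRingEnd ℂ) (g y) ∂ν = ∫ t, fourier (n : ℤ) t ∂σ

/-- `h` is mixing of all orders, along multiples: `∫ h(S^(m d) y) ∏ F_i(S^(i d) y) dν → 0` as `d → ∞`, if `m` is different
from all the `i` and the `F_i` are bounded. -/
def AllMixing {Y : Type} [MeasurableSpace Y] (ν : Measure Y) (S : Y ≃ᵐ Y) (h : Y → ℂ) : Prop :=
  ∀ (I : Finset ℕ) (m : ℕ), m ∉ I → ∀ F : ℕ → Y → ℂ, (∀ i, Bdd (F i)) →
    Tendsto (fun d : ℕ => ∫ y, h (S^[m * d] y) * ∏ i ∈ I, F i (S^[i * d] y) ∂ν) atTop (𝓝 0)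

/-- Every bounded measurable `f` of integral zero is almost everywhere equal to a sum `g + h` of bounded measurable
functions, the spectral measure of `g` being singular and without atoms, and `h` being mixing of all orders. -/
def Decomposable {Y : Type} [MeasurableSpace Y] (ν : Measure Y) (S : Y ≃ᵐ Y) : Prop :=
  ∀ f : Y → ℂ, Bdd f → ∫ y, f y ∂ν = 0 →
    ∃ (g h : Y → ℂ) (σ : Measure (AddCircle (1 : ℝ))), Bdd g ∧ Bdd h ∧ (∀ᵐ y ∂ν, f y = g y + h y) ∧
      Spectral ν S g σ ∧ σ ⟂ₘ (volume : Measure (AddCircle (1 : ℝ))) ∧ (∀ t, σ {t} = 0) ∧ AllMixing ν S h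

/-- Put each `n` in the random set independently with probability `p n`, where `n * p n → ∞`.  Then almost surely, for
every measure preserving `R` with discrete spectrum, every measure preserving `S` in the class `Decomposable`, every
`r`, every measurable `A ⊆ Z × Y` and every `ε > 0` there are arbitrarily large `d` in the random set such that the measure
of `{x | x ∈ A, T^d x ∈ A, .., T^(rd) x ∈ A}`, `T = R × S`, is greater than `μ(A)^(r+1) - ε`, `μ` the product measure. -/
theorem result :
    ∀ (Ω : Type) [MeasurableSpace Ω] (P : Measure Ω) [IsProbabilityMeasure P]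
      (p : ℕ → ℝ) (E : ℕ → Set Ω),
      (∀ n, 0 ≤ p n ∧ p n ≤ 1) →
      Tendsto (fun n : ℕ => (n : ℝ) * p n) atTop atTop →
      (∀ n, MeasurableSet (E n)) →
      iIndepSet E P →
      (∀ n, P (E n) = ENNReal.ofReal (p n)) →
      ∀ᵐ ω ∂P, ∀ (Z Y : Type) [MeasurableSpace Z] [MeasurableSpace Y]
        (ζ : Measure Z) [IsProbabilityMeasure ζ] (ν : Measure Y) [IsProbabilityMeasure ν] (R : Z ≃ᵐ Z) (S : Y ≃ᵐ Y),
        MeasurePreserving R ζ ζ → MeasurePreserving S ν ν → DiscreteSpectrum ζ R → Decomposable ν S →
        ∀ (r : ℕ) (A : Set (Z × Y)), MeasurableSet A → ∀ ε : ℝ, 0 < ε → ∀ m : ℕ,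
          ∃ d : ℕ, m < d ∧ ω ∈ E d ∧
            (ζ.prod ν).real A ^ (r + 1) - ε
              < (ζ.prod ν).real {x | ∀ i : ℕ, i ≤ r → (R^[i * d] x.1, S^[i * d] x.2) ∈ A} := by
  intro Ω _ P _ p E hp hpt hE hi hμ
  filter_upwards [Pool.Agent.Sgs.finAp Ω P p E hp hpt hE hi hμ] with ω hω Z Y _ _ ζ _ ν _ R S hR hS hd hc
  refine hω Z Y ζ ν R S hR hS hd fun f hf h0 => ?_
  obtain ⟨g, h, σ, hg, hh, hfg, ⟨hfin, hsp⟩, hs, ha, hm⟩ := hc f hf h0
  exact ⟨g, h, σ, hg, hh, hfg, hfin, hs, ha, hsp, hm⟩

end Pool.Agent.Results.MP_24534d_co.SingularSpectrum
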