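import Mathlib
import Pool.Agent.TwinForm99.SieveFamily

/-!
# Twin prime form problem: size and residue class of all representations

For every `e` there are `δ > 0` and `R` with infinitely many `n` that have at most `R` representations
`n = 6xy ± x ± y`, all of them with `3^e ∣ x`, `3^e ∣ y`, `x > n^δ`, `y > n^δ`.
-/

set_option autoImplicit false

namespace Pool.Agent.Variants.SizeAndClass

open Function Pool.Agent.TwinForm99

theorem phi_iter_le_pow (t : ℤ) (ht : 3 ≤ t) (e : ℕ) :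
    t ≤ phi^[e] t ∧ phi^[e] t ≤ t ^ 3 ^ e := by
  induction e with
  | zero => simp
  | succ e ih =>
    rw [Function.iterate_succ_apply']
    have h1 : (3 : ℤ) ≤ phi^[e] t := ht.trans ih.1
    refine ⟨ih.1.trans (phi_ge _ (by linarith)), ?_⟩
    have h2 : phi (phi^[e] t) ≤ (phi^[e] t) ^ 3 := by
      generalize phi^[e] t = u at h1 ⊢
      unfold phi
      linarith
    refine h2.trans ?_
    rw [pow_succ 3 e, pow_mul]
    exact pow_le_pow_left₀ (by linarith) ih.2 3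

/-- the set of representations -/
def Rep (n : ℤ) (x y : ℤ) : Prop :=
  n = 6 * x * y + x + y ∨ n = 6 * x * y + x - y ∨ n = 6 * x * y - x + y ∨ n = 6 * x * y - x - y

theorem rep_dvd (n x y : ℤ) (h : Rep n x y) :
    ∃ τ τ' σ : ℤ, (τ = 1 ∨ τ = -1) ∧ (τ' = 1 ∨ τ' = -1) ∧ (σ = 1 ∨ σ = -1) ∧
      6 * n + σ = (6 * x + τ) * (6 * y + τ') := by
  rcases h with h | h | h | h
  · exact ⟨1, 1, 1, Or.inl rfl, Or.inl rfl, Or.inl rfl, by rw [h]; ring⟩
  · exact ⟨-1, 1, -1, Or.inr rfl, Or.inl rfl, Or.inr rfl, by rw [h]; ring⟩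
  · exact ⟨1, -1, -1, Or.inl rfl, Or.inr rfl, Or.inr rfl, by rw [h]; ring⟩
  · exact ⟨-1, -1, 1, Or.inr rfl, Or.inr rfl, Or.inl rfl, by rw [h]; ring⟩

theorem rep_finite_card (n : ℕ) (hn : 0 < n) (B : ℕ)
    (h1 : (6 * n + 1).divisors.card ≤ B) (h2 : (6 * n - 1).divisors.card ≤ B) :
    {q : ℤ × ℤ | 1 ≤ q.1 ∧ 1 ≤ q.2 ∧ Rep n q.1 q.2}.Finite ∧
    {q : ℤ × ℤ | 1 ≤ q.1 ∧ 1 ≤ q.2 ∧ Rep n q.1 q.2}.ncard ≤ 2 * B := by
  classical
  set f : ℕ → ℕ → ℤ × ℤ := fun N d => (((d : ℤ) + 1) / 6, (((N / d : ℕ) : ℤ) + 1) / 6) with hf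
  set U : Finset (ℤ × ℤ) := (6 * n + 1).divisors.image (f (6 * n + 1)) ∪
    (6 * n - 1).divisors.image (f (6 * n - 1)) with hU
  have hUc : U.card ≤ 2 * B := by
    calc U.card ≤ ((6 * n + 1).divisors.image (f (6 * n + 1))).card +
          ((6 * n - 1).divisors.image (f (6 * n - 1))).card := Finset.card_union_le _ _
      _ ≤ (6 * n + 1).divisors.card + (6 * n - 1).divisors.card :=
          Nat.add_le_add Finset.card_image_le Finset.card_image_le
      _ ≤ B + B := Nat.add_le_add h1 h2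
      _ = 2 * B := by ring
  have hsub : {q : ℤ × ℤ | 1 ≤ q.1 ∧ 1 ≤ q.2 ∧ Rep n q.1 q.2} ⊆ (U : Set (ℤ × ℤ)) := by
    rintro ⟨x, y⟩ ⟨hx, hy, hrep⟩
    simp only at hx hy hrep
    obtain ⟨τ, τ', σ, hτ, hτ', hσ, heq⟩ := rep_dvd n x y hrep
    have hd0 : 0 < 6 * x + τ := by rcases hτ with rfl | rfl <;> linarith
    have hc0 : 0 < 6 * y + τ' := by rcases hτ' with rfl | rfl <;> linarith
    obtain ⟨d, hd⟩ := Int.eq_ofNat_of_zero_le hd0.le
    obtain ⟨c, hc⟩ := Int.eq_ofNat_of_zero_le hc0.le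
    have hdpos : 0 < d := by
      have : (0 : ℤ) < d := by rw [← hd]; exact hd0
      exact_mod_cast this
    have hxd : ((d : ℤ) + 1) / 6 = x := by
      rw [← hd]
      rcases hτ with rfl | rfl <;> omega
    have hyc : ((c : ℤ) + 1) / 6 = y := by
      rw [← hc]
      rcases hτ' with rfl | rfl <;> omega
    have hprod : 6 * (n : ℤ) + σ = (d : ℤ) * c := by rw [heq, hd, hc]
    rw [hU, Finset.coe_union, Finset.coe_image, Finset.coe_image]
    rcases hσ with rfl | rfl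
    · left
      have hN : 6 * n + 1 = d * c := by exact_mod_cast hprod
      refine ⟨d, ?_, ?_⟩
      · rw [Finset.mem_coe, Nat.mem_divisors]
        exact ⟨⟨c, hN⟩, by omega⟩
      · simp only [hf]
        rw [hN, Nat.mul_div_cancel_left c hdpos, hxd, hyc]
    · right
      have hN : 6 * n - 1 = d * c := by
        have h3 : ((6 * n - 1 : ℕ) : ℤ) = (d * c : ℕ) := by
          rw [Nat.cast_sub (by omega)]
          push_cast
          linarith
        exact_mod_cast h3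
      refine ⟨d, ?_, ?_⟩
      · rw [Finset.mem_coe, Nat.mem_divisors]
        exact ⟨⟨c, hN⟩, by omega⟩
      · simp only [hf]
        rw [hN, Nat.mul_div_cancel_left c hdpos, hxd, hyc]
  refine ⟨U.finite_toSet.subset hsub, ?_⟩
  calc _ ≤ (U : Set (ℤ × ℤ)).ncard := Set.ncard_le_ncard hsub U.finite_toSet
    _ = U.card := Set.ncard_coe_finset U
    _ ≤ 2 * B := hUc

theorem result (e : ℕ) : ∃ (δ : ℝ) (R : ℕ), 0 < δ ∧
    Set.Infinite {n : ℕ | 0 < n ∧
      {q : ℤ × ℤ | 1 ≤ q.1 ∧ 1 ≤ q.2 ∧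
        ((n : ℤ) = 6 * q.1 * q.2 + q.1 + q.2 ∨ (n : ℤ) = 6 * q.1 * q.2 + q.1 - q.2 ∨
         (n : ℤ) = 6 * q.1 * q.2 - q.1 + q.2 ∨ (n : ℤ) = 6 * q.1 * q.2 - q.1 - q.2)}.Finite ∧
      {q : ℤ × ℤ | 1 ≤ q.1 ∧ 1 ≤ q.2 ∧
        ((n : ℤ) = 6 * q.1 * q.2 + q.1 + q.2 ∨ (n : ℤ) = 6 * q.1 * q.2 + q.1 - q.2 ∨
         (n : ℤ) = 6 * q.1 * q.2 - q.1 + q.2 ∨ (n : ℤ) = 6 * q.1 * q.2 - q.1 - q.2)}.ncard ≤ R ∧
      ∀ x y : ℤ, 1 ≤ x → 1 ≤ y →
        ((n : ℤ) = 6 * x * y + x + y ∨ (n : ℤ) = 6 * x * y + x - y ∨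
         (n : ℤ) = 6 * x * y - x + y ∨ (n : ℤ) = 6 * x * y - x - y) →
        ((3 : ℤ) ^ e ∣ x ∧ (3 : ℤ) ^ e ∣ y ∧ (n : ℝ) ^ δ < x ∧ (n : ℝ) ^ δ < y)} := by
  classical
  obtain ⟨u, r0, hsieve⟩ := BrunHooley.sift_pos (2 * 3 ^ e)
  set k : ℕ := 3 ^ e * (u + 4) with hk
  have hk0 : 0 < k := by rw [hk]; positivity
  refine ⟨1 / (2 * k), 2 * 2 ^ k, by positivity, ?_⟩
  rw [Set.infinite_iff_exists_gt]
  intro a
  set r : ℕ := max r0 (a + 4) with hr
  have hrr0 : r0 ≤ r := le_max_left _ _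
  have hra : a + 4 ≤ r := le_max_right _ _
  set z : ℕ := 2 ^ 2 ^ r with hz
  have hz1 : 2 ^ 2 ^ 4 ≤ z := by
    apply Nat.pow_le_pow_right (by norm_num)
    exact Nat.pow_le_pow_right (by norm_num) (by omega)
  have hz2 : 65536 ≤ z := by
    refine le_trans ?_ hz1
    norm_num
  have hza : 6 * a + 6 < z := by
    have h1 : r < 2 ^ r := Nat.lt_two_pow_self
    have h2 : 2 ^ r < 2 ^ 2 ^ r := Nat.lt_two_pow_self
    have h3 : 6 * (r + 1) ≤ 2 ^ 2 ^ r := by
      have h4 : ∀ s : ℕ, 4 ≤ s → 6 * (s + 1) ≤ 2 ^ 2 ^ s := by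
        intro s hs
        have h5 : 2 ^ (s + 3) ≤ 2 ^ 2 ^ s := by
          apply Nat.pow_le_pow_right (by norm_num)
          have h6 : ∀ s : ℕ, 4 ≤ s → s + 3 ≤ 2 ^ s := by
            intro s hs
            induction s, hs using Nat.le_induction with
            | base => norm_num
            | succ s hs ih => rw [pow_succ]; omega
          exact h6 s hs
        have h7 : s + 1 ≤ 2 ^ s := Nat.lt_two_pow_self
        have h8 : 2 ^ (s + 3) = 8 * 2 ^ s := by ring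
        omega
      exact h4 r (by omega)
    omega
  -- the sieve
  have hpos := hsieve r hrr0 (Aphi e) (Aphi_per e)
    (fun p hp => by
      have hpp : p.Prime := by
        simp only [BrunHooley.Pz, Finset.mem_filter] at hp
        exact hp.2
      exact ⟨Aphi_rho_le e p hpp, Aphi_rho_lt e p hpp⟩)
    (2 ^ (2 ^ r * u)) le_rfl
  unfold BrunHooley.sift at hpos
  rw [Finset.card_pos] at hpos
  obtain ⟨m, hm⟩ := hpos
  rw [Finset.mem_filter, Finset.mem_range] at hm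
  obtain ⟨hmM, hm2⟩ := hm
  -- the number n
  set t : ℤ := 6 * ((m : ℤ) + 1) with ht
  have ht6 : 6 ≤ t := by rw [ht]; linarith [Int.natCast_nonneg m]
  obtain ⟨N, hN⟩ : (6 : ℤ) ∣ phi^[e] t := phi_dvd 6 t ⟨(m : ℤ) + 1, rfl⟩ e
  obtain ⟨hge, hle⟩ := phi_iter_le_pow t (by linarith) e
  have hN1 : 1 ≤ N := by
    rw [hN] at hge
    linarith
  obtain ⟨n, rfl⟩ := Int.eq_ofNat_of_zero_le (by linarith : (0 : ℤ) ≤ N)
  have hn0 : 0 < n := by
    have : (0 : ℤ) < n := by linarith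
    exact_mod_cast this
  -- all prime factors are at least z
  have hprime : ∀ p : ℕ, p.Prime → ∀ σ : ℤ, (σ = 1 ∨ σ = -1) → (p : ℤ) ∣ 6 * (n : ℤ) + σ →
      z ≤ p := by
    intro p hp σ hσ hdiv
    by_contra hcon
    push Not at hcon
    have hpz : p ∈ BrunHooley.Pz r := by
      simp only [BrunHooley.Pz, Finset.mem_filter, Finset.mem_range]
      exact ⟨hcon, hp⟩
    apply hm2 p hpz
    unfold Aphi
    rw [← ht, hN]
    rcases hσ with rfl | rfl
    · exact hdiv.mul_right _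
    · exact Dvd.dvd.mul_left hdiv _
  -- size of n
  have hnle : 6 * n ≤ z ^ (3 ^ e * (u + 3)) := by
    have h1 : (6 : ℤ) * n ≤ t ^ 3 ^ e := by rw [← hN]; exact hle
    have h2 : t ≤ ((z ^ (u + 3) : ℕ) : ℤ) := by
      have h3 : m + 1 ≤ 2 ^ (2 ^ r * u) := hmM
      have h4 : 2 ^ (2 ^ r * u) = z ^ u := by rw [hz, ← pow_mul]
      have h5 : 6 * (m + 1) ≤ z ^ (u + 3) := by
        calc 6 * (m + 1) ≤ 6 * z ^ u := by rw [← h4]; omega
          _ ≤ z ^ 3 * z ^ u := by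
              apply Nat.mul_le_mul_right
              calc 6 ≤ z := by omega
                _ ≤ z ^ 3 := Nat.le_self_pow (by norm_num) z
          _ = z ^ (u + 3) := by rw [← pow_add]; congr 1; ring
      rw [ht]
      exact_mod_cast h5
    have h3 : t ^ 3 ^ e ≤ ((z ^ (u + 3) : ℕ) : ℤ) ^ 3 ^ e :=
      pow_le_pow_left₀ (by linarith) h2 _
    have h4 : ((z ^ (u + 3) : ℕ) : ℤ) ^ 3 ^ e = ((z ^ (3 ^ e * (u + 3)) : ℕ) : ℤ) := by
      push_cast
      rw [← pow_mul]; congr 1; ring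
    rw [h4] at h3
    exact_mod_cast h1.trans h3
  have hk' : 3 ^ e * (u + 3) + 1 ≤ k := by
    rw [hk]
    have : 1 ≤ 3 ^ e := Nat.one_le_pow _ _ (by norm_num)
    nlinarith
  have hlt : 6 * n + 1 < z ^ (k + 1) := by
    have h1 : z ^ (3 ^ e * (u + 3)) * z ≤ z ^ k := by
      rw [← pow_succ]
      exact Nat.pow_le_pow_right (by omega) hk'
    have h2 : 1 ≤ z ^ (3 ^ e * (u + 3)) := Nat.one_le_pow _ _ (by omega)
    have h3 : z ^ k < z ^ (k + 1) := Nat.pow_lt_pow_right (by omega) (by omega)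
    nlinarith
  have hc1 : (6 * n + 1).divisors.card ≤ 2 ^ k := by
    apply card_divisors_le z k _ (by omega) _ hlt
    intro p hp hd
    exact hprime p hp 1 (Or.inl rfl) (by exact_mod_cast hd)
  have hc2 : (6 * n - 1).divisors.card ≤ 2 ^ k := by
    apply card_divisors_le z k _ (by omega) _ (by omega)
    intro p hp hd
    apply hprime p hp (-1) (Or.inr rfl)
    have h1 : ((6 * n - 1 : ℕ) : ℤ) = 6 * (n : ℤ) + -1 := by
      rw [Nat.cast_sub (by omega)]; push_cast; ring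
    rw [← h1]
    exact_mod_cast hd
  have hrepc := rep_finite_card n hn0 (2 ^ k) hc1 hc2
  refine ⟨n, ⟨hn0, hrepc.1, hrepc.2, ?_⟩, ?_⟩
  · have main : ∀ (y τ c σ : ℤ), 1 ≤ y → (τ = 1 ∨ τ = -1) → (σ = 1 ∨ σ = -1) →
        6 * (n : ℤ) + σ = (6 * y + τ) * c → (3 : ℤ) ^ e ∣ y ∧ (n : ℝ) ^ (1 / (2 * k) : ℝ) < y := by
      intro y τ c σ hy hτ hσ heq
      have hdpos : 0 < 6 * y + τ := by rcases hτ with rfl | rfl <;> linarith
      have hdvd : (6 * y + τ) ∣ phi^[e] t + σ := by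
        rw [hN]; exact ⟨c, heq⟩
      constructor
      · exact three_pow_dvd_of e y τ hτ
          (dvd_key e t ⟨2 * ((m : ℤ) + 1), by rw [ht]; ring⟩ σ hσ _ hdpos hdvd)
      · -- 6y+τ ≥ z
        obtain ⟨D, hD⟩ := Int.eq_ofNat_of_zero_le hdpos.le
        have hD1 : D ≠ 1 := by
          rintro rfl
          rcases hτ with rfl | rfl
          · push_cast at hD; linarith
          · push_cast at hD; omega
        have hmf := Nat.minFac_prime hD1
        have hzD : z ≤ D := by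
          have hD0 : 0 < D := by
            have : (0 : ℤ) < D := by rw [← hD]; exact hdpos
            exact_mod_cast this
          refine le_trans (hprime D.minFac hmf σ hσ ?_) (Nat.minFac_le hD0)
          have h1 : (D.minFac : ℤ) ∣ (D : ℤ) := by exact_mod_cast Nat.minFac_dvd D
          have h2 : (D : ℤ) ∣ 6 * (n : ℤ) + σ := by rw [heq, ← hD]; exact Dvd.intro _ rfl
          exact h1.trans h2
        have hy1 : (z : ℤ) ≤ 6 * y + 1 := by
          have h1 : (z : ℤ) ≤ D := by exact_mod_cast hzD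
          rw [← hD] at h1
          rcases hτ with rfl | rfl <;> linarith
        have hy2 : (z : ℝ) ≤ 6 * y + 1 := by exact_mod_cast hy1
        have hz3 : (65536 : ℝ) ≤ z := by exact_mod_cast hz2
        -- n^δ ≤ √z
        have hn1 : (n : ℝ) ≤ (z : ℝ) ^ k := by
          have h1 : n ≤ z ^ k := by
            have h2 : z ^ (3 ^ e * (u + 3)) ≤ z ^ k := Nat.pow_le_pow_right (by omega) (by omega)
            omega
          exact_mod_cast h1
        have hz0 : (0 : ℝ) < z := by linarith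
        have hkR : (0 : ℝ) < k := by exact_mod_cast hk0
        have h1 : (n : ℝ) ^ (1 / (2 * k) : ℝ) ≤ Real.sqrt z := by
          calc (n : ℝ) ^ (1 / (2 * k) : ℝ) ≤ ((z : ℝ) ^ k) ^ (1 / (2 * k) : ℝ) :=
                Real.rpow_le_rpow (by positivity) hn1 (by positivity)
            _ = Real.sqrt z := by
                rw [← Real.rpow_natCast, ← Real.rpow_mul hz0.le, Real.sqrt_eq_rpow]
                congr 1
                field_simp
        have h2 : Real.sqrt z < y := by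
          have h3 : 256 ≤ Real.sqrt z := by
            rw [show (256 : ℝ) = Real.sqrt 65536 by
              rw [show (65536 : ℝ) = 256 ^ 2 by norm_num, Real.sqrt_sq (by norm_num)]]
            exact Real.sqrt_le_sqrt hz3
          have h4 : Real.sqrt z * Real.sqrt z = z := Real.mul_self_sqrt hz0.le
          nlinarith
        exact lt_of_le_of_lt h1 h2
    intro x y hx hy hrep
    obtain ⟨τ, τ', σ, hτ, hτ', hσ, heq⟩ := rep_dvd n x y hrep
    have e1 := main x τ (6 * y + τ') σ hx hτ hσ heq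
    have e2 := main y τ' (6 * x + τ) σ hy hτ' hσ (by rw [heq]; ring)
    exact ⟨e1.1, e2.1, e1.2, e2.2⟩
  · -- n > a
    have h1 : 6 * n + 1 ≠ 1 := by omega
    have h2 := hprime (6 * n + 1).minFac (Nat.minFac_prime h1) 1 (Or.inl rfl)
      (by exact_mod_cast Nat.minFac_dvd (6 * n + 1))
    have h3 := Nat.minFac_le (by omega : 0 < 6 * n + 1)
    omega

end Pool.Agent.Variants.SizeAndClass
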