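import Pool.Agent.SlowV.Four
import Pool.Agent.SubT.Dim2

/-!
# Uniform slow variation of `×2`, `×3`-invariant measures at the rational points

For every `δ > 0` there is `s₀` such that `ν {‖q x‖ ≥ e ^ (-t)} ≤ (t / s) ^ δ ν {‖q x‖ ≥ e ^ (-s)}` for all Borel measures `ν`
which are invariant under `×2` and `×3`, all integers `q` and all reals `s ≥ s₀`, `t ≥ s + 1`. Consequences for the Fourier
coefficients of the atomless invariant probability measures, and no Hölder coding of a rotation of a torus.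
-/

open MeasureTheory

open scoped ENNReal

namespace Pool.Agent.Results.MP_e27144_an.SlowVariation

/-- **Main theorem.** -/
theorem result :
    (∀ δ : ℝ, 0 < δ → ∃ s₀ : ℝ, 1 ≤ s₀ ∧ ∀ ν : Measure (AddCircle (1 : ℝ)),
        MeasurePreserving (fun x => (2 : ℕ) • x) ν ν →
        MeasurePreserving (fun x => (3 : ℕ) • x) ν ν →
        ∀ (q : ℤ) (s t : ℝ), s₀ ≤ s → s + 1 ≤ t →
          ν {x | Real.exp (-t) ≤ ‖q • x‖} ≤
            ENNReal.ofReal ((t / s) ^ δ) * ν {x | Real.exp (-s) ≤ ‖q • x‖}) ∧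
    (∀ μ : Measure (AddCircle (1 : ℝ)), IsProbabilityMeasure μ →
        MeasurePreserving (fun x => (2 : ℕ) • x) μ μ →
        MeasurePreserving (fun x => (3 : ℕ) • x) μ μ → (∀ x, μ {x} = 0) →
        (∀ (c : ℝ) (k : ℕ → ℕ), 0 < c → StrictMono k → 1 ≤ k 0 →
          ¬ Summable (fun j : ℕ => (Real.log (k (j + 1))) ^ c *
            (1 - ‖∫ x, (fourier (k j : ℤ) x : ℂ) ∂μ‖))) ∧
        (∀ c M₀ : ℝ, 0 < c → ∃ M : ℝ, M₀ ≤ M ∧ 1 ≤ M ∧
          ∀ n : ℤ, n ≠ 0 → |(n : ℝ)| ≤ Real.exp M →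
            ‖∫ x, (fourier n x : ℂ) ∂μ‖ ≤ 1 - M ^ (-c)) ∧
        (∀ (d : ℕ) (α β : Fin d → AddCircle (1 : ℝ))
          (φ : (Fin d → AddCircle (1 : ℝ)) → AddCircle (1 : ℝ)), Measurable φ →
          (∀ᵐ θ, φ (θ + α) = (2 : ℕ) • φ θ) → (∀ᵐ θ, φ (θ + β) = (3 : ℕ) • φ θ) →
          ∀ C s : ℝ, 0 < s →
          (∀ t : Fin d → AddCircle (1 : ℝ), ∫ θ, ‖φ (θ + t) - φ θ‖ ≤ C * ‖t‖ ^ s) →
          Measure.map φ volume ≠ μ)) := by
  refine ⟨fun δ hδ => Pool.Agent.SlowV.potter δ hδ, fun μ hμ h2 h3 hat => ⟨?_, ?_, ?_⟩⟩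
  · intro c k hc hk hk0
    exact Pool.Agent.SlowV.div_four μ h2 h3 hat c hc k hk hk0
  · intro c M₀ hc
    exact Pool.Agent.SlowV.low_four μ h2 h3 hat c M₀ hc
  · intro d α β φ hφ h2' h3' C s hs hreg he
    obtain ⟨x, hx⟩ := Pool.Agent.SubT.no_coding α β φ hφ h2' h3' C s hs hreg
    rw [he] at hx
    exact hx (hat x)

end Pool.Agent.Results.MP_e27144_an.SlowVariation
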