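import Pool.Agent.N8S.Main
import Pool.Agent.ES9.Seven

set_option autoImplicit false

namespace Pool.Agent.Results.MP_c1e66d_co.StrictlyConvexThree

/-- The homothet `x + c K` of `K`. -/
def homothet {V : Type} [NormedAddCommGroup V] [NormedSpace ℝ V] (K : Set V) (c : ℝ) (x : V) :
    Set V := (fun y => x + c • y) '' K

/-- The sets `x i + c i K` (`i < n`) are positive homothets of `K`, and any two different ones of
them are tangent: they meet, and their interiors are disjoint. -/
def Tangent {V : Type} [NormedAddCommGroup V] [NormedSpace ℝ V] (K : Set V) {n : ℕ}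
    (c : Fin n → ℝ) (x : Fin n → V) : Prop :=
  (∀ i, 0 < c i) ∧ ∀ i j, i ≠ j → (homothet K (c i) (x i) ∩ homothet K (c j) (x j)).Nonempty ∧
    interior (homothet K (c i) (x i)) ∩ interior (homothet K (c j) (x j)) = ∅

/-- For every two members `i`, `j` there is a plane `{y : ⟨u, y⟩ = r}` (`u ≠ 0`) which separates them
and meets the interior of every other member. -/
def CutByPlanes (K : Set (EuclideanSpace ℝ (Fin 3))) {n : ℕ}
    (c : Fin n → ℝ) (x : Fin n → EuclideanSpace ℝ (Fin 3)) : Prop :=
  ∀ i j, i ≠ j → ∃ (u : EuclideanSpace ℝ (Fin 3)) (r : ℝ), u ≠ 0 ∧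
    (∀ y ∈ homothet K (c i) (x i), r ≤ inner ℝ u y) ∧
    (∀ y ∈ homothet K (c j) (x j), inner ℝ u y ≤ r) ∧
    ∀ k, k ≠ i → k ≠ j → ∃ y ∈ interior (homothet K (c k) (x k)), inner ℝ u y = r

/-- **Main theorem.**  The largest number of pairwise tangent positive homothets of a strictly convex
centrally symmetric body of `ℝ³` is seven.

Let `K ⊆ ℝ³` be a convex body which is centrally symmetric about `z`, and let `x i + c i K`
(`i < n`) be pairwise tangent positive homothets of `K`.
1. If every two of them are separated by a plane which meets the interior of every other one, then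
`n ≤ 7`.
2. If `K` is strictly convex, then `n ≤ 7`.
3. Some strictly convex body `K ⊆ ℝ³` with `K = -K` has seven pairwise tangent positive
homothets. -/
theorem result :
    (∀ (K : Set (EuclideanSpace ℝ (Fin 3))) (z : EuclideanSpace ℝ (Fin 3)), Convex ℝ K →
      IsCompact K → (interior K).Nonempty → (∀ y ∈ K, z + z - y ∈ K) →
      ∀ (n : ℕ) (c : Fin n → ℝ) (x : Fin n → EuclideanSpace ℝ (Fin 3)), Tangent K c x →
        (CutByPlanes K c x → n ≤ 7) ∧ (StrictConvex ℝ K → n ≤ 7)) ∧
    ∃ (K : Set (EuclideanSpace ℝ (Fin 3))) (c : Fin 7 → ℝ) (x : Fin 7 → EuclideanSpace ℝ (Fin 3)),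
      StrictConvex ℝ K ∧ IsCompact K ∧ (interior K).Nonempty ∧ (∀ y ∈ K, -y ∈ K) ∧
        Tangent K c x := by
  refine ⟨fun K z hK hKc hKi hz n c x hx => ⟨fun h => ?_, fun h => ?_⟩, ?_⟩
  · exact N8S.strict_le_seven _
      (C1S.strict_of_sep hKc hKi hz hx.1 (fun i j hij => (hx.2 i j hij).1) h)
  · exact N8S.strict_le_seven _ ((C1S.exists_clique hK hKc hKi hz hx.1 hx.2).2 h)
  · exact ES9.seven_example

end Pool.Agent.Results.MP_c1e66d_co.StrictlyConvexThree
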