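import Pool.Agent.StB.FarP
import Pool.Agent.StB.P34c
import Pool.Agent.StB.Zp6

set_option autoImplicit false

open Pool.Agent.StB
open MeasureTheory

namespace Pool.Agent.Results.MP_c1e66d_co.SubspacesOfLp

/-- Numerical fact behind the range `3 ≤ p ≤ 4`. -/
theorem pow_le {p : ℝ} (h3 : 3 ≤ p) (h4 : p ≤ 4) : 5 * (2 : ℝ) ^ (p - 1) ≤ 8 * (p + 1) := by
  have h1 : (2 : ℝ) ^ (p - 1) = 4 * (1 + 1) ^ (p - 3) := by
    have : (4 : ℝ) = 2 ^ (2 : ℝ) := by norm_num
    rw [this, show ((1 : ℝ) + 1) = 2 by norm_num, ← Real.rpow_add (by norm_num : (0 : ℝ) < 2)]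
    congr 1
    ring
  have h2 := rpow_one_add_le_one_add_mul_self (by norm_num : (-1 : ℝ) ≤ 1)
    (by linarith : 0 ≤ p - 3) (by linarith : p - 3 ≤ 1)
  rw [h1]
  linarith

/-- Numerical fact behind the bound `2 ^ d`. -/
theorem two_pow {e : ℕ} (he : 3 ≤ e) : 8 * (e + 2) ≤ 5 * 2 ^ e := by
  induction e, he using Nat.le_induction with
  | base => norm_num
  | succ e _ ih => rw [pow_succ]; omega

/-- The bound for `p > 4` in the form of a power. -/
theorem sub_pow {e k K : ℕ} (he : 1 ≤ e) (hK : 1 ≤ K)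
    (hk : k + 1 = 2 * (K * (Nat.sqrt e + 1))) :
    2 * (Nat.choose (e + k) k + 2 * K) + 2 ≤ (e + 1) ^ ((4 * K + 1) * (Nat.sqrt e + 1)) := by
  have h1 := choose_le_succ_pow e k
  have h2 : 4 * K + 4 ≤ 2 ^ (2 * K + 2) := by
    have h3 : ∀ m : ℕ, 2 ≤ m → 2 * m ≤ 2 ^ m := by
      intro m hm
      induction m, hm using Nat.le_induction with
      | base => norm_num
      | succ m hm ih => rw [pow_succ]; omega
    have := h3 (2 * K + 2) (by omega)
    omega
  have h3 : (2 : ℕ) ^ (2 * K + 2) ≤ (e + 1) ^ (2 * K + 2) := Nat.pow_le_pow_left (by omega) _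
  have h4 : 1 ≤ (e + 1) ^ k := Nat.one_le_pow _ _ (by omega)
  calc 2 * (Nat.choose (e + k) k + 2 * K) + 2 ≤ (4 * K + 4) * (e + 1) ^ k := by nlinarith
    _ ≤ (e + 1) ^ (2 * K + 2) * (e + 1) ^ k := Nat.mul_le_mul_right _ (h2.trans h3)
    _ = (e + 1) ^ (2 * K + 2 + k) := (pow_add _ _ _).symm
    _ ≤ _ := by
        refine Nat.pow_le_pow_right (by omega) ?_
        have h5 : (4 * K + 1) * (Nat.sqrt e + 1) = 2 * (2 * (K * (Nat.sqrt e + 1))) +
          (Nat.sqrt e + 1) := by ring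
        have h6 : K ≤ K * (Nat.sqrt e + 1) := Nat.le_mul_of_pos_right _ (Nat.succ_pos _)
        rw [h5]
        omega

/-- Pairwise tangent homothets of the unit balls of subspaces of `L_p`, cut by slabs:
`K = {x ∈ ℝ^d : |f l x| ≤ 1 (l < s), ∫ |⟨A x, u⟩|^p dμ(u) ≤ 1}`, for `1 ≤ p < ∞`. -/
theorem result (p : ℝ) (hp1 : 1 ≤ p) : ∃ K e0 : ℕ, (p < 2 → e0 = 14) ∧
    (2 ≤ p → p ≤ 4 → e0 = 3) ∧
    ∀ (d s e N M B : ℕ) (f : Fin s → E d →ₗ[ℝ] ℝ) (A : E d →ₗ[ℝ] E e)
      (μ : Measure (E e)) (c : Fin N → ℝ) (x : Fin N → E d), 1 ≤ e →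
      M = ⌊25 * (e : ℝ) ^ (1 / 2 + 1 / p)⌋₊ → B = Nat.clog 4 (8 * (M + 1)) →
      Integrable (fun u => ‖u‖ ^ p) μ →
      Tangent {y | (∀ l, |f l y| ≤ 1) ∧ ∫ u, |inner ℝ (A y) u| ^ p ∂μ ≤ 1} c x →
      (N : ℝ) ≤ 2 ^ s * (if p < 2 then ((B : ℝ) + 1) * M else if p ≤ 3 then (e : ℝ) + 2 else
        if p ≤ 4 then 2 ^ (p - 1) / (p + 1) * ((e : ℝ) + 2) else
          ((e : ℝ) + 1) ^ (K * (Nat.sqrt e + 1))) ∧
      (e0 ≤ e → s + e ≤ d → N ≤ 2 ^ d) := by
  have hd : ∀ {s e d : ℕ}, s + e ≤ d → 2 ^ s * 2 ^ e ≤ 2 ^ d := by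
    intro s e d hse
    rw [← pow_add]
    exact Nat.pow_le_pow_right (by norm_num) hse
  rcases lt_or_ge 4 p with hp4 | hp4
  · -- large `p`
    obtain ⟨K, hK, hmain⟩ := main_P (by linarith : 2 < p)
    obtain ⟨e0, he0⟩ := p_le K hK
    refine ⟨4 * K + 1, e0, fun h => by linarith, fun _ h => by linarith, ?_⟩
    intro d s e N M B f A μ c x he _ _ hμ hT
    have hk : (2 * (K * (Nat.sqrt e + 1)) - 1) + 1 = 2 * (K * (Nat.sqrt e + 1)) := by
      have : 0 < K * (Nat.sqrt e + 1) := Nat.mul_pos hK (Nat.succ_pos _)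
      omega
    have hN := hmain d s e N _ f A μ c x hμ hk hT
    refine ⟨?_, fun he' hse => ?_⟩
    · rw [if_neg (by linarith), if_neg (by linarith), if_neg (by linarith)]
      exact_mod_cast hN.trans (Nat.mul_le_mul_left _ (sub_pow he hK hk))
    · exact hN.trans ((Nat.mul_le_mul_left _ (he0 e _ he' hk)).trans (hd hse))
  · refine ⟨0, if p < 2 then 14 else 3, fun h => if_pos h, fun h _ => if_neg (by linarith), ?_⟩
    intro d s e N M B f A μ c x he hM hB hμ hT
    have hZp : p ≤ 2 → N ≤ 2 ^ s * ((B + 1) * M) := by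
      intro h2
      rw [hB]
      exact main_Zp he hp1 h2 hM f A μ hμ c x hT
    have h23 : 2 ≤ p → p ≤ 3 → N ≤ 2 ^ s * (e + 2) := by
      intro h1 h2
      have h3 := main_L odd_one (by push_cast; linarith) (by push_cast; linarith) f A μ hμ c x hT
      rwa [Nat.choose_one_right, show e + 1 + 1 = e + 2 by ring] at h3
    have heven : ∀ k : ℕ, Even k → 2 ≤ k → p = 2 * k →
        N ≤ 2 ^ s * ((e + (k - 1)).choose (k - 1) + k) := by
      intro k hk hk2 hp
      subst hp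
      exact main_Le hk hk2 f A μ hμ c x hT
    have h4 : p = 4 → N ≤ 2 ^ s * (e + 3) := by
      intro hp
      have h3 := heven 2 even_two le_rfl (by rw [hp]; norm_num)
      simpa using h3
    have h34 : 3 ≤ p → (N : ℝ) * (p + 1) ≤ 2 ^ s * (2 ^ (p - 1) * (e + 2)) := by
      intro h1
      rcases eq_or_lt_of_le h1 with h5 | h5
      · have h6 : (N : ℝ) ≤ 2 ^ s * (e + 2) := by exact_mod_cast h23 (by linarith) h5.ge
        rw [← h5, show (3 : ℝ) - 1 = (2 : ℕ) by norm_num, Real.rpow_natCast]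
        nlinarith
      · rcases eq_or_lt_of_le hp4 with h6 | h6
        · have h7 : (N : ℝ) ≤ 2 ^ s * (e + 3) := by exact_mod_cast h4 h6
          rw [h6, show (4 : ℝ) - 1 = (3 : ℕ) by norm_num, Real.rpow_natCast]
          have h8 : (0 : ℝ) < 2 ^ s := by positivity
          have h9 : (0 : ℝ) ≤ e := Nat.cast_nonneg e
          nlinarith [mul_nonneg h8.le h9]
        · exact main_34 h5 h6 f A μ hμ c x hT
    constructor
    · split_ifs with h1 h2
      · exact_mod_cast hZp h1.le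
      · exact_mod_cast h23 (by linarith) h2
      · have h6 := h34 (by linarith)
        have h11 : (0 : ℝ) < p + 1 := by linarith
        refine le_of_mul_le_mul_right (h6.trans_eq ?_) h11
        field_simp
    intro he0 hse
    rcases lt_or_ge p 2 with hp2 | hp2
    · rw [if_pos hp2] at he0
      refine (hZp hp2.le).trans ((Nat.mul_le_mul_left _ ?_).trans (hd hse))
      rw [hB]
      exact zp_le he0 hp1 hM
    rw [if_neg (by linarith)] at he0
    have h2e := two_pow he0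
    rcases le_total p 3 with h5 | h5
    · refine (h23 hp2 h5).trans (le_trans (Nat.mul_le_mul_left _ ?_) (hd hse))
      omega
    · have h6 := h34 h5
      have h7 := pow_le h5 hp4
      have h8 : (N : ℝ) ≤ 2 ^ s * 2 ^ e := by
        have h9 : (8 : ℝ) * (e + 2) ≤ 5 * 2 ^ e := by exact_mod_cast h2e
        have h10 : (0 : ℝ) < 2 ^ s := by positivity
        have h11 : (0 : ℝ) < p + 1 := by linarith
        have h12 : (5 * 2 ^ (p - 1)) * ((e : ℝ) + 2) ≤ 8 * (p + 1) * (e + 2) :=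
          mul_le_mul_of_nonneg_right h7 (by positivity)
        have h13 : 8 * (p + 1) * ((e : ℝ) + 2) ≤ (p + 1) * (5 * 2 ^ e) := by
          calc 8 * (p + 1) * ((e : ℝ) + 2) = (p + 1) * (8 * (e + 2)) := by ring
            _ ≤ _ := mul_le_mul_of_nonneg_left h9 h11.le
        have h14 : (2 : ℝ) ^ s * (2 ^ (p - 1) * (e + 2)) ≤ 2 ^ s * ((p + 1) * 2 ^ e) :=
          mul_le_mul_of_nonneg_left (by linarith) h10.le
        have h15 : (N : ℝ) * (p + 1) ≤ (2 ^ s * 2 ^ e) * (p + 1) := by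
          calc (N : ℝ) * (p + 1) ≤ _ := h6
            _ ≤ _ := h14
            _ = _ := by ring
        exact le_of_mul_le_mul_right h15 h11
      have h16 : N ≤ 2 ^ s * 2 ^ e := by exact_mod_cast h8
      exact h16.trans (hd hse)

end Pool.Agent.Results.MP_c1e66d_co.SubspacesOfLp
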