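import Pool.Agent.ThK.Fin
import Pool.Agent.ThR.Fin6
import Pool.Agent.ThF.Two
import Pool.Agent.ThF.Aut
import Pool.Agent.ThW.Six

/-!
# Thompson's conjecture for the groups of types `E_6`, `E_7`, `E_8`, `F_4` and `²E_6`

Thompson's conjecture: every finite simple group `G` has a conjugacy class `C` with `C C = G`.  This file proves it for all exceptional groups of Lie type of (relative) rank at least four: `E_6(q)`, `E_7(q)`, `E_8(q)`, `F_4(q)` and `²E_6(q²)` for every
prime power `q`.  `E_n(K)` is given by Steinberg's presentation, and the groups are subgroups of `E_n(K)` (modulo the centre) generated by root elements: all of them for `E_n(K)`, those fixed by the graph automorphism of `E_6(K)` for `F_4(K)`, and those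
fixed by the graph automorphism combined with a field automorphism of order two for `²E_6`.
-/

namespace Pool.Agent.Results.MP_3d54b6_al.Exceptional

/-- The vector `v = (d; m_1, …, m_n)` is a root: `m_1 + … + m_n = 3 d` and `m_1 ^ 2 + … + m_n ^ 2 = d ^ 2 + 2`. -/
def IsRoot {n : ℕ} (v : ℤ × (Fin n → ℤ)) : Prop := ∑ i, v.2 i = 3 * v.1 ∧ ∑ i, v.2 i ^ 2 = v.1 ^ 2 + 2

/-- The roots of `E_n` (`n = 6`: 72, `n = 7`: 126, `n = 8`: 240 roots). -/
abbrev Root (n : ℕ) : Type := {v : ℤ × (Fin n → ℤ) // IsRoot v}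

/-- The negative of a root. -/
def neg {n : ℕ} (r : Root n) : Root n := ⟨-r.1, by
  obtain ⟨h1, h2⟩ := r.2
  refine ⟨?_, ?_⟩
  · simp only [Prod.fst_neg, Prod.snd_neg, Pi.neg_apply, Finset.sum_neg_distrib, h1]
    ring
  · simp only [Prod.fst_neg, Prod.snd_neg, Pi.neg_apply, neg_sq, h2]⟩

/-- The structure constants `ε(r, s) = ± 1`: `(-1)` to the power `∑_(i < j) m_i(r) m_j(s)`. -/
def ε (K : Type) [Field K] {n : ℕ} (r s : Root n) : K := if Even (∑ i, ∑ j, if i < j then r.1.2 i * s.1.2 j else 0) then 1 else -1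

/-- The generator `x_r(a)`. -/
def X {K : Type} {n : ℕ} (r : Root n) (a : K) : FreeGroup (Root n × K) := FreeGroup.of (r, a)

/-- `n_r(a) = x_r(a) x_(-r)(a⁻¹) x_r(a)` -/
def N {K : Type} [Field K] {n : ℕ} (r : Root n) (a : K) : FreeGroup (Root n × K) := X r a * X (neg r) a⁻¹ * X r a

/-- `h_r(a) = n_r(a) n_r(-1)` -/
def H {K : Type} [Field K] {n : ℕ} (r : Root n) (a : K) : FreeGroup (Root n × K) := N r a * N r (-1)

/-- Steinberg's relations: `x_r(a + b) = x_r(a) x_r(b)`; `[x_r(a), x_s(b)] = x_(r+s)(ε(r,s) a b)` if `r + s` is a root, and `= 1` if `r + s` is neither a root nor `0`; `h_r(a b) = h_r(a) h_r(b)` for `a, b ≠ 0`. -/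
inductive Steinberg (K : Type) [Field K] (n : ℕ) : FreeGroup (Root n × K) → Prop
  | add (r : Root n) (a b : K) : Steinberg K n (X r a * X r b * (X r (a + b))⁻¹)
  | sum (r s t : Root n) (h : t.1 = r.1 + s.1) (a b : K) : Steinberg K n (X r a * X s b * (X r a)⁻¹ * (X s b)⁻¹ * (X t (ε K r s * a * b))⁻¹)
  | comm (r s : Root n) (h0 : r.1 + s.1 ≠ 0) (h : ∀ t : Root n, t.1 ≠ r.1 + s.1) (a b : K) : Steinberg K n (X r a * X s b * (X r a)⁻¹ * (X s b)⁻¹)
  | torus (r : Root n) (a b : K) (ha : a ≠ 0) (hb : b ≠ 0) : Steinberg K n (H r a * H r b * (H r (a * b))⁻¹)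

/-- The universal Chevalley group of type `E_n` over `K`. -/
abbrev E (K : Type) [Field K] (n : ℕ) : Type := PresentedGroup {w : FreeGroup (Root n × K) | Steinberg K n w}

/-- The graph automorphism of the root system of type `E_6`: `(d; m_1, …, m_6) ↦ (d; d - m_6, …, d - m_1)`. -/
def bar {n : ℕ} (v : ℤ × (Fin n → ℤ)) : ℤ × (Fin n → ℤ) := (v.1, fun i => v.1 - v.2 i.rev)

/-- The sign `η(r) = (-1) ^ ((1 + d) (1 + ht r))`; `ht r = m_1 + 2 m_2 + … + n m_n - 5 d` is the height of `r`. -/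
def η (K : Type) [Field K] {n : ℕ} (r : Root n) : K := if Even ((1 + r.1.1) * (1 + (∑ i : Fin n, ((i : ℕ) + 1 : ℤ) * r.1.2 i - 5 * r.1.1))) then 1 else -1

/-- The element `x_r(a)` of `E_n(K)`. -/
def x {K : Type} [Field K] {n : ℕ} (r : Root n) (a : K) : E K n := PresentedGroup.of (r, a)

/-- The subgroup of `E_n(K)` generated by the elements `x_r(a)` with `σ(r) = r`, `τ(a) = a`, and `x_r(a) x_s(η(r) τ(a))` with `s = σ(r) ≠ r`.  It is `E_n(K)` if `σ = 1`, `τ = 1`; for `n = 6` and `σ = bar` it is `F_4(K)` if `τ = 1`, and `²E_6(K)` if `τ` has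
order two. -/
def T (K : Type) [Field K] (n : ℕ) (σ : ℤ × (Fin n → ℤ) → ℤ × (Fin n → ℤ)) (τ : K →+* K) : Subgroup (E K n) :=
  Subgroup.closure ({g | ∃ r a, σ r.1 = r.1 ∧ τ a = a ∧ g = x r a} ∪ {g | ∃ r s a, s.1 = σ r.1 ∧ s ≠ r ∧ g = x r a * x s (η K r * τ a)})

/-- The group `S` has a conjugacy class `C` with `C C = S`: there is an element `g` such that every element is a product of two conjugates of `g`. -/
def SquareOfClass (S : Type) [Group S] : Prop := ∃ g : S, ∀ z : S, ∃ x y : S, IsConj g x ∧ IsConj g y ∧ x * y = z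

/-- Thompson's conjecture for the group `H / Z(H)`. -/
def Thompson {G : Type} [Group G] (H : Subgroup G) : Prop := SquareOfClass (H ⧸ Subgroup.center H)

private theorem ep_eq (K : Type) [Field K] {n : ℕ} (r s : Root n) : (ThK.ep K r.1 s.1 : K) = ε K r s := by
  unfold ε
  change (((-1 : Kˣ) ^ ThK.bl r.1 s.1 : Kˣ) : K) = if Even (ThK.bl r.1 s.1) then 1 else -1
  split_ifs with h
  · rw [h.neg_one_zpow]
    rfl
  · rw [Int.not_even_iff_odd] at h
    rw [h.neg_one_zpow]
    rfl

/-- The generators satisfy the relations. -/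
private theorem stb (K : Type) [Field K] (n : ℕ) : ThK.Stb K n (fun (r : Root n) (a : K) => (PresentedGroup.of (r, a) : E K n)) := by
  have h1 : ∀ w, Steinberg K n w → (PresentedGroup.mk {w : FreeGroup (Root n × K) | Steinberg K n w} w) = 1 := fun w hw =>
    PresentedGroup.one_of_mem hw
  refine ⟨fun r a b => ?_, fun r s t h a b => ?_, fun r s h0 h a b => ?_, fun r a b ha hb => ?_, ?_⟩
  · exact (mul_inv_eq_one.1 (h1 _ (Steinberg.add r a b))).symm
  · rw [ep_eq]
    exact mul_inv_eq_one.1 (h1 _ (Steinberg.sum r s t h a b))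
  · exact h1 _ (Steinberg.comm r s h0 h a b)
  · exact (mul_inv_eq_one.1 (h1 _ (Steinberg.torus r a b ha hb))).symm
  · rw [eq_top_iff, ← PresentedGroup.closure_range_of]
    apply Subgroup.closure_mono
    rintro _ ⟨⟨r, a⟩, rfl⟩
    exact ⟨r, a, rfl⟩

private theorem exists_unit {K : Type} [Field K] [Finite K] (h : 2 < Nat.card K) : ∃ d : K, d ≠ 0 ∧ d ≠ 1 := by
  by_contra hd
  push Not at hd
  have hf := Fintype.ofFinite K
  classical
  have h1 : (Finset.univ : Finset K) ⊆ {0, 1} := by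
    intro d _
    by_cases h0 : d = 0
    · simp [h0]
    · simp [hd d h0]
  have h2 := Finset.card_le_card h1
  rw [Finset.card_univ, ← Nat.card_eq_fintype_card] at h2
  have h3 := Finset.card_le_two (a := (0 : K)) (b := 1)
  omega

private theorem two {K : Type} [Field K] [Finite K] (h : ¬ 2 < Nat.card K) (a : K) : a = 0 ∨ a = 1 := by
  by_contra ha
  push Not at ha
  have h1 := Fintype.ofFinite K
  classical
  have h2 : ({0, 1, a} : Finset K).card ≤ Fintype.card K := Finset.card_le_univ _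
  rw [Finset.card_insert_of_notMem (by simp [ha.1.symm]), Finset.card_insert_of_notMem (by simp [ha.2.symm]), Finset.card_singleton, ← Nat.card_eq_fintype_card] at h2
  omega

private theorem et_eq (K : Type) [Field K] (r : Root 6) : ThF.et K r.1 = η K r := by
  unfold η
  change (((-1 : Kˣ) ^ ((1 + r.1.1) * (1 + ThE.ht r.1)) : Kˣ) : K) = if Even ((1 + r.1.1) * (1 + ThE.ht r.1)) then 1 else -1
  split_ifs with h
  · rw [h.neg_one_zpow]
    rfl
  · rw [Int.not_even_iff_odd] at h
    rw [h.neg_one_zpow]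
    rfl

private theorem lift_eq (K : Type) [Field K] {f : Root 6 × K → E K 6} (h : ThK.Stb K 6 (fun (r : Root 6) (a : K) => f (r, a))) (w : FreeGroup (Root 6 × K)) (hw : Steinberg K 6 w) : FreeGroup.lift f w = 1 := by
  have h1 : ∀ r a, FreeGroup.lift f (X r a) = f (r, a) := fun r a => FreeGroup.lift_apply_of
  have h2 : ∀ r a, FreeGroup.lift f (N r a) = ThK.nn (fun (r : Root 6) (a : K) => f (r, a)) r a := fun r a => by
    unfold N
    rw [map_mul, map_mul, h1, h1]
    rfl
  have h3 : ∀ r a, FreeGroup.lift f (H r a) = ThK.hh (fun (r : Root 6) (a : K) => f (r, a)) r a := fun r a => by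
    unfold H
    rw [map_mul, h2, h2]
    rfl
  cases hw with
  | add r a b =>
    rw [map_mul, map_mul, map_inv, h1, h1, h1, mul_inv_eq_one]
    exact (h.add r a b).symm
  | sum r s t h0 a b =>
    rw [map_mul, map_mul, map_mul, map_mul, map_inv, map_inv, map_inv, h1, h1, h1, mul_inv_eq_one, ← ep_eq]
    exact h.sum r s t h0 a b
  | comm r s h0 h4 a b =>
    rw [map_mul, map_mul, map_mul, map_inv, map_inv, h1, h1]
    exact h.comm r s h0 h4 a b
  | torus r a b ha hb =>
    rw [map_mul, map_mul, map_inv, h3, h3, h3, mul_inv_eq_one]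
    exact (h.tor r a b ha hb).symm

/-- `T` is the group generated by the elements `y_r(a)` of the library. -/
private theorem T_six (K : Type) [Field K] (τ : K →+* K) : T K 6 bar τ = ThF.Hh (fun (r : Root 6) (a : K) => (PresentedGroup.of (r, a) : E K 6)) τ := by
  unfold T ThF.Hh ThF.Sy
  refine congrArg Subgroup.closure (Set.ext fun g => ⟨?_, ?_⟩)
  · rintro (⟨r, a, h1, h2, rfl⟩ | ⟨r, s, a, h1, h2, rfl⟩)
    · have h3 : ThF.sr r = r := Subtype.ext h1
      exact ⟨r, a, trivial, fun _ => h2, (ThF.yt_fix _ _ h3 a).symm⟩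
    · have h3 : s = ThF.sr r := Subtype.ext h1
      subst h3
      refine ⟨r, a, trivial, ThF.Ok.of_ne h2 a, ?_⟩
      rw [ThF.yt_mov _ _ h2, et_eq]
      rfl
  · rintro ⟨r, a, -, h2, rfl⟩
    by_cases h3 : ThF.sr r = r
    · exact Or.inl ⟨r, a, congrArg Subtype.val h3, h2 h3, ThF.yt_fix _ _ h3 a⟩
    · refine Or.inr ⟨r, ThF.sr r, a, rfl, h3, ?_⟩
      rw [ThF.yt_mov _ _ h3, et_eq]
      rfl

/-- The signs `η(r)` are the right ones: `x_r(a) ↦ x_s(η(r) τ(a))`, `s = bar r`, extends to an automorphism `φ` of `E_6(K)` with `φ ∘ φ = 1`, and `φ` fixes every element of `T`. -/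
theorem automorphism (K : Type) [Field K] (τ : K →+* K) (hτ : ∀ a, τ (τ a) = a) :
    ∃ φ : E K 6 →* E K 6, (∀ r s : Root 6, s.1 = bar r.1 → ∀ a, φ (x r a) = x s (η K r * τ a)) ∧ (∀ g, φ (φ g) = g) ∧ ∀ g ∈ T K 6 bar τ, φ g = g := by
  let f : Root 6 × K → E K 6 := fun p => x (ThF.sr p.1) (η K p.1 * τ p.2)
  have h0 : ThK.Stb K 6 (fun (r : Root 6) (a : K) => f (r, a)) := by
    have h1 : (fun (r : Root 6) (a : K) => f (r, a)) = (fun (r : Root 6) (a : K) => (PresentedGroup.of (ThF.sr r, ThF.et K r.1 * τ a) : E K 6)) := by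
      funext r a
      rw [et_eq]
      rfl
    rw [h1]
    exact ThF.stb_tw (stb K 6) τ hτ
  have h2 : ∀ r a, PresentedGroup.toGroup (lift_eq K h0) (x r a) = x (ThF.sr r) (η K r * τ a) := fun r a =>
    PresentedGroup.toGroup.of (f := f) (lift_eq K h0) (x := (r, a))
  have h4 : ∀ r : Root 6, η K (ThF.sr r : Root 6) = η K r := fun r => by
    rw [← et_eq, ← et_eq]
    exact ThF.et_sr r
  have h5 : ∀ r : Root 6, η K r * η K r = 1 := fun r => by
    rw [← et_eq]
    exact ThF.et_sq r.1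
  have h6 : ∀ r : Root 6, τ (η K r) = η K r := fun r => by
    rw [← et_eq]
    exact ThF.et_map τ r.1
  have h7 : ∀ r a, PresentedGroup.toGroup (lift_eq K h0) (PresentedGroup.toGroup (lift_eq K h0) (x r a)) = x r a := fun r a => by
    rw [h2, h2, ThF.sr_sr, h4, map_mul, hτ, h6, ← mul_assoc, h5, one_mul]
  refine ⟨PresentedGroup.toGroup (lift_eq K h0), fun r s h8 a => ?_, fun g => ?_, fun g hg => ?_⟩
  · have h9 : s = ThF.sr r := Subtype.ext h8
    rw [h2, h9]
  · have h8 : (PresentedGroup.toGroup (lift_eq K h0)).comp (PresentedGroup.toGroup (lift_eq K h0)) = MonoidHom.id (E K 6) := PresentedGroup.ext fun p => h7 p.1 p.2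
    exact DFunLike.congr_fun h8 g
  · unfold T at hg
    induction hg using Subgroup.closure_induction with
    | one => rw [map_one]
    | mul a b _ _ ha hb => rw [map_mul, ha, hb]
    | inv a _ ha => rw [map_inv, ha]
    | mem g hg =>
      rcases hg with ⟨r, a, h8, h9, rfl⟩ | ⟨r, s, a, h8, h9, rfl⟩
      · have h10 : ThF.sr r = r := Subtype.ext h8
        have h11 : η K r = 1 := by
          rw [← et_eq]
          exact ThF.et_fix h10
        rw [h2, h11, one_mul, h9, h10]
      · have h10 : s = ThF.sr r := Subtype.ext h8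
        subst h10
        have h11 : 0 ≤ ThE.bf r.1 (ThF.sr r).1 := (ThF.ag_perp h9).ge
        have h12 : x r a * x (ThF.sr r) (η K r * τ a) = x (ThF.sr r) (η K r * τ a) * x r a := (stb K 6).commute h11 a (η K r * τ a)
        have h13 := h7 r a
        rw [h2] at h13
        rw [map_mul, h2, h13]
        exact h12.symm

/-- For `σ = 1` and `τ = 1` the subgroup is the whole group. -/
private theorem T_top (K : Type) [Field K] (n : ℕ) : T K n id (RingHom.id K) = ⊤ := by
  rw [eq_top_iff, ← (stb K n).gen]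
  unfold T
  apply Subgroup.closure_mono
  rintro _ ⟨r, a, rfl⟩
  exact Or.inl ⟨r, a, rfl, rfl, rfl⟩

private theorem stb_top (K : Type) [Field K] (n : ℕ) : ThK.Stb K n (fun (r : Root n) (a : K) => (⟨x r a, trivial⟩ : (⊤ : Subgroup (E K n)))) := by
  have h := stb K n
  refine ⟨fun r a b => Subtype.ext (h.add r a b), fun r s t h1 a b => Subtype.ext (h.sum r s t h1 a b), fun r s h0 h1 a b => Subtype.ext (h.comm r s h0 h1 a b), fun r a b ha hb => Subtype.ext (h.tor r a b ha hb), ?_⟩
  apply Subgroup.map_injective (⊤ : Subgroup (E K n)).subtype_injective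
  rw [← MonoidHom.range_eq_map, Subgroup.range_subtype, MonoidHom.map_closure]
  refine Eq.trans (congrArg Subgroup.closure (Set.ext fun g => ⟨?_, ?_⟩)) h.gen
  · rintro ⟨_, ⟨r, a, rfl⟩, rfl⟩
    exact ⟨r, a, rfl⟩
  · rintro ⟨r, a, rfl⟩
    exact ⟨_, ⟨r, a, rfl⟩, rfl⟩

/-- Thompson's conjecture for `E_n(K)` (`σ = 1`, `τ = 1`), `F_4(K)` (`n = 6`, `σ = bar`, `τ = 1`) and `²E_6(K)` (`n = 6`, `σ = bar`, `τ` of order two), for all finite fields. -/
theorem result (K : Type) [Field K] [Finite K] (n : ℕ) (hn : n = 6 ∨ n = 7 ∨ n = 8) (σ : ℤ × (Fin n → ℤ) → ℤ × (Fin n → ℤ)) (τ : K →+* K) (h : (σ = id ∧ ∀ a, τ a = a) ∨ (n = 6 ∧ σ = bar ∧ ∀ a, τ (τ a) = a)) : Thompson (T K n σ τ) := by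
  rcases h with ⟨rfl, h⟩ | ⟨rfl, rfl, h⟩
  · obtain rfl : τ = RingHom.id K := RingHom.ext h
    unfold Thompson SquareOfClass
    rw [T_top]
    apply ThK.quot_main
    rcases hn with rfl | rfl | rfl
    · by_cases h2 : 2 < Nat.card K
      · obtain ⟨b, h3, c, h4⟩ := Pool.Agent.ThR.main6 (exists_unit h2) (stb_top K 6)
        exact ⟨b, h3, 1, c, by rw [h4]; group⟩
      · exact ThW.main6 (two h2) (stb_top K 6)
    · exact ThK.main78' (Or.inl rfl) (stb_top K 7)
    · exact ThK.main78' (Or.inr rfl) (stb_top K 8)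
  · unfold Thompson SquareOfClass
    rw [T_six]
    exact ThF.twisted_all (stb K 6) h

end Pool.Agent.Results.MP_3d54b6_al.Exceptional
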