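import Pool.Agent.Th2.Fin2
import Pool.Agent.ThO.OMain
import Pool.Agent.ThO7.Fin

/-!
# Thompson's conjecture for the orthogonal groups of dimension at least 7

`K` is a finite field and `Q` is a quadratic form with nondegenerate polar form on a vector space of dimension at
least 7.  The commutator subgroup of the orthogonal group of `Q` is `Ω_(2m)^±(q)` if the dimension `2 * m` is even
(both types occur) and `Ω_(2m+1)(q)` if the dimension is odd (then `q` is odd), and its quotient by the center is
the simple group `PΩ_(2m)^±(q)`, `Ω_(2m+1)(q)` respectively.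
-/

namespace Pool.Agent.Results.MP_3d54b6_al.Orthogonal
open Module

/-- the orthogonal group of a quadratic form: the linear automorphisms which preserve the form -/
def orth {K V : Type} [Field K] [AddCommGroup V] [Module K V] (Q : QuadraticForm K V) :
    Subgroup (V ≃ₗ[K] V) where
  carrier := {g | ∀ v, Q (g v) = Q v}
  one_mem' := fun _ => rfl
  mul_mem' := fun {g g'} h h' v => by
    show Q (g (g' v)) = Q v
    rw [h, h']
  inv_mem' := fun {g} h v => by
    rw [← h (g⁻¹ v)]
    show Q (g (g.symm v)) = Q v
    rw [g.apply_symm_apply]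

/-- Thompson's property: some conjugacy class `C` satisfies `C * C = G` -/
def ClassSquare (G : Type) [Group G] : Prop :=
  ∃ g : G, ∀ z : G, ∃ x y : G, IsConj g x ∧ IsConj g y ∧ x * y = z

/-- Thompson's conjecture holds for all simple orthogonal groups of dimension at least 7: there is a conjugacy class
`C` with `C * C = PΩ(V)`. -/
theorem result (K : Type) [Field K] [Finite K] (V : Type) [AddCommGroup V]
    [Module K V] [FiniteDimensional K V] (Q : QuadraticForm K V)
    (hQ : (QuadraticMap.polarBilin Q).Nondegenerate) (hV : 7 ≤ finrank K V) :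
    ClassSquare (commutator (orth Q) ⧸ Subgroup.center (commutator (orth Q))) := by
  have : Finite V := Module.finite_of_finite K
  have hq : (ThQ.ofQ Q).ND ⊤ := fun x _ h => hQ.1 x fun y => h y trivial
  have e : orth Q = ThQ.IG (ThQ.ofQ Q) := Subgroup.ext fun _ => Iff.rfl
  have h : ThQ.TP (ThQ.IG (ThQ.ofQ Q)) := by
    rcases Nat.even_or_odd' (finrank K V) with ⟨m, hm | hm⟩
    · exact Th2.main_QA (ThQ.ofQ Q) hq (by omega) hm
    · by_cases h2 : (2 : K) = 0
      · exfalso
        let a : ThS.AF K V :=
          { h := (ThQ.ofQ Q).h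
            alt := fun x => by rw [(ThQ.ofQ Q).h_self, h2, zero_mul]
            symm := fun x y => by
              rw [(ThQ.ofQ Q).symm x y]
              linear_combination (ThQ.ofQ Q).h x y * h2 }
        obtain ⟨n, w, w', hn, -⟩ := ThS.hyp_all a ⊤ hq
        rw [finrank_top] at hn
        omega
      · rcases (by omega : m = 3 ∨ 4 ≤ m) with rfl | h4
        · exact ThO7.main_Q7 h2 (ThQ.ofQ Q) hq hm
        · exact ThO.main_QO h2 (ThQ.ofQ Q) hq h4 hm
  rw [← e] at h
  exact h.quot

end Pool.Agent.Results.MP_3d54b6_al.Orthogonal
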