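import Pool.Agent.ThS2.One

/-!
# Thompson's conjecture for the symplectic groups of dimension at least 6

`symplecticGroup (Fin n) K` is the group `Sp_(2n)(K)` of Mathlib; its quotient by the center is the simple group
`PSp_(2n)(K)`.
-/

namespace Pool.Agent.Results.MP_3d54b6_al.Symplectic
open Matrix

/-- Thompson's property: some conjugacy class `C` satisfies `C * C = G` -/
def ClassSquare (G : Type) [Group G] : Prop :=
  ∃ g : G, ∀ z : G, ∃ x y : G, IsConj g x ∧ IsConj g y ∧ x * y = z

/-- Thompson's conjecture holds for `PSp_(2n)(q)`, for all `n ≥ 3` and all `q`: there is a conjugacy class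
`C` with `C * C = PSp_(2n)(q)`. -/
theorem result (K : Type) [Field K] [Finite K] (n : ℕ) (hn : 3 ≤ n) :
    ClassSquare (symplecticGroup (Fin n) K ⧸ Subgroup.center (symplecticGroup (Fin n) K)) :=
  ThS2.quotS_all hn

end Pool.Agent.Results.MP_3d54b6_al.Symplectic
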