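import Pool.Agent.ThU.Quot
import Pool.Agent.ThU.OFinal

/-!
# Thompson's conjecture for the projective special unitary groups of degree at least 6

`K` is a finite field with a nontrivial involution `star`, that is `K = F_(q^2)` and `star x = x ^ q` for a prime
power `q` (every prime power occurs).  `Matrix.specialUnitaryGroup (Fin m) K` is `SU_m(q)`, the group of the
matrices `A` with `star A * A = 1` and `det A = 1`, and its quotient by the center is the simple group `PSU_m(q)`.
-/

namespace Pool.Agent.Results.MP_3d54b6_al.Unitary
open Matrix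

/-- Thompson's conjecture holds for `PSU_m(q)`, for all `m ≥ 6` and all prime powers `q`: there is a conjugacy class
`C` with `C * C = PSU_m(q)`. -/
theorem result (K : Type) [Field K] [Finite K] [StarRing K] (hK : ∃ x : K, star x ≠ x) (m : ℕ)
    (hm : 6 ≤ m) :
    ∃ g : Matrix.specialUnitaryGroup (Fin m) K ⧸
        Subgroup.center (Matrix.specialUnitaryGroup (Fin m) K),
      ∀ z : Matrix.specialUnitaryGroup (Fin m) K ⧸
          Subgroup.center (Matrix.specialUnitaryGroup (Fin m) K),
        ∃ x y : Matrix.specialUnitaryGroup (Fin m) K ⧸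
            Subgroup.center (Matrix.specialUnitaryGroup (Fin m) K),
          IsConj g x ∧ IsConj g y ∧ x * y = z := by
  rcases Nat.even_or_odd' m with ⟨n, hn | hn⟩
  · have e : ThU.Ix n ≃ Fin m := finSumFinEquiv.trans (finCongr (by omega))
    obtain ⟨x, hx, hx1, h⟩ := ThU.reindex_form e (N := 2 * n)
      (ThU.main_matrix (K := K) hK (by omega))
    exact ThU.quot_of (by simp [hn]) x hx hx1 h
  · have e : ThU.Jx n ≃ Fin m :=
      ((Equiv.sumCongr finSumFinEquiv finOneEquiv.symm).trans finSumFinEquiv).trans
        (finCongr (by omega))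
    obtain ⟨x, hx, hx1, h⟩ := ThU.reindex_form e (N := 2 * n + 1)
      (ThU.main_matrix_odd (K := K) hK (by omega))
    exact ThU.quot_of (by simp [hn]) x hx hx1 h

end Pool.Agent.Results.MP_3d54b6_al.Unitary
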