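import Pool.Agent.MSz.Fin

/-!
# Blocks whose abelian defect group is generated by elements with at most three conjugates

Let `B` be a `p`-block of a finite group `G` with an abelian defect group `D`. Let `b` be a block of `C_G(D)`
with `b^G = B`, `T` its inertial group in `N_G(D)`, `E = T / C_G(D)` the inertial quotient, `e = |E|`, and
`c = b^{N_G(D)}` the Brauer correspondent of `B`. Let `n` be `2` or `3`, `n (n + 3) < p` (so `p ≥ 11` if `n = 2`,
`p ≥ 19` if `n = 3`). Suppose that `E` is abelian, and that

* `D` is generated by elements with at most `n` conjugates under `T`, or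
* `E` has exponent dividing `n`

(the second condition implies the first one). Then

1. `l(B) m ^ 2 = e` for some natural number `m` (the blocks may be twisted, `m > 1`);
2. `l(B) = l(c)` and `k(B) = k(c)` (Alperin's weight conjecture for `B`, numerical part of Broué's);
3. if `l(B) = e` then `B` and `c` are isotypic (in the sense of Broué: there are compatible perfect isometries
   between `b_S = b^{C_G(S)}` and its Brauer correspondent for all `S ≤ D`); moreover `B` is then isotypic to
   every block `B'` with `l(B') = e` of every finite group with the same defect group and the same action of the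
   inertial quotient (for example to the only block of `D ⋊ E`).

So this holds for all elementary abelian `2`-groups `E` (`p ≥ 11`) and all elementary abelian `3`-groups `E`
(`p ≥ 19`); there is no bound for `e` or for the rank of `D`.

The proof (libraries `MSy`, `MSz`, `ETw`, `ETh`): the generalized decomposition numbers of `B` are described by a
system of lattices with orthonormal bases, one for each subgroup of `D` (`MSy`). It is constructed by descending
induction over the subgroups `R` of `D`; `F = C_E(R)`. The families of exceptional characters of the characters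
`θ` of `D / R` whose stabilizer has index at most `n` in `F` are coherent (at least `n + 3` of them, norms at most
`n`); the other characters `θ` are reached step by step from these, each step being the difference of two
generalized characters of norm at most `n + 1`, which has constant inner products with at least `n + 2`
orthonormal exceptional characters and so is orthogonal to the common parts (`MSz`, the new point). The systems of
the blocks of abelian groups `E` with centralizers of index two or three are then classified (`ETw`, `ETh`),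
and a chain of normalizers compares `B` with `c`. The classification of the finite simple groups is not used.
-/

set_option autoImplicit false

namespace Pool.Agent.Variants.ThreeConjugatesBound

open Pool.Agent.KB Pool.Agent.KBZ Pool.Agent.KBQ Pool.Agent.PIs Pool.Agent.Ity

/-- The inertial quotient `E = T / C_G(D)` is abelian. -/
def AbelianE {G : Type} [Group G] (𝔪 : Ideal AInt) (D : Subgroup G)
    (ζ : Subgroup.centralizer (D : Set G) → ℂ) : Prop :=
  ∀ g ∈ inertia 𝔪 D ζ, ∀ h ∈ inertia 𝔪 D ζ,
    g * h * g⁻¹ * h⁻¹ ∈ Subgroup.centralizer (D : Set G)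

/-- `D` is generated by elements with at most `n` conjugates under `T`, or `x ^ n = 1` for all `x ∈ E`. -/
def SmallOrbits {G : Type} [Group G] (𝔪 : Ideal AInt) (D : Subgroup G)
    (ζ : Subgroup.centralizer (D : Set G) → ℂ) (n : ℕ) : Prop :=
  D ≤ Subgroup.closure {x | x ∈ D ∧ Nat.card {y // ∃ g ∈ inertia 𝔪 D ζ, y = g * x * g⁻¹} ≤ n} ∨
    (∀ g ∈ inertia 𝔪 D ζ, g ^ n ∈ Subgroup.centralizer (D : Set G))

/-- Isotypy of `B = block 𝔪 χ` with its Brauer correspondent `c = block 𝔪 ψ`: compatible perfect isometries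
between the blocks of `C_G(S)` and `C_G(S) ⊓ N_G(D)` induced by the block of `ζ`, for all `S ≤ D`. For
`S = 1` these are the blocks `B` and `c`. -/
def IsotypicCorr (G : Type) [Group G] [Finite G] (p : ℕ) (𝔪 : Ideal AInt) (χ : G → ℂ)
    (D : Subgroup G) (ζ : Subgroup.centralizer (D : Set G) → ℂ) : Prop :=
  ∀ ψ ∈ Irr (Subgroup.normalizer (D : Set G)),
    Induces 𝔪 ((Subgroup.centralizer (D : Set G)).subgroupOf
      (Subgroup.normalizer (D : Set G))) (fun y => ζ ⟨y.1.1, y.2⟩) ψ →
    LB 𝔪 D ζ (Subgroup.centralizer ((⊥ : Subgroup G) : Set G)) = block 𝔪 χ ∧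
    LB 𝔪 D ζ (Subgroup.centralizer ((⊥ : Subgroup G) : Set G) ⊓
      Subgroup.normalizer (D : Set G)) =
        {f | (∀ g, g ∉ Subgroup.normalizer (D : Set G) → f g = 0) ∧
          (fun y : Subgroup.normalizer (D : Set G) => f y) ∈ block 𝔪 ψ} ∧
    ∃ I ε, Isot p 𝔪 D ζ D ζ D.subtype (fun S => Subgroup.centralizer (S : Set G))
      (fun S => Subgroup.centralizer (S : Set G) ⊓ Subgroup.normalizer (D : Set G)) I ε

/-- Isotypy of `B = block 𝔪 χ` with every block `B' = block 𝔪 χ'` of every finite group `G'` with a defect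
group `D'` isomorphic to `D`, the same action of the inertial quotient, and `l(B') = l(B)`. -/
def IsotypicAll (G : Type) [Group G] [Finite G] (p : ℕ) (𝔪 : Ideal AInt) (χ : G → ℂ)
    (D : Subgroup G) (ζ : Subgroup.centralizer (D : Set G) → ℂ) : Prop :=
  ∀ (G' : Type) [Group G'] [Finite G'] (χ' : G' → ℂ), χ' ∈ Irr G' →
    ell p (block 𝔪 χ') = ell p (block 𝔪 χ) →
    ∀ D' : Subgroup G', Nat.card D' = p ^ defect p (block 𝔪 χ') →
    ∀ ζ' : Subgroup.centralizer (D' : Set G') → ℂ,
      ζ' ∈ Irr (Subgroup.centralizer (D' : Set G')) →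
      Induces 𝔪 (Subgroup.centralizer (D' : Set G')) ζ' χ' →
    ∀ φ : D ≃* D',
      (∀ g ∈ inertia 𝔪 D ζ, ∃ g' ∈ inertia 𝔪 D' ζ', ∀ x y : D,
        (y : G) = g * x * g⁻¹ → (φ y : G') = g' * φ x * g'⁻¹) →
      (∀ g' ∈ inertia 𝔪 D' ζ', ∃ g ∈ inertia 𝔪 D ζ, ∀ x y : D,
        (y : G) = g * x * g⁻¹ → (φ y : G') = g' * φ x * g'⁻¹) →
      LB 𝔪 D ζ (Subgroup.centralizer ((⊥ : Subgroup G) : Set G)) = block 𝔪 χ ∧
      LB 𝔪 D' ζ' (Subgroup.centralizer ((⊥ : Subgroup G') : Set G')) = block 𝔪 χ' ∧
      ∃ I ε, Isot p 𝔪 D ζ D' ζ' (D'.subtype.comp φ.toMonoidHom)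
        (fun S => Subgroup.centralizer (S : Set G))
        (fun S => Subgroup.centralizer
          ((S.subgroupOf D).map (D'.subtype.comp φ.toMonoidHom) : Set G')) I ε

/-- The main result. `B = block 𝔪 χ` is the block of `χ ∈ Irr G`, `b = block 𝔪 ζ` is the block of
`ζ ∈ Irr (C_G(D))`, `T = inertia 𝔪 D ζ`. -/
theorem result (G : Type) [Group G] [Finite G] (p : ℕ) (hp : p.Prime)
    -- a maximal ideal over `p` of the ring of the algebraic integers
    (𝔪 : Ideal AInt) (h𝔪 : 𝔪.IsMaximal) (hp𝔪 : (p : AInt) ∈ 𝔪)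
    (χ : G → ℂ) (hχ : χ ∈ Irr G)
    -- `D` is an abelian defect group of `B`, `b` is a block of its centralizer with `b^G = B`
    (D : Subgroup G) (hab : ∀ a ∈ D, ∀ b ∈ D, a * b = b * a)
    (hD : Nat.card D = p ^ defect p (block 𝔪 χ))
    (ζ : Subgroup.centralizer (D : Set G) → ℂ)
    (hζ : ζ ∈ Irr (Subgroup.centralizer (D : Set G)))
    (hind : Induces 𝔪 (Subgroup.centralizer (D : Set G)) ζ χ)
    -- `e = |E|`
    (e : ℕ) (he : Nat.card (inertia 𝔪 D ζ) = e * Nat.card (Subgroup.centralizer (D : Set G)))
    -- `E` is abelian, `D` is generated by elements with at most `n` conjugates, `n` is two or three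
    (hE : AbelianE 𝔪 D ζ) (n : ℕ) (hn : n = 2 ∨ n = 3) (hnp : n * (n + 3) < p)
    (hS : SmallOrbits 𝔪 D ζ n) :
    -- `l(B) m ^ 2 = e`
    (∃ m : ℕ, ell p (block 𝔪 χ) * m ^ 2 = e) ∧
    -- `l(B) = l(c)`, `k(B) = k(c)`
    (∀ ψ ∈ Irr (Subgroup.normalizer (D : Set G)),
      Induces 𝔪 ((Subgroup.centralizer (D : Set G)).subgroupOf
        (Subgroup.normalizer (D : Set G))) (fun y => ζ ⟨y.1.1, y.2⟩) ψ →
      ell p (block 𝔪 χ) = ell p (block 𝔪 ψ) ∧ (block 𝔪 χ).ncard = (block 𝔪 ψ).ncard) ∧
    -- if `l(B) = e` then `B` is isotypic to `c` and to all the blocks with the same `D`, action of `E` and `l`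
    (ell p (block 𝔪 χ) = e → IsotypicCorr G p 𝔪 χ D ζ ∧ IsotypicAll G p 𝔪 χ D ζ) := by
  obtain ⟨h1, h2, h3⟩ := Pool.Agent.ETw.tss_main G p hp 𝔪 h𝔪 hp𝔪 χ hχ D hab hD ζ hζ hind e he hE n
    (by omega) (by omega) hnp hS
  refine ⟨h1, h2, fun hl => ⟨(h3 hl).1, ?_⟩⟩
  intro G' _ _ χ' hχ' hl'
  exact (h3 hl).2 G' χ' hχ' (hl'.trans hl)

end Pool.Agent.Variants.ThreeConjugatesBound
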