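import Pool.Agent.MSz.Fin
import Pool.Agent.Eab.Fin

/-!
# Blocks whose abelian defect group is generated by elements with at most three conjugates

Let `B` be a `p`-block of a finite group `G` with an abelian defect group `D`. Let `b` be a block of `C_G(D)`
with `b^G = B`, `T` its inertial group in `N_G(D)`, `E = T / C_G(D)` the inertial quotient, `e = |E|`, and
`c = b^{N_G(D)}` the Brauer correspondent of `B`. Suppose that `E` is abelian, and that

* `D` is generated by elements with at most `n` conjugates under `T`, or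
* `E` has exponent dividing `n`

(the second condition implies the first one), where

* `n` is `2` or `3`, `n (n + 3) < p` (so `p ≥ 11` if `n = 2`, `p ≥ 19` if `n = 3`), or
* `n = 2`, `p` is any odd prime, and the canonical character of `b` extends to `T` (this is the case if `B` is the
  principal block).

Then

1. `l(B) m ^ 2 = e` for some natural number `m` (the blocks may be twisted, `m > 1`); if `n = 2` and the canonical
   character of `b` extends to `T` then `l(B) = e` and `k(B) = k(D ⋊ E)`;
2. `l(B) = l(c)` and `k(B) = k(c)` (Alperin's weight conjecture for `B`, numerical part of Broué's);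
3. if `l(B) = e` then `B` and `c` are isotypic (in the sense of Broué: there are compatible perfect isometries
   between `b_S = b^{C_G(S)}` and its Brauer correspondent for all `S ≤ D`); moreover `B` is then isotypic to
   every block `B'` with `l(B') = e` of every finite group with the same defect group and the same action of the
   inertial quotient (for example to the only block of `D ⋊ E`); if `p ≤ n (n + 3)` we assume that the canonical
   character extends for `B'`, too.

So this holds for all elementary abelian `2`-groups `E` (`p ≥ 11`; for all odd `p` if the canonical character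
extends) and all elementary abelian `3`-groups `E` (`p ≥ 19`); there is no bound for `e` or for the rank of `D`.

The proof for `p > n (n + 3)` (libraries `MSy`, `MSz`, `ETw`, `ETh`): the generalized decomposition numbers of `B`
are described by a system of lattices with orthonormal bases, one for each subgroup of `D` (`MSy`). It is
constructed by descending induction over the subgroups `R` of `D`; `F = C_E(R)`. The families of exceptional
characters of the characters `θ` of `D / R` whose stabilizer has index at most `n` in `F` are coherent (at least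
`n + 3` of them, norms at most `n`); the other characters `θ` are reached step by step from these, each step being
the difference of two generalized characters of norm at most `n + 1`, which has constant inner products with at
least `n + 2` orthonormal exceptional characters and so is orthogonal to the common parts (`MSz`). The systems of
the blocks of abelian groups `E` with centralizers of index two or three are then classified (`ETw`, `ETh`),
and a chain of normalizers compares `B` with `c`.

The proof for all odd `p` (library `Eab`): for every closed subgroup `R` of `D` (`R = C_D(C_E(R))`) orthogonal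
vectors `e(R, s)`, `s ∈ C_E(R)`, are constructed such that the section functions built from them are generalized
characters of `b_R`; again by descending induction. A direction at `R` is a closed subgroup `P > R` with
`|C_E(R) : C_E(P)| = 2`; it gives families of generalized characters of norm at most three. The rank `l(b_R)` is at
least `|C_E(R)| - 1` by an extension theorem for integral section functions and a Gram matrix modulo `p`; the
value `|C_E(R)| - 1` is excluded by a comparison of two directions; then every direction has the standard form,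
and the choices for the different directions are made compatible. The isometries of the library `Wat` reduce
everything to closed subgroups; the action of `E` on the levels with `|C_E(R)| = 2` is treated by an inequality of
the library `Ucb` and by the theorem of Fong and Reynolds. The classification of the finite simple groups is not
used.
-/

set_option autoImplicit false

namespace Pool.Agent.Variants.ThreeConjugatesE2

open Pool.Agent.KB Pool.Agent.KBZ Pool.Agent.KBQ Pool.Agent.PIs Pool.Agent.Ity

/-- The inertial quotient `E = T / C_G(D)` is abelian. -/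
def AbelianE {G : Type} [Group G] (𝔪 : Ideal AInt) (D : Subgroup G)
    (ζ : Subgroup.centralizer (D : Set G) → ℂ) : Prop :=
  ∀ g ∈ inertia 𝔪 D ζ, ∀ h ∈ inertia 𝔪 D ζ,
    g * h * g⁻¹ * h⁻¹ ∈ Subgroup.centralizer (D : Set G)

/-- `D` is generated by elements with at most `n` conjugates under `T`, or `x ^ n = 1` for all `x ∈ E`. -/
def SmallOrbits {G : Type} [Group G] (𝔪 : Ideal AInt) (D : Subgroup G)
    (ζ : Subgroup.centralizer (D : Set G) → ℂ) (n : ℕ) : Prop :=
  D ≤ Subgroup.closure {x | x ∈ D ∧ Nat.card {y // ∃ g ∈ inertia 𝔪 D ζ, y = g * x * g⁻¹} ≤ n} ∨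
    (∀ g ∈ inertia 𝔪 D ζ, g ^ n ∈ Subgroup.centralizer (D : Set G))

/-- The canonical character of the block `b` of `ζ` extends to `T`: some irreducible character `f` of `T` is
trivial on `D` and its restriction to `C_G(D)` is a character `φ` of `b`. -/
def Extends {G : Type} [Group G] (𝔪 : Ideal AInt) (D : Subgroup G)
    (ζ : Subgroup.centralizer (D : Set G) → ℂ) : Prop :=
  ∃ (T : Subgroup G) (f : T → ℂ), (T : Set G) = inertia 𝔪 D ζ ∧ f ∈ Irr T ∧
    (∀ x : T, (x : G) ∈ D → f x = f 1) ∧
    ∃ φ ∈ block 𝔪 ζ, ∀ (x : T) (y : Subgroup.centralizer (D : Set G)), (x : G) = y → f x = φ y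

/-- Isotypy of `B = block 𝔪 χ` with its Brauer correspondent `c = block 𝔪 ψ`: compatible perfect isometries
between the blocks of `C_G(S)` and `C_G(S) ⊓ N_G(D)` induced by the block of `ζ`, for all `S ≤ D`. For
`S = 1` these are the blocks `B` and `c`. -/
def IsotypicCorr (G : Type) [Group G] [Finite G] (p : ℕ) (𝔪 : Ideal AInt) (χ : G → ℂ)
    (D : Subgroup G) (ζ : Subgroup.centralizer (D : Set G) → ℂ) : Prop :=
  ∀ ψ ∈ Irr (Subgroup.normalizer (D : Set G)),
    Induces 𝔪 ((Subgroup.centralizer (D : Set G)).subgroupOf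
      (Subgroup.normalizer (D : Set G))) (fun y => ζ ⟨y.1.1, y.2⟩) ψ →
    LB 𝔪 D ζ (Subgroup.centralizer ((⊥ : Subgroup G) : Set G)) = block 𝔪 χ ∧
    LB 𝔪 D ζ (Subgroup.centralizer ((⊥ : Subgroup G) : Set G) ⊓
      Subgroup.normalizer (D : Set G)) =
        {f | (∀ g, g ∉ Subgroup.normalizer (D : Set G) → f g = 0) ∧
          (fun y : Subgroup.normalizer (D : Set G) => f y) ∈ block 𝔪 ψ} ∧
    ∃ I ε, Isot p 𝔪 D ζ D ζ D.subtype (fun S => Subgroup.centralizer (S : Set G))
      (fun S => Subgroup.centralizer (S : Set G) ⊓ Subgroup.normalizer (D : Set G)) I ε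

/-- Isotypy of `B = block 𝔪 χ` with every block `B' = block 𝔪 χ'` of every finite group `G'` with a defect
group `D'` isomorphic to `D`, the same action of the inertial quotient, and `l(B') = l(B)`; if
`p ≤ n (n + 3)` the canonical character has to extend for `B'`. -/
def IsotypicAll (G : Type) [Group G] [Finite G] (p : ℕ) (𝔪 : Ideal AInt) (χ : G → ℂ)
    (D : Subgroup G) (ζ : Subgroup.centralizer (D : Set G) → ℂ) (n : ℕ) : Prop :=
  ∀ (G' : Type) [Group G'] [Finite G'] (χ' : G' → ℂ), χ' ∈ Irr G' →
    ell p (block 𝔪 χ') = ell p (block 𝔪 χ) →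
    ∀ D' : Subgroup G', Nat.card D' = p ^ defect p (block 𝔪 χ') →
    ∀ ζ' : Subgroup.centralizer (D' : Set G') → ℂ,
      ζ' ∈ Irr (Subgroup.centralizer (D' : Set G')) →
      Induces 𝔪 (Subgroup.centralizer (D' : Set G')) ζ' χ' →
      (p ≤ n * (n + 3) → Extends 𝔪 D' ζ') →
    ∀ φ : D ≃* D',
      (∀ g ∈ inertia 𝔪 D ζ, ∃ g' ∈ inertia 𝔪 D' ζ', ∀ x y : D,
        (y : G) = g * x * g⁻¹ → (φ y : G') = g' * φ x * g'⁻¹) →
      (∀ g' ∈ inertia 𝔪 D' ζ', ∃ g ∈ inertia 𝔪 D ζ, ∀ x y : D,
        (y : G) = g * x * g⁻¹ → (φ y : G') = g' * φ x * g'⁻¹) →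
      LB 𝔪 D ζ (Subgroup.centralizer ((⊥ : Subgroup G) : Set G)) = block 𝔪 χ ∧
      LB 𝔪 D' ζ' (Subgroup.centralizer ((⊥ : Subgroup G') : Set G')) = block 𝔪 χ' ∧
      ∃ I ε, Isot p 𝔪 D ζ D' ζ' (D'.subtype.comp φ.toMonoidHom)
        (fun S => Subgroup.centralizer (S : Set G))
        (fun S => Subgroup.centralizer
          ((S.subgroupOf D).map (D'.subtype.comp φ.toMonoidHom) : Set G')) I ε

/-- The main result. `B = block 𝔪 χ` is the block of `χ ∈ Irr G`, `b = block 𝔪 ζ` is the block of
`ζ ∈ Irr (C_G(D))`, `T = inertia 𝔪 D ζ`. -/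
theorem result (G : Type) [Group G] [Finite G] (p : ℕ) (hp : p.Prime)
    -- a maximal ideal over `p` of the ring of the algebraic integers
    (𝔪 : Ideal AInt) (h𝔪 : 𝔪.IsMaximal) (hp𝔪 : (p : AInt) ∈ 𝔪)
    (χ : G → ℂ) (hχ : χ ∈ Irr G)
    -- `D` is an abelian defect group of `B`, `b` is a block of its centralizer with `b^G = B`
    (D : Subgroup G) (hab : ∀ a ∈ D, ∀ b ∈ D, a * b = b * a)
    (hD : Nat.card D = p ^ defect p (block 𝔪 χ))
    (ζ : Subgroup.centralizer (D : Set G) → ℂ)
    (hζ : ζ ∈ Irr (Subgroup.centralizer (D : Set G)))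
    (hind : Induces 𝔪 (Subgroup.centralizer (D : Set G)) ζ χ)
    -- `e = |E|`
    (e : ℕ) (he : Nat.card (inertia 𝔪 D ζ) = e * Nat.card (Subgroup.centralizer (D : Set G)))
    -- `E` is abelian, `D` is generated by elements with at most `n` conjugates, and `n` is two or three and
    -- `p > n (n + 3)`, or `n = 2`, `p` is odd and the canonical character of `b` extends to `T`
    (hE : AbelianE 𝔪 D ζ) (n : ℕ) (hS : SmallOrbits 𝔪 D ζ n)
    (hn : ((n = 2 ∨ n = 3) ∧ n * (n + 3) < p) ∨ (n = 2 ∧ p ≠ 2 ∧ Extends 𝔪 D ζ)) :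
    -- `l(B) m ^ 2 = e`
    (∃ m : ℕ, ell p (block 𝔪 χ) * m ^ 2 = e) ∧
    -- `l(B) = e`, `k(B) = k(D ⋊ E)` if `n = 2` and the canonical character extends
    (n = 2 → Extends 𝔪 D ζ → ell p (block 𝔪 χ) = e ∧
      (block 𝔪 χ).ncard * Nat.card (inertia 𝔪 D ζ) *
          Nat.card (Subgroup.centralizer (D : Set G)) =
        ∑ᶠ x : D, Nat.card {g : G // g ∈ inertia 𝔪 D ζ ∧ g * x = x * g} ^ 2) ∧
    -- `l(B) = l(c)`, `k(B) = k(c)`
    (∀ ψ ∈ Irr (Subgroup.normalizer (D : Set G)),
      Induces 𝔪 ((Subgroup.centralizer (D : Set G)).subgroupOf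
        (Subgroup.normalizer (D : Set G))) (fun y => ζ ⟨y.1.1, y.2⟩) ψ →
      ell p (block 𝔪 χ) = ell p (block 𝔪 ψ) ∧ (block 𝔪 χ).ncard = (block 𝔪 ψ).ncard) ∧
    -- if `l(B) = e` then `B` is isotypic to `c` and to all the blocks with the same `D`, action of `E` and `l`
    (ell p (block 𝔪 χ) = e → IsotypicCorr G p 𝔪 χ D ζ ∧ IsotypicAll G p 𝔪 χ D ζ n) := by
  -- the squares are in the centralizer if `n = 2`
  have hsq : n = 2 → ∀ g ∈ inertia 𝔪 D ζ, g * g ∈ Subgroup.centralizer (D : Set G) :=
    fun h => Pool.Agent.Eab.sq_of G 𝔪 D ζ (h ▸ hS)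
  have hp2 : p ≠ 2 := by
    rcases hn with ⟨h, h'⟩ | ⟨-, h, -⟩
    · rintro rfl
      rcases h with rfl | rfl <;> omega
    · exact h
  have hX : n = 2 → Extends 𝔪 D ζ → Pool.Agent.BrZ.ConK G p 𝔪 χ D ζ ∧ ConBrI G p 𝔪 χ D ζ ∧
      Pool.Agent.Eab.ConAllX G p 𝔪 χ D ζ := fun h h' =>
    Pool.Agent.Eab.e2_main G p hp 𝔪 h𝔪 hp𝔪 χ hχ D hab hD ζ hζ hind hp2 (hsq h) h'
  have hC : 0 < Nat.card (Subgroup.centralizer (D : Set G)) := Nat.card_pos
  have hl : n = 2 → Extends 𝔪 D ζ → ell p (block 𝔪 χ) = e := fun h h' =>
    Nat.eq_of_mul_eq_mul_right hC ((hX h h').1.1.trans he)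
  by_cases hp' : n * (n + 3) < p
  · obtain ⟨h1, h2, h3⟩ := Pool.Agent.ETw.tss_main G p hp 𝔪 h𝔪 hp𝔪 χ hχ D hab hD ζ hζ hind e he hE n
      (by rcases hn with ⟨h, -⟩ | ⟨h, -⟩ <;> omega) (by rcases hn with ⟨h, -⟩ | ⟨h, -⟩ <;> omega)
      hp' hS
    refine ⟨h1, fun h h' => ⟨hl h h', (hX h h').1.2.1⟩, h2, fun hl => ⟨(h3 hl).1, ?_⟩⟩
    intro G' _ _ χ' hχ' hl' D' hD' ζ' hζ' hi' _
    exact (h3 hl).2 G' χ' hχ' (hl'.trans hl) D' hD' ζ' hζ' hi'
  · obtain ⟨hn2, -, hext⟩ := hn.resolve_left fun h => hp' h.2
    obtain ⟨h1, h2, h3⟩ := hX hn2 hext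
    refine ⟨⟨1, by rw [hl hn2 hext]; ring⟩, fun h h' => ⟨hl h h', h1.2.1⟩, h1.2.2.2,
      fun _ => ⟨h2, ?_⟩⟩
    intro G' _ _ χ' hχ' _ D' hD' ζ' hζ' hi' hx
    exact h3 G' χ' hχ' D' hD' ζ' hζ' hi' (hx (not_lt.1 hp'))

end Pool.Agent.Variants.ThreeConjugatesE2
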