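import Mathlib
import Pool.Agent.TwinForm99.CubicMap

/-!
# Twin prime form problem: all representations in multiples of a power of 3 exceeding `log (6n)`

Put `6n = φ^e(3)`, where `φ t = t^3 - 3t` (so `6n` is the Lucas number of index `2 * 3^e`).
Every prime divisor of `6n - 1` and of `6n + 1` is `± 1` modulo `3^(e+1)`, and `log (6n) < 3^e`.
-/

set_option autoImplicit false

namespace Pool.Agent.Variants.ThreePowerBeyondLog

open Function Pool.Agent.TwinForm99

theorem phi_succ_le (t : ℤ) (ht : 3 ≤ t) : t + 1 ≤ phi t := by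
  unfold phi
  nlinarith [mul_nonneg (by linarith : (0 : ℤ) ≤ t - 3) (by linarith : (0 : ℤ) ≤ t),
    mul_nonneg (mul_nonneg (by linarith : (0 : ℤ) ≤ t - 3) (by linarith : (0 : ℤ) ≤ t))
      (by linarith : (0 : ℤ) ≤ t + 3)]

theorem iter_grow (e : ℕ) : (18 : ℤ) + e ≤ phi^[e] 18 := by
  induction e with
  | zero => simp
  | succ e ih =>
    rw [Function.iterate_succ_apply']
    have h1 : (3 : ℤ) ≤ phi^[e] 18 := by linarith [Int.natCast_nonneg e]
    have := phi_succ_le _ h1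
    push_cast
    linarith

/-- `φ^(e+1)(3) < exp (3^(e+1))` -/
theorem iter_lt_exp (e : ℕ) : ((phi^[e] (18 : ℤ) : ℤ) : ℝ) < Real.exp (3 ^ (e + 1)) := by
  induction e with
  | zero =>
    have h1 := Real.exp_one_gt_d9
    have h2 : Real.exp (3 ^ (0 + 1)) = Real.exp 1 ^ 3 := by
      rw [← Real.exp_nat_mul]; norm_num
    rw [h2]
    have h3 : (2.7182818283 : ℝ) ^ 3 < Real.exp 1 ^ 3 := by
      apply pow_lt_pow_left₀ h1 (by norm_num) (by norm_num)
    refine lt_trans ?_ h3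
    norm_num
  | succ e ih =>
    rw [Function.iterate_succ_apply']
    have h0 : (0 : ℤ) < phi^[e] 18 := by
      have := iter_grow e
      linarith [Int.natCast_nonneg e]
    set v : ℤ := phi^[e] 18 with hv
    have h1 : ((phi v : ℤ) : ℝ) < (v : ℝ) ^ 3 := by
      unfold phi
      push_cast
      have : (0 : ℝ) < v := by exact_mod_cast h0
      linarith
    have h2 : (v : ℝ) ^ 3 < Real.exp (3 ^ (e + 1)) ^ 3 := by
      apply pow_lt_pow_left₀ ih (by exact_mod_cast h0.le) (by norm_num)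
    have h3 : Real.exp (3 ^ (e + 1)) ^ 3 = Real.exp (3 ^ (e + 1 + 1)) := by
      rw [← Real.exp_nat_mul]; congr 1; push_cast; ring
    rw [← h3]
    exact h1.trans h2

theorem result :
    Set.Infinite {n : ℕ | 0 < n ∧ ∃ e : ℕ, Real.log (6 * (n : ℝ)) < 3 ^ e ∧
      ∀ x y : ℤ, 1 ≤ x → 1 ≤ y →
        ((n : ℤ) = 6 * x * y + x + y ∨ (n : ℤ) = 6 * x * y + x - y ∨
         (n : ℤ) = 6 * x * y - x + y ∨ (n : ℤ) = 6 * x * y - x - y) →
        ((3 : ℤ) ^ e ∣ x ∧ (3 : ℤ) ^ e ∣ y)} := by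
  rw [Set.infinite_iff_exists_gt]
  intro a
  set E : ℕ := 6 * a with hE
  have h18 : phi (3 : ℤ) = 18 := by norm_num [phi]
  have hit : phi^[E + 1] (3 : ℤ) = phi^[E] 18 := by
    rw [Function.iterate_succ_apply, h18]
  obtain ⟨k, hk⟩ : (6 : ℤ) ∣ phi^[E] 18 := phi_dvd 6 18 (by norm_num) E
  have hgrow := iter_grow E
  have hk1 : (a : ℤ) + 1 ≤ k := by
    rw [hk] at hgrow
    have : ((E : ℕ) : ℤ) = 6 * a := by rw [hE]; push_cast; ring
    rw [this] at hgrow
    linarith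
  obtain ⟨n, rfl⟩ := Int.eq_ofNat_of_zero_le (by linarith [Int.natCast_nonneg a] : (0 : ℤ) ≤ k)
  have hn0 : 0 < n := by
    have : (0 : ℤ) < n := by linarith [Int.natCast_nonneg a]
    exact_mod_cast this
  refine ⟨n, ⟨hn0, E + 1, ?_, ?_⟩, ?_⟩
  · have h1 := iter_lt_exp E
    rw [hk] at h1
    push_cast at h1
    rw [Real.log_lt_iff_lt_exp (by positivity)]
    exact h1
  · have main : ∀ (y τ c σ : ℤ), 1 ≤ y → (τ = 1 ∨ τ = -1) → (σ = 1 ∨ σ = -1) →
        6 * (n : ℤ) + σ = (6 * y + τ) * c → (3 : ℤ) ^ (E + 1) ∣ y := by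
      intro y τ c σ hy hτ hσ heq
      have hdpos : 0 < 6 * y + τ := by rcases hτ with rfl | rfl <;> linarith
      have hdvd : (6 * y + τ) ∣ phi^[E + 1] (3 : ℤ) + σ := by
        rw [hit, hk]; exact ⟨c, heq⟩
      exact three_pow_dvd_of (E + 1) y τ hτ
        (dvd_key (E + 1) 3 (by norm_num) σ hσ _ hdpos hdvd)
    intro x y hx hy hrep
    rcases hrep with h | h | h | h
    · exact ⟨main x 1 (6 * y + 1) 1 hx (Or.inl rfl) (Or.inl rfl) (by rw [h]; ring),
        main y 1 (6 * x + 1) 1 hy (Or.inl rfl) (Or.inl rfl) (by rw [h]; ring)⟩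
    · exact ⟨main x (-1) (6 * y + 1) (-1) hx (Or.inr rfl) (Or.inr rfl) (by rw [h]; ring),
        main y 1 (6 * x - 1) (-1) hy (Or.inl rfl) (Or.inr rfl) (by rw [h]; ring)⟩
    · exact ⟨main x 1 (6 * y - 1) (-1) hx (Or.inl rfl) (Or.inr rfl) (by rw [h]; ring),
        main y (-1) (6 * x + 1) (-1) hy (Or.inr rfl) (Or.inr rfl) (by rw [h]; ring)⟩
    · exact ⟨main x (-1) (6 * y - 1) 1 hx (Or.inr rfl) (Or.inl rfl) (by rw [h]; ring),
        main y (-1) (6 * x - 1) 1 hy (Or.inr rfl) (Or.inl rfl) (by rw [h]; ring)⟩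
  · have : (a : ℤ) < n := by linarith
    exact_mod_cast this

end Pool.Agent.Variants.ThreePowerBeyondLog
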