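import Pool.Agent.TC.Fin2

/-!
# The single random current percolates above twice the critical inverse temperature

For every dimension `d` and every `β > 2 β_c(d)` the single sourceless random current on `ℤ^d` (limit of the
boxes `[-L, L]^d` with free boundary conditions) has an infinite cluster at the origin with positive probability.

Idea: on every finite graph the single current with couplings `2 J` joins `u` and `x` with probability at least
`⟨σ_u σ_x⟩_J ⟨σ_u σ_x⟩_{2J}`.  Three currents `a, b, c` with couplings `J`, `a` and `b + c` sourceless: the event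
that `a + b` separates `u` and `x` is computed by the switching lemma, and it is compared with the event that
`b + c` separates them by exploring the cluster `Q` of `x` in `b + c` and then the cluster `P` of `u` in `a + b`
outside `Q`; Griffiths' inequalities (monotonicity in the couplings and in the domain, and the product form) show
that the sum over `Q` is at most the corresponding term for `a + b`.  Long range order of the free Ising state
above `β_c` is proved as well (convexity of the pressure and Lebowitz' inequality).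
-/

set_option autoImplicit false

open Filter MeasureTheory

namespace Pool.Agent.Results.MP_a85618_pr.TwiceCritical

/-- Vertices of the lattice `ℤ^d`. -/
abbrev Vertex (d : ℕ) := Fin d → ℤ

/-- Nearest-neighbour edges of `ℤ^d`: the pair `(v, i)` stands for the edge joining `v` and `v + e_i`, so that
every edge is listed exactly once. -/
abbrev Edge (d : ℕ) := (Fin d → ℤ) × Fin d

/-- The endpoint `v + e_i` of the edge `(v, i)`; the other endpoint is `v`. -/
def head {d : ℕ} (e : Edge d) : Vertex d := e.1 + Pi.single e.2 1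

/-- The vertices of the box `[-L, L]^d`. -/
noncomputable def box (d L : ℕ) : Finset (Vertex d) :=
  Finset.Icc (fun _ : Fin d => -(L : ℤ)) (fun _ : Fin d => (L : ℤ))

open Classical in
/-- The edges with both endpoints in the box `[-L, L]^d`. -/
noncomputable def boxEdges (d L : ℕ) : Finset (Edge d) :=
  (box d L ×ˢ (Finset.univ : Finset (Fin d))).filter (fun e => head e ∈ box d L)

open Classical in
/-- Extension by zero of a current on the finite edge set `E` to all edges. -/
noncomputable def extend {d : ℕ} (E : Finset (Edge d)) (n : E → ℕ) : Edge d → ℕ :=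
  fun e => if h : e ∈ E then n ⟨e, h⟩ else 0

open Classical in
/-- The current `n` on `E` has no sources: at every vertex `v` the sum of `n` over the edges of `E` incident
to `v` is even. -/
def Sourceless {d : ℕ} (E : Finset (Edge d)) (n : E → ℕ) : Prop :=
  ∀ v : Vertex d, Even (∑ e : E, if (e : Edge d).1 = v ∨ head (e : Edge d) = v then n e else 0)

/-- The weight `∏_e β^{n_e} / n_e!`. -/
noncomputable def weight {d : ℕ} (β : ℝ) (E : Finset (Edge d)) (n : E → ℕ) : ℝ :=
  ∏ e : E, β ^ n e / (n e).factorial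

open Classical in
/-- Probability of the event `B` under the single sourceless random current on `E`: the sum of the weights of
the sourceless currents with extension in `B`, divided by the sum of the weights of all sourceless currents. -/
noncomputable def currentProb {d : ℕ} (β : ℝ) (E : Finset (Edge d)) (B : Set (Edge d → ℕ)) : ℝ :=
  (∑' n : E → ℕ, if Sourceless E n ∧ extend E n ∈ B then weight β E n else 0) /
    (∑' n : E → ℕ, if Sourceless E n then weight β E n else 0)

/-- `u` and `v` are joined by a path of edges in the trace `{e | 0 < n e}`. -/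
def Joined {d : ℕ} (n : Edge d → ℕ) : Vertex d → Vertex d → Prop :=
  Relation.ReflTransGen (fun u v => ∃ e : Edge d, 0 < n e ∧
    ((e.1 = u ∧ head e = v) ∨ (e.1 = v ∧ head e = u)))

/-- The event `0 ↔ ∞`: the cluster of the origin in the trace is infinite. -/
def OriginToInfinity (d : ℕ) : Set (Edge d → ℕ) := {n | {v : Vertex d | Joined n 0 v}.Infinite}

/-- The spin at `v` when `T` is the set of minus spins. -/
noncomputable def spinAt {d : ℕ} (T : Finset (Vertex d)) (v : Vertex d) : ℝ :=
  if v ∈ T then -1 else 1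

/-- Expectation of the spin at the origin in the Ising model on the box `[-L, L]^d` at inverse temperature `β` with
plus boundary conditions: `T` runs over the sets of minus spins in the box, all spins outside the box are plus, and
the energy is the sum over the nearest-neighbour edges of the box `[-(L+1), L+1]^d` (the edges which do not meet
`[-L, L]^d` only give a constant factor). -/
noncomputable def plusMag (d : ℕ) (β : ℝ) (L : ℕ) : ℝ :=
  (∑ T ∈ (box d L).powerset,
      spinAt T 0 * Real.exp (β * ∑ e ∈ boxEdges d (L + 1), spinAt T e.1 * spinAt T (head e))) /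
    (∑ T ∈ (box d L).powerset,
      Real.exp (β * ∑ e ∈ boxEdges d (L + 1), spinAt T e.1 * spinAt T (head e)))

/-- The spontaneous magnetisation `m*(β)`, the limit (decreasing in `L`) of the magnetisations at the origin with
plus boundary conditions. -/
noncomputable def spontMag (d : ℕ) (β : ℝ) : ℝ := ⨅ L : ℕ, plusMag d β L

theorem boxEdges_eq (d L : ℕ) : boxEdges d L = Pool.Agent.SRC.boxE d L := by
  ext e
  have h : e ∈ Pool.Agent.SRC.boxE d L ↔ e.1 ∈ Finset.Icc (fun _ : Fin d => -(L : ℤ)) (fun _ => (L : ℤ)) ∧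
      Pool.Agent.SRC.tip e ∈ Finset.Icc (fun _ : Fin d => -(L : ℤ)) (fun _ => (L : ℤ)) :=
    Pool.Agent.SRC.mem_edg _ e
  rw [h]
  unfold boxEdges box
  rw [Finset.mem_filter, Finset.mem_product]
  constructor
  · rintro ⟨⟨h1, _⟩, h2⟩
    exact ⟨h1, h2⟩
  · rintro ⟨h1, h2⟩
    exact ⟨⟨h1, Finset.mem_univ _⟩, h2⟩

theorem extend_eq {d : ℕ} (E : Finset (Edge d)) (n : E → ℕ) :
    extend E n = Pool.Agent.SRC.ext E n := by
  funext e
  unfold extend Pool.Agent.SRC.ext
  by_cases h : e ∈ E <;> simp [h]

theorem sourceless_iff {d : ℕ} (E : Finset (Edge d)) (n : E → ℕ) :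
    Sourceless E n ↔ Pool.Agent.SRC.srcless E n := by
  unfold Sourceless Pool.Agent.SRC.srcless
  refine forall_congr' (fun v => ?_)
  have h : (∑ e : E, if (e : Edge d).1 = v ∨ head (e : Edge d) = v then n e else 0) =
      ∑ e : E, if (e : Edge d).1 = v ∨ Pool.Agent.SRC.tip (e : Edge d) = v then n e else 0 := by
    refine Finset.sum_congr rfl (fun e _ => ?_)
    have h1 : head (e : Edge d) = Pool.Agent.SRC.tip (e : Edge d) := rfl
    by_cases h2 : (e : Edge d).1 = v ∨ head (e : Edge d) = v
    · rw [if_pos h2, if_pos (by rw [← h1]; exact h2)]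
    · rw [if_neg h2, if_neg (by rw [← h1]; exact h2)]
  rw [h]

theorem currentProb_eq {d : ℕ} (β : ℝ) (E : Finset (Edge d)) (B : Set (Edge d → ℕ)) :
    currentProb β E B = Pool.Agent.SRC.curP β E B := by
  unfold currentProb Pool.Agent.SRC.curP Pool.Agent.SRC.cS
  congr 1
  · refine tsum_congr (fun n => ?_)
    show _ = Pool.Agent.SRC.ind (Pool.Agent.SRC.srcless E n) * Pool.Agent.SRC.cwt β E n *
      Pool.Agent.SRC.ind (Pool.Agent.SRC.ext E n ∈ B)
    rw [← extend_eq]
    by_cases h1 : Sourceless E n
    · by_cases h2 : extend E n ∈ B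
      · rw [if_pos ⟨h1, h2⟩, Pool.Agent.SRC.ind_true ((sourceless_iff E n).mp h1),
          Pool.Agent.SRC.ind_true h2]
        unfold weight Pool.Agent.SRC.cwt
        ring
      · rw [if_neg (fun h => h2 h.2), Pool.Agent.SRC.ind_false h2]
        ring
    · rw [if_neg (fun h => h1 h.1), Pool.Agent.SRC.ind_false (fun h => h1 ((sourceless_iff E n).mpr h))]
      ring
  · refine tsum_congr (fun n => ?_)
    by_cases h1 : Sourceless E n
    · rw [if_pos h1, Pool.Agent.SRC.ind_true ((sourceless_iff E n).mp h1)]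
      unfold weight Pool.Agent.SRC.cwt
      ring
    · rw [if_neg h1, Pool.Agent.SRC.ind_false (fun h => h1 ((sourceless_iff E n).mpr h))]
      ring

theorem joined_eq {d : ℕ} (n : Edge d → ℕ) (u v : Vertex d) :
    Joined n u v ↔ Pool.Agent.SRC.conn {e : Pool.Agent.SRC.Ed d | 0 < n e} u v := by
  unfold Joined Pool.Agent.SRC.conn
  have h : (fun u v : Vertex d => ∃ e : Edge d, 0 < n e ∧
      ((e.1 = u ∧ head e = v) ∨ (e.1 = v ∧ head e = u))) =
      Pool.Agent.SRC.adj {e : Pool.Agent.SRC.Ed d | 0 < n e} := by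
    funext u v
    apply propext
    unfold Pool.Agent.SRC.adj
    constructor
    · rintro ⟨e, h1, h2 | h2⟩
      · refine ⟨e.2, Or.inl ⟨?_, ?_⟩⟩
        · have : (u, e.2) = e := by rw [← h2.1]
          rw [this]; exact h1
        · rw [← h2.2, ← h2.1]; rfl
      · refine ⟨e.2, Or.inr ⟨?_, ?_⟩⟩
        · have : (v, e.2) = e := by rw [← h2.1]
          rw [this]; exact h1
        · rw [← h2.2, ← h2.1]; rfl
    · rintro ⟨i, h1 | h1⟩
      · exact ⟨(u, i), h1.1, Or.inl ⟨rfl, h1.2.symm⟩⟩
      · exact ⟨(v, i), h1.1, Or.inr ⟨rfl, h1.2.symm⟩⟩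
  rw [h]

theorem box_eq (d L : ℕ) : Pool.Agent.SRC.boxE d L = Pool.Agent.SRC.edg (box d L) := rfl

theorem etg_sub (d L : ℕ) : Pool.Agent.TC.etg (box d L) ⊆ boxEdges d (L + 1) := by
  intro e he
  have hbox : ∀ (p : Vertex d) (i : Fin d), p ∈ box d L → p ∈ box d (L + 1) ∧
      p + Pool.Agent.SRC.uv i ∈ box d (L + 1) ∧ p - Pool.Agent.SRC.uv i ∈ box d (L + 1) := by
    intro p i hp
    unfold box at hp ⊢
    rw [Finset.mem_Icc] at hp
    have h2 : ∀ j, (0 : ℤ) ≤ (Pool.Agent.SRC.uv i : Vertex d) j ∧
        (Pool.Agent.SRC.uv i : Vertex d) j ≤ 1 := by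
      intro j
      unfold Pool.Agent.SRC.uv
      rw [Pi.single_apply]
      split_ifs
      · exact ⟨zero_le_one, le_rfl⟩
      · exact ⟨le_rfl, zero_le_one⟩
    have h3 : ∀ j, -(L : ℤ) ≤ p j ∧ p j ≤ L := fun j => ⟨hp.1 j, hp.2 j⟩
    rw [Finset.mem_Icc, Finset.mem_Icc, Finset.mem_Icc]
    refine ⟨⟨fun j => ?_, fun j => ?_⟩, ⟨fun j => ?_, fun j => ?_⟩, fun j => ?_, fun j => ?_⟩ <;>
    · have h4 := h2 j
      have h5 := h3 j
      simp only [Pi.add_apply, Pi.sub_apply]
      push_cast
      linarith [h4.1, h4.2, h5.1, h5.2]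
  unfold Pool.Agent.TC.etg at he
  rw [Finset.mem_union, Finset.mem_product, Finset.mem_image] at he
  rw [boxEdges_eq, box_eq, Pool.Agent.SRC.mem_edg]
  rcases he with ⟨h1, -⟩ | ⟨p, hp, rfl⟩
  · exact ⟨(hbox e.1 e.2 h1).1, (hbox e.1 e.2 h1).2.1⟩
  · rw [Finset.mem_product] at hp
    refine ⟨(hbox p.1 p.2 hp.1).2.2, ?_⟩
    have h1 : Pool.Agent.SRC.tip ((p.1 - Pool.Agent.SRC.uv p.2, p.2) : Edge d) = p.1 := by
      unfold Pool.Agent.SRC.tip
      exact sub_add_cancel _ _
    rw [h1]
    exact (hbox p.1 p.2 hp.1).1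

theorem plusMag_eq (d : ℕ) (β : ℝ) (L : ℕ) :
    plusMag d β L = Pool.Agent.TC.mp (box d L) β 0 := by
  classical
  have hs : ∀ (T : Finset (Vertex d)) (v : Vertex d), spinAt T v = Pool.Agent.TC.spin T v := by
    intro T v
    unfold spinAt Pool.Agent.TC.spin
    congr
  have key : ∀ T ∈ (box d L).powerset,
      ∑ e ∈ boxEdges d (L + 1), spinAt T e.1 * spinAt T (head e) =
        ((boxEdges d (L + 1) \ Pool.Agent.TC.etg (box d L)).card : ℝ) +
          ∑ e ∈ Pool.Agent.TC.etg (box d L), Pool.Agent.TC.bond e T := by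
    intro T hT
    rw [← Finset.sum_sdiff (etg_sub d L)]
    congr 1
    · have h1 : ∀ e ∈ boxEdges d (L + 1) \ Pool.Agent.TC.etg (box d L),
          spinAt T e.1 * spinAt T (head e) = 1 := by
        intro e he
        rw [Finset.mem_sdiff] at he
        have h2 : e.1 ∉ box d L := fun h3 => he.2 (by
          unfold Pool.Agent.TC.etg
          rw [Finset.mem_union, Finset.mem_product]
          exact Or.inl ⟨h3, Finset.mem_univ _⟩)
        have h4 : head e ∉ box d L := fun h3 => he.2 (by
          unfold Pool.Agent.TC.etg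
          rw [Finset.mem_union, Finset.mem_image]
          refine Or.inr ⟨(head e, e.2), ?_, ?_⟩
          · rw [Finset.mem_product]
            exact ⟨h3, Finset.mem_univ _⟩
          · refine Prod.ext ?_ rfl
            show head e - Pool.Agent.SRC.uv e.2 = e.1
            unfold head Pool.Agent.SRC.uv
            exact add_sub_cancel_right _ _)
        have h5 : e.1 ∉ T := fun h => h2 (Finset.mem_powerset.1 hT h)
        have h6 : head e ∉ T := fun h => h4 (Finset.mem_powerset.1 hT h)
        unfold spinAt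
        rw [if_neg h5, if_neg h6, mul_one]
      rw [Finset.sum_congr rfl h1, Finset.sum_const, nsmul_eq_mul, mul_one]
  unfold plusMag Pool.Agent.TC.mp Pool.Agent.TC.av Pool.Agent.TC.GI
  set K : ℝ := ((boxEdges d (L + 1) \ Pool.Agent.TC.etg (box d L)).card : ℝ) with hK
  have h1 : ∀ T ∈ (box d L).powerset,
      Real.exp (β * ∑ e ∈ boxEdges d (L + 1), spinAt T e.1 * spinAt T (head e)) =
        Real.exp (β * K) * Real.exp (β * ∑ e ∈ Pool.Agent.TC.etg (box d L),
          Pool.Agent.TC.bond e T) := by
    intro T hT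
    rw [key T hT, mul_add, Real.exp_add]
  have h2 : (∑ T ∈ (box d L).powerset, spinAt T 0 *
      Real.exp (β * ∑ e ∈ boxEdges d (L + 1), spinAt T e.1 * spinAt T (head e))) =
      Real.exp (β * K) * ∑ T ∈ (box d L).powerset, Pool.Agent.TC.spin T 0 *
        Real.exp (β * ∑ e ∈ Pool.Agent.TC.etg (box d L), Pool.Agent.TC.bond e T) := by
    rw [Finset.mul_sum]
    refine Finset.sum_congr rfl fun T hT => ?_
    rw [h1 T hT, hs]
    ring
  have h3 : (∑ T ∈ (box d L).powerset,
      Real.exp (β * ∑ e ∈ boxEdges d (L + 1), spinAt T e.1 * spinAt T (head e))) =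
      Real.exp (β * K) * ∑ T ∈ (box d L).powerset, 1 *
        Real.exp (β * ∑ e ∈ Pool.Agent.TC.etg (box d L), Pool.Agent.TC.bond e T) := by
    rw [Finset.mul_sum]
    refine Finset.sum_congr rfl fun T hT => ?_
    rw [h1 T hT]
    ring
  rw [h2, h3, mul_div_mul_left _ _ (Real.exp_pos _).ne']

theorem plusMag_nonneg (d : ℕ) (β : ℝ) (hβ : 0 ≤ β) (L : ℕ) : 0 ≤ plusMag d β L := by
  rw [plusMag_eq]
  have h0 : (0 : Vertex d) ∈ box d L := by
    unfold box
    rw [Finset.mem_Icc]
    exact ⟨fun j => by
      show -(L : ℤ) ≤ 0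
      omega, fun j => by
      show (0 : ℤ) ≤ L
      omega⟩
  exact (Pool.Agent.TC.mp_mul_le (box d L) β hβ 0 0 h0 h0).1

/-- For every `d ≥ 1` and all `0 ≤ β₀`, `β` with `m*(β₀) > 0` and `β > 2 β₀` (that is, for every
`β > 2 β_c(d)`, where `β_c(d)` is the infimum of the `β₀` with positive spontaneous magnetisation): the single
sourceless random current measures on the boxes `[-L, L]^d` (free boundary conditions, inverse temperature `β`)
converge, as `L → ∞`, in the sense of all cylinder probabilities, to a probability measure `μ` on currents on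
`ℤ^d`, and under `μ` the origin is in an infinite cluster of the trace with positive probability. -/
theorem result :
    ∀ d : ℕ, 1 ≤ d → ∀ β₀ β : ℝ, 0 ≤ β₀ → 0 < spontMag d β₀ → 2 * β₀ < β →
      ∃ μ : Measure (Edge d → ℕ), IsProbabilityMeasure μ ∧
        (∀ (F : Finset (Edge d)) (k : Edge d → ℕ),
          Tendsto (fun L : ℕ => currentProb β (boxEdges d L) {n | ∀ e ∈ F, n e = k e}) atTop
            (nhds (μ.real {n | ∀ e ∈ F, n e = k e}))) ∧
        0 < μ (OriginToInfinity d) := by
  intro d hd β₀ β h0 hmag hβ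
  have hm : ∀ L : ℕ, spontMag d β₀ ≤ Pool.Agent.TC.mp (Finset.Icc (fun _ : Fin d => -(L : ℤ))
      (fun _ => (L : ℤ))) β₀ 0 := by
    intro L
    have h1 : spontMag d β₀ ≤ plusMag d β₀ L :=
      ciInf_le ⟨0, by rintro _ ⟨L', rfl⟩; exact plusMag_nonneg d β₀ h0 L'⟩ L
    rw [plusMag_eq] at h1
    exact h1
  obtain ⟨μ, h1, h2, h3⟩ := Pool.Agent.TC.main2 hd β₀ β (spontMag d β₀) h0 hβ hmag hm
  refine ⟨μ, h1, fun F k => ?_, ?_⟩
  · have h4 := h2 F k
    simp only [currentProb_eq, boxEdges_eq]
    exact h4
  · unfold OriginToInfinity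
    simp only [joined_eq]
    exact h3

end Pool.Agent.Results.MP_a85618_pr.TwiceCritical
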