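import Pool.Agent.URing.Fin

/-!
# Blocks with abelian defect groups of the unit groups of finite rings

Let `S` be a finite ring (associative, with 1, not necessarily commutative), `ℓ` a prime number
not dividing `|S|`, and `Λ` a complete noetherian local domain of characteristic 0 with residue
characteristic `ℓ` which contains a primitive root of unity of order `|S|`.  Let `b` be a block of
`Λ Sˣ` with an abelian defect group `D`, and `c` its Brauer correspondent, a block of `Λ N(D)`.

We prove that there are finite fields `F_i` and natural numbers `n_i` such that the order of
`∏ M_(n_i)(F_i)` divides `|S|`, and a block `b'` of the group `G' = ∏ GL_(n_i)(F_i)` with a defect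
group `D'` isomorphic to `D` and Brauer correspondent `c'`, such that `Λ Sˣ b` and `Λ G' b'` are
Morita equivalent, and `Λ N(D) c` and `Λ N(D') c'` are Morita equivalent.

So Broué's abelian defect group conjecture for the products of general linear groups over finite
fields in nondescribing characteristic (a theorem of Chuang and Rouquier) implies the conjecture
for the unit groups of all finite rings of order prime to `ℓ`: for the groups `GL_n(ℤ/m)` and
`GL_n` of all finite commutative rings, for the automorphism groups of all finite abelian groups,
the groups of automorphisms of finite modules, centralisers of subsets in `GL_n(q)`, the parabolic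
subgroups of `GL_n(q)`, and so on.

The proof is an induction over the ring.  Let `J` be the radical, and `χ` a linear character of
`1 + I` under `b`, `I` an ideal in `J`.  The stabiliser of `χ` is the unit group of the subring of
all `s` with `χ(1 + s y) = χ(1 + y s)` for `y` in `I`; so Clifford theory leads to a smaller ring,
unless `χ` is invariant.  An invariant character of `1 + J` extends to `Sˣ` (a form of the
vanishing of `K_2` of finite fields), and then `b` is a block of `(S / J)ˣ`.  Otherwise one reaches
an ideal `B` with `μ` on `1 + B` invariant such that the commutator form on `J / B` is anisotropic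
(no isotropic ideal).  Then the elements of a simple component of `J / B` satisfy `v c = c^(q_0) v`
for the scalars `c` of a field with `q_0^2` elements, and there is a subring `T` such that
`Sˣ = (1 + I) Tˣ`, and `Tˣ` has a central element acting on `I / B` as a primitive
`(q_0 + 1)`-th root of unity.  The unitary Weil representation of `Tˣ`, constructed over `Λ`
without any condition on `q_0` and `ℓ` (the Gauss sums which occur are powers of `- q_0`), gives a
Morita equivalence between the blocks over `μ` of `Sˣ` and of `Tˣ`.  All steps are compatible with
the Brauer homomorphisms of all `ℓ`-subgroups.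
-/

set_option autoImplicit false

namespace Pool.Agent.Variants.UnitGroups

open Pool.Agent.UBlocks Pool.Agent.URing IsLocalRing

universe u

/-- The main result. -/
theorem result (ℓ : ℕ) (hℓ : ℓ.Prime) (S : Type) [Ring S] [Finite S] (hS : ¬ ℓ ∣ Nat.card S)
    (Λ : Type u) [CommRing Λ] [IsDomain Λ] [CharZero Λ] [IsLocalRing Λ] [IsNoetherianRing Λ]
    [IsAdicComplete (maximalIdeal Λ) Λ] [CharP (ResidueField Λ) ℓ] (ζ : Λ)
    (hζ : IsPrimitiveRoot ζ (Nat.card S)) (τ : Triple ℓ Λ Sˣ) :
    ∃ (r : ℕ) (n : Fin r → ℕ) (F : Fin r → Type) (_ : ∀ i, Field (F i)) (_ : ∀ i, Finite (F i)),
      Nat.card ((i : Fin r) → Matrix (Fin (n i)) (Fin (n i)) (F i)) ∣ Nat.card S ∧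
      ∃ τ' : Triple ℓ Λ ((i : Fin r) → Matrix.GeneralLinearGroup (Fin (n i)) (F i)),
        Rel τ τ' := by
  have : Fact ℓ.Prime := ⟨hℓ⟩
  exact reduction_GL S hS ⟨ζ, hζ⟩ τ

end Pool.Agent.Variants.UnitGroups
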