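import Pool.Agent.OneE.Det
import Pool.Agent.OneE.Expl
import Pool.Agent.OneE.Law
import Pool.Agent.OneE.Meas

/-!
Problem MP_b9fb85_pr, every dimension and every exponent larger than one: the weighted Eden cluster
explodes along one ray, its infection tree has almost surely exactly one end.
-/

set_option autoImplicit false

open MeasureTheory Classical

/-- For every `d ≥ 1` and every `α > 1` the following holds almost surely for the Eden cluster of
`ℤ ^ d` with edge weights `|midpoint| ^ α`. Say that the site `y` is infected from the site `x` if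
some chosen edge has the ends `x`, `y`, and before it was chosen `x` was the origin or an end of a
chosen edge, but `y` was not. For every finite set `F` of sites there is a site `z` outside `F` such
that all but finitely many sites of the cluster are reached from `z` by a chain of infections which
avoids `F`. -/
theorem Pool.Agent.Variants.WeightedEdenOneEnd.result :
    ∀ d : ℕ, 1 ≤ d → ∀ α : ℝ, 1 < α →
    ∀ (Ω : Type) [MeasurableSpace Ω] (P : Measure Ω), IsProbabilityMeasure P →
    ∀ e : ℕ → Ω → (Fin d → ℤ) × Fin d,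
      (∀ (n : ℕ) (f : (Fin d → ℤ) × Fin d), MeasurableSet {ω | e n ω = f}) →
      (∀ (n : ℕ) (s : ℕ → (Fin d → ℤ) × Fin d) (f : (Fin d → ℤ) × Fin d),
        P {ω | (∀ i < n, e i ω = s i) ∧ e n ω = f}
          = P {ω | ∀ i < n, e i ω = s i} *
            ENNReal.ofReal
              (if ((∀ i < n, f ≠ s i) ∧
                    (n = 0 → ((0 : Fin d → ℤ) = f.1 ∨ (0 : Fin d → ℤ) = f.1 + Pi.single f.2 1)) ∧
                    (0 < n → ∃ i < n, ∃ p : Fin d → ℤ,
                      (p = f.1 ∨ p = f.1 + Pi.single f.2 1) ∧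
                      (p = (s i).1 ∨ p = (s i).1 + Pi.single (s i).2 1)))
               then
                (Real.sqrt (∑ j : Fin d,
                    ((f.1 j : ℝ) + (if j = f.2 then (1 / 2 : ℝ) else 0)) ^ 2)) ^ α /
                (∑' g : (Fin d → ℤ) × Fin d,
                  if ((∀ i < n, g ≠ s i) ∧
                      (n = 0 → ((0 : Fin d → ℤ) = g.1 ∨ (0 : Fin d → ℤ) = g.1 + Pi.single g.2 1)) ∧
                      (0 < n → ∃ i < n, ∃ p : Fin d → ℤ,
                        (p = g.1 ∨ p = g.1 + Pi.single g.2 1) ∧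
                        (p = (s i).1 ∨ p = (s i).1 + Pi.single (s i).2 1)))
                  then
                    (Real.sqrt (∑ j : Fin d,
                      ((g.1 j : ℝ) + (if j = g.2 then (1 / 2 : ℝ) else 0)) ^ 2)) ^ α
                  else 0)
               else 0)) →
      ∀ᵐ ω ∂P, ∀ F : Finset (Fin d → ℤ), ∃ z : Fin d → ℤ, z ∉ F ∧
        {v : Fin d → ℤ |
          (∃ n, v = (e n ω).1 ∨ v = (e n ω).1 + Pi.single (e n ω).2 1) ∧
          ¬ Relation.ReflTransGen (fun x y : Fin d → ℤ => y ∉ F ∧ ∃ n,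
              (x = (e n ω).1 ∨ x = (e n ω).1 + Pi.single (e n ω).2 1) ∧
              (y = (e n ω).1 ∨ y = (e n ω).1 + Pi.single (e n ω).2 1) ∧
              (x = 0 ∨ ∃ i < n, x = (e i ω).1 ∨ x = (e i ω).1 + Pi.single (e i ω).2 1) ∧
              ¬ (y = 0 ∨ ∃ i < n, y = (e i ω).1 ∨ y = (e i ω).1 + Pi.single (e i ω).2 1))
            z v}.Finite := by
  intro d hd α hα Ω _ P hPr e hem hstep
  have i0 : Fin d := ⟨0, hd⟩
  have hae : ∀ᵐ E ∂(ConeD.PE d), ∀ s : ℕ → ConeD.Edge d,
      (∀ n, ConeD.G (ConeD.tau α E) (ConeD.TRANSAux.lst s n)) →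
      s ∈ {s : ℕ → ConeD.Edge d | OneE.OneEnd s} := by
    filter_upwards [ConeD.ae_pos, OneE.explodes_ae i0 hα, OneE.via_or_avoid (d := d) α]
      with E hpos hex hva s hG
    exact OneE.one_end i0 (fun f => div_pos (hpos f) (Real.rpow_pos_of_pos (ConeD.mid_pos f) α)) hex
      hG (hva hex)
  filter_upwards [OneE.transfer_ae i0 α Ω P hPr e hem hstep _ OneE.measurableSet_oneEnd hae]
    with ω hω F
  have hω' : OneE.OneEnd fun n => e n ω := hω
  obtain ⟨z, hz, hfin⟩ := hω' F
  refine ⟨z, hz, hfin.subset ?_⟩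
  rintro v ⟨⟨n, hn⟩, hv⟩
  refine ⟨⟨n + 1, OneE.ends_subset _ n ((ConeD.TRANSAux.mem_ends _ _).2 hn)⟩, fun h => hv ?_⟩
  have h' : Relation.ReflTransGen (fun x y => OneE.Infects (fun n => e n ω) x y ∧ y ∉ F) z v := h
  have key : ∀ x y : Fin d → ℤ, (OneE.Infects (fun n => e n ω) x y ∧ y ∉ F) → (y ∉ F ∧ ∃ n,
      (x = (e n ω).1 ∨ x = (e n ω).1 + Pi.single (e n ω).2 1) ∧
      (y = (e n ω).1 ∨ y = (e n ω).1 + Pi.single (e n ω).2 1) ∧
      (x = 0 ∨ ∃ i < n, x = (e i ω).1 ∨ x = (e i ω).1 + Pi.single (e i ω).2 1) ∧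
      ¬ (y = 0 ∨ ∃ i < n, y = (e i ω).1 ∨ y = (e i ω).1 + Pi.single (e i ω).2 1)) := by
    rintro x y ⟨⟨m, h1, h2, h3, h4⟩, h5⟩
    rw [ConeD.TRANSAux.mem_ends] at h1 h2
    rw [ConeD.TRANSAux.mem_vs_lst] at h3 h4
    exact ⟨h5, m, h1, h2, h3, h4⟩
  clear h hv hn
  induction h' with
  | refl => exact Relation.ReflTransGen.refl
  | @tail u w _ h2 ih => exact ih.tail (key u w h2)
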