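import Pool.Agent.OneR.Tree

/-!
Problem MP_b9fb85_pr, every dimension and every exponent larger than one: the weighted Eden cluster
has one end and its ray is asymptotically straight.
-/

set_option autoImplicit false

open MeasureTheory Classical

/-- For every `d ≥ 1` and every `α > 1` the following holds almost surely for the Eden cluster of
`ℤ ^ d` with edge weights `|midpoint| ^ α`. Say that the site `y` is infected from the site `x` if
some chosen edge has the ends `x`, `y`, and before it was chosen `x` was the origin or an end of a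
chosen edge, but `y` was not. (1) For every finite set `F` of sites there is a site `z` outside `F`
such that all but finitely many sites of the cluster are reached from `z` by a chain of infections
which avoids `F`. (2) There is a constant `C` such that for all finite sets `I` of natural numbers
and all choices of sites `x k`, `y k` (`k ∈ I`) from each of which infinitely many sites are
reached by chains of infections, and whose norms are between `2 ^ k` and `2 ^ (k + 1)`, the sum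
over `k ∈ I` of `1 - cos (angle between x k and y k)` is at most `C`. -/
theorem Pool.Agent.Variants.WeightedEdenStraightRay.result :
    ∀ d : ℕ, 1 ≤ d → ∀ α : ℝ, 1 < α →
    ∀ (Ω : Type) [MeasurableSpace Ω] (P : Measure Ω), IsProbabilityMeasure P →
    ∀ e : ℕ → Ω → (Fin d → ℤ) × Fin d,
      (∀ (n : ℕ) (f : (Fin d → ℤ) × Fin d), MeasurableSet {ω | e n ω = f}) →
      (∀ (n : ℕ) (s : ℕ → (Fin d → ℤ) × Fin d) (f : (Fin d → ℤ) × Fin d),
        P {ω | (∀ i < n, e i ω = s i) ∧ e n ω = f}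
          = P {ω | ∀ i < n, e i ω = s i} *
            ENNReal.ofReal
              (if ((∀ i < n, f ≠ s i) ∧
                    (n = 0 → ((0 : Fin d → ℤ) = f.1 ∨ (0 : Fin d → ℤ) = f.1 + Pi.single f.2 1)) ∧
                    (0 < n → ∃ i < n, ∃ p : Fin d → ℤ,
                      (p = f.1 ∨ p = f.1 + Pi.single f.2 1) ∧
                      (p = (s i).1 ∨ p = (s i).1 + Pi.single (s i).2 1)))
               then
                (Real.sqrt (∑ j : Fin d,
                    ((f.1 j : ℝ) + (if j = f.2 then (1 / 2 : ℝ) else 0)) ^ 2)) ^ α /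
                (∑' g : (Fin d → ℤ) × Fin d,
                  if ((∀ i < n, g ≠ s i) ∧
                      (n = 0 → ((0 : Fin d → ℤ) = g.1 ∨ (0 : Fin d → ℤ) = g.1 + Pi.single g.2 1)) ∧
                      (0 < n → ∃ i < n, ∃ p : Fin d → ℤ,
                        (p = g.1 ∨ p = g.1 + Pi.single g.2 1) ∧
                        (p = (s i).1 ∨ p = (s i).1 + Pi.single (s i).2 1)))
                  then
                    (Real.sqrt (∑ j : Fin d,
                      ((g.1 j : ℝ) + (if j = g.2 then (1 / 2 : ℝ) else 0)) ^ 2)) ^ α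
                  else 0)
               else 0)) →
      ∀ᵐ ω ∂P,
        (∀ F : Finset (Fin d → ℤ), ∃ z : Fin d → ℤ, z ∉ F ∧
          {v : Fin d → ℤ |
            (∃ n, v = (e n ω).1 ∨ v = (e n ω).1 + Pi.single (e n ω).2 1) ∧
            ¬ Relation.ReflTransGen (fun x y : Fin d → ℤ => y ∉ F ∧ ∃ n,
                (x = (e n ω).1 ∨ x = (e n ω).1 + Pi.single (e n ω).2 1) ∧
                (y = (e n ω).1 ∨ y = (e n ω).1 + Pi.single (e n ω).2 1) ∧
                (x = 0 ∨ ∃ i < n, x = (e i ω).1 ∨ x = (e i ω).1 + Pi.single (e i ω).2 1) ∧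
                ¬ (y = 0 ∨ ∃ i < n, y = (e i ω).1 ∨ y = (e i ω).1 + Pi.single (e i ω).2 1))
              z v}.Finite) ∧
        ∃ C : ℝ, ∀ (I : Finset ℕ) (x y : ℕ → Fin d → ℤ),
          (∀ k ∈ I, ∀ z : Fin d → ℤ, (z = x k ∨ z = y k) →
            {v : Fin d → ℤ |
              Relation.ReflTransGen (fun x y : Fin d → ℤ => ∃ n,
                (x = (e n ω).1 ∨ x = (e n ω).1 + Pi.single (e n ω).2 1) ∧
                (y = (e n ω).1 ∨ y = (e n ω).1 + Pi.single (e n ω).2 1) ∧
                (x = 0 ∨ ∃ i < n, x = (e i ω).1 ∨ x = (e i ω).1 + Pi.single (e i ω).2 1) ∧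
                ¬ (y = 0 ∨ ∃ i < n, y = (e i ω).1 ∨ y = (e i ω).1 + Pi.single (e i ω).2 1))
              z v}.Infinite ∧
            (2 : ℝ) ^ k ≤ Real.sqrt (∑ j : Fin d, (z j : ℝ) ^ 2) ∧
            Real.sqrt (∑ j : Fin d, (z j : ℝ) ^ 2) ≤ (2 : ℝ) ^ (k + 1)) →
          ∑ k ∈ I, (1 - (∑ j : Fin d, (x k j : ℝ) * (y k j : ℝ)) /
            (Real.sqrt (∑ j : Fin d, (x k j : ℝ) ^ 2) * Real.sqrt (∑ j : Fin d, (y k j : ℝ) ^ 2)))
            ≤ C := by
  intro d hd α hα Ω _ P hPr e hem hstep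
  have i0 : Fin d := ⟨0, hd⟩
  have hae : ∀ᵐ E ∂(ConeD.PE d), ∀ s : ℕ → ConeD.Edge d,
      (∀ n, ConeD.G (ConeD.tau α E) (ConeD.TRANSAux.lst s n)) →
      s ∈ {s : ℕ → ConeD.Edge d | OneE.OneEnd s} ∩ {s : ℕ → ConeD.Edge d | OneR.Straight s} := by
    filter_upwards [ConeD.ae_pos, OneE.explodes_ae i0 hα, OneE.via_or_avoid (d := d) α,
      OneR.straight_ae i0 hα] with E hpos hex hva hst s hG
    exact ⟨OneE.one_end i0 (fun f => div_pos (hpos f) (Real.rpow_pos_of_pos (ConeD.mid_pos f) α))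
      hex hG (hva hex), hst s hG⟩
  filter_upwards [OneE.transfer_ae i0 α Ω P hPr e hem hstep _
    (OneE.measurableSet_oneEnd.inter OneR.measurableSet_straight) hae] with ω hω
  obtain ⟨hω1, hω2⟩ := hω
  have hω' : OneE.OneEnd fun n => e n ω := hω1
  have hω'' : OneR.Straight fun n => e n ω := hω2
  have hinf : ∀ x y : Fin d → ℤ, OneE.Infects (fun n => e n ω) x y ↔ ∃ n,
      (x = (e n ω).1 ∨ x = (e n ω).1 + Pi.single (e n ω).2 1) ∧
      (y = (e n ω).1 ∨ y = (e n ω).1 + Pi.single (e n ω).2 1) ∧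
      (x = 0 ∨ ∃ i < n, x = (e i ω).1 ∨ x = (e i ω).1 + Pi.single (e i ω).2 1) ∧
      ¬ (y = 0 ∨ ∃ i < n, y = (e i ω).1 ∨ y = (e i ω).1 + Pi.single (e i ω).2 1) := by
    intro x y
    unfold OneE.Infects
    simp only [ConeD.TRANSAux.mem_ends, ConeD.TRANSAux.mem_vs_lst, ConeD.ev]
  constructor
  · intro F
    obtain ⟨z, hz, hfin⟩ := hω' F
    refine ⟨z, hz, hfin.subset ?_⟩
    rintro v ⟨⟨n, hn⟩, hv⟩
    refine ⟨⟨n + 1, OneE.ends_subset _ n ((ConeD.TRANSAux.mem_ends _ _).2 hn)⟩, fun h => hv ?_⟩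
    have h' : Relation.ReflTransGen (fun x y => OneE.Infects (fun n => e n ω) x y ∧ y ∉ F) z v := h
    exact OneR.rtg_mono (fun x y hxy => ⟨hxy.2, (hinf x y).1 hxy.1⟩) h'
  · obtain ⟨C, hC⟩ := hω''
    refine ⟨C, fun I x y hxy => ?_⟩
    have hdesc : ∀ z : Fin d → ℤ, {v : Fin d → ℤ |
        Relation.ReflTransGen (fun x y : Fin d → ℤ => ∃ n,
          (x = (e n ω).1 ∨ x = (e n ω).1 + Pi.single (e n ω).2 1) ∧
          (y = (e n ω).1 ∨ y = (e n ω).1 + Pi.single (e n ω).2 1) ∧
          (x = 0 ∨ ∃ i < n, x = (e i ω).1 ∨ x = (e i ω).1 + Pi.single (e i ω).2 1) ∧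
          ¬ (y = 0 ∨ ∃ i < n, y = (e i ω).1 ∨ y = (e i ω).1 + Pi.single (e i ω).2 1))
        z v} ⊆ OneE.Desc (fun n => e n ω) z := by
      intro z v hv
      exact OneR.rtg_mono (fun x y h => (hinf x y).2 h) hv
    have h1 := hC I (fun k => x k) (fun k => y k) (fun k => by
      obtain ⟨a1, a2, a3⟩ := hxy k k.2 (x k) (Or.inl rfl)
      obtain ⟨b1, b2, b3⟩ := hxy k k.2 (y k) (Or.inr rfl)
      exact ⟨⟨a1.mono (hdesc _), a2, a3⟩, b1.mono (hdesc _), b2, b3⟩)
    have h2 : ∑ k ∈ I, (1 - (∑ j : Fin d, (x k j : ℝ) * (y k j : ℝ)) /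
            (Real.sqrt (∑ j : Fin d, (x k j : ℝ) ^ 2) * Real.sqrt (∑ j : Fin d, (y k j : ℝ) ^ 2))) =
        ∑ k : I, (1 - ConeD.ip (x k) (y k) / (ConeD.nrm (x k) * ConeD.nrm (y k))) := by
      rw [Finset.sum_coe_sort I (fun k => 1 - ConeD.ip (x k) (y k) /
        (ConeD.nrm (x k) * ConeD.nrm (y k)))]
      rfl
    rw [h2]
    exact h1
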