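import Pool.Agent.UBlocks.Broue3

/-!
# Broué's conjecture: reduction to wreath products of simple groups

Let `ℓ` be a prime number and `q` a prime number, `q ≥ 11`, such that `ℓ` does not divide
`q (q - 1) / 2`; for every `ℓ` there are infinitely many such `q`, for instance all prime numbers
`q ≡ -1` modulo `4 ℓ` with `q ≥ 11`.  Let `G` be a subgroup of a finite simple group `P`, and
`X = PSL_2(q) ≀ P` the regular wreath product.  The group `X` has exactly one normal subgroup
other than `1` and `X`, a direct power of the simple group `PSL_2(q)`.

We prove that Broué's abelian defect group conjecture for (all blocks of) `X` implies Broué's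
conjecture for `G`.  As every finite group is a subgroup of `P = A_n` for all large `n`, Broué's
conjecture for all finite groups is equivalent to the conjecture for the groups `PSL_2(q) ≀ A_n`,
where `q` is one prime number as above (it depends on `ℓ` only) and `n` runs through any infinite
set.

The reason: two different irreducible modules of `S = PSL_2(q)` are induced from linear characters
of a Borel subgroup `B`, whose order is prime to `ℓ`.  The idempotents of the two characters,
distributed over `P` according to the partition of `P` into `G` and its complement, give an
idempotent `ε` of the group algebra of the base group of `X` such that `ε Λ X ε` is isomorphic to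
`Λ G`.  So the blocks of `G` are Morita equivalent to blocks of `X`.  The same construction with
the powers of exponent `|D|` of the two characters applies to the group `N_X(D)`, which is the
semidirect product of the power of `S` indexed by the orbits of `D` on `P` and of `N_P(D)`, and
the two constructions are compatible with the Brauer homomorphism.
-/

set_option autoImplicit false

namespace Pool.Agent.Variants.WreathSimple

open Pool.Agent.MP_a15589_al Pool.Agent.UBlocks IsLocalRing Matrix

open scoped MatrixGroups

universe u

/-- The main result. -/
theorem result (ℓ : ℕ) (hℓ : ℓ.Prime) (q m : ℕ) (hq : q.Prime) (hm : q = 2 * m + 1)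
    (h5 : 5 ≤ m) (hℓm : ¬ ℓ ∣ m * q) (G P : Type) [Group G] [Group P] [Finite P]
    [IsSimpleGroup P] (f : G →* P) (hf : Function.Injective f) :
    OneNormal (RegularWreathProduct PSL(2, ZMod q) P) ∧
      ∀ (Λ : Type u) [CommRing Λ] [IsDomain Λ] [IsLocalRing Λ] [CharP (ResidueField Λ) ℓ]
        (ζ : Λ), IsPrimitiveRoot ζ m →
          Broue ℓ Λ (RegularWreathProduct PSL(2, ZMod q) P) → Broue ℓ Λ G :=
  broue_psl ℓ hℓ q m hq hm h5 hℓm G P f hf

end Pool.Agent.Variants.WreathSimple
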